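import Pool.Agent.Work.MP_6d7bb4_G.InterfaceA

set_option autoImplicit false
set_option linter.unusedSectionVars false

/-! # MP_6d7bb4, soluble groups: block BLT -/

namespace Pool.Agent.Work.MP_6d7bb4.helper94.Sol

open MulAction Tv Ff Ps
open scoped commutatorElement

namespace X_BLTg

variable {V G : Type} [Group G] [MulAction G V]

theorem nm_Cg {x : V} {W : Subgroup G} (hW : Nm (stabilizer G x) W) :
    Nm (stabilizer G x) (Cg x W) := by
  intro a ha c hc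
  rw [mem_Cg] at hc ⊢
  have hcs : c ∈ stabilizer G x := hc.1
  refine ⟨(stabilizer G x).mul_mem ((stabilizer G x).mul_mem ha hcs)
    ((stabilizer G x).inv_mem ha), fun k hk => ?_⟩
  have h1 := hW a⁻¹ ((stabilizer G x).inv_mem ha) k hk
  rw [inv_inv] at h1
  have h2 := hc.2 _ h1
  calc a * c * a⁻¹ * k = a * (c * (a⁻¹ * k * a)) * a⁻¹ := by group
    _ = a * (a⁻¹ * k * a * c) * a⁻¹ := by rw [h2]
    _ = k * (a * c * a⁻¹) := by group

/-- the elements which commute with a family of subgroups modulo `C` -/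
theorem comm_sub (Γ : SimpleGraph V) {x : V} {C : Subgroup G} (hC : Nm (stabilizer G x) C)
    (hCs : C ≤ stabilizer G x) (F : V → Subgroup G)
    (hF : ∀ y, Γ.Adj x y → F y ≤ stabilizer G x) :
    ∃ M : Subgroup G, (∀ g, g ∈ M ↔ g ∈ stabilizer G x ∧
      ∀ y, Γ.Adj x y → ∀ b ∈ F y, g * b * g⁻¹ * b⁻¹ ∈ C) ∧ C ≤ M := by
  refine ⟨{ carrier := {g | g ∈ stabilizer G x ∧
              ∀ y, Γ.Adj x y → ∀ b ∈ F y, g * b * g⁻¹ * b⁻¹ ∈ C}
            one_mem' := ?_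
            mul_mem' := ?_
            inv_mem' := ?_ }, fun _ => Iff.rfl, ?_⟩
  · rintro g k ⟨h1, h2⟩ ⟨h3, h4⟩
    refine ⟨Subgroup.mul_mem _ h1 h3, fun y hy b hb => ?_⟩
    have h5 : g * k * b * (g * k)⁻¹ * b⁻¹ =
        g * (k * b * k⁻¹ * b⁻¹) * g⁻¹ * (g * b * g⁻¹ * b⁻¹) := by group
    rw [h5]
    exact C.mul_mem (hC g h1 _ (h4 y hy b hb)) (h2 y hy b hb)
  · refine ⟨Subgroup.one_mem _, fun y _ b _ => ?_⟩
    have h5 : 1 * b * 1⁻¹ * b⁻¹ = (1 : G) := by group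
    rw [h5]
    exact C.one_mem
  · rintro g ⟨h1, h2⟩
    refine ⟨Subgroup.inv_mem _ h1, fun y hy b hb => ?_⟩
    have h5 : g⁻¹ * b * g⁻¹⁻¹ * b⁻¹ = g⁻¹ * (g * b * g⁻¹ * b⁻¹)⁻¹ * g⁻¹⁻¹ := by group
    rw [h5]
    exact hC _ (Subgroup.inv_mem _ h1) _ (C.inv_mem (h2 y hy b hb))
  · intro c hc
    refine ⟨hCs hc, fun y hy b hb => ?_⟩
    have h5 : c * b * c⁻¹ * b⁻¹ = c * (b * c⁻¹ * b⁻¹) := by group
    rw [h5]
    exact C.mul_mem hc (hC b (hF y hy hb) _ (C.inv_mem hc))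

end X_BLTg

theorem s_BLTg (hBAS : Stmt_BASg) : Stmt_BLTg := by
  intro V G _ _ Γ d p _ W S Z Bm h sy x P Pc bl
  obtain ⟨-, b2, -, -, -, b6⟩ := hBAS V G Γ d p W S Z Bm h sy
  obtain ⟨C, hC⟩ : ∃ C, C = (Cg x (W x) : Subgroup G) := ⟨_, rfl⟩
  obtain ⟨J, hJ⟩ : ∃ J : Subgroup G, J = ⨆ z : {z // Γ.Adj x z}, Bm x z.1 := ⟨_, rfl⟩
  obtain ⟨X, hX⟩ : ∃ X : Subgroup G, X = ⨆ z : {z // Γ.Adj x z}, P z.1 := ⟨_, rfl⟩
  obtain ⟨Xc, hXc⟩ : ∃ Xc : Subgroup G, Xc = ⨆ z : {z // Γ.Adj x z}, Pc z.1 := ⟨_, rfl⟩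
  rw [← hC, ← hJ, ← hX]
  have nW := (b2 x).1
  have nC : Nm (stabilizer G x) C := by
    rw [hC]
    exact X_BLTg.nm_Cg nW
  have Cs : C ≤ stabilizer G x := by
    rw [hC]
    intro g hg
    exact (mem_Cg.mp hg).1
  have hBs : ∀ y, Γ.Adj x y → Bm x y ≤ stabilizer G x := fun y hy =>
    (sy.BQ x y hy).trans (Qe_le_st x y)
  have hPs : ∀ y, Γ.Adj x y → P y ≤ stabilizer G x := fun y hy =>
    (bl.PB y hy).trans (hBs y hy)
  have hPcs : ∀ y, Γ.Adj x y → Pc y ≤ stabilizer G x := fun y hy =>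
    (bl.PcB y hy).trans (hBs y hy)
  have hadj : ∀ g : G, g • x = x → ∀ y, Γ.Adj x y → Γ.Adj x (g • y) := by
    intro g hg y hy
    have := h.adj g x y hy
    rwa [hg] at this
  have hinvx : ∀ g : G, g • x = x → g⁻¹ • x = x := fun g hg => by
    rw [inv_smul_eq_iff, hg]
  -- (1)
  obtain ⟨M, hM⟩ : ∃ M : Subgroup G, ∀ g, g ∈ M ↔ g • x = x ∧
      ∀ y, Γ.Adj x y → P (g • y) = cj g (P y) ∧ Pc (g • y) = cj g (Pc y) := by
    refine ⟨{ carrier := {g | g • x = x ∧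
                ∀ y, Γ.Adj x y → P (g • y) = cj g (P y) ∧ Pc (g • y) = cj g (Pc y)}
              one_mem' := ?_
              mul_mem' := ?_
              inv_mem' := ?_ }, fun _ => Iff.rfl⟩
    · rintro a b ⟨h1, h2⟩ ⟨h3, h4⟩
      refine ⟨by rw [mul_smul, h3, h1], fun y hy => ?_⟩
      obtain ⟨e1, e2⟩ := h4 y hy
      obtain ⟨e3, e4⟩ := h2 _ (hadj b h3 y hy)
      rw [mul_smul, e3, e1, e4, e2, cj_mul, cj_mul]
      exact ⟨rfl, rfl⟩
    · refine ⟨one_smul _ _, fun y _ => ?_⟩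
      have h1 : ∀ N : Subgroup G, cj 1 N = N := by
        intro N
        ext k
        rw [mem_cj]
        simp
      rw [one_smul, h1, h1]
      exact ⟨rfl, rfl⟩
    · rintro a ⟨h1, h2⟩
      refine ⟨hinvx a h1, fun y hy => ?_⟩
      obtain ⟨e1, e2⟩ := h2 _ (hadj _ (hinvx a h1) y hy)
      rw [smul_inv_smul] at e1 e2
      rw [e1, e2, cj_cj_inv, cj_cj_inv]
      exact ⟨rfl, rfl⟩
  have hJCM : J ⊔ C ≤ M := by
    refine sup_le ?_ ?_
    · rw [hJ]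
      refine iSup_le fun z => ?_
      intro g hg
      rw [hM]
      exact ⟨hBs z.1 z.2 hg, fun y hy => bl.cjJ z.1 z.2 g hg y hy⟩
    · rw [hC]
      intro g hg
      rw [hM]
      exact ⟨(mem_Cg.mp hg).1, fun y hy => bl.cjC g hg y hy⟩
  -- (2)
  have hXJ : X ⊔ C ≤ J ⊔ C := by
    refine sup_le_sup_right ?_ C
    rw [hX, hJ]
    exact iSup_mono fun z => bl.PB z.1 z.2
  -- commutators
  have hcomm : ∀ z, Γ.Adj x z → ∀ y, Γ.Adj x y → ∀ a ∈ P z, ∀ b ∈ Pc y,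
      a * b * a⁻¹ * b⁻¹ ∈ C := by
    intro z hz y hy a ha b hb
    have hax := hPs z hz ha
    have hbx := hPcs y hy hb
    rw [hC, mem_Cg]
    refine ⟨(stabilizer G x).mul_mem ((stabilizer G x).mul_mem ((stabilizer G x).mul_mem hax hbx)
      ((stabilizer G x).inv_mem hax)) ((stabilizer G x).inv_mem hbx), fun v hv => ?_⟩
    have h1 := nW (b * a)⁻¹ ((stabilizer G x).inv_mem ((stabilizer G x).mul_mem hbx hax)) v hv
    have h2 := bl.cmV z y hz hy a ha b hb _ h1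
    have h3 : b * (a * ((b * a)⁻¹ * v * (b * a)⁻¹⁻¹) * a⁻¹) * b⁻¹ = v := by group
    rw [h3] at h2
    calc a * b * a⁻¹ * b⁻¹ * v =
        a * (b * ((b * a)⁻¹ * v * (b * a)⁻¹⁻¹) * b⁻¹) * a⁻¹ * (a * b * a⁻¹ * b⁻¹) := by group
      _ = v * (a * b * a⁻¹ * b⁻¹) := by rw [h2]
  obtain ⟨M1, hM1, hCM1⟩ := X_BLTg.comm_sub Γ nC Cs Pc hPcs
  obtain ⟨M2, hM2, hCM2⟩ := X_BLTg.comm_sub Γ nC Cs P hPs
  have hXM1 : X ⊔ C ≤ M1 := by
    refine sup_le ?_ hCM1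
    rw [hX]
    refine iSup_le fun z => ?_
    intro a ha
    rw [hM1]
    exact ⟨hPs z.1 z.2 ha, fun y hy b hb => hcomm z.1 z.2 y hy a ha b hb⟩
  have hXM2 : Xc ⊔ C ≤ M2 := by
    refine sup_le ?_ hCM2
    rw [hXc]
    refine iSup_le fun z => ?_
    intro b hb
    rw [hM2]
    refine ⟨hPcs z.1 z.2 hb, fun y hy a ha => ?_⟩
    have h1 := C.inv_mem (hcomm y hy z.1 z.2 a ha b hb)
    have h2 : (a * b * a⁻¹ * b⁻¹)⁻¹ = b * a * b⁻¹ * a⁻¹ := by group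
    rwa [h2] at h1
  refine ⟨fun g hg => (hM g).mp (hJCM hg), fun g hg => hXJ hg,
    fun g hg => ((hM1 g).mp (hXM1 hg)).2, ?_, ?_⟩
  · -- (4)
    intro g hg y hy b hb
    have h1 := ((hM g).mp (hJCM (hXJ hg))).2 y hy
    have h2 := ((hM1 g).mp (hXM1 hg)).2 y hy b hb
    have h3 : g * b * g⁻¹ ∈ Pc (g • y) := by
      rw [h1.2]
      exact conj_mem_cj hb
    have h4 : b = (g * b * g⁻¹ * b⁻¹)⁻¹ * (g * b * g⁻¹) := by group
    rw [h4]
    exact Subgroup.mul_mem _ (Subgroup.mem_sup_right (C.inv_mem h2)) (Subgroup.mem_sup_left h3)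
  · -- (5)
    intro y y' hy hy'
    obtain ⟨g, hg, hgy⟩ := b6 x y y' hy hy'
    rw [← hJ] at hg
    have hn : Nm X (Xc ⊔ C) := by
      intro a ha n hn
      have ha1 := (hM1 a).mp (hXM1 (Subgroup.mem_sup_left ha))
      have h1 : Xc ⊔ C ≤ (Xc ⊔ C).comap (MulAut.conj a).toMonoidHom := by
        refine sup_le ?_ ?_
        · have h2 : ∀ z : {z // Γ.Adj x z}, Pc z.1 ≤ Xc := fun z => by
            rw [hXc]
            exact le_iSup (fun z : {z // Γ.Adj x z} => Pc z.1) z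
          conv_lhs => rw [hXc]
          refine iSup_le fun z => ?_
          intro b hb
          show a * b * a⁻¹ ∈ Xc ⊔ C
          have h3 : a * b * a⁻¹ = (a * b * a⁻¹ * b⁻¹) * b := by group
          rw [h3]
          exact Subgroup.mul_mem _ (Subgroup.mem_sup_right (ha1.2 z.1 z.2 b hb))
            (Subgroup.mem_sup_left (h2 z hb))
        · intro c hc
          show a * c * a⁻¹ ∈ Xc ⊔ C
          exact Subgroup.mem_sup_right (nC a ha1.1 c hc)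
      exact h1 hn
    have hJX : J ≤ X ⊔ (Xc ⊔ C) := by
      rw [hJ]
      refine iSup_le fun z => ?_
      refine (bl.sup z.1 z.2).trans (sup_le ?_ ?_)
      · refine le_trans ?_ le_sup_left
        rw [hX]
        exact le_iSup (fun z : {z // Γ.Adj x z} => P z.1) z
      · refine le_trans ?_ (le_sup_left.trans le_sup_right)
        rw [hXc]
        exact le_iSup (fun z : {z // Γ.Adj x z} => Pc z.1) z
    obtain ⟨g1, hg1, g2, hg2, hg12⟩ := mem_sup_nm hn (hJX hg)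
    have e1 : P y' = cj g (P y) := by
      have := (((hM g).mp (hJCM (Subgroup.mem_sup_left hg))).2 y hy).1
      rwa [hgy] at this
    have hg1M := (hM g1).mp (hJCM (hXJ (Subgroup.mem_sup_left hg1)))
    have e2 : P (g1 • y) = cj g1 (P y) := (hg1M.2 y hy).1
    have hg1s : g1 ∈ stabilizer G x := hg1M.1
    have hg2M := (hM2 g2).mp (hXM2 hg2)
    refine ⟨g1, hg1, ?_, ?_⟩
    · intro a ha
      rw [e1, mem_cj] at ha
      have h3 := nC g1 hg1s _ (hg2M.2 y hy _ ha)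
      have h4 : g1 * (g⁻¹ * a * g) * g1⁻¹ ∈ P (g1 • y) := by
        rw [e2]
        exact conj_mem_cj ha
      have h5 : a = g1 * (g2 * (g⁻¹ * a * g) * g2⁻¹ * (g⁻¹ * a * g)⁻¹) * g1⁻¹ *
          (g1 * (g⁻¹ * a * g) * g1⁻¹) := by
        rw [hg12]
        group
      rw [h5]
      exact Subgroup.mul_mem _ (Subgroup.mem_sup_right h3) (Subgroup.mem_sup_left h4)
    · intro a ha
      rw [e2, mem_cj] at ha
      have h3 := nC g1 hg1s _ (C.inv_mem (hg2M.2 y hy _ ha))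
      have h4 : g * (g1⁻¹ * a * g1) * g⁻¹ ∈ P y' := by
        rw [e1]
        exact conj_mem_cj ha
      have h5 : a = g1 * (g2 * (g1⁻¹ * a * g1) * g2⁻¹ * (g1⁻¹ * a * g1)⁻¹)⁻¹ * g1⁻¹ *
          (g * (g1⁻¹ * a * g1) * g⁻¹) := by
        rw [hg12]
        group
      rw [h5]
      exact Subgroup.mul_mem _ (Subgroup.mem_sup_right h3) (Subgroup.mem_sup_left h4)

end Pool.Agent.Work.MP_6d7bb4.helper94.Sol
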