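import Pool.Agent.Work.MP_6d7bb4_G.InterfaceA

set_option autoImplicit false
set_option linter.unusedSectionVars false

/-! # MP_6d7bb4, block CNV: convexity along a critical path -/

namespace Pool.Agent.Work.MP_6d7bb4.helper94.Sol

open MulAction Tv Ff Ps
open scoped commutatorElement

namespace X_CNVg

section
variable {V G : Type} [Group G] [MulAction G V] {Γ : SimpleGraph V} {d p : ℕ}
  {W S : V → Subgroup G} {Z Bm : V → V → Subgroup G}

/-- the elements commuting with `a` -/
theorem mem_cent {a b : G} : b ∈ Subgroup.centralizer ({a} : Set G) ↔ b * a = a * b := by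
  rw [Subgroup.mem_centralizer_iff]
  constructor
  · intro h
    exact (h a rfl).symm
  · intro h c hc
    rw [Set.mem_singleton_iff] at hc
    rw [hc]
    exact h.symm

theorem start (sy : Sg Γ d p W S Z Bm) {x x' w : V} (hxx : Γ.Adj x x') (hw : W w ≤ S x') :
    ⁅W x, W w⁆ ≤ Z x x' := by
  rw [Subgroup.commutator_le]
  intro v hv u hu
  have hu' : u ∈ Bm x x' := by
    rw [sy.Bcm]
    exact sy.SB _ _ hxx.symm (hw hu)
  have hz := sy.qd x x' hxx u hu' v⁻¹ ((W x).inv_mem hv)
  have hc := sy.SW x _ (sy.WS x (sy.ZW x x' hxx hz)) v hv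
  have e1 : ⁅v, u⁆ = v * (u * v⁻¹ * u⁻¹ * v⁻¹⁻¹) * v⁻¹ := by
    rw [commutatorElement_def]
    group
  have e2 : ⁅v, u⁆ = u * v⁻¹ * u⁻¹ * v⁻¹⁻¹ := by
    rw [e1, ← hc]
    group
  rw [e2]
  exact hz

theorem end_le {x w w' : V} (hn : Nm (stabilizer G w) (W w)) (hK : S w' ≤ K Γ w')
    (hww : Γ.Adj w' w) (hx : W x ≤ S w') : ⁅W x, W w⁆ ≤ W w := by
  rw [Subgroup.commutator_le]
  intro v hv u hu
  rw [commutatorElement_def]
  refine (W w).mul_mem (hn v ?_ u hu) ((W w).inv_mem hu)
  rw [mem_stabilizer_iff]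
  exact (hK (hx hv)).2 w hww

end

end X_CNVg

open X_CNVg in
theorem s_CNVg (hBAS : Stmt_BASg) : Stmt_CNVg := by
  intro V G _ _ Γ d p _ W S Z Bm h sy c n s mn P k hck hkn a ha
  obtain ⟨hK, hN, -, -, -, -⟩ := hBAS V G Γ d p W S Z Bm h sy
  have hxx : Γ.Adj (s (k + c + 1)) (s (k + c)) := (P.ad (k + c) (by omega)).symm
  have hw : W (s k) ≤ S (s (k + c)) := mn _ _ (dist_path h.conn P.ad k c (by omega))
  have hx : W (s (k + c + 1)) ≤ S (s (k + 1)) := by
    refine mn _ _ ?_
    rw [SimpleGraph.dist_comm, show k + c + 1 = k + 1 + c by omega]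
    exact dist_path h.conn P.ad (k + 1) c (by omega)
  have haw : a ∈ W (s k) :=
    end_le (hN _).1 (hK _).2 (P.ad k (by omega)).symm hx ha
  have key : ∀ t, t ≤ c → ∀ j, j + t = k + c → a ∈ Z (s (j + 1)) (s j) := by
    intro t
    induction t with
    | zero =>
      intro _ j hj
      have hj' : j = k + c := by omega
      rw [hj']
      exact start sy hxx hw ha
    | succ t ih =>
      intro ht j hj
      have h1 := ih (by omega) (j + 1) (by omega)
      obtain ⟨m, rfl⟩ : ∃ m, j = m + c := ⟨j - c, by omega⟩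
      obtain ⟨Q, Qc, hB, hP, -, hPc⟩ := P.bl m (by omega)
      have a1 : Γ.Adj (s (m + c + 1)) (s (m + c)) := (P.ad (m + c) (by omega)).symm
      have a2 : Γ.Adj (s (m + c + 1)) (s (m + c + 2)) := P.ad (m + c + 1) (by omega)
      have h2 : a ∈ Z (s (m + c + 1)) (s (m + c + 2)) := by
        rw [sy.Zcm]
        exact h1
      have h3 : a ∈ W (s (m + c + 1)) := sy.ZW _ _ a2 h2
      have h4 : W (s k) ≤ S (s m) := by
        refine mn _ _ ?_
        obtain ⟨t', ht'⟩ : ∃ t', k = m + t' := ⟨k - m, by omega⟩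
        rw [SimpleGraph.dist_comm, ht']
        exact (dist_path h.conn P.ad m t' (by omega)).trans (by omega)
      have h5 : Q (s (m + c)) ≤ Subgroup.centralizer ({a} : Set G) := by
        rw [hP]
        refine sup_le ?_ ?_
        · intro u hu
          rw [mem_cent]
          exact (sy.SW (s m) a (h4 haw) u hu).symm
        · intro u hu
          rw [mem_cent]
          exact sy.SW _ u hu a h3
      have h6 : Qc (s (m + c)) ≤ Subgroup.centralizer ({a} : Set G) := by
        refine hPc.trans (sup_le ?_ ?_)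
        · intro u hu
          rw [mem_cent]
          exact sy.ZB _ _ a2 a h2 u (hB.PcB _ a2 hu)
        · intro u hu
          rw [mem_cent]
          exact (mem_Cg.1 hu).2 a h3
      refine sy.BZ _ _ a1 a h3 ?_
      intro b hb
      exact mem_cent.1 ((sup_le h5 h6) (hB.sup _ a1 hb))
  intro j hj1 hj2
  exact key (k + c - j) (by omega) j (by omega)

end Pool.Agent.Work.MP_6d7bb4.helper94.Sol
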