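import Pool.Agent.Work.MP_6d7bb4_G.InterfaceA

/-! # MP_6d7bb4, soluble semiprimitive groups: block CRD (typed by helper95) -/

set_option autoImplicit false
set_option linter.unusedSectionVars false

namespace Pool.Agent.Work.MP_6d7bb4.helper94.Sol

open MulAction Tv Ff Ps
open scoped commutatorElement

namespace X_CRDg

variable {V G : Type} [Group G] [MulAction G V] {Γ : SimpleGraph V} {d p : ℕ} [Fact p.Prime]
  {W S : V → Subgroup G} {Z Bm : V → V → Subgroup G}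

/-- the intersection of the groups `Z x y` -/
def C (Γ : SimpleGraph V) (Z : V → V → Subgroup G) (x : V) : Subgroup G :=
  ⨅ y : {y // Γ.Adj x y}, Z x y.1

omit [MulAction G V] in
theorem mem_C {x : V} {z : G} : z ∈ C Γ Z x ↔ ∀ y, Γ.Adj x y → z ∈ Z x y := by
  unfold C
  rw [Subgroup.mem_iInf]
  exact ⟨fun h y hy => h ⟨y, hy⟩, fun h y => h y.1 y.2⟩

theorem C_cj (h : Loc G Γ d) (hS : Sg Γ d p W S Z Bm) (g : G) (x : V) :
    C Γ Z (g • x) = cj g (C Γ Z x) := by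
  ext z
  rw [mem_cj, mem_C, mem_C]
  constructor
  · intro h1 y hy
    have h2 := h1 (g • y) (h.adj g x y hy)
    rwa [hS.Zcj, mem_cj] at h2
  · intro h1 y hy
    have h2 : Γ.Adj x (g⁻¹ • y) := by
      rw [← h.adj_iff g, smul_inv_smul]
      exact hy
    have h3 := h1 _ h2
    rwa [← mem_cj, ← hS.Zcj, smul_inv_smul] at h3

theorem C_inf (hA : Stmt_BASg) (h : Loc G Γ d) (hS : Sg Γ d p W S Z Bm) {x y : V}
    (hxy : Γ.Adj x y) : C Γ Z x ⊓ C Γ Z y = ⊥ := by
  obtain ⟨hK, hW, hB, hsym, hcj, htr⟩ := hA V G Γ d p W S Z Bm h hS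
  obtain ⟨σ, h1, h2⟩ := h.inv hxy
  refine P1 h hxy ?_ ?_ h1 h2 ?_
  · intro z hz
    exact K_le x ((hK x).1 (hS.ZW x y hxy (mem_C.mp hz.1 y hxy)))
  · refine nm_st (N := ⨆ z : {z // Γ.Adj x z}, Bm x z.1)
      (iSup_le (fun y => (hS.BQ x y.1 y.2).trans (Qe_le_st x y.1))) (htr x) h hxy ?_ ?_
    · refine Nm.iSup_left (fun y' => nm_of_comm ?_)
      intro q hq z hz
      exact hS.ZB x y'.1 y'.2 z (mem_C.mp hz.1 y'.1 y'.2) q hq
    · refine ((nm_of_equiv (C_cj h hS) x).mono (B_le x y)).inf ?_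
      rw [B_comm]
      exact (nm_of_equiv (C_cj h hS) y).mono (B_le y x)
  · intro n hn
    have h3 := conj_mem_cj (g := σ) hn.1
    have h4 := conj_mem_cj (g := σ) hn.2
    rw [← C_cj h hS, h1] at h3
    rw [← C_cj h hS, h2] at h4
    exact ⟨h4, h3⟩

end X_CRDg

open X_CRDg in
theorem s_CRDg (hA : Stmt_BASg) : Stmt_CRDg := by
  intro V G _ _ Γ d p _ W S Z Bm h hS x0 y0 h0 x
  have hK := (hA V G Γ d p W S Z Bm h hS).1
  obtain ⟨N, hN⟩ : ∃ N, N = d.factorial := ⟨_, rfl⟩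
  have hNpos : 0 < N := by
    rw [hN]
    exact Nat.factorial_pos d
  have hf : ∀ x, Finite (W x) := fun x => h.fin_le ((hK x).1.trans (K_le x))
  have h1 : ∀ x, (C Γ Z x).relIndex (W x) ≤ N ^ d := by
    intro x
    have hfi := h.nfin x
    have := Fintype.ofFinite {y // Γ.Adj x y}
    calc (C Γ Z x).relIndex (W x)
        ≤ ∏ y : {y // Γ.Adj x y}, (Z x y.1).relIndex (W x) :=
          Subgroup.relIndex_iInf_le _
      _ ≤ N ^ (Finset.univ : Finset {y // Γ.Adj x y}).card := by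
          refine Finset.prod_le_pow_card _ _ _ ?_
          intro y _
          rw [hN]
          exact hS.ix x y.1 y.2
      _ ≤ N ^ d := by
          refine Nat.pow_le_pow_right hNpos ?_
          rw [Finset.card_univ, ← Nat.card_eq_fintype_card]
          exact h.ncard x
  obtain ⟨y, hxy⟩ : ∃ y, Γ.Adj x y := by
    refine conn_ind h.conn {v | ∃ w, Γ.Adj v w} (x := x0) ⟨y0, h0⟩ ?_ x
    rintro v - w hvw
    exact ⟨v, hvw.symm⟩
  have hZf : Finite (Z x y) :=
    h.fin_le ((hS.ZW x y hxy).trans ((hK x).1.trans (K_le x)))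
  have h2 : (C Γ Z x).relIndex (Z x y) ≤ N ^ d :=
    (Subgroup.relIndex_le_of_le_right (hS.ZW x y hxy) (rel_ne (hf x))).trans (h1 x)
  have h3 : (C Γ Z y).relIndex (Z x y) ≤ N ^ d := by
    rw [hS.Zcm]
    exact (Subgroup.relIndex_le_of_le_right (hS.ZW y x hxy.symm) (rel_ne (hf y))).trans (h1 y)
  have h4 : Nat.card (Z x y) ≤ N ^ d * N ^ d := by
    rw [← Subgroup.relIndex_bot_left, ← C_inf hA h hS hxy]
    exact Subgroup.relIndex_inf_le.trans (Nat.mul_le_mul h2 h3)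
  have h5 := Subgroup.relIndex_mul_relIndex ⊥ (Z x y) (W x) bot_le (hS.ZW x y hxy)
  rw [Subgroup.relIndex_bot_left, Subgroup.relIndex_bot_left] at h5
  have h6 : (Z x y).relIndex (W x) ≤ N := by
    rw [hN]
    exact hS.ix x y hxy
  rw [← h5, ← hN]
  calc _ ≤ (N ^ d * N ^ d) * N := Nat.mul_le_mul h4 h6
    _ = N ^ (2 * d + 1) := by
      rw [pow_succ, two_mul, pow_add]

end Pool.Agent.Work.MP_6d7bb4.helper94.Sol
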