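import Pool.Agent.Work.MP_6d7bb4_G.InterfaceA

set_option autoImplicit false
set_option linter.unusedSectionVars false

/-! # MP_6d7bb4, soluble groups: block EXT -/

namespace Pool.Agent.Work.MP_6d7bb4.helper94.Sol

open MulAction Tv Ff Ps
open scoped commutatorElement

theorem s_EXTg (hBAS : Stmt_BASg) (hNRM : Stmt_NRMg) (hBLT : Stmt_BLTg) (hGEN : Stmt_GENg) :
    Stmt_EXTg := by
  intro V G _ _ Γ d p _ W S Z Bm h sy x x' w' w lw P Pc bl hP
  obtain ⟨b1, b2, -, -, -, -⟩ := hBAS V G Γ d p W S Z Bm h sy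
  obtain ⟨t1, t2, -, t4, -⟩ := hBLT V G Γ d p W S Z Bm h sy x P Pc bl
  by_contra hcon
  push Not at hcon
  have hxx := lw.xx
  have hWx' : W x' ≤ stabilizer G x := fun g hg => ((b1 x').1 hg).2 x hxx.symm
  have hD : Nm (B x x') (W x ⊔ W x') := by
    refine Nm.sup ((b2 x).1.mono (B_le x x')) ?_
    rw [B_comm]
    exact (b2 x').1.mono (B_le x' x)
  have key : Nm (stabilizer G x) (W x ⊔ W x') := by
    refine hGEN V G Γ d p W S Z Bm h sy x x' P Pc hxx bl _ hD ?_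
    intro g hg hNr
    have hgx : g • x = x := (t1 g (t2 g hg)).1
    have hginv := Subgroup.inv_mem _ hg
    obtain ⟨hgx', hPg'⟩ := t1 g⁻¹ (t2 _ hginv)
    have hy : Γ.Adj x (g⁻¹ • x') := by
      have := h.adj g⁻¹ x x' hxx
      rwa [hgx'] at this
    have e1 : P (g • x') = cj g (P x') := ((t1 g (t2 g hg)).2 x' hxx).1
    have e2 : P (g⁻¹ • x') = cj g⁻¹ (P x') := (hPg' x' hxx).1
    have hgs : g ∈ stabilizer G x := hgx
    have hNr' : Nz (W x) (Z x) P x' (g⁻¹ • x') := by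
      obtain ⟨a, ha, v, hv, hab⟩ := hNr
      refine ⟨g⁻¹ * a * g, ?_, g⁻¹ * v * g, ?_, ?_⟩
      · rw [e1, mem_cj] at ha
        exact ha
      · have h5 := (b2 x).1 g⁻¹ ((stabilizer G x).inv_mem hgs) v hv
        rwa [inv_inv] at h5
      · intro hcom
        apply hab
        have h5 : Z x (g⁻¹ • x') = cj g⁻¹ (Z x x') := by
          rw [← sy.Zcj, hgx']
        rw [h5, mem_cj, inv_inv] at hcom
        have h7 : g * (g⁻¹ * a * g * (g⁻¹ * v * g) * (g⁻¹ * a * g)⁻¹ * (g⁻¹ * v * g)⁻¹) * g⁻¹ =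
            a * v * a⁻¹ * v⁻¹ := by group
        rwa [h7] at hcom
    have hPc' : Pc x' ≤ Pc (g⁻¹ • x') ⊔ Cg x (W x) := t4 g⁻¹ hginv x' hxx
    have hWy : W (g⁻¹ • x') ≤ S w' := hcon _ hy hNr' hPc'
    have hn := hNRM V G Γ d p W S Z Bm h sy x x' w' w lw _ hy hWy
    rw [← hP] at hn
    have hn' := nm_cj g hn
    rw [cj_sup, ← sy.Wcj, ← sy.Wcj, hgx, smul_inv_smul, ← e1] at hn'
    exact hn'
  obtain ⟨σ, h1, h2⟩ := h.inv hxx
  have hbot : W x ⊔ W x' = ⊥ := by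
    refine P1 h hxx (sup_le ((b1 x).1.trans (K_le x)) hWx') key h1 h2 ?_
    intro n hn
    have h3 := conj_mem_cj (g := σ) hn
    rw [cj_sup, ← sy.Wcj, ← sy.Wcj, h1, h2, sup_comm] at h3
    exact h3
  apply sy.Zn x x' hxx
  rw [eq_bot_iff, ← hbot]
  exact (sy.ZW x x' hxx).trans le_sup_left

end Pool.Agent.Work.MP_6d7bb4.helper94.Sol
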