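import Pool.Agent.Work.MP_6d7bb4_G.InterfaceA

set_option autoImplicit false
set_option linter.unusedSectionVars false

/-!
# MP_6d7bb4: all soluble semiprimitive groups; block FIW (the end of the argument)
-/

namespace Pool.Agent.Work.MP_6d7bb4.helper94.Sol

open MulAction Tv Ff Ps
open scoped commutatorElement

namespace X_FIWg

variable {V G : Type} [Group G] [MulAction G V] {Γ : SimpleGraph V} {d p : ℕ} [Fact p.Prime]
  {W S : V → Subgroup G} {Z Bm : V → V → Subgroup G}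

/-- the intersection of the groups `Z x y` -/
def Cz (Γ : SimpleGraph V) (Z : V → V → Subgroup G) (x : V) : Subgroup G :=
  ⨅ y : {y // Γ.Adj x y}, Z x y.1

theorem mem_Cz {x : V} {z : G} : z ∈ Cz Γ Z x ↔ ∀ y, Γ.Adj x y → z ∈ Z x y := by
  unfold Cz
  rw [Subgroup.mem_iInf]
  exact ⟨fun h y hy => h ⟨y, hy⟩, fun h y => h y.1 y.2⟩

theorem Cz_cj (h : Loc G Γ d) (hS : Sg Γ d p W S Z Bm) (g : G) (x : V) :
    Cz Γ Z (g • x) = cj g (Cz Γ Z x) := by
  ext z
  rw [mem_cj, mem_Cz, mem_Cz]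
  constructor
  · intro h1 y hy
    have h2 := h1 (g • y) (h.adj g x y hy)
    rwa [hS.Zcj, mem_cj] at h2
  · intro h1 y hy
    have h2 : Γ.Adj x (g⁻¹ • y) := by
      rw [← h.adj_iff g, smul_inv_smul]
      exact hy
    have h3 := h1 _ h2
    rwa [← mem_cj, ← hS.Zcj, smul_inv_smul] at h3

theorem Cz_inf (h : Loc G Γ d) (hS : Sg Γ d p W S Z Bm)
    (htr : ∀ x y y', Γ.Adj x y → Γ.Adj x y' →
      ∃ g ∈ (⨆ z : {z // Γ.Adj x z}, Bm x z.1), g • y = y') {x y : V} (hxy : Γ.Adj x y) :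
    (Cz Γ Z x ⊓ Cz Γ Z y : Subgroup G) = ⊥ := by
  obtain ⟨σ, h1, h2⟩ := h.inv hxy
  have hWK : ∀ x, W x ≤ stabilizer G x := fun x =>
    ((hS.WS x).trans ((hS.SQ x).trans (Qv_le x))).trans (K_le x)
  refine P1 h hxy ?_ ?_ h1 h2 ?_
  · intro z hz
    exact hWK x (hS.ZW x y hxy (mem_Cz.mp hz.1 y hxy))
  · refine nm_st (N := ⨆ z : {z // Γ.Adj x z}, Bm x z.1)
      (iSup_le (fun y => (hS.BQ x y.1 y.2).trans (Qe_le_st x y.1))) (htr x) h hxy ?_ ?_
    · refine Nm.iSup_left (fun y' => nm_of_comm ?_)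
      intro q hq z hz
      exact hS.ZB x y'.1 y'.2 z (mem_Cz.mp hz.1 y'.1 y'.2) q hq
    · refine ((nm_of_equiv (Cz_cj h hS) x).mono (B_le x y)).inf ?_
      rw [B_comm]
      exact (nm_of_equiv (Cz_cj h hS) y).mono (B_le y x)
  · intro n hn
    have h3 := conj_mem_cj (g := σ) hn.1
    have h4 := conj_mem_cj (g := σ) hn.2
    rw [← Cz_cj h hS, h1] at h3
    rw [← Cz_cj h hS, h2] at h4
    exact ⟨h4, h3⟩

/-- `z` commutes with `W w ⊔ S x` for a short link -/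
theorem comm_link (h : Loc G Γ d) (hS : Sg Γ d p W S Z Bm) {r c : ℕ} (hc : c + 2 ≤ r)
    {x x' w' w : V} (l : Lw Γ W S x x' w' w) (hd : Γ.dist x w ≤ c + 1) {z : G}
    (hz : ∀ v, Γ.dist x v ≤ r → z • v = v) (hzW : z ∈ W x) :
    ∀ q ∈ W w ⊔ S x, q * z = z * q := by
  have hzB : z ∈ Bm w w' := by
    rw [hS.Bcm w w']
    exact hS.SB w' w l.ww.symm (l.xw hzW)
  have hzK : z ∈ (K Γ w : Subgroup G) := by
    refine ⟨hz w (by omega), fun v hv => hz v ?_⟩
    have h2 := h.conn.dist_triangle (u := x) (v := w) (w := v)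
    rw [SimpleGraph.dist_eq_one_iff_adj.mpr hv] at h2
    omega
  have hzS : z ∈ S w := hS.BK w w' l.ww ⟨hzB, hzK⟩
  have h1 : W w ≤ Subgroup.centralizer ({z} : Set G) := by
    intro u hu
    rw [Subgroup.mem_centralizer_iff]
    intro z' hz'
    rw [Set.mem_singleton_iff.mp hz']
    exact hS.SW w z hzS u hu
  have h2 : S x ≤ Subgroup.centralizer ({z} : Set G) := by
    intro u hu
    rw [Subgroup.mem_centralizer_iff]
    intro z' hz'
    rw [Set.mem_singleton_iff.mp hz']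
    exact (hS.SW x u hu z hzW).symm
  intro q hq
  have h3 := (sup_le h1 h2) hq
  rw [Subgroup.mem_centralizer_iff] at h3
  exact (h3 z (Set.mem_singleton z)).symm

end X_FIWg

theorem s_FIWg (hBAS : Stmt_BASg) (hPTW : Stmt_PTWg) (hBDW : Stmt_BDWg) (hCRD : Stmt_CRDg) :
    Stmt_FIWg := by
  intro V G _ _ Γ d p _ W S Z Bm h hS x y hxy r hr z hz hzZ
  obtain ⟨b1, b2, b3, b4, b5, b6⟩ := hBAS V G Γ d p W S Z Bm h hS
  obtain ⟨c, hM, hP⟩ := hPTW V G Γ d p W S Z Bm h hS x y hxy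
  have hcard := hCRD V G Γ d p W S Z Bm h hS x y hxy
  obtain ⟨s2, P2⟩ := hP (2 * c + 2)
  have h1 := hBDW V G Γ d p W S Z Bm h hS c s2 hM P2 _ hcard
  have hc : c + 2 ≤ r := ((Nat.lt_two_pow_self (n := c + 2)).le.trans h1).trans hr
  obtain ⟨s, P0⟩ := hP 0
  have l0 : Lw Γ W S (s (c + 1)) (s c) (s 1) (s 0) := by
    refine ⟨(P0.ad c (by omega)).symm, P0.ad 0 (by omega), hM _ _ ?_, hM _ _ ?_, ?_⟩
    · rw [SimpleGraph.dist_comm, show c + 1 = 1 + c by omega]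
      exact dist_path h.conn P0.ad 1 c (by omega)
    · have h2 := dist_path h.conn P0.ad 0 c (by omega)
      rwa [Nat.zero_add] at h2
    · have h2 := P0.cr 0 (le_refl 0)
      rwa [Nat.zero_add] at h2
  have hd0 : Γ.dist (s (c + 1)) (s 0) ≤ c + 1 := by
    have h2 := dist_path h.conn P0.ad 0 (c + 1) (by omega)
    rw [SimpleGraph.dist_comm]
    rwa [Nat.zero_add] at h2
  have hL : ∀ x x', Γ.Adj x x' → ∃ w' w, Lw Γ W S x x' w' w ∧ Γ.dist x w ≤ c + 1 := by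
    intro x x' hx
    obtain ⟨g, hg1, hg2⟩ := h.arc _ _ x x' l0.xx hx
    refine ⟨g • s 1, g • s 0, ?_, ?_⟩
    · have l := b5 g _ _ _ _ l0
      rwa [hg1, hg2] at l
    · rw [← hg1, dist_smul h]
      exact hd0
  have key : ∀ {x y : V}, Γ.Adj x y → z ∈ (Wr Γ r x y : Subgroup G) → z ∈ Z x y →
      z ∈ X_FIWg.Cz Γ Z x := by
    intro x y hxy hz hzZ
    rw [X_FIWg.mem_Cz]
    intro x' hx'
    have hzW : z ∈ W x := hS.ZW x y hxy hzZ
    have hzr : ∀ v, Γ.dist x v ≤ r → z • v = v := fun v hv => hz v (Or.inl hv)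
    obtain ⟨w', w, l, hd⟩ := hL x x' hx'
    obtain ⟨P, Pc, hBl, hPx⟩ := hS.lk x x' w' w l
    refine hS.BZ x x' hx' z hzW ?_
    have h3 : Bm x x' ≤ Subgroup.centralizer ({z} : Set G) := by
      refine (hBl.tr x' x' hx' hx').trans (iSup_le ?_)
      rintro ⟨b, hb⟩
      have hbx : b • x = x := hb.1
      have hbx' : b • x' = x' := hb.2
      have hbi : b⁻¹ • x' = x' := by
        rw [inv_smul_eq_iff, hbx']
      have l1 := b5 b _ _ _ _ l
      rw [hbx, hbx'] at l1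
      have hd1 : Γ.dist x (b • w) ≤ c + 1 := by
        have h4 := dist_smul h b x w
        rw [hbx] at h4
        omega
      have h5 := X_FIWg.comm_link h hS hc l1 hd1 hzr hzW
      have h6 : cj b (P (b⁻¹ • x')) = W (b • w) ⊔ S x := by
        rw [hbi, hPx, cj_sup, ← hS.Wcj, ← hS.Scj, hbx]
      intro q hq
      have hq' : q ∈ cj b (P (b⁻¹ • x')) := hq
      rw [h6] at hq'
      rw [Subgroup.mem_centralizer_iff]
      intro z' hz'
      rw [Set.mem_singleton_iff.mp hz']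
      exact (h5 q hq').symm
    intro b hb
    have h4 := h3 hb
    rw [Subgroup.mem_centralizer_iff] at h4
    exact (h4 z (Set.mem_singleton z)).symm
  have h2 : z ∈ (X_FIWg.Cz Γ Z x ⊓ X_FIWg.Cz Γ Z y : Subgroup G) := by
    refine ⟨key hxy hz hzZ, key hxy.symm ?_ ?_⟩
    · rw [Wr_comm]
      exact hz
    · rw [hS.Zcm]
      exact hzZ
  rw [X_FIWg.Cz_inf h hS b6 hxy, Subgroup.mem_bot] at h2
  exact h2

end Pool.Agent.Work.MP_6d7bb4.helper94.Sol
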