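import Pool.Agent.Work.MP_6d7bb4_G.InterfaceA

set_option autoImplicit false
set_option linter.unusedSectionVars false

/-! # MP_6d7bb4: all soluble semiprimitive groups, block GEN: the generation argument -/

namespace Pool.Agent.Work.MP_6d7bb4.helper94.Sol

open MulAction Tv Ff Ps
open scoped commutatorElement

namespace X_GENg

section
variable {V G : Type} [Group G] [MulAction G V] {Γ : SimpleGraph V} {d p : ℕ}

theorem nm_Cg {x : V} {W : Subgroup G} (hW : Nm (stabilizer G x) W) :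
    Nm (stabilizer G x) (Cg x W) := by
  intro g hg c hc
  rw [mem_Cg] at hc ⊢
  refine ⟨?_, ?_⟩
  · have h1 := (stabilizer G x).mul_mem ((stabilizer G x).mul_mem hg
      (mem_stabilizer_iff.2 hc.1)) ((stabilizer G x).inv_mem hg)
    exact mem_stabilizer_iff.1 h1
  · intro v hv
    have h1 := hW g⁻¹ ((stabilizer G x).inv_mem hg) v hv
    rw [inv_inv] at h1
    have h2 := hc.2 _ h1
    calc g * c * g⁻¹ * v = g * (c * (g⁻¹ * v * g)) * g⁻¹ := by group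
      _ = g * (g⁻¹ * v * g * c) * g⁻¹ := by rw [h2]
      _ = v * (g * c * g⁻¹) := by group

/-- conjugation by elements which normalise `Z y'` -/
theorem nz_mul {x : V} {W : Subgroup G} (hW : Nm (stabilizer G x) W) {Z P : V → Subgroup G}
    {q : G} (hq : q ∈ stabilizer G x) {y y' : V} (h1 : P (q • y) = cj q (P y))
    (hZ : ∀ z ∈ Z y', q⁻¹ * z * q ∈ Z y') (h : Nz W Z P y y') : Nz W Z P (q • y) y' := by
  obtain ⟨a, ha, v, hv, hab⟩ := h
  refine ⟨q * a * q⁻¹, ?_, q * v * q⁻¹, hW q hq v hv, ?_⟩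
  · rw [h1]
    exact conj_mem_cj ha
  · intro hz
    apply hab
    have h2 := hZ _ hz
    have h3 : q⁻¹ * (q * a * q⁻¹ * (q * v * q⁻¹) * (q * a * q⁻¹)⁻¹ * (q * v * q⁻¹)⁻¹) * q =
        a * v * a⁻¹ * v⁻¹ := by group
    rwa [h3] at h2

end

end X_GENg

open X_GENg in
theorem s_GENg (hBAS : Stmt_BASg) (hBLT : Stmt_BLTg) : Stmt_GENg := by
  intro V G _ _ Γ d p _ W S Z Bm h hs x x' P Pc hxx hb D hD hgen
  obtain ⟨b1, b2, b3, b4, b5, b6⟩ := hBAS V G Γ d p W S Z Bm h hs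
  obtain ⟨t1, t2, t3, t4, t5⟩ := hBLT V G Γ d p W S Z Bm h hs x P Pc hb
  obtain ⟨C, hC⟩ : ∃ C : Subgroup G, C = Cg x (W x) := ⟨_, rfl⟩
  obtain ⟨X, hX⟩ : ∃ X : Subgroup G, X = ⨆ z : {z // Γ.Adj x z}, P z.1 := ⟨_, rfl⟩
  rw [← hC, ← hX] at hgen
  rw [← hC, ← hX] at t2 t3 t4 t5
  rw [← hC] at t1
  have hWn := (b2 x).1
  have hCn : Nm (stabilizer G x) C := by
    rw [hC]
    exact nm_Cg (b2 x).1
  have hadj : ∀ g : G, g • x = x → ∀ y, Γ.Adj x y → Γ.Adj x (g • y) := by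
    intro g hg y hy
    have := h.adj g x y hy
    rwa [hg] at this
  have hPX : ∀ z, Γ.Adj x z → P z ≤ X := by
    intro z hz
    rw [hX]
    exact le_iSup (fun z : {z // Γ.Adj x z} => P z.1) ⟨z, hz⟩
  have hTx : ∀ g ∈ X ⊔ C, g • x = x := fun g hg => (t1 g (t2 g hg)).1
  have hTP : ∀ g ∈ X ⊔ C, ∀ y, Γ.Adj x y → P (g • y) = cj g (P y) :=
    fun g hg y hy => ((t1 g (t2 g hg)).2 y hy).1
  have hPst : ∀ z, Γ.Adj x z → P z ≤ stabilizer G x := fun z hz =>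
    ((hb.PB z hz).trans (hs.BQ x z hz)).trans (Qe_le_st x z)
  have hTst : X ⊔ C ≤ stabilizer G x := fun g hg => mem_stabilizer_iff.2 (hTx g hg)
  -- (b)
  obtain ⟨Y, hY⟩ : ∃ Y : Subgroup G,
      Y = ⨆ g : {g : G // g ∈ X ⊔ C ∧ Nz (W x) (Z x) P (g • x') x'}, P (g.1 • x') := ⟨_, rfl⟩
  have hYle : ∀ g ∈ X ⊔ C, Nz (W x) (Z x) P (g • x') x' → P (g • x') ≤ Y := by
    intro g hg hn
    rw [hY]
    exact le_iSup (fun g : {g : G // g ∈ X ⊔ C ∧ Nz (W x) (Z x) P (g • x') x'} => P (g.1 • x'))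
      ⟨g, hg, hn⟩
  have hYst : Y ≤ stabilizer G x := by
    rw [hY]
    exact iSup_le fun g => hPst _ (hadj _ (hTx _ g.2.1) _ hxx)
  have hYD : Nm Y D := by
    rw [hY]
    exact Nm.iSup_left fun g => hgen g.1 g.2.1 g.2.2
  have hq : ∀ q ∈ X ⊔ C, (∀ z ∈ Z x x', q⁻¹ * z * q ∈ Z x x') → ∀ n ∈ Y, q * n * q⁻¹ ∈ Y := by
    intro q hqT hqa n hn
    have h1 : (⨆ g : {g : G // g ∈ X ⊔ C ∧ Nz (W x) (Z x) P (g • x') x'}, P (g.1 • x')) ≤
        Y.comap (MulAut.conj q).toMonoidHom := by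
      refine iSup_le ?_
      rintro ⟨g, hg, hgn⟩ m hm
      show q * m * q⁻¹ ∈ Y
      have hgx := hadj g (hTx g hg) x' hxx
      have h3 : Nz (W x) (Z x) P (q • g • x') x' :=
        nz_mul hWn (hTst hqT) (hTP q hqT _ hgx) hqa hgn
      have h4 : P (q • g • x') ≤ Y := by
        have h5 := hYle (q * g) (Subgroup.mul_mem _ hqT hg)
        rw [mul_smul] at h5
        exact h5 h3
      apply h4
      rw [hTP q hqT _ hgx]
      exact conj_mem_cj hm
    rw [← hY] at h1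
    exact h1 hn
  have hCY : Nm C Y := by
    intro c hc n hn
    refine hq c (Subgroup.mem_sup_right hc) ?_ n hn
    intro z hz
    have h1 := hc
    rw [hC, mem_Cg] at h1
    have h2 := h1.2 z (hs.ZW x x' hxx hz)
    have h3 : c⁻¹ * z * c = z := by
      calc c⁻¹ * z * c = c⁻¹ * (z * c) := by group
        _ = c⁻¹ * (c * z) := by rw [h2]
        _ = z := by group
    rw [h3]
    exact hz
  -- (c)
  have hgY : ∀ g ∈ X ⊔ C, Nm (P (g • x')) Y := by
    intro g hg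
    by_cases hn : Nz (W x) (Z x) P (g • x') x'
    · exact nm_of_le (hYle g hg hn)
    · intro q hqP n hnY
      refine hq q (Subgroup.mem_sup_left (hPX _ (hadj g (hTx g hg) _ hxx) hqP)) ?_ n hnY
      intro z hz
      by_contra hcon
      apply hn
      refine ⟨q⁻¹, (P (g • x')).inv_mem hqP, z, hs.ZW x x' hxx hz, ?_⟩
      intro hr
      apply hcon
      have h1 : q⁻¹ * z * q = q⁻¹ * z * q⁻¹⁻¹ * z⁻¹ * z := by group
      rw [h1]
      exact (Z x x').mul_mem hr hz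
  -- (d)
  have hd : X ≤ (⨆ g : (X ⊔ C : Subgroup G), P (g.1 • x')) ⊔ C := by
    conv_lhs => rw [hX]
    refine iSup_le ?_
    rintro ⟨z, hz⟩
    obtain ⟨g, hg, h1, _⟩ := t5 x' z hxx hz
    refine h1.trans (sup_le_sup_right ?_ C)
    exact le_iSup (fun g : (X ⊔ C : Subgroup G) => P (g.1 • x'))
      ⟨g, Subgroup.mem_sup_left hg⟩
  have hTY : Nm (X ⊔ C) Y := by
    refine Nm.mono ((Nm.iSup_left ?_).sup_left hCY) (sup_le hd le_sup_right)
    rintro ⟨g, hg⟩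
    exact hgY g hg
  -- (e)
  obtain ⟨g0, hg0, hn0⟩ : ∃ g0 ∈ X ⊔ C, Nz (W x) (Z x) P (g0 • x') x' := by
    obtain ⟨z, hz, a, ha, v, hv, hab⟩ := hb.nc x' hxx
    obtain ⟨g, hg, h1, _⟩ := t5 x' z hxx hz
    have hgT : g ∈ X ⊔ C := Subgroup.mem_sup_left hg
    have hgx := hadj g (hTx g hgT) x' hxx
    obtain ⟨a0, ha0, c, hc, hac⟩ := mem_sup_nm (hCn.mono (hPst _ hgx)) (h1 ha)
    refine ⟨g, hgT, a0, ha0, v, hv, ?_⟩
    intro hr
    apply hab
    have hc' := hc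
    rw [hC, mem_Cg] at hc'
    have h2 : a * v * a⁻¹ * v⁻¹ = a0 * v * a0⁻¹ * v⁻¹ := by
      rw [hac]
      calc a0 * c * v * (a0 * c)⁻¹ * v⁻¹ = a0 * (c * v) * c⁻¹ * a0⁻¹ * v⁻¹ := by group
        _ = a0 * (v * c) * c⁻¹ * a0⁻¹ * v⁻¹ := by rw [hc'.2 v hv]
        _ = a0 * v * a0⁻¹ * v⁻¹ := by group
    rw [h2]
    exact hr
  have hPY : P x' ≤ Y := by
    intro a ha
    have h1 : g0 * a * g0⁻¹ ∈ Y := by
      apply hYle g0 hg0 hn0
      rw [hTP g0 hg0 x' hxx]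
      exact conj_mem_cj ha
    have h2 := hTY g0⁻¹ ((X ⊔ C).inv_mem hg0) _ h1
    have h3 : g0⁻¹ * (g0 * a * g0⁻¹) * g0⁻¹⁻¹ = a := by group
    rwa [h3] at h2
  have hPgY : ∀ g ∈ X ⊔ C, P (g • x') ≤ Y := by
    intro g hg a ha
    rw [hTP g hg x' hxx, mem_cj] at ha
    have h1 := hTY g hg _ (hPY ha)
    have h2 : g * (g⁻¹ * a * g) * g⁻¹ = a := by group
    rwa [h2] at h1
  have hXY : X ≤ Y ⊔ C := by
    refine hd.trans (sup_le_sup_right (iSup_le ?_) C)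
    rintro ⟨g, hg⟩
    exact hPgY g hg
  -- (f)
  obtain ⟨M, hM⟩ : ∃ M : Subgroup G, M = ⨆ b : (B x x' : Subgroup G), cj b.1 Y := ⟨_, rfl⟩
  have hMle : ∀ b ∈ (B x x' : Subgroup G), cj b Y ≤ M := by
    intro b hb
    rw [hM]
    exact le_iSup (fun b : (B x x' : Subgroup G) => cj b.1 Y) ⟨b, hb⟩
  have hMD : Nm M D := by
    rw [hM]
    refine Nm.iSup_left ?_
    rintro ⟨b, hb⟩
    have h1 := nm_cj b hYD
    rwa [cj_of_nm hD hb] at h1
  have hBM : Nm (B x x') M := by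
    intro b hb n hn
    rw [hM] at hn
    have h1 : (⨆ b : (B x x' : Subgroup G), cj b.1 Y) ≤
        M.comap (MulAut.conj b).toMonoidHom := by
      refine iSup_le ?_
      rintro ⟨b', hb'⟩ m hm
      show b * m * b⁻¹ ∈ M
      apply hMle (b * b') (Subgroup.mul_mem _ hb hb')
      rw [cj_mul]
      exact conj_mem_cj hm
    exact h1 hn
  have hCM : Nm C M := by
    intro c hc n hn
    rw [hM] at hn
    have h1 : (⨆ b : (B x x' : Subgroup G), cj b.1 Y) ≤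
        M.comap (MulAut.conj c).toMonoidHom := by
      refine iSup_le ?_
      rintro ⟨b', hb'⟩ m hm
      show c * m * c⁻¹ ∈ M
      apply hMle b' hb'
      have h2 := nm_cj b' hCY
      rw [cj_of_nm hCn (B_le x x' hb')] at h2
      exact h2 c hc m hm
    exact h1 hn
  have hYM : Y ≤ M := by
    have h1 := hMle 1 (Subgroup.one_mem _)
    have h2 : cj (1 : G) Y = Y := by
      ext z
      rw [mem_cj]
      simp
    rwa [h2] at h1
  have hXM : ∀ b ∈ (B x x' : Subgroup G), cj b X ≤ M ⊔ C := by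
    intro b hb
    have h1 := cj_mono b (hXY.trans (sup_le_sup_right hYM C))
    rwa [cj_sup, cj_of_nm hBM hb, cj_of_nm hCn (B_le x x' hb)] at h1
  have hBmM : ∀ z, Γ.Adj x z → Bm x z ≤ M ⊔ C := by
    intro z hz
    refine (hb.tr x' z hxx hz).trans (iSup_le ?_)
    rintro ⟨b, hbB⟩
    have h1 : Γ.Adj x (b⁻¹ • z) := by
      refine hadj b⁻¹ ?_ z hz
      rw [inv_smul_eq_iff, (mem_B.1 hbB).1]
    exact (cj_mono b (hPX _ h1)).trans (hXM b hbB)
  have hJst : (⨆ z : {z // Γ.Adj x z}, Bm x z.1) ≤ stabilizer G x :=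
    iSup_le fun z => (hs.BQ x z.1 z.2).trans (Qe_le_st x z.1)
  have hJM : Nm (⨆ z : {z // Γ.Adj x z}, Bm x z.1) M :=
    ((nm_self M).sup_left hCM).mono (iSup_le fun z => hBmM z.1 z.2)
  have hMn : Nm (stabilizer G x) M := nm_st hJst (b6 x) h hxx hJM hBM
  have hMst : M ≤ stabilizer G x := by
    rw [hM]
    refine iSup_le ?_
    rintro ⟨b, hb⟩
    have h1 := cj_mono b hYst
    rwa [cj_of_nm (nm_self _) (B_le x x' hb)] at h1
  -- (g)
  rcases h.sp x M hMst hMn with h1 | h1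
  · exact nm_st hMst h1 h hxx hMD hD
  · exfalso
    have h2 : P x' ≤ S x := by
      intro a ha
      have h3 : a ∈ Bm x x' := hb.PB x' hxx ha
      have h4 : a ∈ (B x x' : Subgroup G) := Qe_le x x' (hs.BQ x x' hxx h3)
      have h5 : a ∈ K Γ x := h1 a (hYM (hPY ha)) x' hxx (mem_B.1 h4).2
      exact hs.BK x x' hxx ⟨h3, h5⟩
    obtain ⟨a, ha, v, hv, hab⟩ := hn0
    apply hab
    rw [hTP g0 hg0 x' hxx, mem_cj] at ha
    have h3 := (b2 x).2 g0 (hTst hg0) _ (h2 ha)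
    have h4 : g0 * (g0⁻¹ * a * g0) * g0⁻¹ = a := by group
    rw [h4] at h3
    have h5 := hs.SW x a h3 v hv
    have h6 : a * v * a⁻¹ * v⁻¹ = 1 := by
      rw [h5]
      group
    rw [h6]
    exact (Z x x').one_mem

end Pool.Agent.Work.MP_6d7bb4.helper94.Sol
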