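import Pool.Agent.Work.MP_6d7bb4_G.InterfaceA

set_option autoImplicit false
set_option linter.unusedSectionVars false

/-!
# MP_6d7bb4: all soluble semiprimitive groups; block PTW (critical paths of any length; helper79)
-/

namespace Pool.Agent.Work.MP_6d7bb4.helper94.Sol

open MulAction Tv Ff Ps
open scoped commutatorElement

namespace X_PTWg

variable {V G : Type} [Group G] [MulAction G V] {Γ : SimpleGraph V} {d p : ℕ} [Fact p.Prime]
  {W S : V → Subgroup G} {Z Bm : V → V → Subgroup G}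

theorem lk (h : Loc G Γ d) {c n k : ℕ} {s : ℕ → V} (P : Pg Γ W S Z Bm c s n)
    (mn : Mw Γ W S c) (hk : k ≤ n) : Lw Γ W S (s (k + c + 1)) (s (k + c)) (s (k + 1)) (s k) where
  xx := (P.ad (k + c) (by omega)).symm
  ww := P.ad k (by omega)
  xw := by
    refine mn _ _ ?_
    rw [SimpleGraph.dist_comm, show k + c + 1 = k + 1 + c by omega]
    exact dist_path h.conn P.ad (k + 1) c (by omega)
  wx := mn _ _ (dist_path h.conn P.ad k c (by omega))
  cr := P.cr k hk

theorem step (hE : Stmt_EXTg) (h : Loc G Γ d) (hS : Sg Γ d p W S Z Bm) {c n : ℕ} {s : ℕ → V}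
    (P : Pg Γ W S Z Bm c s n) (mn : Mw Γ W S c) : ∃ s', Pg Γ W S Z Bm c s' (n + 1) := by
  have l := lk h P mn (le_refl n)
  obtain ⟨Q, Qc, hQ, hQ'⟩ := hS.lk _ _ _ _ l
  obtain ⟨y, hy, hN, hc, hcr⟩ := hE V G Γ d p W S Z Bm h hS _ _ _ _ l Q Qc hQ hQ'
  obtain ⟨s', hs'⟩ : ∃ s' : ℕ → V, s' = fun k => if k ≤ n + c + 1 then s k else y := ⟨_, rfl⟩
  have e1 : ∀ k, k ≤ n + c + 1 → s' k = s k := by
    intro k hk
    rw [hs']
    exact if_pos hk
  have e2 : s' (n + c + 2) = y := by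
    rw [hs']
    exact if_neg (by omega)
  refine ⟨s', ?_, ?_, ?_⟩
  · intro k hk
    rcases Nat.lt_or_ge k (n + c + 1) with h1 | h1
    · rw [e1 _ (by omega), e1 _ (by omega)]
      exact P.ad k h1
    · have h2 : k = n + c + 1 := by omega
      rw [h2, e2, e1 _ (le_refl _)]
      exact hy
  · intro k hk
    rcases Nat.lt_or_ge k (n + 1) with h1 | h1
    · rw [e1 _ (by omega), e1 _ (by omega)]
      exact P.cr k (by omega)
    · have h2 : k = n + 1 := by omega
      rw [h2, e1 (n + 1) (by omega), show n + 1 + c + 1 = n + c + 2 by omega, e2]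
      exact hcr
  · intro k hk
    rcases Nat.lt_or_ge k n with h1 | h1
    · rw [e1 (k + c + 1) (by omega), e1 (k + c) (by omega), e1 (k + c + 2) (by omega),
        e1 k (by omega)]
      exact P.bl k h1
    · have h2 : k = n := by omega
      rw [h2, e1 (n + c + 1) (by omega), e1 (n + c) (by omega), e2, e1 n (by omega)]
      exact ⟨Q, Qc, hQ, hQ', hN, hc⟩

/-- a critical pair exists -/
theorem crit (h : Loc G Γ d) (hS : Sg Γ d p W S Z Bm) {x0 y0 : V} (hxy : Γ.Adj x0 y0) :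
    ∃ c, Mw Γ W S c ∧ ∃ s, Pg Γ W S Z Bm c s 0 := by
  classical
  have h1 : ∃ n, ∃ x w, Γ.dist x w = n ∧ ¬ W x ≤ S w := by
    by_contra hcon
    push Not at hcon
    apply hS.Zn x0 y0 hxy
    rw [Subgroup.eq_bot_iff_forall]
    intro z hz
    apply h.faith
    intro v
    exact Qv_le_st v (hS.SQ v (hcon _ x0 v rfl (hS.ZW x0 y0 hxy hz)))
  obtain ⟨b, hb⟩ : ∃ b, b = Nat.find h1 := ⟨_, rfl⟩
  obtain ⟨x, w, hxw, hcr⟩ := Nat.find_spec h1
  have hmin : ∀ m, m < b → ∀ x w, Γ.dist x w = m → W x ≤ S w := by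
    intro m hm x w hd
    by_contra h2
    exact Nat.find_min h1 (hb ▸ hm) ⟨x, w, hd, h2⟩
  rw [← hb] at hxw
  have hb0 : b ≠ 0 := by
    intro h0
    rw [h0, h.conn.dist_eq_zero_iff] at hxw
    rw [hxw] at hcr
    exact hcr (hS.WS w)
  obtain ⟨c, rfl⟩ := Nat.exists_eq_succ_of_ne_zero hb0
  refine ⟨c, fun x w hd => hmin _ (Nat.lt_succ_of_le hd) x w rfl, ?_⟩
  obtain ⟨q, hq⟩ := h.conn.exists_walk_length_eq_dist w x
  rw [SimpleGraph.dist_comm, hxw] at hq
  refine ⟨q.getVert, ?_, ?_, ?_⟩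
  · intro k hk
    exact q.adj_getVert_succ (by omega)
  · intro k hk
    have h2 : k = 0 := by omega
    rw [h2, show 0 + c + 1 = q.length by omega, SimpleGraph.Walk.getVert_length,
      SimpleGraph.Walk.getVert_zero]
    exact hcr
  · intro k hk
    omega

end X_PTWg

theorem s_PTWg (_hA : Stmt_BASg) (hB : Stmt_EXTg) : Stmt_PTWg := by
  intro V G _ _ Γ d p _ W S Z Bm h hS x0 y0 hxy
  obtain ⟨c, mn, s, P⟩ := X_PTWg.crit h hS hxy
  refine ⟨c, mn, ?_⟩
  intro n
  induction n with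
  | zero => exact ⟨s, P⟩
  | succ n ih =>
    obtain ⟨s', P'⟩ := ih
    exact X_PTWg.step hB h hS P' mn

end Pool.Agent.Work.MP_6d7bb4.helper94.Sol
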