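import Pool.Agent.Work.MP_6d7bb4_G.B_BASg
import Pool.Agent.Work.MP_6d7bb4_G.B_NRMg
import Pool.Agent.Work.MP_6d7bb4_G.B_BLTg
import Pool.Agent.Work.MP_6d7bb4_G.B_GENg
import Pool.Agent.Work.MP_6d7bb4_G.B_EXTg
import Pool.Agent.Work.MP_6d7bb4_G.B_PTWg
import Pool.Agent.Work.MP_6d7bb4_G.B_CNVg
import Pool.Agent.Work.MP_6d7bb4_G.B_BDWg
import Pool.Agent.Work.MP_6d7bb4_G.B_CRDg
import Pool.Agent.Work.MP_6d7bb4_G.B_FIWg

set_option autoImplicit false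

/-! # MP_6d7bb4, plan G, part A complete: the end of the argument for a system `Sg` (helper94) -/

namespace Pool.Agent.Work.MP_6d7bb4.helper94.Sol

theorem t_BASg : Stmt_BASg := s_BASg
theorem t_NRMg : Stmt_NRMg := s_NRMg t_BASg
theorem t_BLTg : Stmt_BLTg := s_BLTg t_BASg
theorem t_GENg : Stmt_GENg := s_GENg t_BASg t_BLTg
theorem t_EXTg : Stmt_EXTg := s_EXTg t_BASg t_NRMg t_BLTg t_GENg
theorem t_PTWg : Stmt_PTWg := s_PTWg t_BASg t_EXTg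
theorem t_CNVg : Stmt_CNVg := s_CNVg t_BASg
theorem t_BDWg : Stmt_BDWg := s_BDWg t_BASg t_CNVg
theorem t_CRDg : Stmt_CRDg := s_CRDg t_BASg
theorem t_FIWg : Stmt_FIWg := s_FIWg t_BASg t_PTWg t_BDWg t_CRDg

end Pool.Agent.Work.MP_6d7bb4.helper94.Sol
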