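import Pool.Agent.Work.MP_6d7bb4_G.InterfaceV

set_option autoImplicit false
set_option linter.unusedSectionVars false

/-!
# MP_6d7bb4: plan G, block BW3 (copy of s_BU3)
-/

namespace Pool.Agent.Work.MP_6d7bb4.h65u

open MulAction
open Pool.Agent.Work.MP_6d7bb4.helper94 Pool.Agent.Work.MP_6d7bb4.helper94.Sol
open Tv Ff Ps
open scoped commutatorElement

namespace X_BW3

variable {V G : Type} [Group G] [MulAction G V] {Γ : SimpleGraph V} {d p : ℕ} [Fact p.Prime]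

theorem Jt_le (Q : Subgroup G) : Jt p Q ≤ Q := iSup_le (fun A => A.2.le)

theorem le_Jt {Q A : Subgroup G} (h : Am p Q A) : A ≤ Jt p Q :=
  le_iSup (fun A : {A : Subgroup G // Am p Q A} => A.1) ⟨A, h⟩

theorem Vv_OZ (h : Loc G Γ d) (hB : CB0 G Γ p) (x : V) :
    (Vv Γ p x : Subgroup G) ≤ OZ p (Qv Γ p x) := by
  refine iSup_le (fun y => ?_)
  intro z hz
  exact ⟨hB.zq x y.1 y.2 hz, hz.2.1, fun q hq => hz.2.2 q (Qv_le_Qe h y.2 hq)⟩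

theorem a1 (hTH : Stmt_TH1) (h : Loc G Γ d) (hB : CB0 G Γ p) (x : V) :
    (Vv Γ p x : Subgroup G) ≤ OZ p (Jt p (Qv Γ p x)) := by
  intro v hv
  obtain ⟨h1, h2, h3⟩ := Vv_OZ h hB x hv
  have hf : Finite (Qv Γ p x : Subgroup G) := h.fin_le (Qv_le_st x)
  obtain ⟨A, hA⟩ := (hTH G p).1 (Qv Γ p x) hf
  have h4 : v ∈ A := (hTH G p).2.2.2.1 (Qv Γ p x) A hf hA v h1 h2 (fun a ha => h3 a (hA.le ha))
  exact ⟨le_Jt hA h4, h2, fun q hq => h3 q (Jt_le _ hq)⟩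

theorem a2 (hTH : Stmt_TH1) (h2 : Stmt_BW2) (hy : Hw G Γ d p) {x y : V} (hxy : Γ.Adj x y) :
    (Zp p x y : Subgroup G) ≤ OZ p (Jt p (Qv Γ p x)) := by
  intro z hz
  obtain ⟨h3, h4, h5⟩ := mem_OZ.mp hz
  have hf : Finite (Qv Γ p x : Subgroup G) := hy.loc.fin_le (Qv_le_st x)
  have hf' : Finite (Qe p x y : Subgroup G) := hy.loc.fin_le (Qe_le_st x y)
  obtain ⟨A, hA⟩ := (hTH G p).1 (Qv Γ p x) hf
  obtain ⟨-, h6, h7⟩ := h2 V G Γ d p hy x y hxy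
  have hA' := h6 A hA
  have h8 : z ∈ A := (hTH G p).2.2.2.1 (Qe p x y) A hf' hA' z (Jt_le _ h3) h4
    (fun a ha => h5 a (le_Jt hA' ha))
  exact ⟨le_Jt hA h8, h4, fun q hq => h5 q (h7 hq)⟩

theorem nmZ (hTH : Stmt_TH1) (h : Loc G Γ d) (x : V) :
    Nm (stabilizer G x) (OZ p (Jt p (Qv Γ p x : Subgroup G))) := by
  refine nm_of_equiv (D := fun x => OZ p (Jt p (Qv Γ p x : Subgroup G))) ?_ x
  intro g x
  show OZ p (Jt p (Qv Γ p (g • x) : Subgroup G)) = cj g (OZ p (Jt p (Qv Γ p x)))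
  rw [Qv_cj h, (hTH G p).2.2.1, OZ_cj]

/-- the subgroup of the elements which centralise the group modulo `Vv` -/
def M (hTH : Stmt_TH1) (h : Loc G Γ d) (x : V) (p : ℕ) [Fact p.Prime] : Subgroup G where
  carrier := {b | b ∈ stabilizer G x ∧ ∀ z ∈ OZ p (Jt p (Qv Γ p x : Subgroup G)),
    b * z * b⁻¹ * z⁻¹ ∈ Vv Γ p x}
  one_mem' := ⟨one_mem _, fun z _ => by simp⟩
  mul_mem' := by
    rintro a b ⟨ha, ha'⟩ ⟨hb, hb'⟩
    refine ⟨mul_mem ha hb, fun z hz => ?_⟩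
    have h1 := ha' _ (nmZ hTH h x b hb z hz)
    have h2 := hb' z hz
    have e : a * b * z * (a * b)⁻¹ * z⁻¹ =
        (a * (b * z * b⁻¹) * a⁻¹ * (b * z * b⁻¹)⁻¹) * (b * z * b⁻¹ * z⁻¹) := by group
    rw [e]
    exact mul_mem h1 h2
  inv_mem' := by
    rintro a ⟨ha, ha'⟩
    refine ⟨inv_mem ha, fun z hz => ?_⟩
    have h1 := ha' _ (nmZ hTH h x a⁻¹ (inv_mem ha) z hz)
    have e : a⁻¹ * z * a⁻¹⁻¹ * z⁻¹ =
        (a * (a⁻¹ * z * a⁻¹⁻¹) * a⁻¹ * (a⁻¹ * z * a⁻¹⁻¹)⁻¹)⁻¹ := by group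
    rw [e]
    exact inv_mem h1

theorem a3 (hTH : Stmt_TH1) (h2 : Stmt_BW2) (hy : Hw G Γ d p) {x y : V} (hxy : Γ.Adj x y) :
    (Jt p (Qe p x y : Subgroup G)) ≤ M hTH hy.loc x p := by
  refine iSup_le (fun A => ?_)
  obtain ⟨A, hA⟩ := A
  intro b hb
  have hbx : b ∈ stabilizer G x := Qe_le_st x y (hA.le hb)
  refine ⟨hbx, fun z hz => ?_⟩
  obtain ⟨h3, h4, h5⟩ := mem_OZ.mp hz
  have hf : Finite (Qv Γ p x : Subgroup G) := hy.loc.fin_le (Qv_le_st x)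
  have hA1 := ((h2 V G Γ d p hy x y hxy).1 A hA).2
  have h6 : z ∈ (Vv Γ p x ⊔ (A ⊓ Qv Γ p x) : Subgroup G) :=
    (hTH G p).2.2.2.1 (Qv Γ p x) _ hf hA1 z (Jt_le _ h3) h4 (fun a ha => h5 a (le_Jt hA1 ha))
  have h7 : Nm (Vv Γ p x : Subgroup G) (A ⊓ Qv Γ p x) := nm_of_comm (fun n hn m hm =>
    ((Vv_OZ hy.loc hy.cb x hn).2.2 m hm.2).symm)
  obtain ⟨v, hv, a, ha, rfl⟩ := mem_sup_nm h7 h6
  have h8 : b⁻¹ * a = a * b⁻¹ := (show Commute b a from hA.el.cm b hb a ha.1).inv_left.eq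
  have e : b * (v * a) * b⁻¹ * (v * a)⁻¹ = b * v * b⁻¹ * v⁻¹ := by
    calc b * (v * a) * b⁻¹ * (v * a)⁻¹ = b * v * (a * b⁻¹) * a⁻¹ * v⁻¹ := by group
      _ = b * v * (b⁻¹ * a) * a⁻¹ * v⁻¹ := by rw [h8]
      _ = b * v * b⁻¹ * v⁻¹ := by group
  show b * (v * a) * b⁻¹ * (v * a)⁻¹ ∈ Vv Γ p x
  rw [e]
  exact mul_mem (nm_Vv hy.loc x b hbx v hv) (inv_mem hv)

/-- generated by the Thompson subgroups of the arcs at `x` -/
def JJ (Γ : SimpleGraph V) (p : ℕ) (x : V) : Subgroup G :=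
  ⨆ z : {z // Γ.Adj x z}, Jt p (Qe p x z.1)

theorem le_JJ {x y : V} (hxy : Γ.Adj x y) : (Jt p (Qe p x y) : Subgroup G) ≤ JJ Γ p x :=
  le_iSup (fun z : {z // Γ.Adj x z} => (Jt p (Qe p x z.1) : Subgroup G)) ⟨y, hxy⟩

theorem JJ_cj (h : Loc G Γ d)
    (hJ : ∀ (g : G) (x y : V), Jt p (Qe p (g • x) (g • y)) = cj g (Jt p (Qe p x y)))
    (g : G) (x : V) : JJ Γ p (g • x) = cj g (JJ Γ p x) := by
  have key : ∀ (g : G) (x : V), JJ Γ p (g • x) ≤ cj g (JJ Γ p x) := by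
    intro g x
    refine iSup_le (fun y => ?_)
    have h2 : Γ.Adj x (g⁻¹ • y.1) := by
      rw [← h.adj_iff g, smul_inv_smul]
      exact y.2
    have h3 : (Jt p (Qe p (g • x) y.1) : Subgroup G) = cj g (Jt p (Qe p x (g⁻¹ • y.1))) := by
      have h4 := hJ g x (g⁻¹ • y.1)
      rw [smul_inv_smul] at h4
      exact h4
    rw [h3]
    exact cj_mono g (le_JJ h2)
  refine le_antisymm (key g x) ?_
  have h1 := cj_mono g (key g⁻¹ (g • x))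
  rw [inv_smul_smul, cj_inv_cj] at h1
  exact h1

theorem JJ_le (x : V) : (JJ Γ p x : Subgroup G) ≤ stabilizer G x :=
  iSup_le (fun y => (Jt_le _).trans (Qe_le_st x y.1))

theorem JJ_tr (h : Loc G Γ d)
    (hJ : ∀ (g : G) (x y : V), Jt p (Qe p (g • x) (g • y)) = cj g (Jt p (Qe p x y)))
    (hn : ∀ x y, Γ.Adj x y → ¬ Jt p (Qe p x y : Subgroup G) ≤ Qv Γ p x) (x : V) :
    ∀ y y', Γ.Adj x y → Γ.Adj x y' → ∃ g ∈ (JJ Γ p x : Subgroup G), g • y = y' := by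
  rcases h.sp x (JJ Γ p x) (JJ_le x) (nm_of_equiv (JJ_cj h hJ) x) with h2 | h2
  · exact h2
  · intro y y' hxy _
    exfalso
    apply hn x y hxy
    rw [Qv_eq h hxy]
    intro q hq
    exact ⟨Jt_le _ hq, h2 q (le_JJ hxy hq) y hxy (Qe_le x y (Jt_le _ hq)).2⟩

end X_BW3

theorem s_BW3 (hTH1 : Stmt_TH1) (hBU1 : Stmt_BW1) (hBU2 : Stmt_BW2) : Stmt_BW3 := by
  intro V G _ _ Γ d p _ hy x y hxy
  have h2 : ∀ y, Γ.Adj x y → (Zp p x y : Subgroup G) ≤ OZ p (Jt p (Qv Γ p x)) :=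
    fun y hxy => X_BW3.a2 hTH1 hBU2 hy hxy
  have h7 : (Wp Γ p x : Subgroup G) ≤ OZ p (Jt p (Qv Γ p x)) :=
    iSup_le (fun y => h2 y.1 y.2)
  have h3 : ∀ y, Γ.Adj x y → (Jt p (Qe p x y) : Subgroup G) ≤ X_BW3.M hTH1 hy.loc x p :=
    fun y hxy => X_BW3.a3 hTH1 hBU2 hy hxy
  have hJM : (X_BW3.JJ Γ p x : Subgroup G) ≤ X_BW3.M hTH1 hy.loc x p :=
    iSup_le (fun z => h3 z.1 z.2)
  obtain ⟨b1, b2, b3, -, -, -, b7, -⟩ := hBU1 V G Γ d p hy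
  refine ⟨X_BW3.a1 hTH1 hy.loc hy.cb x, h2 y hxy, ?_, ?_, ?_, ?_, h7⟩
  · intro z hz b hb
    exact (h3 y hxy hb).2 z hz
  · intro z hz hc
    obtain ⟨h4, h5, -⟩ := mem_OZ.mp hz
    exact ⟨(hBU2 V G Γ d p hy x y hxy).2.2 h4, h5, hc⟩
  · refine iSup_le (fun y' => ?_)
    obtain ⟨y', hy'⟩ := y'
    intro w hw
    obtain ⟨g, hg, hgy⟩ := X_BW3.JJ_tr hy.loc b2 b1 x y y' hxy hy'
    have hgM : g ∈ X_BW3.M hTH1 hy.loc x p := hJM hg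
    have hgx : g • x = x := mem_stabilizer_iff.mp hgM.1
    have h4 : (Zp p x y' : Subgroup G) = cj g (Zp p x y) := by
      have h5 := b3 g x y
      rw [hgx, hgy] at h5
      exact h5
    have hw' : w ∈ (Zp p x y' : Subgroup G) := hw
    rw [h4, mem_cj] at hw'
    have h5 := hgM.2 _ (h2 y hxy hw')
    have e : w = (g * (g⁻¹ * w * g) * g⁻¹ * (g⁻¹ * w * g)⁻¹) * (g⁻¹ * w * g) := by group
    rw [e]
    exact mul_mem (le_sup_left (α := Subgroup G) h5) (le_sup_right (α := Subgroup G) hw')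
  · exact iSup_le (fun y' => (b7 x y'.1 y'.2).trans (z_le_VZ (ζ := Zp (G := G) p) y'.2))

end Pool.Agent.Work.MP_6d7bb4.h65u
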