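import Pool.Agent.Work.MP_6d7bb4_G.InterfaceV
import Pool.Agent.Work.MP_6d7bb4_h65u.Bau

set_option autoImplicit false
set_option linter.unusedSectionVars false

/-! # Block BW4: the Baumann system with the hypothesis Hw (copy of s_BU4) -/

namespace Pool.Agent.Work.MP_6d7bb4.h65u

open MulAction
open Pool.Agent.Work.MP_6d7bb4.helper94 Pool.Agent.Work.MP_6d7bb4.helper94.Sol
open Tv Ff Ps

theorem s_BW4 (hFMB : Stmt_FMB) (hBU1 : Stmt_BW1) (hBU3 : Stmt_BW3) : Stmt_BW4 := by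
  intro V G _ _ Γ d p _ hy
  have h := hy.loc
  obtain ⟨b1, b2, b3, b4, b5, b6, b7, b8⟩ := hBU1 V G Γ d p hy
  have h3 := hBU3 V G Γ d p hy
  have hWOZ : ∀ x, (∃ y, Γ.Adj x y) → Wp (G := G) Γ p x ≤ OZ p (Jt p (Qv Γ p x)) := by
    rintro x ⟨y, hxy⟩
    exact (h3 x y hxy).2.2.2.2.2.2
  have hFm : Fm (G := G) Γ p (Zp p) := by
    refine ⟨b3, b4, fun x y hxy => (OZ_le _ _).trans (BU4_X.Jt_le _ _), fun x y hxy hb => ?_,
      fun x => ?_⟩
    · apply Zz_ne h hy.cb hxy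
      have h1 := b7 x y hxy
      rw [hb] at h1
      exact le_bot_iff.mp h1
    · by_cases hx : ∃ y, Γ.Adj x y
      · have h1 := hWOZ x hx
        exact ⟨fun a ha b hb => (h1 hb).2.2 a (h1 ha).1, fun a ha => (h1 ha).2.1⟩
      · rw [BU4_X.VZ_bot hx]
        refine ⟨fun a ha b hb => ?_, fun a ha => ?_⟩
        · rw [Subgroup.mem_bot] at ha hb
          rw [ha, hb]
        · rw [Subgroup.mem_bot] at ha
          rw [ha, one_pow]
  obtain ⟨f1, f2, f3, f4, f5⟩ := hFMB V G Γ d p (Zp p) h hFm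
  have hWcj : ∀ (g : G) x, Wp Γ p (g • x) = cj g (Wp Γ p x) := f1
  -- elements of `Qv` commuting with `Zp`
  have hSp : ∀ x y, Γ.Adj x y → ∀ b ∈ (Qv Γ p x : Subgroup G),
      (∀ z ∈ Zp (G := G) p x y, z * b = b * z) → b ∈ Sp (G := G) Γ p x := by
    intro x y hxy b hb hz
    unfold Sp
    rw [mem_Cw]
    refine ⟨hb, ?_⟩
    have hV : (Vv Γ p x : Subgroup G) ≤ Subgroup.centralizer ({b} : Set G) := by
      refine iSup_le (fun y' => ?_)
      intro v hv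
      rw [Subgroup.mem_centralizer_iff]
      rintro c rfl
      exact hv.2.2 c (Qv_le_Qe h y'.2 hb)
    have hZ : Zp (G := G) p x y ≤ Subgroup.centralizer ({b} : Set G) := by
      intro v hv
      rw [Subgroup.mem_centralizer_iff]
      rintro c rfl
      exact (hz v hv).symm
    intro w hw
    have h1 := (h3 x y hxy).2.2.2.2.1 hw
    have h2 := sup_le hV hZ h1
    rw [Subgroup.mem_centralizer_iff] at h2
    exact (h2 b rfl).symm
  have hBK : ∀ x y, Γ.Adj x y → Bp (G := G) p x y ⊓ K Γ x ≤ Sp Γ p x := by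
    rintro x y hxy b ⟨hb, hbK⟩
    have hb' : b ∈ Bp (G := G) p x y := hb
    unfold Bp at hb'
    rw [mem_Cw] at hb'
    refine hSp x y hxy b ?_ hb'.2
    rw [Qv_eq h hxy]
    exact ⟨hb'.1, hbK⟩
  have hJB : ∀ x y : V, Jt p (Qe p x y : Subgroup G) ≤ Bp p x y := by
    intro x y b hb
    unfold Bp
    rw [mem_Cw]
    exact ⟨BU4_X.Jt_le _ _ hb, fun a ha => (ha.2.2 b hb).symm⟩
  refine ⟨hFm, hWcj, ?_, ?_, ?_⟩
  · intro g x
    unfold Sp
    rw [hWcj, Qv_cj h, BU4_X.Cw_cj]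
  · intro x
    by_cases hx : ∃ y, Γ.Adj x y
    · intro v hv
      have h1 := hWOZ x hx
      unfold Sp
      rw [mem_Cw]
      exact ⟨BU4_X.Jt_le _ _ (h1 hv).1, fun a ha => (h1 hv).2.2 a (h1 ha).1⟩
    · have h1 : Wp (G := G) Γ p x = ⊥ := BU4_X.VZ_bot hx
      rw [h1]
      exact bot_le
  · intro x y hxy
    refine ⟨?_, hBK x y hxy, hJB x y, ?_, ?_, ?_, ?_⟩
    · intro b hb
      unfold Sp at hb
      rw [mem_Cw] at hb
      unfold Bp
      rw [mem_Cw]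
      exact ⟨Qv_le_Qe h hxy hb.1, fun a ha => hb.2 a (z_le_VZ hxy ha)⟩
    · refine le_antisymm ?_ ?_
      · intro v hv
        rw [mem_Cw] at hv
        exact (h3 x y hxy).2.2.2.1 v (hWOZ x ⟨y, hxy⟩ hv.1) hv.2
      · intro z hz
        rw [mem_Cw]
        exact ⟨z_le_VZ hxy hz, hz.2.2⟩
    · rintro A hA b ⟨hb, hbQ⟩
      exact hSp x y hxy b hbQ (fun z hz => (hz.2.2 b (BU4_X.le_Jt hA hb)).symm)
    · intro hc
      apply b1 x y hxy
      intro b hb
      rw [Qv_eq h hxy]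
      exact ⟨BU4_X.Jt_le _ _ hb, hc (hJB x y hb)⟩
    · intro b hb hc
      have hb' := hb
      unfold Bp at hb'
      rw [mem_Cw] at hb'
      exact hBK x y hxy ⟨hb, f5 x y hxy b (Qe_le x y hb'.1) hc⟩

end Pool.Agent.Work.MP_6d7bb4.h65u
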