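import Pool.Agent.Work.MP_6d7bb4_G.InterfaceM

set_option autoImplicit false
set_option linter.unusedSectionVars false

/-! # MP_6d7bb4, plan G: block DIC2 (helper70) -/

namespace Pool.Agent.Work.MP_6d7bb4.h65u

open MulAction
open Pool.Agent.Work.MP_6d7bb4.helper94 Pool.Agent.Work.MP_6d7bb4.helper94.Sol
open Tv Ff Ps

theorem s_DIC2 : Stmt_DIC2 := by
  intro Ω F 𝒩 hG X _ π hπ R hR T hT
  have hF : ∀ f ∈ F, ∃ x : X, π x = f := by
    intro f hf
    rw [← hπ] at hf
    exact hf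
  have hnm : ∀ f ∈ F, ∀ m ∈ R.map π, f * m * f⁻¹ ∈ R.map π := by
    intro f hf m hm
    obtain ⟨x, rfl⟩ := hF f hf
    obtain ⟨r, hr, rfl⟩ := hm
    refine ⟨x * r * x⁻¹, hR.conj_mem r hr x, ?_⟩
    simp [map_mul, map_inv]
  have hgF : ∀ g : X, π g ∈ F := by
    intro g
    rw [← hπ]
    exact ⟨g, rfl⟩
  have hTF := hG.le T hT
  have hs := hG.sm T hT
  have hN : ((R.map π).subgroupOf T).Normal := by
    constructor
    intro n hn t
    rw [Subgroup.mem_subgroupOf] at hn ⊢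
    have := hnm t.1 (hTF t.2) n.1 hn
    simpa using this
  rcases hs.eq_bot_or_eq_top_of_normal _ hN with h | h
  · right
    have hb : ∀ c ∈ T, c ∈ R.map π → c = 1 := by
      intro c hc hm
      have h1 : (⟨c, hc⟩ : T) ∈ (R.map π).subgroupOf T := by
        rw [Subgroup.mem_subgroupOf]
        exact hm
      rw [h, Subgroup.mem_bot] at h1
      exact congrArg Subtype.val h1
    intro g hg t ht
    have hgm : π g ∈ R.map π := ⟨g, hg, rfl⟩
    by_cases hc : cj (π g) T = T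
    · have h1 : π g * t⁻¹ * (π g)⁻¹ ∈ T := by
        have := conj_mem_cj (g := π g) (T.inv_mem ht)
        rwa [hc] at this
      have h2 : t * (π g * t⁻¹ * (π g)⁻¹) ∈ T := T.mul_mem ht h1
      have h3 : t * (π g * t⁻¹ * (π g)⁻¹) ∈ R.map π := by
        have e : t * (π g * t⁻¹ * (π g)⁻¹) = (t * π g * t⁻¹) * (π g)⁻¹ := by group
        rw [e]
        exact (R.map π).mul_mem (hnm t (hTF ht) _ hgm) ((R.map π).inv_mem hgm)
      have h4 := hb _ h2 h3
      have e : t * π g = (t * (π g * t⁻¹ * (π g)⁻¹)) * (π g * t) := by group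
      rw [e, h4, one_mul]
    · exfalso
      obtain ⟨s, hsT, t, htT, hst⟩ := hG.na T hT
      have hT' : cj (π g) T ∈ 𝒩 := hG.cl T hT _ (hgF g)
      have ht' : π g * t⁻¹ * (π g)⁻¹ ∈ cj (π g) T := conj_mem_cj (T.inv_mem htT)
      have hcm := hG.cm T hT _ hT' (fun h => hc h.symm) s hsT _ ht'
      set t' := π g * t⁻¹ * (π g)⁻¹ with ht'd
      have hcM : t * t' ∈ R.map π := by
        have e : t * t' = (t * π g * t⁻¹) * (π g)⁻¹ := by rw [ht'd]; group
        rw [e]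
        exact (R.map π).mul_mem (hnm t (hTF htT) _ hgm) ((R.map π).inv_mem hgm)
      have h1 : s * (t * t') * s⁻¹ * (t * t')⁻¹ ∈ R.map π :=
        (R.map π).mul_mem (hnm s (hTF hsT) _ hcM) ((R.map π).inv_mem hcM)
      have h2 : s * (t * t') * s⁻¹ * (t * t')⁻¹ = s * t * s⁻¹ * t⁻¹ := by
        have h3 : t' * s⁻¹ = s⁻¹ * t' := by
          have : s⁻¹ * (s * t') * s⁻¹ = s⁻¹ * (t' * s) * s⁻¹ := by rw [hcm]
          calc t' * s⁻¹ = s⁻¹ * (s * t') * s⁻¹ := by group
            _ = s⁻¹ * (t' * s) * s⁻¹ := this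
            _ = s⁻¹ * t' := by group
        calc s * (t * t') * s⁻¹ * (t * t')⁻¹ = s * t * (t' * s⁻¹) * t'⁻¹ * t⁻¹ := by group
          _ = s * t * (s⁻¹ * t') * t'⁻¹ * t⁻¹ := by rw [h3]
          _ = s * t * s⁻¹ * t⁻¹ := by group
      have h5 : s * t * s⁻¹ * t⁻¹ ∈ T :=
        T.mul_mem (T.mul_mem (T.mul_mem hsT htT) (T.inv_mem hsT)) (T.inv_mem htT)
      rw [h2] at h1
      have h6 := hb _ h5 h1
      apply hst
      have e : s * t = (s * t * s⁻¹ * t⁻¹) * (t * s) := by group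
      rw [e, h6, one_mul]
  · left
    intro c hc
    have h1 : (⟨c, hc⟩ : T) ∈ (R.map π).subgroupOf T := by
      rw [h]
      exact Subgroup.mem_top _
    rw [Subgroup.mem_subgroupOf] at h1
    exact h1

end Pool.Agent.Work.MP_6d7bb4.h65u
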