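import Pool.Agent.Work.MP_6d7bb4_G.InterfaceM

set_option autoImplicit false
set_option linter.unusedSectionVars false

/-! # Block FAB: a perfect group fixing the centre or the axis of a transvection -/

namespace Pool.Agent.Work.MP_6d7bb4.h65u

open MulAction
open Pool.Agent.Work.MP_6d7bb4.helper94 Pool.Agent.Work.MP_6d7bb4.helper94.Sol
open Tv Ff Ps

namespace FAB_X

variable {U : Type} [AddCommGroup U] {p : ℕ} [Fact p.Prime] [Module (ZMod p) U]

/-- a perfect group of commuting elements is trivial -/
theorem bot_of_comm {K : Subgroup (Un U)} (hK : ⁅K, K⁆ = K)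
    (h : ∀ x ∈ K, ∀ y ∈ K, ∀ v, (x : AddMonoid.End U) ((y : AddMonoid.End U) v) =
      (y : AddMonoid.End U) ((x : AddMonoid.End U) v)) : K = ⊥ := by
  have h1 : ⁅K, K⁆ ≤ ⊥ := by
    rw [Subgroup.commutator_le]
    intro x hx y hy
    rw [Subgroup.mem_bot, commutatorElement_eq_one_iff_mul_comm]
    apply Units.ext
    refine AddMonoidHom.ext (fun v => ?_)
    exact h x hx y hy v
  rw [hK] at h1
  exact le_bot_iff.mp h1

theorem mul_inv_ap (x y : Un U) (v : U) :
    (((y * x)⁻¹ : Un U) : AddMonoid.End U) ((y : AddMonoid.End U) ((x : AddMonoid.End U) v)) = v := by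
  have := inv_ap (y * x) v
  exact this

theorem ap_mul_inv (x y : Un U) (v : U) :
    (y : AddMonoid.End U) ((x : AddMonoid.End U)
      ((((y * x)⁻¹ : Un U) : AddMonoid.End U) v)) = v := by
  have := ap_inv (y * x) v
  exact this

theorem comm_ap (x y : Un U) (v : U) :
    ((x * y * x⁻¹ * y⁻¹ : Un U) : AddMonoid.End U) v = (x : AddMonoid.End U)
      ((y : AddMonoid.End U) ((((y * x)⁻¹ : Un U) : AddMonoid.End U) v)) := by
  have h : (x * y * x⁻¹ * y⁻¹ : Un U) = x * (y * (y * x)⁻¹) := by
    group
  rw [h, mul_ap, mul_ap]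

theorem partA {K : Subgroup (Un U)} {s : Un U} {e : U} {f : U →+ ZMod p} (hs : TV s e f)
    (hK : ⁅K, K⁆ = K) (hq : K ≤ Cq K s)
    (h : ∀ x ∈ K, ∃ c : ZMod p, (x : AddMonoid.End U) e = c • e) : K = ⊥ := by
  -- `K` fixes `e`
  have hfix : ∀ x ∈ K, (x : AddMonoid.End U) e = e := by
    let F : Subgroup (Un U) :=
      { carrier := {x | (x : AddMonoid.End U) e = e}
        one_mem' := rfl
        mul_mem' := by
          intro a b ha hb
          show ((a * b : Un U) : AddMonoid.End U) e = e
          rw [mul_ap, hb, ha]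
        inv_mem' := by
          intro a ha
          have ha' : (a : AddMonoid.End U) e = e := ha
          show ((a⁻¹ : Un U) : AddMonoid.End U) e = e
          conv_lhs => rw [← ha']
          rw [inv_ap] }
    have hF : ⁅K, K⁆ ≤ F := by
      rw [Subgroup.commutator_le]
      intro x hx y hy
      show ((x * y * x⁻¹ * y⁻¹ : Un U) : AddMonoid.End U) e = e
      rw [comm_ap]
      obtain ⟨c, hc⟩ := h ((y * x)⁻¹) (K.inv_mem (K.mul_mem hy hx))
      obtain ⟨a, ha⟩ := h x hx
      obtain ⟨b, hb⟩ := h y hy
      have h1 := ap_mul_inv x y e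
      rw [hc, smul_map, smul_map, ha, smul_map, hb] at h1
      rw [hc, smul_map, smul_map, hb, smul_map, ha]
      rw [← mul_smul b a, mul_comm b a, mul_smul]
      exact h1
    rw [hK] at hF
    intro x hx
    exact hF hx
  -- `K` acts trivially modulo `e`
  have hmod : ∀ g ∈ K, ∀ v, ∃ c : ZMod p, (g : AddMonoid.End U) v = v + c • e := by
    let M : Subgroup (Un U) :=
      { carrier := {g | (g : AddMonoid.End U) e = e ∧
          ∀ v, ∃ c : ZMod p, (g : AddMonoid.End U) v = v + c • e}
        one_mem' := ⟨rfl, fun v => ⟨0, by rw [zero_smul, add_zero]; rfl⟩⟩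
        mul_mem' := by
          intro a b ha hb
          refine ⟨?_, fun v => ?_⟩
          · show ((a * b : Un U) : AddMonoid.End U) e = e
            rw [mul_ap, hb.1, ha.1]
          · obtain ⟨c, hc⟩ := hb.2 v
            obtain ⟨d, hd⟩ := ha.2 v
            refine ⟨d + c, ?_⟩
            show ((a * b : Un U) : AddMonoid.End U) v = _
            rw [mul_ap, hc, map_add, smul_map, ha.1, hd, add_smul, add_assoc]
        inv_mem' := by
          intro a ha
          have h1 : ((a⁻¹ : Un U) : AddMonoid.End U) e = e := by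
            conv_lhs => rw [← ha.1]
            rw [inv_ap]
          refine ⟨h1, fun v => ?_⟩
          obtain ⟨c, hc⟩ := ha.2 (((a⁻¹ : Un U) : AddMonoid.End U) v)
          rw [ap_inv] at hc
          refine ⟨-c, ?_⟩
          rw [neg_smul, ← sub_eq_add_neg]
          exact eq_sub_of_add_eq hc.symm }
    have hM : Cq K s ≤ M := by
      unfold Cq
      rw [Subgroup.closure_le]
      rintro g ⟨k, hk, rfl⟩
      have h1 : k * s * k⁻¹ ∈ M := by
        have h2 := hs.conj k
        refine ⟨?_, fun v => ?_⟩
        · show ((k * s * k⁻¹ : Un U) : AddMonoid.End U) e = e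
          have h3 := h2.ap e
          rw [hfix k hk] at h3
          have h4 : (f.comp ((k⁻¹ : Un U) : AddMonoid.End U)) e = 0 := by
            show f (((k⁻¹ : Un U) : AddMonoid.End U) e) = 0
            rw [hfix k⁻¹ (K.inv_mem hk), hs.fe]
          rw [h3, h4, zero_smul, add_zero]
        · have h3 := h2.ap v
          rw [hfix k hk] at h3
          exact ⟨_, h3⟩
      have h2 : s⁻¹ ∈ M := by
        apply M.inv_mem
        exact ⟨by rw [hs.ap, hs.fe, zero_smul, add_zero], fun v => ⟨_, hs.ap v⟩⟩
      exact M.mul_mem h1 h2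
    intro g hg
    exact (hM (hq hg)).2
  apply bot_of_comm hK
  intro x hx y hy v
  obtain ⟨c, hc⟩ := hmod y hy v
  obtain ⟨d, hd⟩ := hmod x hx v
  rw [hc, hd, map_add, map_add, smul_map, smul_map, hfix x hx, hfix y hy, hc, hd]
  abel

theorem partB {K : Subgroup (Un U)} {s : Un U} {e : U} {f : U →+ ZMod p} (hs : TV s e f)
    (hK : ⁅K, K⁆ = K) (hq : K ≤ Cq K s)
    (h : ∀ x ∈ K, ∃ c : ZMod p, ∀ v, f ((x : AddMonoid.End U) v) = c * f v) : K = ⊥ := by
  have hfix : ∀ x ∈ K, ∀ v, f ((x : AddMonoid.End U) v) = f v := by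
    let F : Subgroup (Un U) :=
      { carrier := {x | ∀ v, f ((x : AddMonoid.End U) v) = f v}
        one_mem' := fun v => rfl
        mul_mem' := by
          intro a b ha hb v
          show f (((a * b : Un U) : AddMonoid.End U) v) = f v
          rw [mul_ap, ha, hb]
        inv_mem' := by
          intro a ha v
          have h1 := ha (((a⁻¹ : Un U) : AddMonoid.End U) v)
          rw [ap_inv] at h1
          exact h1.symm }
    have hF : ⁅K, K⁆ ≤ F := by
      rw [Subgroup.commutator_le]
      intro x hx y hy v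
      show f (((x * y * x⁻¹ * y⁻¹ : Un U) : AddMonoid.End U) v) = f v
      rw [comm_ap]
      obtain ⟨a, ha⟩ := h x hx
      obtain ⟨b, hb⟩ := h y hy
      have h1 := congrArg f (ap_mul_inv x y v)
      rw [hb, ha] at h1
      rw [ha, hb, ← h1]
      ring
    rw [hK] at hF
    intro x hx
    exact hF hx
  have hmod : ∀ g ∈ K, ∀ v, f v = 0 → (g : AddMonoid.End U) v = v := by
    let M : Subgroup (Un U) :=
      { carrier := {g | (∀ v, f ((g : AddMonoid.End U) v) = f v) ∧
          ∀ v, f v = 0 → (g : AddMonoid.End U) v = v}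
        one_mem' := ⟨fun v => rfl, fun v _ => rfl⟩
        mul_mem' := by
          intro a b ha hb
          refine ⟨fun v => ?_, fun v hv => ?_⟩
          · show f (((a * b : Un U) : AddMonoid.End U) v) = f v
            rw [mul_ap, ha.1, hb.1]
          · show ((a * b : Un U) : AddMonoid.End U) v = v
            rw [mul_ap, hb.2 v hv, ha.2 v hv]
        inv_mem' := by
          intro a ha
          refine ⟨fun v => ?_, fun v hv => ?_⟩
          · have h1 := ha.1 (((a⁻¹ : Un U) : AddMonoid.End U) v)
            rw [ap_inv] at h1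
            exact h1.symm
          · have h1 := ha.2 v hv
            conv_lhs => rw [← h1]
            rw [inv_ap] }
    have hM : Cq K s ≤ M := by
      unfold Cq
      rw [Subgroup.closure_le]
      rintro g ⟨k, hk, rfl⟩
      have h1 : k * s * k⁻¹ ∈ M := by
        have h2 := hs.conj k
        have h4 : ∀ v, (f.comp ((k⁻¹ : Un U) : AddMonoid.End U)) v = f v := fun v =>
          hfix k⁻¹ (K.inv_mem hk) v
        refine ⟨fun v => ?_, fun v hv => ?_⟩
        · rw [h2.ap v, h4, map_add, f_smul, hfix k hk, hs.fe, mul_zero, add_zero]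
        · rw [h2.ap v, h4, hv, zero_smul, add_zero]
      have h2 : s⁻¹ ∈ M := by
        apply M.inv_mem
        refine ⟨fun v => ?_, fun v hv => ?_⟩
        · rw [hs.ap, map_add, f_smul, hs.fe, mul_zero, add_zero]
        · rw [hs.ap, hv, zero_smul, add_zero]
      exact M.mul_mem h1 h2
    intro g hg
    exact (hM (hq hg)).2
  apply bot_of_comm hK
  intro x hx y hy v
  have h1 : f ((y : AddMonoid.End U) v - v) = 0 := by rw [map_sub, hfix y hy, sub_self]
  have h2 : f ((x : AddMonoid.End U) v - v) = 0 := by rw [map_sub, hfix x hx, sub_self]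
  have h3 := hmod x hx _ h1
  have h4 := hmod y hy _ h2
  rw [map_sub] at h3 h4
  have h5 : (x : AddMonoid.End U) ((y : AddMonoid.End U) v) =
      (y : AddMonoid.End U) v - v + (x : AddMonoid.End U) v := sub_eq_iff_eq_add.mp h3
  have h6 : (y : AddMonoid.End U) ((x : AddMonoid.End U) v) =
      (x : AddMonoid.End U) v - v + (y : AddMonoid.End U) v := sub_eq_iff_eq_add.mp h4
  rw [h5, h6]
  abel

end FAB_X

theorem s_FAB : Stmt_FAB := by
  intro U _ p _ _ K s e f hs hK hq
  exact ⟨FAB_X.partA hs hK hq, FAB_X.partB hs hK hq⟩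

end Pool.Agent.Work.MP_6d7bb4.h65u
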