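import Pool.Agent.Work.MP_6d7bb4_G.InterfaceM

set_option autoImplicit false
set_option linter.unusedSectionVars false

/-! # MP_6d7bb4: block FIX2, elements of `P` which commute with everything over `𝒩` act trivially
(compare `B_FIX.lean`, helper33) -/

namespace Pool.Agent.Work.MP_6d7bb4.h65u

open MulAction Pool.Agent.Work.MP_6d7bb4.helper94 Pool.Agent.Work.MP_6d7bb4.helper94.Sol

namespace X_FIX2

section monoid

variable {M : Type} [Monoid M]

theorem m1 {a a' R : M} (h : a * a' = 1) (h' : a' * a = 1) (hR : a * R = R * a) :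
    a' * R = R * a' := by
  calc a' * R = a' * (R * a) * a' := by rw [mul_assoc, mul_assoc, h, mul_one]
    _ = R * a' := by rw [← hR, ← mul_assoc, h', one_mul]

theorem m3 {a a' b b' : M} (h : b * b' = 1) (h' : a' * a = 1) (hab : a = b) : a' = b' := by
  calc a' = a' * (b * b') := by rw [h, mul_one]
    _ = b' := by rw [← hab, ← mul_assoc, h', one_mul]

/-- a product of two elements which commute with `R` -/
theorem m2 {a b R : M} (ha : R * a = a * R) (hb : R * b = b * R) : R * (a * b) = a * b * R := by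
  rw [← mul_assoc, ha, mul_assoc, hb, mul_assoc]

end monoid

section act

variable {X : Type} [Group X] {S : Type} [AddCommGroup S]

theorem rr (ρ : X →* AddMonoid.End S) (x : X) : ρ x * ρ x⁻¹ = 1 := by
  rw [← map_mul, mul_inv_cancel, map_one]

theorem rr' (ρ : X →* AddMonoid.End S) (x : X) : ρ x⁻¹ * ρ x = 1 := by
  rw [← map_mul, inv_mul_cancel, map_one]

end act

end X_FIX2

open X_FIX2 in
theorem s_FIX2 : Stmt_FIX2 := by
  classical
  intro Ω F p hp 𝒩 hE X _ _ π hr ω Y P hY hP S _ ρ hNP b0 hb0 hb0'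
  rcases 𝒩.eq_empty_or_nonempty with hemp | ⟨T0, hT0⟩
  · -- no members: the point `ω` is fixed by everything
    have hYt : ∀ x : X, x ∈ Y := by
      intro x
      rw [hY]
      obtain ⟨n, hn, hnω⟩ := hE.pt ω (π x ω)
      rw [hemp, sSup_empty, Subgroup.mem_bot] at hn
      rw [← hnω, hn]
      rfl
    refine hNP P (fun x n hn => hP.nm x (hYt x) n hn) ?_ b0 hb0
    intro n hn
    obtain ⟨k, hk⟩ := hP.pg ⟨n, hn⟩
    refine ⟨k, ?_⟩
    have h1 : n ^ p ^ k = 1 := congrArg Subtype.val hk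
    rw [h1, map_one]
  have hF : ∀ x : X, π x ∈ F := fun x => by
    rw [← hr]
    exact ⟨x, rfl⟩
  let P1 : Subgroup X :=
    { carrier := {b | b ∈ P ∧ ∀ T ∈ 𝒩, ∀ x : X, π x ∈ T → ρ x * ρ b = ρ b * ρ x}
      one_mem' := ⟨P.one_mem, fun T _ x _ => by rw [map_one, one_mul, mul_one]⟩
      mul_mem' := by
        rintro a b ⟨ha, ha'⟩ ⟨hb, hb'⟩
        exact ⟨P.mul_mem ha hb, fun T h1 x h2 => by
          rw [map_mul]
          exact m2 (ha' T h1 x h2) (hb' T h1 x h2)⟩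
      inv_mem' := by
        rintro a ⟨ha, ha'⟩
        exact ⟨P.inv_mem ha, fun T h1 x h2 =>
          (m1 (rr ρ a) (rr' ρ a) (ha' T h1 x h2).symm).symm⟩ }
  have hP1 : ∀ b, b ∈ P1 ↔ b ∈ P ∧ ∀ T ∈ 𝒩, ∀ x : X, π x ∈ T → ρ x * ρ b = ρ b * ρ x :=
    fun b => Iff.rfl
  -- (1)
  have step2 : ∀ b ∈ P1, ∀ f ∈ sSup 𝒩, ∀ x : X, π x = f → ρ x * ρ b = ρ b * ρ x := by
    intro b hb
    let Z : Subgroup (Equiv.Perm Ω) :=
      { carrier := {f | f ∈ F ∧ ∀ x : X, π x = f → ρ x * ρ b = ρ b * ρ x}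
        one_mem' := ⟨F.one_mem, fun x hx => ((hP1 b).1 hb).2 T0 hT0 x (by
          rw [hx]
          exact T0.one_mem)⟩
        mul_mem' := by
          rintro f1 f2 ⟨h1, h1'⟩ ⟨h2, h2'⟩
          refine ⟨F.mul_mem h1 h2, fun x hx => ?_⟩
          rw [← hr] at h1
          obtain ⟨x1, hx1⟩ := h1
          have h3 := h1' x1 hx1
          have h4 := h2' (x1⁻¹ * x) (by
            rw [map_mul, map_inv, hx1, hx, inv_mul_cancel_left])
          have h5 : x = x1 * (x1⁻¹ * x) := by group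
          rw [h5, map_mul, mul_assoc, h4, ← mul_assoc, h3, mul_assoc]
        inv_mem' := by
          rintro f ⟨h1, h1'⟩
          refine ⟨F.inv_mem h1, fun x hx => ?_⟩
          have h2 := h1' x⁻¹ (by rw [map_inv, hx, inv_inv])
          exact m1 (rr' ρ x) (rr ρ x) h2 }
    have hZ : sSup 𝒩 ≤ Z := by
      refine sSup_le fun T hT => ?_
      intro f hf
      exact ⟨hE.le T hT hf, fun x hx => ((hP1 b).1 hb).2 T hT x (by rw [hx]; exact hf)⟩
    intro f hf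
    exact (hZ hf).2
  -- (2)
  have step3 : ∀ y ∈ Y, ∀ b ∈ P1, y * b * y⁻¹ ∈ P1 := by
    intro y hy b hb
    obtain ⟨hbP, hb'⟩ := (hP1 b).1 hb
    refine (hP1 _).2 ⟨hP.nm y hy b hbP, fun T hT x hx => ?_⟩
    have h1 : cj (π y⁻¹) T ∈ 𝒩 := hE.cl T hT (π y⁻¹) (hF _)
    have h2 : π (y⁻¹ * x * y) ∈ cj (π y⁻¹) T := by
      have h3 : π (y⁻¹ * x * y) = π y⁻¹ * π x * (π y⁻¹)⁻¹ := by
        rw [map_mul, map_mul, map_inv, inv_inv]
      rw [h3]
      exact conj_mem_cj hx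
    have h4 := hb' _ h1 _ h2
    have h5 : x * (y * b * y⁻¹) = y * ((y⁻¹ * x * y) * b) * y⁻¹ := by group
    have h6 : y * b * y⁻¹ * x = y * (b * (y⁻¹ * x * y)) * y⁻¹ := by group
    rw [← map_mul, ← map_mul, h5, h6, map_mul, map_mul, map_mul ρ (y⁻¹ * x * y), h4,
      ← map_mul, ← map_mul, ← map_mul]
  -- (3)
  let W : Subgroup X :=
    { carrier := {x | ∃ b ∈ P1, ρ x = ρ b}
      one_mem' := ⟨1, P1.one_mem, rfl⟩
      mul_mem' := by
        rintro x x' ⟨b, hb, h⟩ ⟨b', hb', h'⟩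
        exact ⟨b * b', P1.mul_mem hb hb', by rw [map_mul, map_mul, h, h']⟩
      inv_mem' := by
        rintro x ⟨b, hb, h⟩
        exact ⟨b⁻¹, P1.inv_mem hb, m3 (rr ρ b) (rr' ρ x) h⟩ }
  have hsF : sSup 𝒩 ≤ F := sSup_le fun T hT => hE.le T hT
  have hWn : ∀ x : X, ∀ n ∈ W, x * n * x⁻¹ ∈ W := by
    rintro x w ⟨b, hb, hw⟩
    obtain ⟨n, hn, hnω⟩ := hE.pt ω (π x ω)
    have hnF := hsF hn
    rw [← hr] at hnF
    obtain ⟨x1, hx1⟩ := hnF
    have hy : x1⁻¹ * x ∈ Y := by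
      rw [hY, map_mul, Equiv.Perm.mul_apply, ← hnω, map_inv, hx1]
      exact n.symm_apply_apply ω
    refine ⟨(x1⁻¹ * x) * b * (x1⁻¹ * x)⁻¹, step3 _ hy b hb, ?_⟩
    have h1 := step2 _ (step3 _ hy b hb) n hn x1 hx1
    have h2 : x = x1 * (x1⁻¹ * x) := by group
    set y := x1⁻¹ * x with hydef
    calc ρ (x * w * x⁻¹) = ρ x1 * (ρ y * ρ w * ρ y⁻¹) * ρ x1⁻¹ := by
          rw [← map_mul, ← map_mul, ← map_mul, ← map_mul]
          congr 1
          rw [hydef]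
          group
      _ = ρ x1 * ρ (y * b * y⁻¹) * ρ x1⁻¹ := by rw [hw, ← map_mul, ← map_mul]
      _ = ρ (y * b * y⁻¹) := by rw [h1, mul_assoc, rr, mul_one]
  refine hNP W hWn ?_ b0 ⟨b0, (hP1 b0).2 ⟨hb0, hb0'⟩, rfl⟩
  rintro m ⟨b', hb', hm⟩
  obtain ⟨k, hk⟩ := hP.pg ⟨b', ((hP1 b').1 hb').1⟩
  refine ⟨k, ?_⟩
  have h1 : b' ^ p ^ k = 1 := congrArg Subtype.val hk
  rw [map_pow, hm, ← map_pow, h1, map_one]

end Pool.Agent.Work.MP_6d7bb4.h65u
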