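import Pool.Agent.Work.MP_6d7bb4_G.InterfaceM

set_option autoImplicit false
set_option linter.unusedSectionVars false

/-! # MP_6d7bb4, plan G, block HWG: from the permutation group to the vertices -/

namespace Pool.Agent.Work.MP_6d7bb4.h65u

open MulAction
open Pool.Agent.Work.MP_6d7bb4.helper94 Pool.Agent.Work.MP_6d7bb4.helper94.Sol
open Tv Ff Ps

theorem s_HWG (hFMB : Pool.Agent.Work.MP_6d7bb4.helper94.Sol.Stmt_FMB) (hKEQ : Stmt_KEQ) :
    Stmt_HWG := by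
  intro V Ω Γ H F d p _ h hcb hLA hG
  refine ⟨h, hcb, ?_⟩
  intro ζ hζ x y0 hxy0 R U _ _ ψ hψ
  obtain ⟨e, hL⟩ := hLA x
  have hfs := h.fin x
  have hrange : (rho H x e).range = F := by
    ext σ
    constructor
    · rintro ⟨g, rfl⟩
      exact rho_mem hL g
    · intro hσ
      obtain ⟨g, hg⟩ := rho_surj hL hσ
      exact ⟨g, hg⟩
  have hY : ∀ y (hy : Γ.Adj x y), Yo (rho H x e) (e ⟨y, hy⟩) =
      (B x y : Subgroup H).subgroupOf (stabilizer H x) := by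
    intro y hy
    ext g
    show rho H x e g (e ⟨y, hy⟩) = e ⟨y, hy⟩ ↔ _
    rw [rho_eq, Subgroup.mem_subgroupOf, mem_B]
    exact ⟨fun h1 => ⟨g.2, h1⟩, fun h1 => h1.2⟩
  have hP : ∀ y, Γ.Adj x y → IsOp p ((B x y : Subgroup H).subgroupOf (stabilizer H x))
      ((Qe p x y : Subgroup H).subgroupOf (stabilizer H x)) := by
    intro y hxy
    refine ⟨?_, ?_, ?_, ?_⟩
    · intro g hg
      exact Subgroup.mem_subgroupOf.2 (Qe_le x y (Subgroup.mem_subgroupOf.1 hg))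
    · intro g hg n hn
      rw [Subgroup.mem_subgroupOf] at hg hn ⊢
      exact nm_Qe h x y _ hg _ hn
    · exact (Qe_isP h x y).comap_of_injective (stabilizer H x).subtype
        (Subgroup.subtype_injective _)
    · intro N hN hNn hNp n hn
      rw [Subgroup.mem_subgroupOf]
      have h1 : N.map (stabilizer H x).subtype ≤ (Qe p x y : Subgroup H) := by
        refine le_O ?_ ?_ (IsPGroup.map hNp _)
        · rintro _ ⟨m, hm, rfl⟩
          exact Subgroup.mem_subgroupOf.1 (hN hm)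
        · rintro b hb _ ⟨m, hm, rfl⟩
          have hbx : b ∈ stabilizer H x := hb.1
          exact ⟨⟨b, hbx⟩ * m * ⟨b, hbx⟩⁻¹,
            hNn ⟨b, hbx⟩ (Subgroup.mem_subgroupOf.2 hb) m hm, rfl⟩
      exact h1 ⟨n, hn, rfl⟩
  have hNP : NP p ((Units.coeHom (AddMonoid.End U)).comp ψ) := by
    intro N hNn hNp n hn
    have h1 : N.map ψ = ⊥ := by
      refine hψ.np (N.map ψ) ?_ ?_ ?_
      · rintro _ ⟨m, _, rfl⟩
        exact ⟨m, rfl⟩
      · rintro _ ⟨g, rfl⟩ _ ⟨m, hm, rfl⟩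
        refine ⟨g * m * g⁻¹, hNn g m hm, ?_⟩
        rw [map_mul, map_mul, map_inv]
      · rintro ⟨_, m, hm, rfl⟩
        obtain ⟨k, hk⟩ := hNp m hm
        refine ⟨k, ?_⟩
        apply Subtype.ext
        show (ψ m) ^ p ^ k = 1
        rw [← map_pow]
        exact Units.ext hk
    have h2 : ψ n ∈ N.map ψ := ⟨n, hn, rfl⟩
    rw [h1, Subgroup.mem_bot] at h2
    show ((ψ n : Un U) : AddMonoid.End U) = 1
    rw [h2]
    rfl
  have hRK : ∀ y, Γ.Adj x y → R ⊓ B x y ≤ K Γ x := fun y hy =>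
    (hFMB V H Γ d p ζ h hζ).2.2.2.1 x y hy R hψ.isR.le hψ.isR.nm hψ.isR.pa
  have hex : ∃ ω, ∃ b ∈ ((Qe p x (e.symm ω).1 : Subgroup H).subgroupOf (stabilizer H x)),
      ψ b ≠ 1 := by
    by_contra hcon
    push Not at hcon
    apply hcb.ne x y0 hxy0
    intro b hb
    have hbx : b ∈ stabilizer H x := (Qe_le x y0 hb).1
    refine hRK y0 hxy0 ⟨?_, Qe_le x y0 hb⟩
    refine (hψ.ker ⟨b, hbx⟩).2 (hcon (e ⟨y0, hxy0⟩) ⟨b, hbx⟩ ?_)
    rw [Equiv.symm_apply_apply]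
    exact hb
  obtain ⟨𝒦, hKE, hKQ, hEt⟩ := hKEQ Ω F p hG (stabilizer H x) (rho H x e) hrange U ψ hNP
    hψ.ss (fun ω => (Qe p x (e.symm ω).1 : Subgroup H).subgroupOf (stabilizer H x))
    (fun ω => by
      obtain ⟨⟨y, hy⟩, rfl⟩ := e.surjective ω
      show IsOp p (Yo (rho H x e) (e ⟨y, hy⟩)) ((Qe p x (e.symm (e ⟨y, hy⟩)).1 :
        Subgroup H).subgroupOf (stabilizer H x))
      rw [Equiv.symm_apply_apply, hY y hy]
      exact hP y hy) hex
  refine ⟨𝒦, ?_⟩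
  refine
    { ke := hKE
      ker := hψ.ker
      Rs := hψ.isR.le
      RK := hRK
      QR := ?_
      Et := ?_
      kq := ?_ }
  · refine hψ.isR.mx _ (Qv_le_st x) (nm_Qv h x) ?_
    intro n hn
    have h1 : IsPGroup p (Qv Γ p x : Subgroup H) := (Qe_isP h x y0).to_le (Qv_le_Qe h hxy0)
    obtain ⟨k, hk⟩ := h1 ⟨n, hn⟩
    have hk' : n ^ p ^ k = 1 := congrArg Subtype.val hk
    refine ⟨k, fun v _ => ?_⟩
    rw [hk', one_mul, mul_one]
  · intro y y' hy hy'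
    obtain ⟨g, hg, hgy⟩ := hEt (e ⟨y, hy⟩) (e ⟨y', hy'⟩)
    rw [rho_eq] at hgy
    exact ⟨g, hg, hgy⟩
  · intro y hy
    have h1 := hKQ (e ⟨y, hy⟩)
    rw [Equiv.symm_apply_apply, hY y hy] at h1
    exact h1

end Pool.Agent.Work.MP_6d7bb4.h65u
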