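import Pool.Agent.Work.MP_6d7bb4_G.InterfaceV

set_option autoImplicit false
set_option linter.unusedSectionVars false

/-! # MP_6d7bb4, plan G, block KBLK: blocks -/

namespace Pool.Agent.Work.MP_6d7bb4.h65u

open MulAction
open Pool.Agent.Work.MP_6d7bb4.helper94 Pool.Agent.Work.MP_6d7bb4.helper94.Sol
open Tv Ff Ps

namespace X_KBLK

theorem cj1 {A : Type*} [Group A] (K : Subgroup A) : cj (1 : A) K = K := by
  ext a
  rw [mem_cj, inv_one, one_mul, mul_one]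

end X_KBLK

theorem s_KBLK (hKPY : Stmt_KPY) (hKPE : Stmt_KPE) (hKCMV : Stmt_KCMV) (hKGNV : Stmt_KGNV)
    (hKTRV : Stmt_KTRV) (hKNCV : Stmt_KNCV) : Stmt_KBLK := by
  intro V G _ _ Γ d p _ x W S R Bm U _ _ ψ 𝒦 t e f hKB C hC hCn htg Z hZ
  obtain ⟨q1, q2, q3, q4, q5, q6⟩ := hKPE V G Γ d p x W S R Bm U ψ 𝒦 t e f hKB
  have r1 : ∀ y, Γ.Adj x y → ∀ T : Set (Subgroup (Un U)), S ≤ Pk Bm ψ 𝒦 T y ∧
      Pk Bm ψ 𝒦 T y ≤ Bm y :=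
    fun y hy => (hKPY V G Γ d p x W S R Bm U ψ 𝒦 t e f hKB y hy).1
  have hcjP : ∀ g : stabilizer G x, (∀ K ∈ 𝒦, cj (ψ g) K = K) → ∀ y, Γ.Adj x y →
      Pk Bm ψ 𝒦 C (g.1 • y) = cj g.1 (Pk Bm ψ 𝒦 C y) ∧
      Pk Bm ψ 𝒦 (𝒦 \ C) (g.1 • y) = cj g.1 (Pk Bm ψ 𝒦 (𝒦 \ C) y) :=
    fun g hg y hy => ⟨q2 y hy g hg C hC, q2 y hy g hg (𝒦 \ C) Set.sdiff_subset⟩
  have hgen := fun (y : V) (hy : Γ.Adj x y) =>
    hKGNV V G Γ d p x W S R Bm U ψ 𝒦 t e f hKB C hC y hy (htg y hy).1 (htg y hy).2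
  exact {
    SP := fun y hy => (r1 y hy _).1
    PB := fun y hy => (r1 y hy _).2
    SPc := fun y hy => (r1 y hy _).1
    PcB := fun y hy => (r1 y hy _).2
    sup := fun y hy => (hgen y hy).1
    cjJ := by
      intro z hz g hg y hy
      have hgx : g ∈ stabilizer G x := Qe_le_st x z (hKB.vs.BQ z hz hg)
      exact hcjP ⟨g, hgx⟩ (q3 z hz ⟨g, hgx⟩ hg) y hy
    cjC := by
      intro g hg y hy
      obtain ⟨hgx, -⟩ := mem_Cg.mp hg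
      have h1 : ψ ⟨g, hgx⟩ = 1 := q4 ⟨g, hgx⟩ hg
      refine hcjP ⟨g, hgx⟩ ?_ y hy
      intro K _
      rw [h1]
      exact X_KBLK.cj1 K
    cmV := fun y y' hy hy' a ha b hb v hv =>
      hKCMV V G Γ d p x W S R Bm U ψ 𝒦 t e f hKB C hC htg y y' hy hy' a ha b hb v hv
    gen := fun y hy => (hgen y hy).2
    tr := fun y y' hy hy' =>
      hKTRV V G Γ d p x W S R Bm U ψ 𝒦 t e f hKB C hC hCn y y' hy hy'
    nc := by
      intro y' hy'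
      obtain ⟨y, hy, a, ha, v, hv, h1⟩ :=
        hKNCV V G Γ d p x W S R Bm U ψ 𝒦 t e f hKB C hC hCn y' hy'
      refine ⟨y, hy, a, ha, v, hv, ?_⟩
      rw [hZ y' hy']
      exact h1 }

end Pool.Agent.Work.MP_6d7bb4.h65u
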