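import Pool.Agent.Work.MP_6d7bb4_G.InterfaceM

set_option autoImplicit false
set_option linter.unusedSectionVars false

/-!
# MP_6d7bb4, plan G: block KCE (elements of `Q` which fix the fixed points of the transvections)
-/

namespace Pool.Agent.Work.MP_6d7bb4.h65u

open MulAction
open Pool.Agent.Work.MP_6d7bb4.helper94 Pool.Agent.Work.MP_6d7bb4.helper94.Sol
open Tv Ff Ps

namespace X_KCE

/-- a vector fixed by a set is fixed by the generated group -/
theorem fix_closure {U : Type} [AddCommGroup U] (S : Set (Un U)) (u : U)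
    (h : ∀ s ∈ S, (s : AddMonoid.End U) u = u) :
    ∀ a ∈ Subgroup.closure S, (a : AddMonoid.End U) u = u := by
  intro a ha
  induction ha using Subgroup.closure_induction with
  | mem x hx => exact h x hx
  | one => rfl
  | mul x y _ _ hx hy => rw [mul_ap, hy, hx]
  | inv x _ hx =>
    have h1 := inv_ap x u
    rw [hx] at h1
    exact h1

/-- a `p`-element which maps `s` to a power of `s` commutes with `s` -/
theorem comm_of_zpow {G : Type*} [Group G] {p : ℕ} [Fact p.Prime] {b s : G} {k : ℕ}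
    (hk : b ^ p ^ k = 1) (hs : s ^ p = 1) (h : b * s * b⁻¹ ∈ Subgroup.zpowers s) :
    b * s = s * b := by
  obtain ⟨n, hn⟩ := Subgroup.mem_zpowers_iff.mp h
  have h1 : ∀ j : ℕ, b ^ j * s * (b ^ j)⁻¹ = s ^ (n ^ j) := by
    intro j
    induction j with
    | zero => rw [pow_zero, pow_zero, one_mul, inv_one, mul_one, zpow_one]
    | succ j ih =>
      have e1 : b ^ (j + 1) * s * (b ^ (j + 1))⁻¹ = b * (b ^ j * s * (b ^ j)⁻¹) * b⁻¹ := by
        rw [pow_succ', mul_inv_rev]
        group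
      rw [e1, ih, ← conj_zpow, ← hn, ← zpow_mul, ← pow_succ']
  have h2 := h1 (p ^ k)
  rw [hk, one_mul, inv_one, mul_one] at h2
  have h3 : ((p : ℕ) : ℤ) ∣ n ^ p ^ k - n := by
    rw [← ZMod.intCast_zmod_eq_zero_iff_dvd]
    push_cast
    rw [ZMod.pow_card_pow, sub_self]
  obtain ⟨c, hc⟩ := h3
  have h4 : s ^ (n ^ p ^ k) = s ^ n := by
    have e2 : n ^ p ^ k = n + (p : ℤ) * c := by
      rw [← hc]
      ring
    rw [e2, zpow_add, zpow_mul, zpow_natCast, hs, one_zpow, mul_one]
  have h5 : b * s * b⁻¹ = s := by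
    rw [← hn, ← h4, ← h2]
  calc b * s = b * s * b⁻¹ * b := by group
    _ = s * b := by rw [h5]

/-- the group generated by commuting elements of order `p` -/
theorem el_closure {G : Type*} [Group G] {p : ℕ} (S : Set G)
    (hc : ∀ a ∈ S, ∀ b ∈ S, a * b = b * a) (hp : ∀ a ∈ S, a ^ p = 1) :
    El p (Subgroup.closure S) := by
  have h1 : Subgroup.closure S ≤ Subgroup.centralizer S := by
    rw [Subgroup.closure_le]
    intro a ha
    show a ∈ Subgroup.centralizer S
    rw [Subgroup.mem_centralizer_iff]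
    intro c hcS
    exact hc c hcS a ha
  have h2 : Subgroup.closure S ≤ Subgroup.centralizer (Subgroup.closure S : Set G) := by
    rw [Subgroup.closure_le]
    intro a ha
    show a ∈ Subgroup.centralizer _
    rw [Subgroup.mem_centralizer_iff]
    intro c hcS
    have h3 := h1 hcS
    rw [Subgroup.mem_centralizer_iff] at h3
    exact (h3 a ha).symm
  have hcm : ∀ a ∈ Subgroup.closure S, ∀ b ∈ Subgroup.closure S, a * b = b * a := by
    intro a ha b hb
    have h3 := h2 hb
    rw [Subgroup.mem_centralizer_iff] at h3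
    exact h3 a ha
  refine ⟨hcm, fun a ha => ?_⟩
  induction ha using Subgroup.closure_induction with
  | mem x hx => exact hp x hx
  | one => exact one_pow p
  | mul x y hx hy ihx ihy =>
    rw [(show Commute x y from hcm x hx y hy).mul_pow, ihx, ihy, mul_one]
  | inv x _ ih => rw [inv_pow, ih, inv_one]

end X_KCE

open X_KCE in
theorem s_KCE (hFAB : Stmt_FAB) (hKTV : Stmt_KTV) (hKUN : Stmt_KUN) (hKLE : Stmt_KLE)
    (hKGT : Stmt_KGT) : Stmt_KCE := by
  intro U _ p _ _ Z 𝒦 Q Zq hE hQ b hb hfix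
  have hfin : Finite U := hE.fin
  obtain ⟨m1, m2, m3, -⟩ := hKUN U p Z 𝒦 Q Zq hE hQ
  obtain ⟨g1, g2⟩ := hKGT U p Z 𝒦 Q Zq hE hQ (Tq p Q) (le_refl _)
  have hbZ : b ∈ Z := hQ.QZ hb
  obtain ⟨k, hk⟩ := hQ.Qp ⟨b, hb⟩
  have hk' : b ^ p ^ k = 1 := by
    have := congrArg Subtype.val hk
    simpa using this
  -- (i) centres are fixed
  have hcen : ∀ (s : Un U) (e1 : U) (f1 : U →+ ZMod p), s ∈ Q → TV s e1 f1 →
      (b : AddMonoid.End U) e1 = e1 := by
    intro s e1 f1 hs hTV
    apply hfix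
    apply fix_closure
    rintro s' ⟨hs', e2, f2, hTV'⟩
    have h1 := (m3 s ⟨hs, e1, f1, hTV⟩ s' ⟨hs', e2, f2, hTV'⟩).2 e1 e2 f1 f2 hTV hTV'
    rw [hTV'.ap, h1, zero_smul, add_zero]
  -- (ii) `b` commutes with the transvections
  have hcomT : ∀ s ∈ Tq p Q, b * s = s * b := by
    rintro s ⟨hs, e1, f1, hTV⟩
    have hsT : s ∈ Tq p Q := ⟨hs, e1, f1, hTV⟩
    have hsZ : s ∈ Z := hQ.QZ hs
    have hbe := hcen s e1 f1 hs hTV
    have hTV1 := hTV.conj b
    have hs1Q : b * s * b⁻¹ ∈ Q := Q.mul_mem (Q.mul_mem hb hs) (Q.inv_mem hb)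
    have hs1T : b * s * b⁻¹ ∈ Tq p Q := ⟨hs1Q, _, _, hTV1⟩
    obtain ⟨K, hK, hnK, -⟩ := m1 s hsT
    have hnK1 : ¬ Cm (cj b K) (b * s * b⁻¹) := by
      intro h
      apply hnK
      intro x hx
      have h1 := h (b * x * b⁻¹) (conj_mem_cj hx)
      have h2 : b * (s * x) * b⁻¹ = b * (x * s) * b⁻¹ := by
        calc b * (s * x) * b⁻¹ = b * s * b⁻¹ * (b * x * b⁻¹) := by group
          _ = b * x * b⁻¹ * (b * s * b⁻¹) := h1
          _ = b * (x * s) * b⁻¹ := by group
      exact mul_left_cancel (mul_right_cancel h2)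
    have hcj : cj b K = K := by
      by_contra hne
      have hcjK : cj b K ∈ 𝒦 := hE.cl K hK b hbZ
      have h1 := (hKTV U p Z 𝒦 hE (b * s * b⁻¹) (hQ.QZ hs1Q) ⟨_, _, hTV1⟩).2 K hK (cj b K) hcjK
        (Ne.symm hne)
      have hCm : Cm K (b * s * b⁻¹) := h1.resolve_right hnK1
      refine hE.ne K hK ((hFAB U p K s e1 f1 hTV (hE.pf K hK) (hE.qs K hK s hsZ
        ((hKTV U p Z 𝒦 hE s hsZ ⟨_, _, hTV⟩).1 K hK) hnK)).1 (fun x hx => ?_))
      have h2 : x * (b * s * b⁻¹) * x⁻¹ = b * s * b⁻¹ := by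
        rw [← hCm x hx, mul_inv_cancel_right]
      have h3 := hTV1.conj x
      rw [h2, hbe] at h3
      rw [hbe] at hTV1
      obtain ⟨c, -, hc, -⟩ := hTV1.uniq h3
      exact ⟨c, hc⟩
    rw [hcj] at hnK1
    exact comm_of_zpow hk' hTV.pow_p (m2 s hsT _ hs1T K hK hnK hnK1)
  -- (iii) `b ^ p = 1`
  have hbb : ∀ v : U, (b : AddMonoid.End U) ((b : AddMonoid.End U) v - v) =
      (b : AddMonoid.End U) v - v := by
    intro v
    apply hfix
    apply fix_closure
    rintro s ⟨hs, e1, f1, hTV⟩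
    have hbe := hcen s e1 f1 hs hTV
    have h1 : (s : AddMonoid.End U) ((b : AddMonoid.End U) v) =
        (b : AddMonoid.End U) ((s : AddMonoid.End U) v) := by
      rw [← mul_ap, ← hcomT s ⟨hs, e1, f1, hTV⟩, mul_ap]
    rw [map_sub, h1, hTV.ap v, map_add, smul_map, hbe]
    abel
  have hbp : b ^ p = 1 := by
    have hp0 : ((p : ℕ) : AddMonoid.End U) = 0 := by
      ext w
      rw [AddMonoid.End.natCast_apply, ← Nat.cast_smul_eq_nsmul (ZMod p), ZMod.natCast_self,
        zero_smul]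
      rfl
    refine Qd.pow_p (Λ := AddMonoid.End U) (u := (b : AddMonoid.End U) - 1) (by abel) ?_ hp0
    refine AddMonoidHom.ext (fun w => ?_)
    show (b : AddMonoid.End U) ((b : AddMonoid.End U) w - w) -
      ((b : AddMonoid.End U) w - w) = 0
    rw [hbb, sub_self]
  -- (iv)
  have hA : El p (Subgroup.closure (Tq p Q ∪ {b})) := by
    refine el_closure _ ?_ ?_
    · rintro x (hx | hx) y (hy | hy)
      · exact g1.cm x (Subgroup.subset_closure hx) y (Subgroup.subset_closure hy)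
      · rw [Set.mem_singleton_iff.1 hy]
        exact (hcomT x hx).symm
      · rw [Set.mem_singleton_iff.1 hx]
        exact hcomT y hy
      · rw [Set.mem_singleton_iff.1 hx, Set.mem_singleton_iff.1 hy]
    · rintro x (hx | hx)
      · exact g1.ex x (Subgroup.subset_closure hx)
      · rw [Set.mem_singleton_iff.1 hx]
        exact hbp
  have hAQ : Subgroup.closure (Tq p Q ∪ {b}) ≤ Q := by
    rw [Subgroup.closure_le]
    rintro x (hx | hx)
    · exact hx.1
    · rw [Set.mem_singleton_iff.1 hx]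
      exact hb
  have hPA : Pq p Q ≤ Subgroup.closure (Tq p Q ∪ {b}) :=
    Subgroup.closure_mono Set.subset_union_left
  have hFx : FxU (Subgroup.closure (Tq p Q ∪ {b})) = FxU (Pq p Q) := by
    apply le_antisymm (FxU_anti hPA)
    intro u hu a ha
    refine fix_closure _ u ?_ a ha
    rintro s (hs | hs)
    · exact hu s (Subgroup.subset_closure hs)
    · rw [Set.mem_singleton_iff.1 hs]
      exact hfix u hu
  have h1 := (hKLE U p Z 𝒦 Q Zq hE hQ _ hAQ hA).1
  rw [hFx] at h1
  have h2 : Nat.card (Pq p Q) * Nat.card (FxU (Pq p Q)) = Nat.card U := g2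
  have hpos : 0 < Nat.card (FxU (Pq p Q)) := Nat.card_pos
  have h3 : Nat.card (Subgroup.closure (Tq p Q ∪ {b})) ≤ Nat.card (Pq p Q) :=
    Nat.le_of_mul_le_mul_right (h1.trans h2.ge) hpos
  have hfE : Finite (AddMonoid.End U) :=
    Finite.of_injective (fun φ : AddMonoid.End U => (φ : U → U)) DFunLike.coe_injective
  have hfU : Finite (Un U) := inferInstance
  have hfinA : Finite (Subgroup.closure (Tq p Q ∪ {b})) := inferInstance
  have h4 : Pq p Q = Subgroup.closure (Tq p Q ∪ {b}) := Subgroup.eq_of_le_of_card_ge hPA h3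
  rw [h4]
  exact Subgroup.subset_closure (Or.inr rfl)

end Pool.Agent.Work.MP_6d7bb4.h65u
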