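import Pool.Agent.Work.MP_6d7bb4_G.InterfaceV

set_option autoImplicit false
set_option linter.unusedSectionVars false

/-! # Block KCMV: the two groups of a block commute on `W` -/

namespace Pool.Agent.Work.MP_6d7bb4.h65u

open MulAction
open Pool.Agent.Work.MP_6d7bb4.helper94 Pool.Agent.Work.MP_6d7bb4.helper94.Sol
open Tv Ff Ps

namespace X_KCMV

/-- one half: the commutators of `Pk 𝒞₁ y₁` with `W` are fixed by `Pk 𝒞₂ y₂` -/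
theorem half (hQDC : Stmt_QDC) (hKDJ : Stmt_KDJ) (hKUN : Stmt_KUN) (hKMI : Stmt_KMI)
    (hKCP : Stmt_KCP) (hKPY : Stmt_KPY) (hKTG1 : Stmt_KTG1)
    (V G : Type) [Group G] [MulAction G V] (Γ : SimpleGraph V) (d p : ℕ)
    [Fact p.Prime] (x : V) (W S R : Subgroup G) (Bm : V → Subgroup G) (U : Type)
    [AddCommGroup U] [Module (ZMod p) U] (ψ : stabilizer G x →* Un U)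
    (𝒦 : Set (Subgroup (Un U))) (t : Un U) (e : U) (f : U →+ ZMod p)
    (h : KB Γ d p x W S R Bm ψ 𝒦 t e f) (𝒞₁ 𝒞₂ : Set (Subgroup (Un U)))
    (hC : ∀ K ∈ 𝒦, K ∉ 𝒦 \ 𝒞₁ → K ∈ 𝒦 \ 𝒞₂) (y₁ y₂ : V) (hy₁ : Γ.Adj x y₁) (hy₂ : Γ.Adj x y₂)
    (ht₁ : Tg W S (Pk Bm ψ 𝒦 𝒞₁ y₁)) (ht₂ : Tg W S (Pk Bm ψ 𝒦 𝒞₂ y₂)) :
    ∀ a ∈ Pk Bm ψ 𝒦 𝒞₁ y₁, ∀ b ∈ Pk Bm ψ 𝒦 𝒞₂ y₂, ∀ v ∈ W,
      b * (a * v * a⁻¹ * v⁻¹) * b⁻¹ = a * v * a⁻¹ * v⁻¹ := by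
  have hke := h.vs.ve.ke
  have hkq : ∀ y, Γ.Adj x y → KQ p ψ.range 𝒦 (im ψ (Qe p x y)) (im ψ (B x y)) := h.vs.ve.kq
  have htZ : t ∈ ψ.range := by
    obtain ⟨y0, _, q, _, hq⟩ := h.vs.tQ
    exact ⟨q, hq⟩
  have hle : ∀ (𝒞 : Set (Subgroup (Un U))) (y : V), Γ.Adj x y →
      S ≤ Pk Bm ψ 𝒦 𝒞 y ∧ Pk Bm ψ 𝒦 𝒞 y ≤ Bm y := fun 𝒞 y hy =>
    (hKPY V G Γ d p x W S R Bm U ψ 𝒦 t e f h y hy).1 𝒞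
  have hst : ∀ (𝒞 : Set (Subgroup (Un U))) (y : V), Γ.Adj x y →
      Pk Bm ψ 𝒦 𝒞 y ≤ stabilizer G x :=
    fun 𝒞 y hy => ((hle 𝒞 y hy).2.trans (h.vs.BQ y hy)).trans (Qe_le_st x y)
  have htg : ∀ (𝒞 : Set (Subgroup (Un U))) (y : V), Γ.Adj x y → Tg W S (Pk Bm ψ 𝒦 𝒞 y) →
      Nat.card W * Nat.card (FxU (im ψ (Pk Bm ψ 𝒦 𝒞 y))) ≤
        Nat.card U * Nat.card (Cw W (Pk Bm ψ 𝒦 𝒞 y)) := fun 𝒞 y hy ht =>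
    ((hKTG1 V G Γ d p x W S R Bm U ψ 𝒦 t e f h y hy _ (hle 𝒞 y hy).1 (hle 𝒞 y hy).2).2 ht).2
  have him : ∀ (𝒞 : Set (Subgroup (Un U))) (y : V), Γ.Adj x y → ∀ a : stabilizer G x,
      a.1 ∈ Pk Bm ψ 𝒦 𝒞 y → ψ a ∈ Pq p (im ψ (Qe p x y)) ⊓ Cz (𝒦 \ 𝒞) := by
    intro 𝒞 y hy a ha
    rw [← (hKPY V G Γ d p x W S R Bm U ψ 𝒦 t e f h y hy).2.1 𝒞]
    exact mem_im'.mpr ⟨a, ha, rfl⟩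
  have hcl : ∀ (𝒞 : Set (Subgroup (Un U))) (y : V), Γ.Adj x y → ∀ a : stabilizer G x,
      a.1 ∈ Pk Bm ψ 𝒦 𝒞 y → ψ a ∈ Subgroup.closure
        {s | s ∈ Tq p (im ψ (Qe p x y)) ∧ ∀ K ∈ 𝒦 \ 𝒞, Cm K s} := by
    intro 𝒞 y hy a ha
    obtain ⟨h1, h2⟩ := him 𝒞 y hy a ha
    exact (hKCP U p ψ.range 𝒦 _ _ hke (hkq y hy)).1 (𝒦 \ 𝒞) Set.sdiff_subset (ψ a) h1 h2
  obtain ⟨hm1, hm2, hm3⟩ := hKMI U p ψ.range 𝒦 t e f hke h.vs.tv htZ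
  have hcon : ∀ y, Γ.Adj x y → ∃ g ∈ ψ.range, g * t * g⁻¹ ∈ im ψ (Qe p x y) := by
    intro y hy
    obtain ⟨y0, hy0, hq0⟩ := h.vs.tQ
    obtain ⟨q, hq, hqt⟩ := mem_im'.mp hq0
    obtain ⟨g, hg1, hg2⟩ := h.loc.arc x y0 x y hy0 hy
    have hgs : g ∈ stabilizer G x := hg1
    refine ⟨ψ ⟨g, hgs⟩, ⟨_, rfl⟩, ?_⟩
    rw [mem_im']
    refine ⟨⟨g, hgs⟩ * q * ⟨g, hgs⟩⁻¹, ?_, ?_⟩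
    · have h1 : g * q.1 * g⁻¹ ∈ cj g (Qe p x y0) := conj_mem_cj hq
      rw [← Qe_cj, hg1, hg2] at h1
      exact h1
    · rw [map_mul, map_mul, map_inv, hqt]
  have hsc : ∀ (𝒞 : Set (Subgroup (Un U))) (y : V), Γ.Adj x y → ∀ a : stabilizer G x,
      a.1 ∈ Pk Bm ψ 𝒦 𝒞 y → ∀ u : U, (ψ a : AddMonoid.End U) u - u ∈ Sc ψ.range e :=
    fun 𝒞 y hy a ha u => hm3 _ _ (hkq y hy) (hcon y hy) (ψ a) (him 𝒞 y hy a ha).1 u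
  have hTZ : ∀ y, Γ.Adj x y → ∀ s ∈ Tq p (im ψ (Qe p x y)), s ∈ ψ.range := by
    intro y _ s hs
    obtain ⟨q, _, hq⟩ := mem_im'.mp hs.1
    exact ⟨q, hq⟩
  refine h.md.tt (Pk Bm ψ 𝒦 𝒞₁ y₁) (Pk Bm ψ 𝒦 𝒞₂ y₂) (hst 𝒞₁ y₁ hy₁) (hst 𝒞₂ y₂ hy₂)
    (htg 𝒞₁ y₁ hy₁ ht₁) (htg 𝒞₂ y₂ hy₂ ht₂) (Sc ψ.range e) hm1 hm2 (hsc 𝒞₁ y₁ hy₁)
    (hsc 𝒞₂ y₂ hy₂) ?_
  intro a b ha hb u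
  refine hQDC U p {s | s ∈ Tq p (im ψ (Qe p x y₁)) ∧ ∀ K ∈ 𝒦 \ 𝒞₁, Cm K s}
    {s | s ∈ Tq p (im ψ (Qe p x y₂)) ∧ ∀ K ∈ 𝒦 \ 𝒞₂, Cm K s}
    (fun s hs => hs.1.2) (fun s hs => hs.1.2) ?_ (ψ a) (hcl 𝒞₁ y₁ hy₁ a ha) (ψ b)
    (hcl 𝒞₂ y₂ hy₂ b hb) u
  intro s hs s' hs' e1 e2 f1 f2 htv htv'
  obtain ⟨K, hK, hK1, -⟩ := (hKUN U p ψ.range 𝒦 _ _ hke (hkq y₁ hy₁)).1 s hs.1
  have hK2 : K ∉ 𝒦 \ 𝒞₁ := fun hh => hK1 (hs.2 K hh)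
  exact hKDJ U p ψ.range 𝒦 hke s s' e1 e2 f1 f2 htv htv' (hTZ y₁ hy₁ s hs.1)
    (hTZ y₂ hy₂ s' hs'.1) K hK hK1 (hs'.2 K (hC K hK hK2))

end X_KCMV

theorem s_KCMV (hQDC : Stmt_QDC) (hKDJ : Stmt_KDJ) (hKUN : Stmt_KUN) (hKMI : Stmt_KMI)
    (hKCP : Stmt_KCP) (hKPY : Stmt_KPY) (hKTG1 : Stmt_KTG1) : Stmt_KCMV := by
  intro V G _ _ Γ d p _ x W S R Bm U _ _ ψ 𝒦 t e f h 𝒞 h𝒞 hT y y' hy hy' a ha b hb v hv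
  have h1 := X_KCMV.half hQDC hKDJ hKUN hKMI hKCP hKPY hKTG1 V G Γ d p x W S R Bm U ψ 𝒦 t e
    f h 𝒞 (𝒦 \ 𝒞) (fun K hK h1 => ⟨hK, fun h2 => h1 h2⟩) y y' hy hy' (hT y hy).1 (hT y' hy').2
    a ha b hb v hv
  have h2 := X_KCMV.half hQDC hKDJ hKUN hKMI hKCP hKPY hKTG1 V G Γ d p x W S R Bm U ψ 𝒦 t e
    f h (𝒦 \ 𝒞) 𝒞 (fun K hK h1 => ⟨hK, fun h2 => h1 ⟨hK, fun h3 => h3.2 h2⟩⟩) y' y hy' hy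
    (hT y' hy').2 (hT y hy).1 b hb a ha v hv
  have hle : ∀ (𝒞 : Set (Subgroup (Un U))) (y : V), Γ.Adj x y →
      S ≤ Pk Bm ψ 𝒦 𝒞 y ∧ Pk Bm ψ 𝒦 𝒞 y ≤ Bm y := fun 𝒞 y hy =>
    (hKPY V G Γ d p x W S R Bm U ψ 𝒦 t e f h y hy).1 𝒞
  have hst : ∀ (𝒞 : Set (Subgroup (Un U))) (y : V), Γ.Adj x y →
      Pk Bm ψ 𝒦 𝒞 y ≤ stabilizer G x :=
    fun 𝒞 y hy => ((hle 𝒞 y hy).2.trans (h.vs.BQ y hy)).trans (Qe_le_st x y)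
  have hW : ∀ g ∈ stabilizer G x, g * v * g⁻¹ * v⁻¹ ∈ W := fun g hg =>
    W.mul_mem (h.vs.Wn g hg v hv) (W.inv_mem hv)
  have hcm := h.vs.Wel.cm _ (hW a (hst 𝒞 y hy ha)) _ (hW b (hst (𝒦 \ 𝒞) y' hy' hb))
  calc a * (b * v * b⁻¹) * a⁻¹
      = (a * (b * v * b⁻¹ * v⁻¹) * a⁻¹) * (a * v * a⁻¹ * v⁻¹) * v := by group
    _ = (b * v * b⁻¹ * v⁻¹) * (a * v * a⁻¹ * v⁻¹) * v := by rw [h2]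
    _ = (a * v * a⁻¹ * v⁻¹) * (b * v * b⁻¹ * v⁻¹) * v := by rw [hcm]
    _ = (b * (a * v * a⁻¹ * v⁻¹) * b⁻¹) * (b * v * b⁻¹ * v⁻¹) * v := by rw [h1]
    _ = b * (a * v * a⁻¹) * b⁻¹ := by group

end Pool.Agent.Work.MP_6d7bb4.h65u
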