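import Pool.Agent.Work.MP_6d7bb4_G.InterfaceM

set_option autoImplicit false
set_option linter.unusedSectionVars false

/-! Block KCP of plan G (helper24). -/

namespace Pool.Agent.Work.MP_6d7bb4.h65u

open MulAction
open Pool.Agent.Work.MP_6d7bb4.helper94 Pool.Agent.Work.MP_6d7bb4.helper94.Sol
open Tv Ff Ps

namespace X_KCP

/-- a closure generated by two commuting kinds of elements -/
theorem split {G : Type*} [Group G] (T S1 S2 : Set G) (hT : T ⊆ S1 ∪ S2)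
    (hc : ∀ a ∈ Subgroup.closure S1, ∀ b ∈ Subgroup.closure S2, a * b = b * a) :
    ∀ a ∈ Subgroup.closure T, ∃ b ∈ Subgroup.closure S1, ∃ c ∈ Subgroup.closure S2,
      a = b * c := by
  intro a ha
  induction ha using Subgroup.closure_induction with
  | mem x hx =>
    rcases hT hx with h | h
    · exact ⟨x, Subgroup.subset_closure h, 1, one_mem _, by simp⟩
    · exact ⟨1, one_mem _, x, Subgroup.subset_closure h, by simp⟩
  | one => exact ⟨1, one_mem _, 1, one_mem _, by simp⟩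
  | mul x y _ _ hx hy =>
    obtain ⟨b, hb, c, hc', rfl⟩ := hx
    obtain ⟨b', hb', c', hc'', rfl⟩ := hy
    refine ⟨b * b', mul_mem hb hb', c * c', mul_mem hc' hc'', ?_⟩
    have h1 := hc b' hb' c hc'
    calc b * c * (b' * c') = b * (c * b') * c' := by group
      _ = b * (b' * c) * c' := by rw [h1]
      _ = b * b' * (c * c') := by group
  | inv x _ hx =>
    obtain ⟨b, hb, c, hc', rfl⟩ := hx
    refine ⟨b⁻¹, inv_mem hb, c⁻¹, inv_mem hc', ?_⟩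
    rw [mul_inv_rev]
    exact (hc b⁻¹ (inv_mem hb) c⁻¹ (inv_mem hc')).symm

end X_KCP

open X_KCP in
theorem s_KCP (hU : Stmt_KUN) (hG : Stmt_KGT) : Stmt_KCP := by
  intro U _ p _ _ Z 𝒦 Q Zq hE hQ
  obtain ⟨u1, u2, -, -⟩ := hU U p Z 𝒦 Q Zq hE hQ
  have hel : El p (Pq p Q) := (hG U p Z 𝒦 Q Zq hE hQ (Tq p Q) (fun _ h => h)).1
  have hPQ : Pq p Q ≤ Q := (Subgroup.closure_le _).2 fun s hs => hs.1
  have c1 : ∀ 𝒟 ⊆ 𝒦, ∀ a ∈ Pq p Q, a ∈ Cz 𝒟 →
      a ∈ Subgroup.closure {s | s ∈ Tq p Q ∧ ∀ K ∈ 𝒟, Cm K s} := by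
    intro 𝒟 h𝒟 a ha haD
    set S1 : Set (Un U) := {s | s ∈ Tq p Q ∧ ∀ K ∈ 𝒟, Cm K s} with hS1
    set S2 : Set (Un U) := {s | s ∈ Tq p Q ∧ ∀ K ∈ 𝒦 \ 𝒟, Cm K s} with hS2
    have hT : Tq p Q ⊆ S1 ∪ S2 := by
      intro s hs
      obtain ⟨K, hK, -, hK2⟩ := u1 s hs
      by_cases hKD : K ∈ 𝒟
      · right
        refine ⟨hs, fun L hL => hK2 L hL.1 ?_⟩
        rintro rfl
        exact hL.2 hKD
      · left
        refine ⟨hs, fun L hL => hK2 L (h𝒟 hL) ?_⟩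
        rintro rfl
        exact hKD hL
    have e1 : Subgroup.closure S1 ≤ Pq p Q := Subgroup.closure_mono fun s hs => hs.1
    have e2 : Subgroup.closure S2 ≤ Pq p Q := Subgroup.closure_mono fun s hs => hs.1
    have f1 : Subgroup.closure S1 ≤ Cz 𝒟 := (Subgroup.closure_le _).2 fun s hs =>
      mem_Cz.2 hs.2
    have f2 : Subgroup.closure S2 ≤ Cz (𝒦 \ 𝒟) := (Subgroup.closure_le _).2 fun s hs =>
      mem_Cz.2 hs.2
    obtain ⟨b, hb, c, hc, rfl⟩ := split (Tq p Q) S1 S2 hT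
      (fun a ha b hb => hel.cm a (e1 ha) b (e2 hb)) a ha
    have h1 : c ∈ Cz 𝒟 := by
      have := mul_mem (inv_mem (f1 hb)) haD
      rwa [inv_mul_cancel_left] at this
    have h2 : c = 1 := by
      refine hQ.fa c (hPQ (e2 hc)) fun K hK => ?_
      by_cases hKD : K ∈ 𝒟
      · exact mem_Cz.1 h1 K hKD
      · exact mem_Cz.1 (f2 hc) K ⟨hK, hKD⟩
    rw [h2, mul_one]
    exact hb
  refine ⟨c1, ?_, ?_, ?_⟩
  · rintro 𝒟 h𝒟 𝒟' h𝒟' a ⟨ha, haD⟩
    have h1 := c1 (𝒟 ∩ 𝒟') (fun K hK => h𝒟 hK.1) a ha haD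
    refine (Subgroup.closure_le _).2 ?_ h1
    rintro s ⟨hs, hsD⟩
    obtain ⟨K, hK, hKs, hK2⟩ := u1 s hs
    by_cases hKD : K ∈ 𝒟
    · refine Subgroup.mem_sup_right (Subgroup.mem_inf.2 ⟨Subgroup.subset_closure hs,
        mem_Cz.2 fun L hL => hK2 L (h𝒟' hL) ?_⟩)
      rintro rfl
      exact hKs (hsD L ⟨hKD, hL⟩)
    · refine Subgroup.mem_sup_left (Subgroup.mem_inf.2 ⟨Subgroup.subset_closure hs,
        mem_Cz.2 fun L hL => hK2 L (h𝒟 hL) ?_⟩)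
      rintro rfl
      exact hKD hL
  · intro A hA hA2 a ha haD
    have h1 := c1 {K ∈ 𝒦 | ∀ b ∈ A, Cm K b} (fun K hK => hK.1) a ha haD
    refine (Subgroup.closure_le _).2 ?_ h1
    rintro s ⟨hs, hsD⟩
    obtain ⟨K, hK, hKs, -⟩ := u1 s hs
    have h2 : ∃ s' ∈ Tq p A, ¬ Cm K s' := by
      by_contra hcon
      push Not at hcon
      refine hKs (hsD K ⟨hK, ?_⟩)
      intro b hb
      rw [hA2] at hb
      have h3 : Pq p A ≤ Cz {K} := (Subgroup.closure_le _).2 fun s hs =>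
        mem_Cz.2 fun L hL => by
          rw [Set.mem_singleton_iff] at hL
          rw [hL]
          exact hcon s hs
      exact mem_Cz.1 (h3 hb) K rfl
    obtain ⟨s', hs', hKs'⟩ := h2
    have h3 : s' ∈ Tq p Q := ⟨hPQ (hA hs'.1), hs'.2⟩
    exact (Subgroup.zpowers_le.2 hs'.1) (u2 s' h3 s hs K hK hKs' hKs)
  · intro a ha haD
    exact hQ.fa a (hPQ ha) (mem_Cz.1 haD)

end Pool.Agent.Work.MP_6d7bb4.h65u
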