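import Pool.Agent.Work.MP_6d7bb4_G.InterfaceM

set_option autoImplicit false
set_option linter.unusedSectionVars false

/-! # Block KDJ (helper84): transvections acting on different members -/

namespace Pool.Agent.Work.MP_6d7bb4.h65u

open MulAction
open Pool.Agent.Work.MP_6d7bb4.helper94 Pool.Agent.Work.MP_6d7bb4.helper94.Sol
open Tv Ff Ps

namespace X_KDJ

/-- the automorphisms which leave a functional invariant -/
def K1 {U : Type*} [AddCommGroup U] {p : ℕ} (f : U →+ ZMod p) : Subgroup (Un U) where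
  carrier := {x | ∀ v, f ((x : AddMonoid.End U) v) = f v}
  one_mem' := fun _ => rfl
  mul_mem' := by
    intro a b ha hb v
    rw [mul_ap, ha, hb]
  inv_mem' := by
    intro a ha v
    have h := ha (((a⁻¹ : Un U) : AddMonoid.End U) v)
    rw [ap_inv] at h
    exact h.symm

/-- the automorphisms which act trivially on a subgroup -/
def K2 {U : Type*} [AddCommGroup U] (S : AddSubgroup U) : Subgroup (Un U) where
  carrier := {x | ∀ v ∈ S, (x : AddMonoid.End U) v = v}
  one_mem' := fun _ _ => rfl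
  mul_mem' := by
    intro a b ha hb v hv
    rw [mul_ap, hb v hv, ha v hv]
  inv_mem' := by
    intro a ha v hv
    have h := ha v hv
    have h2 := inv_ap a v
    rw [h] at h2
    exact h2

end X_KDJ

open X_KDJ

theorem s_KDJ (hKTV : Stmt_KTV) : Stmt_KDJ := by
  intro U _ p _ _ Z 𝒦 hE s s' e e' f f' hs hs' hsZ hs'Z K hK hn hc
  have hcj : cj s K = K := (hKTV U p Z 𝒦 hE s hsZ ⟨e, f, hs⟩).1 K hK
  have h1 : ∀ x ∈ K, ∃ c : ZMod p, ∀ v, f' ((x : AddMonoid.End U) v) = c * f' v := by
    intro x hx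
    have h2 : x * s' * x⁻¹ = s' := by
      rw [← hc x hx]
      group
    have h3 := hs'.conj x
    rw [h2] at h3
    obtain ⟨c, -, -, hc'⟩ := hs'.uniq h3
    refine ⟨c, fun v => ?_⟩
    rw [hc']
    show c * f' (((x⁻¹ : Un U) : AddMonoid.End U) ((x : AddMonoid.End U) v)) = c * f' v
    rw [inv_ap]
  have h2 : K ≤ K1 f' := by
    have h5 : ⁅K, K⁆ ≤ K1 f' := by
      rw [Subgroup.commutator_le]
      intro x hx y hy v
      obtain ⟨c, hx'⟩ := h1 x hx
      obtain ⟨d, hy'⟩ := h1 y hy
      rw [commutatorElement_def, mul_ap, mul_ap, mul_ap, hx', hy']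
      have h6 : v = (y : AddMonoid.End U) ((x : AddMonoid.End U)
          (((x⁻¹ : Un U) : AddMonoid.End U) (((y⁻¹ : Un U) : AddMonoid.End U) v))) := by
        rw [ap_inv, ap_inv]
      conv_rhs => rw [h6, hy', hx']
      ring
    rwa [hE.pf K hK] at h5
  obtain ⟨S, hS⟩ : ∃ S : AddSubgroup U, S = AddSubgroup.closure
    {w | ∃ x ∈ K, ∃ v, w = (x : AddMonoid.End U) v - v} := ⟨_, rfl⟩
  have hSg : ∀ x ∈ K, ∀ v, (x : AddMonoid.End U) v - v ∈ S := by
    intro x hx v
    rw [hS]
    exact AddSubgroup.subset_closure ⟨x, hx, v, rfl⟩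
  have hf0 : ∀ w ∈ S, f' w = 0 := by
    have h3 : S ≤ f'.ker := by
      rw [hS, AddSubgroup.closure_le]
      rintro w ⟨x, hx, v, rfl⟩
      show f' _ = 0
      rw [map_sub, h2 hx v, sub_self]
    exact fun w hw => h3 hw
  have hKS : ∀ x ∈ K, ∀ w ∈ S, (x : AddMonoid.End U) w ∈ S := by
    intro x hx w hw
    have h3 := S.add_mem (hSg x hx w) hw
    rwa [sub_add_cancel] at h3
  have hsS : ∀ w ∈ S, (s : AddMonoid.End U) w ∈ S := by
    have h3 : S ≤ S.comap (s : AddMonoid.End U) := by
      conv_lhs => rw [hS]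
      rw [AddSubgroup.closure_le]
      rintro w ⟨x, hx, v, rfl⟩
      show (s : AddMonoid.End U) ((x : AddMonoid.End U) v - v) ∈ S
      have h4 : s * x * s⁻¹ ∈ K := by
        rw [← hcj]
        exact conj_mem_cj hx
      have h5 : (s : AddMonoid.End U) ((x : AddMonoid.End U) v - v) =
          ((s * x * s⁻¹ : Un U) : AddMonoid.End U) ((s : AddMonoid.End U) v) -
            (s : AddMonoid.End U) v := by
        rw [mul_ap, mul_ap, inv_ap, map_sub]
      rw [h5]
      exact hSg _ h4 _
    exact fun w hw => h3 hw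
  have hne : ∃ w ∈ S, (s : AddMonoid.End U) w ≠ w := by
    by_contra hcon
    push Not at hcon
    have h3 : K ≤ K2 S := by
      refine (hE.qs K hK s hsZ hcj hn).trans ?_
      unfold Cq
      rw [Subgroup.closure_le]
      rintro c ⟨k, hk, rfl⟩
      have hsm : s⁻¹ ∈ K2 S := (K2 S).inv_mem hcon
      have h4 : k * s * k⁻¹ ∈ K2 S := by
        intro w hw
        rw [mul_ap, mul_ap, hcon _ (hKS k⁻¹ (K.inv_mem hk) w hw), ap_inv]
      exact (K2 S).mul_mem h4 hsm
    have h4 : ∀ x ∈ K, ∀ y ∈ K, x * y = y * x := by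
      intro x hx y hy
      apply Units.ext
      refine AddMonoidHom.ext (fun v => ?_)
      show (x : AddMonoid.End U) ((y : AddMonoid.End U) v) =
        (y : AddMonoid.End U) ((x : AddMonoid.End U) v)
      have h5 := h3 hx _ (hSg y hy v)
      have h6 := h3 hy _ (hSg x hx v)
      rw [map_sub] at h5 h6
      have h7 : (x : AddMonoid.End U) ((y : AddMonoid.End U) v) =
          (x : AddMonoid.End U) v + ((y : AddMonoid.End U) v - v) := by
        rw [← h5]
        abel
      have h8 : (y : AddMonoid.End U) ((x : AddMonoid.End U) v) =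
          (y : AddMonoid.End U) v + ((x : AddMonoid.End U) v - v) := by
        rw [← h6]
        abel
      rw [h7, h8]
      abel
    apply hE.ne K hK
    rw [← hE.pf K hK, eq_bot_iff, Subgroup.commutator_le]
    intro x hx y hy
    rw [Subgroup.mem_bot, commutatorElement_def, h4 x hx y hy]
    group
  obtain ⟨w, hw, hws⟩ := hne
  have h3 : f w ≠ 0 := by
    intro h4
    apply hws
    rw [hs.ap, h4, zero_smul, add_zero]
  have h4 : f w • e ∈ S := by
    have h5 := S.sub_mem (hsS w hw) hw
    rw [hs.ap, add_sub_cancel_left] at h5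
    exact h5
  have h5 := hf0 _ h4
  rw [f_smul] at h5
  exact (mul_eq_zero.1 h5).resolve_left h3

end Pool.Agent.Work.MP_6d7bb4.h65u
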