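import Pool.Agent.Work.MP_6d7bb4_G.InterfaceM

/-! # MP_6d7bb4: plan G (product action); block KEQ, the component environment of a module -/

set_option autoImplicit false
set_option linter.unusedSectionVars false

namespace Pool.Agent.Work.MP_6d7bb4.h65u

open MulAction
open Pool.Agent.Work.MP_6d7bb4.helper94 Pool.Agent.Work.MP_6d7bb4.helper94.Sol
open Tv Ff Ps
open scoped commutatorElement

namespace X_KEQ

theorem map_eq_cj {G : Type} [Group G] (f : G) (T : Subgroup G) :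
    T.map (MulAut.conj f).toMonoidHom = cj f T := by
  ext x
  rw [mem_cj]
  constructor
  · rintro ⟨t, ht, rfl⟩
    have h : f⁻¹ * ((MulAut.conj f).toMonoidHom t) * f = t := by
      show f⁻¹ * (f * t * f⁻¹) * f = t
      group
    rw [h]
    exact ht
  · intro h
    refine ⟨f⁻¹ * x * f, h, ?_⟩
    show f * (f⁻¹ * x * f) * f⁻¹ = x
    group

/-- the image of a conjugate -/
theorem map_cj {X G : Type} [Group X] [Group G] (f : X →* G) (x : X) (T : Subgroup X) :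
    (cj x T).map f = cj (f x) (T.map f) := by
  rw [← map_eq_cj, ← map_eq_cj, Subgroup.map_map, Subgroup.map_map]
  congr 1
  ext y
  show f (x * y * x⁻¹) = f x * f y * (f x)⁻¹
  rw [map_mul, map_mul, map_inv]

/-- a perfect commutative group is trivial -/
theorem triv_of_comm {G : Type} [Group G] {K : Subgroup G} (h1 : ⁅K, K⁆ = K)
    (h2 : ∀ k ∈ K, ∀ l ∈ K, k * l = l * k) : K = ⊥ := by
  have h3 : ⁅K, K⁆ ≤ ⊥ := by
    rw [Subgroup.commutator_le]
    intro a ha b hb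
    rw [Subgroup.mem_bot, commutatorElement_def, h2 a ha b hb]
    group
  rw [h1] at h3
  exact le_bot_iff.1 h3

theorem cj_of_cm {G : Type} [Group G] {K : Subgroup G} {g : G} (h : Cm K g) : cj g K = K := by
  ext z
  rw [mem_cj]
  constructor
  · intro hz
    have h1 := h _ hz
    have h2 : z = g⁻¹ * z * g := by
      calc z = g * (g⁻¹ * z * g) * g⁻¹ := by group
        _ = (g⁻¹ * z * g) * g * g⁻¹ := by rw [h1]
        _ = g⁻¹ * z * g := by group
    rw [h2]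
    exact hz
  · intro hz
    have h1 := h _ hz
    have h2 : g⁻¹ * z * g = z := by
      rw [mul_assoc, ← h1]
      group
    rw [h2]
    exact hz

theorem cj_of_mem {G : Type} [Group G] {K : Subgroup G} {g : G} (h : g ∈ K) : cj g K = K :=
  cj_of_nm (M := K) (N := K) (fun b hb n hn => mul_mem (mul_mem hb hn) (inv_mem hb)) h

/-- simple nonabelian subgroups are perfect -/
theorem perf_of_simple {G : Type} [Group G] {T : Subgroup G} (h1 : IsSimpleGroup T)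
    (h2 : ∃ s ∈ T, ∃ t ∈ T, s * t ≠ t * s) : ⁅T, T⁆ = T := by
  rcases IsSimpleGroup.eq_bot_or_eq_top_of_normal (commutator T) inferInstance with h | h
  · exfalso
    obtain ⟨s, hs, t, ht, hne⟩ := h2
    apply hne
    have h3 : ⁅(⟨s, hs⟩ : T), ⟨t, ht⟩⁆ ∈ commutator T :=
      Subgroup.commutator_mem_commutator (Subgroup.mem_top _) (Subgroup.mem_top _)
    rw [h, Subgroup.mem_bot, commutatorElement_eq_one_iff_mul_comm] at h3
    exact congrArg Subtype.val h3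
  · have h3 := Subgroup.map_subtype_commutator T
    rw [h] at h3
    rw [← h3, ← MonoidHom.range_eq_map, Subgroup.range_subtype]

end X_KEQ

open X_KEQ in
theorem s_KEQ (hKTC : Stmt_KTC) (hKOM2 : Stmt_KOM2) (hDIC2 : Stmt_DIC2) (hFIX2 : Stmt_FIX2)
    (hKTG : Stmt_KTG) : Stmt_KEQ := by
  intro Ω F p _ hG X _ _ π hπ U _ _ ψ hNP hss P hP hex
  -- the hypotheses
  obtain ⟨𝒩, hn1, hn2, hn3, hn4, hn5⟩ := hG
  have hN : Ghy F 𝒩 := by
    refine ⟨fun T hT => (hn1 T hT).1, fun T hT => (hn1 T hT).2.1, fun T hT => (hn1 T hT).2.2.1,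
      ?_, ?_, hn3, hn4⟩
    · intro T hT f hf
      rw [← map_eq_cj]
      exact (hn1 T hT).2.2.2 f hf
    · intro T hT T' hT'
      obtain ⟨f, hf, h⟩ := hn2 T hT T' hT'
      exact ⟨f, hf, by rw [← map_eq_cj]; exact h⟩
  have hpf : ∀ T ∈ 𝒩, ⁅T, T⁆ = T := fun T hT => perf_of_simple (hN.sm T hT) (hN.na T hT)
  have hπF : ∀ x : X, π x ∈ F := fun x => by rw [← hπ]; exact ⟨x, rfl⟩
  have hsF : sSup 𝒩 ≤ F := sSup_le fun T hT => hN.le T hT
  obtain ⟨ρ, hρ⟩ : ∃ ρ : X →* AddMonoid.End U, ρ = (Units.coeHom _).comp ψ := ⟨_, rfl⟩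
  have hval : ∀ x, ρ x = ((ψ x : Un U) : AddMonoid.End U) := by
    intro x
    rw [hρ]
    rfl
  have hρψ : ρ.toHomUnits = ψ := by
    ext1 x
    apply Units.ext
    rw [MonoidHom.coe_toHomUnits, hval]
  rw [← hρ] at hNP
  have hψ1 : ∀ x, ρ x = 1 → ψ x = 1 := by
    intro x hx
    apply Units.ext
    rw [← hval, hx, Units.val_one]
  have hψc : ∀ x y, ρ x * ρ y = ρ y * ρ x → ψ x * ψ y = ψ y * ψ x := by
    intro x y h
    apply Units.ext
    rw [Units.val_mul, Units.val_mul, ← hval, ← hval, h]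
  obtain ⟨ω0, b0, hb0, hb0ne⟩ := hex
  have hYo : ∀ (ω : Ω) (x : X), x ∈ Yo π ω ↔ π x ω = ω := fun ω x => Iff.rfl
  have hkerY : ∀ ω, π.ker ≤ Yo π ω := by
    intro ω x hx
    rw [hYo, MonoidHom.mem_ker.1 hx]
    rfl
  have hρb0 : ρ b0 ≠ 1 := fun h => hb0ne (hψ1 b0 h)
  obtain ⟨R, hRdef⟩ : ∃ R : Subgroup X, R = Subgroup.normalClosure (P ω0 : Set X) := ⟨_, rfl⟩
  have hRn : R.Normal := by
    rw [hRdef]
    exact Subgroup.normalClosure_normal
  have hPR : ∀ b ∈ P ω0, b ∈ R := by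
    intro b hb
    rw [hRdef]
    exact Subgroup.subset_normalClosure hb
  obtain ⟨hk1, -⟩ := hKOM2 X (Equiv.Perm Ω) π p (Yo π ω0) (P ω0) (hkerY ω0) (hP ω0) U ρ hNP
  rw [← hRdef] at hk1
  have hk2 : ∀ ω, ∀ b ∈ P ω, ∀ x : X, π x * π b = π b * π x → ρ x * ρ b = ρ b * ρ x := by
    intro ω b hb x hx
    have h := (hKOM2 X (Equiv.Perm Ω) π p (Yo π ω) (P ω) (hkerY ω) (hP ω) U ρ hNP).2 x 1 b hb
    rw [one_mul, inv_one, mul_one] at h
    exact h hx
  have hfix : ∀ ω, ∀ b ∈ P ω, (∀ T ∈ 𝒩, ∀ x : X, π x ∈ T → ρ x * ρ b = ρ b * ρ x) →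
      ρ b = 1 := by
    intro ω b hb h
    exact hFIX2 Ω F p 𝒩 hN X π hπ ω (Yo π ω) (P ω) (hYo ω) (hP ω) U ρ hNP b hb h
  obtain ⟨hKT1, hKT2⟩ := hKTC X (Equiv.Perm Ω) π R U ρ hRn hk1
  rw [hρψ] at hKT2
  -- (1) the members are contained in the image of `R`
  have hTR : ∀ T ∈ 𝒩, T ≤ R.map π := by
    intro T hT
    rcases hDIC2 Ω F 𝒩 hN X π hπ R hRn T hT with h | h
    · exact h
    · exfalso
      apply hρb0
      refine hfix ω0 b0 hb0 ?_
      intro T' hT' x hx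
      apply hk2 ω0 b0 hb0
      obtain ⟨f, hf, hfT⟩ := hN.tr T hT T' hT'
      rw [← hπ] at hf
      obtain ⟨y, rfl⟩ := hf
      rw [← hfT, mem_cj] at hx
      have h1 : y⁻¹ * b0 * y ∈ R := by
        have := hRn.conj_mem b0 (hPR b0 hb0) y⁻¹
        rwa [inv_inv] at this
      have h2 := h _ h1 _ hx
      rw [map_mul, map_mul, map_inv] at h2
      calc π x * π b0 = π y * (((π y)⁻¹ * π x * π y) * ((π y)⁻¹ * π b0 * π y)) * (π y)⁻¹ := by
            group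
        _ = π y * (((π y)⁻¹ * π b0 * π y) * ((π y)⁻¹ * π x * π y)) * (π y)⁻¹ := by rw [h2]
        _ = π b0 * π x := by group
  -- the members
  obtain ⟨KK, hKK⟩ : ∃ KK : Subgroup (Equiv.Perm Ω) → Subgroup (Un U),
      ∀ T, KK T = (KT π R T).map ψ := ⟨_, fun _ => rfl⟩
  have hcj : ∀ (x : X) (T : Subgroup (Equiv.Perm Ω)), cj (ψ x) (KK T) = KK (cj (π x) T) := by
    intro x T
    rw [hKK, hKK, ← map_cj, ← hKT1 x T]
  have hmap : ∀ T ∈ 𝒩, (KT π R T).map π = T := fun T hT => (hKT2 T (hpf T hT) (hTR T hT)).1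
  have hperf : ∀ T ∈ 𝒩, ⁅KK T, KK T⁆ = KK T := by
    intro T hT
    rw [hKK]
    exact (hKT2 T (hpf T hT) (hTR T hT)).2.2
  -- (2) they are not trivial
  have hne : ∀ T ∈ 𝒩, KK T ≠ ⊥ := by
    intro T1 hT1 hbot
    apply hρb0
    refine hfix ω0 b0 hb0 ?_
    intro T hT x hx
    obtain ⟨f, hf, hfT⟩ := hN.tr T1 hT1 T hT
    rw [← hπ] at hf
    obtain ⟨y, rfl⟩ := hf
    have h1 : KK T = ⊥ := by
      rw [← hfT, ← hcj, hbot, cj_bot]
    have h2 : π x ∈ (KT π R T).map π := by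
      rw [hmap T hT]
      exact hx
    obtain ⟨k, hk, hkx⟩ := h2
    have h3 : ψ k ∈ KK T := by
      rw [hKK]
      exact ⟨k, hk, rfl⟩
    rw [h1, Subgroup.mem_bot] at h3
    have h4 : ρ k = 1 := by
      rw [hval, h3, Units.val_one]
    have h5 : k⁻¹ * x ∈ π.ker := by
      rw [MonoidHom.mem_ker, map_mul, map_inv, hkx, inv_mul_cancel]
    have h6 := hk1 _ h5 b0 (hPR b0 hb0)
    have h7 : ρ x = ρ (k⁻¹ * x) := by
      have h8 : x = k * (k⁻¹ * x) := by group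
      conv_lhs => rw [h8, map_mul, h4, one_mul]
    rw [h7]
    exact h6
  -- (3) different members commute
  have hcm : ∀ T ∈ 𝒩, ∀ T' ∈ 𝒩, T ≠ T' → ∀ k ∈ KK T, ∀ l ∈ KK T', k * l = l * k := by
    intro T hT T' hT' hTT k hk l hl
    rw [hKK] at hk hl
    obtain ⟨k, hk, rfl⟩ := hk
    obtain ⟨l, hl, rfl⟩ := hl
    have hkT : π k ∈ T := by
      rw [← hmap T hT]
      exact ⟨k, hk, rfl⟩
    have h2 := (hKT2 T' (hpf T' hT') (hTR T' hT')).2.1 k
      (fun t ht => hN.cm T hT T' hT' hTT (π k) hkT t ht) l hl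
    exact hψc k l h2
  have hinj : ∀ T ∈ 𝒩, ∀ T' ∈ 𝒩, KK T = KK T' → T = T' := by
    intro T hT T' hT' h
    by_contra hTT
    have h1 := hcm T hT T' hT' hTT
    rw [← h] at h1
    exact hne T hT (triv_of_comm (hperf T hT) h1)
  have hcl : ∀ T ∈ 𝒩, ∀ x : X, cj (π x) T ∈ 𝒩 := fun T hT x => hN.cl T hT (π x) (hπF x)
  have hcjT : ∀ T ∈ 𝒩, ∀ x : X, cj (ψ x) (KK T) = KK T → cj (π x) T = T := by
    intro T hT x h
    rw [hcj] at h
    exact hinj _ (hcl T hT x) T hT h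
  have hktg : ∀ T ∈ 𝒩, ∀ x : X, cj (π x) T = T → (∃ t ∈ T, π x * t ≠ t * π x) →
      KK T ≤ Cq (KK T) (ψ x) := by
    intro T hT x h1 h2
    have h3 := hKTG X (Equiv.Perm Ω) π R U ρ hRn hk1 T (hN.sm T hT) (hpf T hT) (hTR T hT) x h1 h2
    rw [hρψ, ← hKK] at h3
    exact h3
  -- (4) centralisers
  have hCm : ∀ T ∈ 𝒩, ∀ x : X, Cm (KK T) (ψ x) ↔ ∀ t ∈ T, π x * t = t * π x := by
    intro T hT x
    constructor
    · intro h
      by_contra hcon
      push Not at hcon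
      have h1 := hcjT T hT x (cj_of_cm h)
      have h2 := hktg T hT x h1 hcon
      apply hne T hT
      rw [← le_bot_iff]
      refine h2.trans ?_
      unfold Cq
      rw [Subgroup.closure_le]
      rintro c ⟨k, hk, rfl⟩
      show k * ψ x * k⁻¹ * (ψ x)⁻¹ ∈ (⊥ : Subgroup (Un U))
      rw [Subgroup.mem_bot, ← h k hk]
      group
    · intro h k hk
      rw [hKK] at hk
      obtain ⟨k, hk, rfl⟩ := hk
      exact hψc x k ((hKT2 T (hpf T hT) (hTR T hT)).2.1 x h k hk)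
  -- the last statement
  have hlast : ∀ ω ω' : Ω, ∃ g : X, (∀ T ∈ 𝒩, cj (ψ g) (KK T) = KK T) ∧ π g ω = ω' := by
    intro ω ω'
    obtain ⟨n, hn, hnω⟩ := hN.pt ω ω'
    let Z : Subgroup (Equiv.Perm Ω) :=
      { carrier := {f | ∃ g : X, π g = f ∧ ∀ T ∈ 𝒩, cj (ψ g) (KK T) = KK T}
        one_mem' := ⟨1, map_one π, fun T _ => by
          rw [map_one]
          exact cj_of_mem (one_mem _)⟩
        mul_mem' := by
          rintro a b ⟨g, hg, h1⟩ ⟨g', hg', h2⟩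
          refine ⟨g * g', by rw [map_mul, hg, hg'], fun T hT => ?_⟩
          rw [map_mul, cj_mul, h2 T hT, h1 T hT]
        inv_mem' := by
          rintro a ⟨g, hg, h1⟩
          refine ⟨g⁻¹, by rw [map_inv, hg], fun T hT => ?_⟩
          have h2 : cj (ψ g⁻¹) (cj (ψ g) (KK T)) = KK T := by
            rw [← cj_mul, ← map_mul, inv_mul_cancel, map_one]
            exact cj_of_mem (one_mem _)
          rw [h1 T hT] at h2
          exact h2 }
    have hZ : sSup 𝒩 ≤ Z := by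
      refine sSup_le fun T hT => ?_
      intro t ht
      rw [← hmap T hT] at ht
      obtain ⟨k, hk, hkt⟩ := ht
      have hkK : ψ k ∈ KK T := by
        rw [hKK]
        exact ⟨k, hk, rfl⟩
      refine ⟨k, hkt, fun T' hT' => ?_⟩
      by_cases h : T = T'
      · rw [← h]
        exact cj_of_mem hkK
      · exact cj_of_cm (fun l hl => hcm T hT T' hT' h _ hkK l hl)
    obtain ⟨g, hg, h⟩ := hZ hn
    exact ⟨g, h, by rw [hg]; exact hnω⟩
  refine ⟨{L | ∃ T ∈ 𝒩, L = KK T}, ?_, ?_, ?_⟩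
  · refine ⟨inferInstance, ?_, ?_, ?_, ?_, ?_, ?_, ?_, ?_, hss⟩
    · rcases 𝒩.eq_empty_or_nonempty with hemp | ⟨T0, hT0⟩
      · exfalso
        apply hρb0
        refine hfix ω0 b0 hb0 ?_
        intro T hT
        rw [hemp] at hT
        exact absurd hT (Set.notMem_empty T)
      · exact ⟨KK T0, T0, hT0, rfl⟩
    · rintro _ ⟨T, hT, rfl⟩
      rw [hKK]
      rintro _ ⟨k, _, rfl⟩
      exact ⟨k, rfl⟩
    · rintro _ ⟨T, hT, rfl⟩
      exact hperf T hT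
    · rintro _ ⟨T, hT, rfl⟩
      exact hne T hT
    · rintro _ ⟨T, hT, rfl⟩ _ ⟨x, rfl⟩
      exact ⟨cj (π x) T, hcl T hT x, hcj x T⟩
    · rintro _ ⟨T, hT, rfl⟩ _ ⟨T', hT', rfl⟩
      obtain ⟨f, hf, hfT⟩ := hN.tr T hT T' hT'
      rw [← hπ] at hf
      obtain ⟨y, rfl⟩ := hf
      exact ⟨ψ y, ⟨y, rfl⟩, by rw [hcj, hfT]⟩
    · rintro _ ⟨T, hT, rfl⟩ _ ⟨T', hT', rfl⟩ h
      exact hcm T hT T' hT' (fun h' => h (by rw [h']))
    · rintro _ ⟨T, hT, rfl⟩ _ ⟨x, rfl⟩ h1 h2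
      refine hktg T hT x (hcjT T hT x h1) ?_
      by_contra hcon
      push Not at hcon
      exact h2 ((hCm T hT x).2 hcon)
  · intro ω
    refine ⟨?_, ?_, ?_, ?_, ?_, ?_, ?_⟩
    · rintro _ ⟨b, _, rfl⟩
      exact ⟨b, rfl⟩
    · exact (hP ω).pg.map ψ
    · rintro _ ⟨b, hb, rfl⟩ h
      apply hψ1
      refine hfix ω b hb ?_
      intro T hT x hx
      apply hk2 ω b hb
      exact ((hCm T hT b).1 (h _ ⟨T, hT, rfl⟩) _ hx).symm
    · rintro _ ⟨T, hT, rfl⟩ _ ⟨a, ha, rfl⟩ _ ⟨b, hb, rfl⟩ h1 h2 h3 h4 h5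
      have h1' := hcjT T hT a h1
      have h2' := hcjT T hT b h2
      rw [← map_pow] at h3 h4
      have h3' := (hCm T hT _).1 h3
      have h4' := (hCm T hT _).1 h4
      rw [map_pow] at h3' h4'
      have h5' : ∃ t ∈ T, π a * t ≠ t * π a := by
        by_contra hcon
        push Not at hcon
        exact h5 ((hCm T hT a).2 hcon)
      have hle : (P ω).map π ≤ F := by
        rintro _ ⟨y, _, rfl⟩
        exact hπF y
      have hfx : ∀ n ∈ (P ω).map π, n ω = ω := by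
        rintro _ ⟨y, hy, rfl⟩
        exact (hYo ω y).1 ((hP ω).le hy)
      have hnm : ∀ f ∈ F, f ω = ω → ∀ n ∈ (P ω).map π, f * n * f⁻¹ ∈ (P ω).map π := by
        rintro f hf hfω _ ⟨y, hy, rfl⟩
        rw [← hπ] at hf
        obtain ⟨z, rfl⟩ := hf
        refine ⟨z * y * z⁻¹, (hP ω).nm z ((hYo ω z).2 hfω) y hy, ?_⟩
        rw [map_mul, map_mul, map_inv]
      obtain ⟨i, hi⟩ := hn5 ω ((P ω).map π) hle hfx hnm ((hP ω).pg.map π) T hT (π a)
        ⟨a, ha, rfl⟩ (π b) ⟨b, hb, rfl⟩ (by rw [map_eq_cj]; exact h1')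
        (by rw [map_eq_cj]; exact h2') h3' h4' h5'
      refine ⟨i, ?_⟩
      rw [← map_pow, ← map_mul]
      apply (hCm T hT _).2
      rw [map_mul, map_pow]
      exact hi
    · rintro _ ⟨y, hy, rfl⟩ _ ⟨b, hb, rfl⟩
      refine ⟨y * b * y⁻¹, (hP ω).nm y hy b hb, ?_⟩
      rw [map_mul, map_mul, map_inv]
    · rintro _ ⟨y, _, rfl⟩
      exact ⟨y, rfl⟩
    · rintro _ ⟨z, rfl⟩
      obtain ⟨g, hg, hgω⟩ := hlast ω (π z ω)
      refine ⟨ψ g, ⟨g, rfl⟩, ?_, ψ (g⁻¹ * z), ⟨g⁻¹ * z, ?_, rfl⟩, ?_⟩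
      · rintro _ ⟨T, hT, rfl⟩
        exact hg T hT
      · show π (g⁻¹ * z) ω = ω
        rw [map_mul, Equiv.Perm.mul_apply, ← hgω, map_inv]
        exact (π g).symm_apply_apply ω
      · rw [← map_mul]
        congr 1
        group
  · intro ω ω'
    obtain ⟨g, hg, hgω⟩ := hlast ω ω'
    refine ⟨g, ?_, hgω⟩
    rintro _ ⟨T, hT, rfl⟩
    exact hg T hT

end Pool.Agent.Work.MP_6d7bb4.h65u
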