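import Pool.Agent.Work.MP_6d7bb4_G.InterfaceV

set_option autoImplicit false

/-! # Block KGNV (helper91): centralisers generate `W` -/

namespace Pool.Agent.Work.MP_6d7bb4.h65u

open MulAction
open Pool.Agent.Work.MP_6d7bb4.helper94 Pool.Agent.Work.MP_6d7bb4.helper94.Sol
open Tv Ff Ps

theorem s_KGNV (hLAT : Pool.Agent.Work.MP_6d7bb4.helper94.Sol.Stmt_LAT) (hKPY : Stmt_KPY) :
    Stmt_KGNV := by
  intro V G _ _ Γ d p _ x W S R Bm U _ _ ψ 𝒦 t e f h 𝒞 hC y hxy hP hP'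
  obtain ⟨a1, a2, a3, a4, a5, a6, a7, a8⟩ :=
    hKPY V G Γ d p x W S R Bm U ψ 𝒦 t e f h y hxy
  have hs : Pk Bm ψ 𝒦 𝒞 y ⊔ Pk Bm ψ 𝒦 (𝒦 \ 𝒞) y = Bm y := by
    have h6 := a6 𝒞 hC (𝒦 \ 𝒞) Set.diff_subset
    rw [Set.union_diff_cancel hC, a5] at h6
    exact h6.symm
  have hi : Pk Bm ψ 𝒦 𝒞 y ⊓ Pk Bm ψ 𝒦 (𝒦 \ 𝒞) y = S := by
    have h7 := a7 𝒞 hC (𝒦 \ 𝒞) Set.diff_subset
    rw [Set.inter_diff_self, a4] at h7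
    exact h7.symm
  refine ⟨hs.ge, ?_⟩
  have hWf : Finite W := h.vs.Wf
  have hBf : Finite (Bm y) := h.loc.fin_le ((h.vs.BQ y hxy).trans (Qe_le_st x y))
  have hSf : Finite S := Finite.Set.subset (Bm y : Set G) (h.vs.SB y hxy)
  have hle : Cw W (Pk Bm ψ 𝒦 𝒞 y) ⊔ Cw W (Pk Bm ψ 𝒦 (𝒦 \ 𝒞) y) ≤ W :=
    sup_le inf_le_left inf_le_left
  have hcf : Finite (Cw W (Pk Bm ψ 𝒦 𝒞 y) ⊔ Cw W (Pk Bm ψ 𝒦 (𝒦 \ 𝒞) y) : Subgroup G) :=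
    Finite.Set.subset (W : Set G) hle
  have hci : Cw W (Pk Bm ψ 𝒦 𝒞 y) ⊓ Cw W (Pk Bm ψ 𝒦 (𝒦 \ 𝒞) y) = Cw W (Bm y) := by
    apply le_antisymm
    · intro v hv
      have h1 := mem_Cw.1 hv.1
      have h2 := mem_Cw.1 hv.2
      refine mem_Cw.2 ⟨h1.1, ?_⟩
      have h3 : Bm y ≤ Subgroup.centralizer {v} := by
        rw [← hs]
        refine sup_le (fun a ha => ?_) (fun a ha => ?_)
        · exact Subgroup.mem_centralizer_singleton_iff.2 (h1.2 a ha)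
        · exact Subgroup.mem_centralizer_singleton_iff.2 (h2.2 a ha)
      intro a ha
      exact Subgroup.mem_centralizer_singleton_iff.1 (h3 ha)
    · intro v hv
      have h1 := mem_Cw.1 hv
      exact ⟨mem_Cw.2 ⟨h1.1, fun a ha => h1.2 a (hs ▸ (le_sup_left : Pk Bm ψ 𝒦 𝒞 y ≤ _) ha)⟩,
        mem_Cw.2 ⟨h1.1, fun a ha => h1.2 a
          (hs ▸ (le_sup_right : Pk Bm ψ 𝒦 (𝒦 \ 𝒞) y ≤ _) ha)⟩⟩
  have hf1 : Finite (Pk Bm ψ 𝒦 𝒞 y ⊔ Pk Bm ψ 𝒦 (𝒦 \ 𝒞) y : Subgroup G) := by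
    rw [hs]; exact hBf
  have k1 := hLAT G |>.1 (Pk Bm ψ 𝒦 𝒞 y) (Pk Bm ψ 𝒦 (𝒦 \ 𝒞) y) hf1
  have k2 := hLAT G |>.1 (Cw W (Pk Bm ψ 𝒦 𝒞 y)) (Cw W (Pk Bm ψ 𝒦 (𝒦 \ 𝒞) y)) hcf
  rw [hs, hi] at k1
  rw [hci] at k2
  have k3 := h.vs.tg y hxy
  unfold Tg at hP hP'
  have hWp : 0 < Nat.card W := Nat.card_pos
  have hSp : 0 < Nat.card S := Nat.card_pos
  have k4 : Nat.card W ≤ Nat.card (Cw W (Pk Bm ψ 𝒦 𝒞 y) ⊔ Cw W (Pk Bm ψ 𝒦 (𝒦 \ 𝒞) y) :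
      Subgroup G) := by
    set P := Nat.card (Pk Bm ψ 𝒦 𝒞 y)
    set P' := Nat.card (Pk Bm ψ 𝒦 (𝒦 \ 𝒞) y)
    set c := Nat.card (Cw W (Pk Bm ψ 𝒦 𝒞 y))
    set c' := Nat.card (Cw W (Pk Bm ψ 𝒦 (𝒦 \ 𝒞) y))
    set J := Nat.card (Cw W (Pk Bm ψ 𝒦 𝒞 y) ⊔ Cw W (Pk Bm ψ 𝒦 (𝒦 \ 𝒞) y) : Subgroup G)
    have e1 : (Nat.card W * Nat.card S) * (Nat.card W * Nat.card S) ≤
        (Nat.card W * Nat.card S) * (J * Nat.card S) := by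
      calc (Nat.card W * Nat.card S) * (Nat.card W * Nat.card S) = (P * c) * (P' * c') := by
            rw [hP, hP']
        _ = (P * P') * (c * c') := by ring
        _ ≤ (Nat.card (Bm y) * Nat.card S) * (J * Nat.card (Cw W (Bm y))) :=
            Nat.mul_le_mul k1 k2
        _ = (Nat.card (Bm y) * Nat.card (Cw W (Bm y))) * (J * Nat.card S) := by ring
        _ = _ := by rw [k3]
    have e2 := Nat.le_of_mul_le_mul_left e1 (Nat.mul_pos hWp hSp)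
    exact Nat.le_of_mul_le_mul_right e2 hSp
  exact (Subgroup.eq_of_le_of_card_ge hle k4).ge

end Pool.Agent.Work.MP_6d7bb4.h65u
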