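import Pool.Agent.Work.MP_6d7bb4_G.InterfaceM

set_option autoImplicit false
set_option linter.unusedSectionVars false

/-! # MP_6d7bb4, plan G, block KLB: the lower bound (helper41) -/

namespace Pool.Agent.Work.MP_6d7bb4.h65u

open MulAction
open Pool.Agent.Work.MP_6d7bb4.helper94 Pool.Agent.Work.MP_6d7bb4.helper94.Sol
open Tv Ff Ps

namespace X_KLB

section grp
variable {G : Type} [Group G]

theorem cj_mul' (a b : G) (K : Subgroup G) : cj (a * b) K = cj a (cj b K) := by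
  ext h
  rw [mem_cj, mem_cj, mem_cj]
  have : (a * b)⁻¹ * h * (a * b) = b⁻¹ * (a⁻¹ * h * a) * b := by group
  rw [this]

theorem cj_one' (K : Subgroup G) : cj 1 K = K := by
  ext h
  rw [mem_cj]
  simp

/-- the elements of `A` which normalise `K` -/
def stb (A K : Subgroup G) : Subgroup G where
  carrier := {a | a ∈ A ∧ cj a K = K}
  one_mem' := ⟨A.one_mem, cj_one' K⟩
  mul_mem' := by
    rintro a b ⟨ha, ha'⟩ ⟨hb, hb'⟩
    exact ⟨A.mul_mem ha hb, by rw [cj_mul', hb', ha']⟩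
  inv_mem' := by
    rintro a ⟨ha, ha'⟩
    refine ⟨A.inv_mem ha, ?_⟩
    calc cj a⁻¹ K = cj a⁻¹ (cj a K) := by rw [ha']
      _ = K := by rw [← cj_mul', inv_mul_cancel, cj_one']

theorem mem_stb {A K : Subgroup G} {a : G} : a ∈ stb A K ↔ a ∈ A ∧ cj a K = K := Iff.rfl

theorem cm_one (K : Subgroup G) : Cm K (1 : G) := by
  intro k _
  rw [one_mul, mul_one]

theorem cm_mul {K : Subgroup G} {a b : G} (ha : Cm K a) (hb : Cm K b) : Cm K (a * b) := by
  intro k hk
  rw [mul_assoc, hb k hk, ← mul_assoc, ha k hk, mul_assoc]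

theorem cm_inv {K : Subgroup G} {a : G} (ha : Cm K a) : Cm K a⁻¹ := by
  intro k hk
  have h1 : Commute a k := ha k hk
  exact h1.inv_left.eq

theorem cm_pow {K : Subgroup G} {a : G} (ha : Cm K a) (i : ℕ) : Cm K (a ^ i) := by
  intro k hk
  have h1 : Commute a k := ha k hk
  exact (h1.pow_left i).eq

theorem cm_cj {K : Subgroup G} {a : G} (h : Cm K a) : cj a K = K := by
  ext x
  rw [mem_cj]
  constructor
  · intro hx
    have h1 := h _ hx
    have h2 : x = a⁻¹ * x * a := by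
      have h3 : x * a = a⁻¹ * x * a * a := by
        rw [← h1]
        group
      exact mul_right_cancel h3
    rw [h2]
    exact hx
  · intro hx
    have h1 := h x hx
    have h2 : a⁻¹ * x * a = x := by
      rw [mul_assoc, ← h1]
      group
    rw [h2]
    exact hx

/-- the elements of `A` which centralise `K` -/
def cen (A K : Subgroup G) : Subgroup G where
  carrier := {a | a ∈ A ∧ Cm K a}
  one_mem' := ⟨A.one_mem, cm_one K⟩
  mul_mem' := by
    rintro a b ⟨ha, ha'⟩ ⟨hb, hb'⟩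
    exact ⟨A.mul_mem ha hb, cm_mul ha' hb'⟩
  inv_mem' := by
    rintro a ⟨ha, ha'⟩
    exact ⟨A.inv_mem ha, cm_inv ha'⟩

theorem mem_cen {A K : Subgroup G} {a : G} : a ∈ cen A K ↔ a ∈ A ∧ Cm K a := Iff.rfl

/-- the elements of `A` which centralise all members -/
def zer (A : Subgroup G) (𝒦 : Set (Subgroup G)) : Subgroup G where
  carrier := {a | a ∈ A ∧ ∀ K ∈ 𝒦, Cm K a}
  one_mem' := ⟨A.one_mem, fun K _ => cm_one K⟩
  mul_mem' := by
    rintro a b ⟨ha, ha'⟩ ⟨hb, hb'⟩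
    exact ⟨A.mul_mem ha hb, fun K hK => cm_mul (ha' K hK) (hb' K hK)⟩
  inv_mem' := by
    rintro a ⟨ha, ha'⟩
    exact ⟨A.inv_mem ha, fun K hK => cm_inv (ha' K hK)⟩

theorem mem_zer {A : Subgroup G} {𝒦 : Set (Subgroup G)} {a : G} :
    a ∈ zer A 𝒦 ↔ a ∈ A ∧ ∀ K ∈ 𝒦, Cm K a := Iff.rfl

/-- a power of `b` generates -/
theorem pow_notMem {p : ℕ} (hp : p.Prime) {b : G} (hb : b ^ p = 1)
    {C : Subgroup G} (hbC : b ∉ C) {j : ℕ} (h0 : 0 < j) (hj : j < p) : b ^ j ∉ C := by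
  intro h
  apply hbC
  have hc : Nat.Coprime j p := (Nat.coprime_of_lt_prime h0.ne' hj hp).symm
  have h1 : (1 : ℤ) = j * Nat.gcdA j p + p * Nat.gcdB j p := by
    rw [← Nat.gcd_eq_gcd_ab, hc.gcd_eq_one]
    norm_num
  have h2 : b = (b ^ j) ^ (Nat.gcdA j p) := by
    calc b = b ^ (1 : ℤ) := (zpow_one b).symm
      _ = b ^ ((j : ℤ) * Nat.gcdA j p + p * Nat.gcdB j p) := by rw [← h1]
      _ = (b ^ j) ^ (Nat.gcdA j p) := by
        rw [zpow_add, zpow_mul, zpow_mul, zpow_natCast, zpow_natCast, hb, one_zpow, mul_one]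
  rw [h2]
  exact C.zpow_mem h _

/-- the subgroup generated by `b` and `C` -/
def adj (b : G) (C : Subgroup G) (h : ∀ c ∈ C, b * c = c * b) :
    Subgroup G where
  carrier := {x | ∃ (i : ℤ) (c : G), c ∈ C ∧ x = b ^ i * c}
  one_mem' := ⟨0, 1, C.one_mem, by simp⟩
  mul_mem' := by
    rintro x y ⟨i, c, hc, rfl⟩ ⟨j, d, hd, rfl⟩
    refine ⟨i + j, c * d, C.mul_mem hc hd, ?_⟩
    have h1 : c * b ^ j = b ^ j * c := ((Commute.zpow_left (h c hc) j)).eq.symm
    calc b ^ i * c * (b ^ j * d) = b ^ i * (c * b ^ j) * d := by group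
      _ = b ^ i * (b ^ j * c) * d := by rw [h1]
      _ = b ^ (i + j) * (c * d) := by rw [zpow_add]; group
  inv_mem' := by
    rintro x ⟨i, c, hc, rfl⟩
    refine ⟨-i, c⁻¹, C.inv_mem hc, ?_⟩
    have h1 : c⁻¹ * b ^ (-i) = b ^ (-i) * c⁻¹ :=
      ((Commute.zpow_left (h c⁻¹ (C.inv_mem hc)) (-i))).eq.symm
    rw [mul_inv_rev, ← h1, zpow_neg]

theorem mem_adj {b : G} {C : Subgroup G} {h : ∀ c ∈ C, b * c = c * b}
    {x : G} : x ∈ adj b C h ↔ ∃ (i : ℤ) (c : G), c ∈ C ∧ x = b ^ i * c := Iff.rfl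

theorem le_adj {b : G} {C : Subgroup G} (h : ∀ c ∈ C, b * c = c * b) : C ≤ adj b C h :=
  fun c hc => ⟨0, c, hc, by simp⟩

theorem self_adj {b : G} {C : Subgroup G} (h : ∀ c ∈ C, b * c = c * b) : b ∈ adj b C h :=
  ⟨1, 1, C.one_mem, by simp⟩

theorem adj_relIndex [Finite G] {p : ℕ} (hp : 0 < p) {b : G}
    (hb : b ^ p = 1) {C : Subgroup G} (h : ∀ c ∈ C, b * c = c * b) :
    C.relIndex (adj b C h) ≤ p := by
  have hmem : ∀ i : Fin p, b ^ (i : ℕ) ∈ adj b C h := fun i =>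
    ⟨(i : ℕ), 1, C.one_mem, by rw [zpow_natCast, mul_one]⟩
  have hsur : Function.Surjective (fun i : Fin p =>
      (QuotientGroup.mk (⟨b ^ (i : ℕ), hmem i⟩ : adj b C h) :
        (adj b C h) ⧸ C.subgroupOf (adj b C h))) := by
    intro x
    obtain ⟨⟨x, hx⟩, rfl⟩ := QuotientGroup.mk_surjective x
    obtain ⟨i, c, hc, hxe⟩ := hx
    have hp' : (p : ℤ) ≠ 0 := by exact_mod_cast hp.ne'
    have h1 : 0 ≤ i % p := Int.emod_nonneg i hp'
    have h2 : i % p < p := Int.emod_lt_of_pos i (by exact_mod_cast hp)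
    refine ⟨⟨(i % p).toNat, by omega⟩, ?_⟩
    rw [QuotientGroup.eq, Subgroup.mem_subgroupOf]
    have h3 : b ^ (i % p).toNat = b ^ i := by
      rw [← zpow_natCast, Int.toNat_of_nonneg h1]
      conv_rhs => rw [← Int.mul_ediv_add_emod i p]
      rw [zpow_add, zpow_mul, zpow_natCast, hb, one_zpow, one_mul]
    show (b ^ (i % p).toNat)⁻¹ * x ∈ C
    rw [h3, hxe, inv_mul_cancel_left]
    exact hc
  have h1 := Nat.card_le_card_of_surjective _ hsur
  rw [Nat.card_fin] at h1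
  exact h1

variable {V : Type} [AddCommGroup V]

/-- the centraliser of `C` acts on the fixed points of `C` -/
def res (σ : G →* AddMonoid.End V) (C : Subgroup G) :
    Subgroup.centralizer (C : Set G) →* AddMonoid.End (FixedBy σ C) where
  toFun g :=
    { toFun := fun u => ⟨σ g.1 u.1, by
        intro c hc
        have h1 : c * g.1 = g.1 * c := Subgroup.mem_centralizer_iff.1 g.2 c hc
        have h2 : σ c (σ g.1 u.1) = σ g.1 (σ c u.1) := by
          have h3 : σ c (σ g.1 u.1) = (σ c * σ g.1) u.1 := rfl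
          rw [h3, ← map_mul, h1, map_mul]
          rfl
        rw [h2, u.2 c hc]⟩
      map_zero' := by
        apply Subtype.ext
        exact map_zero _
      map_add' := by
        intro u v
        apply Subtype.ext
        exact map_add (σ g.1) _ _ }
  map_one' := by
    ext u
    show σ 1 u.1 = u.1
    rw [map_one]
    rfl
  map_mul' := by
    intro g h
    ext u
    show σ (g.1 * h.1) u.1 = σ g.1 (σ h.1 u.1)
    rw [map_mul]
    rfl

theorem res_val (σ : G →* AddMonoid.End V) (C : Subgroup G)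
    (g : Subgroup.centralizer (C : Set G)) (u : FixedBy σ C) :
    ((res σ C g u : FixedBy σ C) : V) = σ g.1 u.1 := rfl

theorem card_pow (p : ℕ) [Fact p.Prime] (V : Type) [AddCommGroup V] [Finite V]
    (hV : ∀ v : V, p • v = 0) : ∃ n : ℕ, Nat.card V = p ^ n := by
  let inst : Module (ZMod p) V := AddCommGroup.zmodModule hV
  have hfin : Module.Finite (ZMod p) V := Module.Finite.of_finite
  have h := @Module.natCard_eq_pow_finrank (ZMod p) V _ _ inst hfin
  rw [Nat.card_zmod] at h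
  exact ⟨_, h⟩

/-- a proper subgroup of a subgroup of `V` has index at least `p` in it -/
theorem le_relIndex (p : ℕ) [Fact p.Prime] (V : Type) [AddCommGroup V] [Finite V]
    (hV : ∀ v : V, p • v = 0) (H K : AddSubgroup V) (h : ¬ K ≤ H) : p ≤ H.relIndex K := by
  have hp : p.Prime := Fact.out
  obtain ⟨n, hn⟩ := card_pow p V hV
  have h1 : H.relIndex K ∣ p ^ n := by
    rw [← hn]
    exact (AddSubgroup.relIndex_dvd_card H K).trans (AddSubgroup.card_addSubgroup_dvd_card K)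
  obtain ⟨k, -, hk⟩ := (Nat.dvd_prime_pow hp).1 h1
  rw [hk]
  have h2 : k ≠ 0 := by
    rintro rfl
    apply h
    rw [pow_zero] at hk
    exact AddSubgroup.relIndex_eq_one.1 hk
  calc p = p ^ 1 := (pow_one p).symm
    _ ≤ p ^ k := Nat.pow_le_pow_right hp.pos (by omega)

/-- ORC relative to the fixed points of `C` -/
theorem relORC (hTAB : Stmt_TAB) (hORC : Stmt_ORC) (p : ℕ) [Fact p.Prime] [Finite G] [Finite V]
    (σ : G →* AddMonoid.End V) (B C K : Subgroup G) (hV : ∀ v : V, p • v = 0) (hCB : C ≤ B)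
    (hab : ∀ a ∈ B, ∀ b ∈ B, a * b = b * a) (hBp : ∀ a ∈ B, a ^ p = 1)
    (hCK : ∀ c ∈ C, ∀ k ∈ K, c * k = k * c)
    (hBK : ∀ a ∈ B, a ∉ C → ∀ k ∈ K, ∀ l ∈ K, (a * k * a⁻¹) * l = l * (a * k * a⁻¹))
    (hKK : ⁅K, K⁆ = K) (hKσ : ∃ k ∈ K, σ k ≠ 1) :
    C.relIndex B ^ 2 * (FixedBy σ C).index ≤ (FixedBy σ B).index ∧
    ∃ f : K →* G, (∀ a ∈ B, ∀ k, a * f k = f k * a) ∧
      (∃ k, ∃ v ∈ FixedBy σ B, σ (f k) v ≠ v) ∧
      ∀ (g : G) (hg : ∀ k ∈ K, g * k * g⁻¹ ∈ K), (∀ a ∈ B, a * g = g * a) → ∀ k : K,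
        g * f k * g⁻¹ = f ⟨g * k * g⁻¹, hg k k.2⟩ := by
  have hBG : B ≤ Subgroup.centralizer (C : Set G) := by
    intro a ha
    rw [Subgroup.mem_centralizer_iff]
    intro c hc
    exact hab c (hCB hc) a ha
  have hKG : K ≤ Subgroup.centralizer (C : Set G) := by
    intro k hk
    rw [Subgroup.mem_centralizer_iff]
    intro c hc
    exact hCK c hc k hk
  have hCp : IsPGroup p C := by
    intro c
    refine ⟨1, ?_⟩
    apply Subtype.ext
    rw [pow_one]
    exact hBp c.1 (hCB c.2)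
  obtain ⟨hO, δ, hδ1, ⟨k0, v0, hv0, hkv0⟩, hδ3⟩ := hORC p (Subgroup.centralizer (C : Set G))
    (FixedBy σ C) (res σ C) (B.subgroupOf _) (C.subgroupOf _) (K.subgroupOf _)
    (by
      intro v
      apply Subtype.ext
      exact hV v.1)
    (Subgroup.comap_mono hCB)
    (by
      intro a ha b hb
      apply Subtype.ext
      exact hab a.1 ha b.1 hb)
    (by
      intro a ha
      apply Subtype.ext
      exact hBp a.1 ha)
    (by
      intro c hc
      ext u
      exact u.2 c.1 hc)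
    (by
      intro c hc k hk
      apply Subtype.ext
      exact hCK c.1 hc k.1 hk)
    (by
      intro a ha hac k hk l hl
      apply Subtype.ext
      exact hBK a.1 ha (fun h => hac h) k.1 hk l.1 hl)
    (by
      apply Subgroup.map_injective (Subgroup.centralizer (C : Set G)).subtype_injective
      rw [Subgroup.map_commutator, Subgroup.map_subgroupOf_eq_of_le hKG]
      exact hKK)
    (by
      by_contra h
      push Not at h
      obtain ⟨k, hk, hk1⟩ := hKσ
      refine hk1 (hTAB p G V σ C K hV hCp hKK hCK ?_ k hk)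
      intro v hv d hd
      have h2 := h ⟨d, hKG hd⟩ hd
      have h3 := congrArg (fun f => ((f ⟨v, hv⟩ : FixedBy σ C) : V)) h2
      exact h3)
  rw [Subgroup.relIndex_subgroupOf hBG] at hO
  have hle : FixedBy σ B ≤ FixedBy σ C := fun v hv c hc => hv c (hCB hc)
  have hsub : (FixedBy σ B).addSubgroupOf (FixedBy σ C) =
      FixedBy (res σ C) (B.subgroupOf (Subgroup.centralizer (C : Set G))) := by
    ext u
    rw [AddSubgroup.mem_addSubgroupOf, mem_FixedBy, mem_FixedBy]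
    constructor
    · intro h a ha
      apply Subtype.ext
      exact h a.1 ha
    · intro h a ha
      have h2 := h ⟨a, hBG ha⟩ ha
      exact congrArg Subtype.val h2
  have hidx : (FixedBy (res σ C) (B.subgroupOf (Subgroup.centralizer (C : Set G)))).index *
      (FixedBy σ C).index = (FixedBy σ B).index := by
    rw [← hsub]
    exact AddSubgroup.relIndex_mul_index hle
  refine ⟨?_, ?_⟩
  · rw [← hidx]
    exact Nat.mul_le_mul_right _ hO
  · let e : K →* K.subgroupOf (Subgroup.centralizer (C : Set G)) :=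
      (Subgroup.subgroupOfEquivOfLe hKG).symm.toMonoidHom
    refine ⟨((Subgroup.centralizer (C : Set G)).subtype.comp δ).comp e, ?_, ?_, ?_⟩
    · intro a ha k
      exact congrArg Subtype.val (hδ1 ⟨a, hBG ha⟩ ha (e k))
    · have hk0 : (((k0 : Subgroup.centralizer (C : Set G)) : G)) ∈ K := k0.2
      refine ⟨⟨((k0 : Subgroup.centralizer (C : Set G)) : G), hk0⟩, v0.1, ?_, ?_⟩
      · intro a ha
        have h2 := hv0 ⟨a, hBG ha⟩ ha
        exact congrArg Subtype.val h2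
      · intro h
        apply hkv0
        apply Subtype.ext
        exact h
    · intro g hg hgB k
      have hgG : g ∈ Subgroup.centralizer (C : Set G) := by
        rw [Subgroup.mem_centralizer_iff]
        intro c hc
        exact hgB c (hCB hc)
      have h1 := hδ3 ⟨g, hgG⟩ (fun k hk => hg k.1 hk) (fun a ha => Subtype.ext (hgB a.1 ha)) (e k)
      exact congrArg Subtype.val h1

/-- the hypotheses on `A` -/
structure HY (p : ℕ) (𝒦 : Set (Subgroup G)) (A : Subgroup G) : Prop where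
  ab : ∀ a ∈ A, ∀ b ∈ A, a * b = b * a
  pw : ∀ a ∈ A, a ^ p = 1
  cl : ∀ K ∈ 𝒦, ∀ a ∈ A, cj a K ∈ 𝒦
  qs : ∀ K ∈ 𝒦, ∀ a ∈ A, cj a K = K → ¬ Cm K a → K ≤ Cq K a
  un : ∀ K ∈ 𝒦, ∀ a ∈ A, ∀ b ∈ A, cj a K = K → cj b K = K → ¬ Cm K a →
    ∃ i : ℕ, Cm K (b * a ^ i)

theorem HY.mono {p : ℕ} {𝒦 : Set (Subgroup G)} {A C : Subgroup G} (h : HY p 𝒦 A) (hCA : C ≤ A) :
    HY p 𝒦 C where
  ab := fun a ha b hb => h.ab a (hCA ha) b (hCA hb)
  pw := fun a ha => h.pw a (hCA ha)
  cl := fun K hK a ha => h.cl K hK a (hCA ha)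
  qs := fun K hK a ha => h.qs K hK a (hCA ha)
  un := fun K hK a ha b hb => h.un K hK a (hCA ha) b (hCA hb)

/-- a complement of `A1` modulo `C` -/
theorem exists_B0 [Finite G] {p : ℕ} (hp : p.Prime) {A A1 C : Subgroup G}
    (hab : ∀ a ∈ A, ∀ b ∈ A, a * b = b * a) (hpw : ∀ a ∈ A, a ^ p = 1) (hCA : C ≤ A) :
    ∃ B0 : Subgroup G, C ≤ B0 ∧ B0 ≤ A ∧ B0 ⊓ A1 ≤ C ∧ A ≤ B0 ⊔ A1 := by
  obtain ⟨B0, hB0⟩ := (Set.toFinite {B : Subgroup G | C ≤ B ∧ B ≤ A ∧ B ⊓ A1 ≤ C}).exists_maximal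
    ⟨C, le_rfl, hCA, inf_le_left⟩
  obtain ⟨⟨h1, h2, h3⟩, hmax⟩ := hB0
  refine ⟨B0, h1, h2, h3, ?_⟩
  intro a ha
  by_contra hcon
  have hc : ∀ b ∈ B0, a * b = b * a := fun b hb => hab a ha b (h2 hb)
  have h4 : adj a B0 hc ≤ B0 := by
    refine hmax ⟨h1.trans (le_adj hc), ?_, ?_⟩ (le_adj hc)
    · rintro x ⟨i, b, hb, rfl⟩
      exact A.mul_mem (A.zpow_mem ha i) (h2 hb)
    · rintro x ⟨⟨i, b, hb, rfl⟩, hx⟩
      have h5 : a ^ i ∈ B0 ⊔ A1 := by
        have h6 : a ^ i = a ^ i * b * b⁻¹ := by group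
        rw [h6]
        exact (B0 ⊔ A1).mul_mem ((le_sup_right : A1 ≤ B0 ⊔ A1) hx)
          ((le_sup_left : B0 ≤ B0 ⊔ A1) (B0.inv_mem hb))
      have h7 : a ^ i = 1 := by
        by_contra hne
        have hp' : (p : ℤ) ≠ 0 := by exact_mod_cast hp.pos.ne'
        have e1 : 0 ≤ i % p := Int.emod_nonneg i hp'
        have e2 : i % p < p := Int.emod_lt_of_pos i (by exact_mod_cast hp.pos)
        have e3 : a ^ (i % p).toNat = a ^ i := by
          rw [← zpow_natCast, Int.toNat_of_nonneg e1]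
          conv_rhs => rw [← Int.mul_ediv_add_emod i p]
          rw [zpow_add, zpow_mul, zpow_natCast, hpw a ha, one_zpow, one_mul]
        have e4 : (i % p).toNat ≠ 0 := by
          intro h0
          rw [h0, pow_zero] at e3
          exact hne e3.symm
        refine pow_notMem hp (hpw a ha) hcon (Nat.pos_of_ne_zero e4) (by omega) ?_
        rw [e3]
        exact h5
      rw [h7, one_mul] at hx ⊢
      exact h3 ⟨hb, hx⟩
  exact hcon ((le_sup_left : B0 ≤ B0 ⊔ A1) (h4 (self_adj hc)))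

theorem step (hTAB : Stmt_TAB) (hORC : Stmt_ORC) (p : ℕ) [Fact p.Prime] [Finite G] [Finite V]
    (σ : G →* AddMonoid.End V) (𝒦 : Set (Subgroup G)) (A : Subgroup G)
    (hV : ∀ v : V, p • v = 0) (hY : HY p 𝒦 A)
    (hK : ∀ K ∈ 𝒦, ⁅K, K⁆ = K ∧ ∃ k ∈ K, σ k ≠ 1)
    (hcm : ∀ K ∈ 𝒦, ∀ L ∈ 𝒦, K ≠ L → ∀ k ∈ K, ∀ l ∈ L, k * l = l * k)
    (K : Subgroup G) (hKm : K ∈ 𝒦) :
    ∃ m : ℕ, 1 ≤ m ∧ m * (cen A K).relIndex A * (FixedBy σ (cen A K)).index ≤
      (FixedBy σ A).index ∧ (m = 1 → ∀ a ∈ A, cj a K = K) := by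
  have hp : p.Prime := Fact.out
  obtain ⟨C, hC⟩ : ∃ C, C = cen A K := ⟨_, rfl⟩
  rw [← hC]
  have hCA : C ≤ A := by
    rw [hC]
    exact fun a ha => ha.1
  have hCK : ∀ c ∈ C, ∀ k ∈ K, c * k = k * c := by
    intro c hc
    rw [hC] at hc
    exact hc.2
  have hC1 : C ≤ stb A K := by
    intro c hc
    rw [hC] at hc
    exact ⟨hc.1, cm_cj hc.2⟩
  obtain ⟨B0, hCB, hBA, hB1, hAB⟩ := exists_B0 (A1 := stb A K) hp hY.ab hY.pw hCA
  obtain ⟨hO, f, hf1, hf2, hf3⟩ := relORC hTAB hORC p σ B0 C K hV hCB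
    (fun a ha b hb => hY.ab a (hBA ha) b (hBA hb)) (fun a ha => hY.pw a (hBA ha)) hCK
    (by
      intro a ha haC k hk l hl
      have h2 : cj a K ≠ K := fun h => haC (hB1 ⟨ha, hBA ha, h⟩)
      exact hcm (cj a K) (hY.cl K hKm a (hBA ha)) K hKm h2 _ (conj_mem_cj hk) l hl)
    (hK K hKm).1 (hK K hKm).2
  have hm0 : C.relIndex B0 ≠ 0 := Subgroup.index_ne_zero_of_finite
  refine ⟨C.relIndex B0, Nat.one_le_iff_ne_zero.2 hm0, ?_, ?_⟩
  · by_cases hA1 : stb A K ≤ C
    · have h1 : A = B0 := le_antisymm (hAB.trans (sup_le le_rfl (hA1.trans hCB))) hBA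
      rw [← h1] at hO ⊢
      calc C.relIndex A * C.relIndex A * (FixedBy σ C).index =
          C.relIndex A ^ 2 * (FixedBy σ C).index := by ring
        _ ≤ _ := hO
    · obtain ⟨a1, ha1, ha1C⟩ := SetLike.not_le_iff_exists.1 hA1
      have ha1A : a1 ∈ A := ha1.1
      have ha1m : ¬ Cm K a1 := by
        intro h
        apply ha1C
        rw [hC]
        exact ⟨ha1A, h⟩
      have hcB : ∀ b ∈ B0, a1 * b = b * a1 := fun b hb => hY.ab a1 ha1A b (hBA hb)
      -- the index of `B0` in `A`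
      have hAadj : A ≤ adj a1 B0 hcB := by
        refine hAB.trans (sup_le (le_adj hcB) ?_)
        intro b hb
        obtain ⟨i, hi⟩ := hY.un K hKm a1 ha1A b hb.1 ha1.2 hb.2 ha1m
        have h1 : b * a1 ^ i ∈ B0 := by
          apply hCB
          rw [hC]
          exact ⟨A.mul_mem hb.1 (A.pow_mem ha1A i), hi⟩
        have h2 : b = b * a1 ^ i * (a1 ^ i)⁻¹ := by group
        rw [h2]
        exact (adj a1 B0 hcB).mul_mem (le_adj hcB h1)
          ((adj a1 B0 hcB).inv_mem ((adj a1 B0 hcB).pow_mem (self_adj hcB) i))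
      have hrel : B0.relIndex A ≤ p :=
        (Subgroup.relIndex_le_of_le_right hAadj Subgroup.index_ne_zero_of_finite).trans
          (adj_relIndex hp.pos (hY.pw a1 ha1A) hcB)
      -- `a1` acts nontrivially on the fixed points of `B0`
      have hnt : ¬ ∀ v ∈ FixedBy σ B0, σ a1 v = v := by
        intro htriv
        have hnorm : ∀ k ∈ K, a1 * k * a1⁻¹ ∈ K := by
          intro k hk
          have h1 := conj_mem_cj (g := a1) hk
          rw [ha1.2] at h1
          exact h1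
        let K0 : Subgroup K :=
          { carrier := {k | ∀ v ∈ FixedBy σ B0, σ (f k) v = v}
            one_mem' := by
              intro v _
              rw [map_one, map_one]
              rfl
            mul_mem' := by
              intro k l hk hl v hv
              rw [map_mul, map_mul]
              show σ (f k) (σ (f l) v) = v
              rw [hl v hv, hk v hv]
            inv_mem' := by
              intro k hk v hv
              have h1 : σ (f k⁻¹) (σ (f k) v) = v := by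
                have h2 : σ (f k⁻¹) (σ (f k) v) = (σ (f k⁻¹) * σ (f k)) v := rfl
                rw [h2, ← map_mul, ← map_mul, inv_mul_cancel, map_one, map_one]
                rfl
              rw [hk v hv] at h1
              exact h1 }
        have hinv : ∀ (k : K), ∀ v ∈ FixedBy σ B0, σ (f k) v ∈ FixedBy σ B0 := by
          intro k v hv b hb
          have h1 : σ b (σ (f k) v) = (σ b * σ (f k)) v := rfl
          rw [h1, ← map_mul, hf1 b hb k, map_mul]
          show σ (f k) (σ b v) = σ (f k) v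
          rw [hv b hb]
        have htriv' : ∀ v ∈ FixedBy σ B0, σ a1⁻¹ v = v := by
          intro v hv
          have h1 : σ a1⁻¹ (σ a1 v) = v := by
            have h2 : σ a1⁻¹ (σ a1 v) = (σ a1⁻¹ * σ a1) v := rfl
            rw [h2, ← map_mul, inv_mul_cancel, map_one]
            rfl
          rw [htriv v hv] at h1
          exact h1
        have hle : Cq K a1 ≤ K0.map K.subtype := by
          unfold Cq
          rw [Subgroup.closure_le]
          rintro c ⟨k, hk, rfl⟩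
          have hk' : a1 * k⁻¹ * a1⁻¹ ∈ K := hnorm k⁻¹ (K.inv_mem hk)
          refine ⟨⟨k, hk⟩ * ⟨a1 * k⁻¹ * a1⁻¹, hk'⟩, ?_, ?_⟩
          · intro v hv
            have h1 := hf3 a1 hnorm (fun a ha => (hcB a ha).symm) ⟨k⁻¹, K.inv_mem hk⟩
            have h2 : f ⟨a1 * k⁻¹ * a1⁻¹, hk'⟩ = a1 * f ⟨k⁻¹, K.inv_mem hk⟩ * a1⁻¹ := h1.symm
            have h3 : f (⟨k, hk⟩ * ⟨a1 * k⁻¹ * a1⁻¹, hk'⟩) =
                f ⟨k, hk⟩ * (a1 * f ⟨k⁻¹, K.inv_mem hk⟩ * a1⁻¹) := by
              rw [map_mul, h2]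
            rw [h3, map_mul, map_mul, map_mul]
            show σ (f ⟨k, hk⟩) (σ a1 (σ (f ⟨k⁻¹, K.inv_mem hk⟩) (σ a1⁻¹ v))) = v
            rw [htriv' v hv, htriv _ (hinv _ v hv)]
            have h4 : σ (f ⟨k, hk⟩) (σ (f ⟨k⁻¹, K.inv_mem hk⟩) v) =
                (σ (f ⟨k, hk⟩) * σ (f ⟨k⁻¹, K.inv_mem hk⟩)) v := rfl
            rw [h4, ← map_mul, ← map_mul]
            have h5 : (⟨k, hk⟩ : K) * ⟨k⁻¹, K.inv_mem hk⟩ = 1 := by
              apply Subtype.ext
              exact mul_inv_cancel k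
            rw [h5, map_one, map_one]
            rfl
          · show k * (a1 * k⁻¹ * a1⁻¹) = k * a1 * k⁻¹ * a1⁻¹
            group
        obtain ⟨k0, v0, hv0, hkv0⟩ := hf2
        obtain ⟨k1, hk1, hk1e⟩ := hle (hY.qs K hKm a1 ha1A ha1.2 ha1m k0.2)
        have h6 : k1 = k0 := Subtype.ext hk1e
        rw [h6] at hk1
        exact hkv0 (hk1 v0 hv0)
      have hFA : FixedBy σ A ≤ FixedBy σ B0 := fun v hv b hb => hv b (hBA hb)
      have h10 : p ≤ (FixedBy σ A).relIndex (FixedBy σ B0) := by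
        refine le_relIndex p V hV _ _ ?_
        intro h
        exact hnt (fun v hv => h hv a1 ha1A)
      have h11 := AddSubgroup.relIndex_mul_index hFA
      have h12 := Subgroup.relIndex_mul_relIndex C B0 A hCB hBA
      calc C.relIndex B0 * C.relIndex A * (FixedBy σ C).index
          = B0.relIndex A * (C.relIndex B0 ^ 2 * (FixedBy σ C).index) := by rw [← h12]; ring
        _ ≤ (FixedBy σ A).relIndex (FixedBy σ B0) * (FixedBy σ B0).index :=
          Nat.mul_le_mul (hrel.trans h10) hO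
        _ = _ := h11
  · intro hm a ha
    have h1 : B0 ≤ C := Subgroup.relIndex_eq_one.1 hm
    exact (hAB.trans (sup_le (h1.trans hC1) le_rfl) ha).2

/-- the first statement for `zer A 𝒦` -/
theorem first (hTAB : Stmt_TAB) (hORC : Stmt_ORC) (p : ℕ) [Fact p.Prime] [Finite G] [Finite V]
    (σ : G →* AddMonoid.End V) (𝒦 : Set (Subgroup G)) (hV : ∀ v : V, p • v = 0)
    (hK : ∀ K ∈ 𝒦, ⁅K, K⁆ = K ∧ ∃ k ∈ K, σ k ≠ 1)
    (hcm : ∀ K ∈ 𝒦, ∀ L ∈ 𝒦, K ≠ L → ∀ k ∈ K, ∀ l ∈ L, k * l = l * k) (A : Subgroup G)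
    (hY : HY p 𝒦 A) : (zer A 𝒦).relIndex A ≤ (FixedBy σ A).index := by
  induction hn : Nat.card A using Nat.strong_induction_on generalizing A with
  | _ n ih =>
  by_cases hall : ∀ a ∈ A, ∀ K ∈ 𝒦, Cm K a
  · have h1 : A ≤ zer A 𝒦 := fun a ha => ⟨ha, hall a ha⟩
    rw [Subgroup.relIndex_eq_one.2 h1]
    exact Nat.one_le_iff_ne_zero.2 AddSubgroup.index_ne_zero_of_finite
  push Not at hall
  obtain ⟨a0, ha0, K, hKm, hKa⟩ := hall
  have hCA : cen A K ≤ A := fun a ha => ha.1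
  have hlt : Nat.card (cen A K) < n := by
    rw [← hn]
    have h1 : cen A K ≠ A := fun h => hKa (h.symm ▸ ha0 : a0 ∈ cen A K).2
    have h2 : cen A K < A := lt_of_le_of_ne hCA h1
    exact Set.ncard_lt_ncard (s := (cen A K : Set G)) (t := (A : Set G)) h2 (Set.toFinite _)
  have h1 := ih _ hlt (cen A K) (hY.mono hCA) rfl
  have h2 : zer (cen A K) 𝒦 = zer A 𝒦 := by
    ext a
    rw [mem_zer, mem_zer, mem_cen]
    constructor
    · rintro ⟨⟨h3, -⟩, h4⟩
      exact ⟨h3, h4⟩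
    · rintro ⟨h3, h4⟩
      exact ⟨⟨h3, h4 K hKm⟩, h4⟩
  rw [h2] at h1
  obtain ⟨m, hm1, hm2, -⟩ := step hTAB hORC p σ 𝒦 A hV hY hK hcm K hKm
  have h3 := Subgroup.relIndex_mul_relIndex (zer A 𝒦) (cen A K) A
    (fun a ha => ⟨ha.1, ha.2 K hKm⟩) hCA
  calc (zer A 𝒦).relIndex A = (zer A 𝒦).relIndex (cen A K) * (cen A K).relIndex A := h3.symm
    _ ≤ (FixedBy σ (cen A K)).index * (cen A K).relIndex A := Nat.mul_le_mul_right _ h1
    _ = 1 * ((cen A K).relIndex A * (FixedBy σ (cen A K)).index) := by ring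
    _ ≤ m * ((cen A K).relIndex A * (FixedBy σ (cen A K)).index) := Nat.mul_le_mul_right _ hm1
    _ = m * (cen A K).relIndex A * (FixedBy σ (cen A K)).index := by ring
    _ ≤ _ := hm2

end grp

end X_KLB

open X_KLB in
theorem s_KLB (hTAB : Stmt_TAB) (hORC : Stmt_ORC) : Stmt_KLB := by
  intro p _ G _ _ V _ _ σ 𝒦 A N hV hab hpw hK hcl hcm hqs hun hN hNA
  have hY : HY p 𝒦 A := ⟨hab, hpw, hcl, hqs, hun⟩
  have hzN : zer A 𝒦 ≤ N := fun a ha => hN a ha.1 ha.2
  have hrel : N.relIndex A ≤ (zer A 𝒦).relIndex A :=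
    Subgroup.relIndex_le_of_le_left hzN Subgroup.index_ne_zero_of_finite
  have h1 := first hTAB hORC p σ 𝒦 hV hK hcm A hY
  refine ⟨hrel.trans h1, ?_⟩
  intro hidx K hKm
  by_cases hall : ∀ a ∈ A, Cm K a
  · intro a ha
    exact cm_cj (hall a ha)
  have hCA : cen A K ≤ A := fun a ha => ha.1
  obtain ⟨m, hm1, hm2, hm3⟩ := step hTAB hORC p σ 𝒦 A hV hY hK hcm K hKm
  apply hm3
  have h2 := first hTAB hORC p σ 𝒦 hV hK hcm (cen A K) (hY.mono hCA)
  have h4 : zer (cen A K) 𝒦 = zer A 𝒦 := by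
    ext a
    rw [mem_zer, mem_zer, mem_cen]
    constructor
    · rintro ⟨⟨h3, -⟩, h4⟩
      exact ⟨h3, h4⟩
    · rintro ⟨h3, h4⟩
      exact ⟨⟨h3, h4 K hKm⟩, h4⟩
  rw [h4] at h2
  have h3 := Subgroup.relIndex_mul_relIndex (zer A 𝒦) (cen A K) A
    (fun a ha => ⟨ha.1, ha.2 K hKm⟩) hCA
  have h5 : m * ((cen A K).relIndex A * (FixedBy σ (cen A K)).index) ≤
      1 * ((cen A K).relIndex A * (FixedBy σ (cen A K)).index) := by
    calc m * ((cen A K).relIndex A * (FixedBy σ (cen A K)).index) =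
        m * (cen A K).relIndex A * (FixedBy σ (cen A K)).index := by ring
      _ ≤ (FixedBy σ A).index := hm2
      _ ≤ (zer A 𝒦).relIndex A := hidx.trans hrel
      _ = (zer A 𝒦).relIndex (cen A K) * (cen A K).relIndex A := h3.symm
      _ ≤ (FixedBy σ (cen A K)).index * (cen A K).relIndex A := Nat.mul_le_mul_right _ h2
      _ = 1 * ((cen A K).relIndex A * (FixedBy σ (cen A K)).index) := by ring
  have h6 : 0 < (cen A K).relIndex A * (FixedBy σ (cen A K)).index :=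
    Nat.mul_pos (Nat.pos_of_ne_zero Subgroup.index_ne_zero_of_finite)
      (Nat.pos_of_ne_zero AddSubgroup.index_ne_zero_of_finite)
  have h7 := Nat.le_of_mul_le_mul_right h5 h6
  omega

end Pool.Agent.Work.MP_6d7bb4.h65u
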