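import Pool.Agent.Work.MP_6d7bb4_G.InterfaceM

set_option autoImplicit false
set_option linter.unusedSectionVars false

/-!
# MP_6d7bb4, plan G: block KLC (the step for offenders)
-/

namespace Pool.Agent.Work.MP_6d7bb4.h65u

open MulAction
open Pool.Agent.Work.MP_6d7bb4.helper94 Pool.Agent.Work.MP_6d7bb4.helper94.Sol
open Tv Ff Ps

namespace X_KLC

variable {U : Type} [AddCommGroup U] {p : ℕ} [Fact p.Prime] [Module (ZMod p) U]

theorem pv (p : ℕ) [Fact p.Prime] [Module (ZMod p) U] (v : U) : p • v = 0 := by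
  rw [← Nat.cast_smul_eq_nsmul (ZMod p) p v, CharP.cast_eq_zero, zero_smul]

theorem finUn [Finite U] : Finite (Un U) := by
  have : Finite (AddMonoid.End U) :=
    Finite.of_injective (fun g : AddMonoid.End U => (g : U → U)) DFunLike.coe_injective
  exact Finite.of_injective (fun g : Un U => (g : AddMonoid.End U)) Units.val_injective

theorem El.isP {G : Type*} [Group G] {A C : Subgroup G} (h : El p A) (hC : C ≤ A) :
    IsPGroup p C := by
  intro x
  refine ⟨1, ?_⟩
  rw [pow_one]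
  exact Subtype.ext (h.ex x.1 (hC x.2))

theorem base (hKLB : Stmt_KLB) {Z : Subgroup (Un U)} {𝒦 : Set (Subgroup (Un U))}
    {Q Zq : Subgroup (Un U)} (hE : KE Z 𝒦) (hQ : KQ p Z 𝒦 Q Zq) {A : Subgroup (Un U)}
    (hAQ : A ≤ Q) (hA : El p A) :
    Nat.card A ≤ (FxU A).index ∧
      ((FxU A).index ≤ Nat.card A → ∀ K ∈ 𝒦, ∀ a ∈ A, cj a K = K) := by
  have := hE.fin
  have : Finite (Un U) := finUn
  have h := hKLB p (Un U) U (Units.coeHom (AddMonoid.End U)) 𝒦 A ⊥ (pv p) hA.cm hA.ex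
    (fun K hK => by
      refine ⟨hE.pf K hK, ?_⟩
      rcases K.bot_or_exists_ne_one with h1 | ⟨k, hk, hk1⟩
      · exact absurd h1 (hE.ne K hK)
      · exact ⟨k, hk, fun h2 => hk1 (Units.ext h2)⟩)
    (fun K hK a ha => hE.cl K hK a (hQ.QZ (hAQ ha)))
    hE.cm
    (fun K hK a ha h1 h2 => hE.qs K hK a (hQ.QZ (hAQ ha)) h1 h2)
    (fun K hK a ha b hb h1 h2 h3 => by
      refine hQ.un K hK a (hAQ ha) b (hAQ hb) h1 h2 ?_ ?_ h3
      · rw [hA.ex a ha]
        intro k _
        rw [one_mul, mul_one]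
      · rw [hA.ex b hb]
        intro k _
        rw [one_mul, mul_one])
    (fun a ha h1 => Subgroup.mem_bot.mpr (hQ.fa a (hAQ ha) h1))
    bot_le
  rw [Subgroup.relIndex_bot_left] at h
  exact h

theorem le_card (hKLB : Stmt_KLB) {Z : Subgroup (Un U)} {𝒦 : Set (Subgroup (Un U))}
    {Q Zq : Subgroup (Un U)} (hE : KE Z 𝒦) (hQ : KQ p Z 𝒦 Q Zq) {A : Subgroup (Un U)}
    (hAQ : A ≤ Q) (hA : El p A) : Nat.card A * Nat.card (FxU A) ≤ Nat.card U := by
  have := hE.fin
  have : Finite (Un U) := finUn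
  rw [← AddSubgroup.index_mul_card (FxU A)]
  exact Nat.mul_le_mul_right _ (base hKLB hE hQ hAQ hA).1

/-- a perfect group which commutes with a `p`-group acts nontrivially on its fixed points -/
theorem tab (hTAB : Stmt_TAB) [Finite U] {C D : Subgroup (Un U)} (hC : IsPGroup p C)
    (hD : ⁅D, D⁆ = D) (hne : D ≠ ⊥) (hcm : ∀ c ∈ C, Cm D c)
    (h : ∀ v ∈ FxU C, ∀ d ∈ D, (d : AddMonoid.End U) v = v) : False := by
  have : Finite (Un U) := finUn
  apply hne
  have h1 := hTAB p (Un U) U (Units.coeHom (AddMonoid.End U)) C D (pv p) hC hD hcm h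
  rw [Subgroup.eq_bot_iff_forall]
  intro d hd
  exact Units.ext (h1 d hd)

/-- an element of the centraliser of `C` leaves the fixed points invariant -/
theorem inv_fx {C : Subgroup (Un U)} {g : Un U} (hg : ∀ c ∈ C, c * g = g * c) {u : U}
    (hu : u ∈ FxU C) : (g : AddMonoid.End U) u ∈ FxU C := by
  intro c hc
  rw [← mul_ap, hg c hc, mul_ap, hu c hc]

/-- the action of the centraliser of `C` on the fixed points -/
def res (C : Subgroup (Un U)) :
    Subgroup.centralizer (C : Set (Un U)) →* AddMonoid.End (FxU C) where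
  toFun g := AddMonoidHom.mk' (fun u => ⟨(g.1 : AddMonoid.End U) u.1,
    inv_fx (fun c hc => (Subgroup.mem_centralizer_iff.mp g.2 c hc)) u.2⟩) (fun u v => by
      apply Subtype.ext
      exact map_add (g.1 : AddMonoid.End U) u.1 v.1)
  map_one' := by
    ext u
    rfl
  map_mul' := by
    intro g h
    ext u
    rfl

theorem res_ap {C : Subgroup (Un U)} (g : Subgroup.centralizer (C : Set (Un U))) (u : FxU C) :
    ((res C g u : FxU C) : U) = (g.1 : AddMonoid.End U) u.1 := rfl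

theorem perf {G : Type*} [Group G] {K H : Subgroup G} (hKH : K ≤ H) (hK : ⁅K, K⁆ = K) :
    ⁅K.subgroupOf H, K.subgroupOf H⁆ = K.subgroupOf H := by
  have h1 : (K.subgroupOf H).map H.subtype = K := by
    rw [Subgroup.subgroupOf_map_subtype]
    exact inf_eq_left.mpr hKH
  apply Subgroup.map_injective H.subtype_injective
  rw [Subgroup.map_commutator, h1, hK]

theorem cj_sub {G : Type*} [Group G] {K H : Subgroup G} (s : H) (hs : cj s.1 K = K) :
    cj s (K.subgroupOf H) = K.subgroupOf H := by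
  ext x
  rw [mem_cj, Subgroup.mem_subgroupOf, Subgroup.mem_subgroupOf]
  have h1 : (x : G) ∈ cj s.1 K ↔ (x : G) ∈ K := by rw [hs]
  rw [mem_cj] at h1
  exact h1

theorem cq_sub {G : Type*} [Group G] {K H : Subgroup G} (hKH : K ≤ H) (s : H)
    (hs : K ≤ Cq K s.1) : K.subgroupOf H ≤ Cq (K.subgroupOf H) s := by
  have h1 : Cq K s.1 ≤ (Cq (K.subgroupOf H) s).map H.subtype := by
    unfold Cq
    rw [Subgroup.closure_le]
    rintro c ⟨k, hk, rfl⟩
    refine ⟨⟨k, hKH hk⟩ * s * ⟨k, hKH hk⟩⁻¹ * s⁻¹, Subgroup.subset_closure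
      ⟨⟨k, hKH hk⟩, ?_, rfl⟩, rfl⟩
    rw [Subgroup.mem_subgroupOf]
    exact hk
  intro x hx
  rw [Subgroup.mem_subgroupOf] at hx
  obtain ⟨y, hy, hyx⟩ := h1 (hs hx)
  have h2 : y = x := Subtype.ext hyx
  rw [← h2]
  exact hy

end X_KLC

open X_KLC in
theorem s_KLC (hTAB : Stmt_TAB) (hKLB : Stmt_KLB) (hTR3 : Stmt_TR3) : Stmt_KLC := by
  intro U _ p _ _ Z 𝒦 Q Zq hE hQ
  have := hE.fin
  have : Finite (Un U) := finUn
  refine ⟨fun A hAQ hA => le_card hKLB hE hQ hAQ hA, ?_⟩
  intro A hAQ hA hcard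
  have hnm : ∀ K ∈ 𝒦, ∀ a ∈ A, cj a K = K := by
    refine (base hKLB hE hQ hAQ hA).2 ?_
    have h1 := AddSubgroup.index_mul_card (FxU A)
    rw [← hcard] at h1
    exact le_of_eq (Nat.eq_of_mul_eq_mul_right Nat.card_pos h1)
  refine ⟨hnm, ?_⟩
  intro K hK a0 ha0 hna0 C hC
  have hp : p.Prime := Fact.out
  have hCA : C ≤ A := fun a ha => ((hC a).mp ha).1
  have hCK : ∀ c ∈ C, Cm K c := fun c hc => ((hC c).mp hc).2
  have hCp : IsPGroup p C := El.isP hA hCA
  have hone : ∀ a ∈ A, Cm K (a ^ p) := by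
    intro a ha k _
    rw [hA.ex a ha, one_mul, mul_one]
  -- every element is `c * a0 ^ i`
  have hgen : ∀ a ∈ A, ∃ c ∈ C, ∃ i : ℕ, a = c * a0 ^ i := by
    intro a ha
    obtain ⟨i, hi⟩ := hQ.un K hK a0 (hAQ ha0) a (hAQ ha) (hnm K hK a0 ha0) (hnm K hK a ha)
      (hone a0 ha0) (hone a ha) hna0
    refine ⟨a * a0 ^ i, (hC _).mpr ⟨A.mul_mem ha (A.pow_mem ha0 i), hi⟩, (p - 1) * i, ?_⟩
    rw [mul_assoc, ← pow_add]
    have h1 : i + (p - 1) * i = p * i := by
      obtain ⟨q, hq⟩ : ∃ q, p = q + 1 := ⟨p - 1, (Nat.succ_pred_eq_of_pos hp.pos).symm⟩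
      rw [hq, Nat.add_sub_cancel]
      ring
    rw [h1, pow_mul, hA.ex a0 ha0, one_pow, mul_one]
  have hle : Nat.card A ≤ p * Nat.card C := by
    let f : Fin p × C → A := fun x => ⟨x.2.1 * a0 ^ x.1.1,
      A.mul_mem (hCA x.2.2) (A.pow_mem ha0 _)⟩
    have hf : Function.Surjective f := by
      rintro ⟨a, ha⟩
      obtain ⟨c, hc, i, hi⟩ := hgen a ha
      refine ⟨(⟨i % p, Nat.mod_lt _ hp.pos⟩, ⟨c, hc⟩), Subtype.ext ?_⟩
      show c * a0 ^ (i % p) = a
      rw [hi]
      congr 1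
      conv_rhs => rw [← Nat.mod_add_div i p, pow_add, pow_mul, hA.ex a0 ha0, one_pow, mul_one]
    have h1 := Nat.card_le_card_of_surjective f hf
    rwa [Nat.card_prod, Nat.card_fin] at h1
  -- fixed points
  have hcmA : ∀ c ∈ C, c * a0 = a0 * c := fun c hc => hA.cm c (hCA hc) a0 ha0
  have hfix : ∀ u, u ∈ FxU C → (a0 : AddMonoid.End U) u = u → u ∈ FxU A := by
    intro u hu hu0 a ha
    obtain ⟨c, hc, i, hi⟩ := hgen a ha
    have h1 : ∀ i : ℕ, ((a0 ^ i : Un U) : AddMonoid.End U) u = u := by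
      intro i
      induction i with
      | zero => rw [pow_zero]; rfl
      | succ i ih => rw [pow_succ, mul_ap, hu0, ih]
    rw [hi, mul_ap, h1 i, hu c hc]
  have hnt : ∀ M ∈ 𝒦, ¬ Cm M a0 → (∀ c ∈ C, Cm M c) →
      ¬ ∀ u ∈ FxU C, (a0 : AddMonoid.End U) u = u := by
    intro M hM hnM hCM h
    have hinv : ∀ k ∈ M, ∀ u ∈ FxU C, (k : AddMonoid.End U) u ∈ FxU C := by
      intro k hk u hu
      exact inv_fx (fun c hc => hCM c hc k hk) hu
    refine tab hTAB hCp (hE.pf M hM) (hE.ne M hM) hCM (fun v hv d hd => ?_)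
    have h1 : Cq M a0 ≤ ({
        carrier := {g | ∀ u ∈ FxU C, (g : AddMonoid.End U) u = u}
        mul_mem' := by
          intro x y hx hy u hu
          rw [mul_ap, hy u hu, hx u hu]
        one_mem' := fun u _ => rfl
        inv_mem' := by
          intro x hx u hu
          have h2 := inv_ap x u
          rwa [hx u hu] at h2 } : Subgroup (Un U)) := by
      unfold Cq
      rw [Subgroup.closure_le]
      rintro g ⟨k, hk, rfl⟩ u hu
      have ha0i : ((a0⁻¹ : Un U) : AddMonoid.End U) u = u := by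
        have h2 := inv_ap a0 u
        rwa [h u hu] at h2
      rw [mul_ap, mul_ap, mul_ap, ha0i, h _ (hinv _ (M.inv_mem hk) u hu), ap_inv]
    exact h1 (hE.qs M hM a0 (hQ.QZ (hAQ ha0)) (hnm M hM a0 ha0) hnM hd) v hv
  have hFle : FxU A ≤ FxU C := FxU_anti hCA
  have h2 : p * Nat.card (FxU A) ≤ Nat.card (FxU C) := by
    have e1 := AddSubgroup.relIndex_mul_relIndex ⊥ (FxU A) (FxU C) bot_le hFle
    rw [AddSubgroup.relIndex_bot_left, AddSubgroup.relIndex_bot_left] at e1
    rw [← e1, mul_comm]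
    refine Nat.mul_le_mul_left _ ?_
    have hpos : 0 < (FxU A).relIndex (FxU C) :=
      Nat.pos_of_dvd_of_pos (AddSubgroup.relIndex_dvd_card _ _) Nat.card_pos
    have hne1 : (FxU A).relIndex (FxU C) ≠ 1 := by
      intro h3
      rw [AddSubgroup.relIndex_eq_one] at h3
      exact hnt K hK hna0 hCK (fun u hu => h3 hu a0 ha0)
    have hdv : (FxU A).relIndex (FxU C) ∣ Nat.card U :=
      (AddSubgroup.relIndex_dvd_card _ _).trans (AddSubgroup.card_addSubgroup_dvd_card _)
    set n := (FxU A).relIndex (FxU C) with hn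
    have : Fact n.minFac.Prime := ⟨Nat.minFac_prime hne1⟩
    obtain ⟨v, hv⟩ := exists_prime_addOrderOf_dvd_card' (G := U) n.minFac
      ((Nat.minFac_dvd n).trans hdv)
    have h4 : addOrderOf v ∣ p := addOrderOf_dvd_of_nsmul_eq_zero (pv p v)
    rw [hv] at h4
    have h5 : n.minFac = p := (Nat.prime_dvd_prime_iff_eq (Nat.minFac_prime hne1) hp).mp h4
    exact Nat.le_of_dvd hpos (h5 ▸ Nat.minFac_dvd n)
  have h3 : Nat.card C * Nat.card (FxU C) ≤ Nat.card U :=
    le_card hKLB hE hQ (hCA.trans hAQ) ⟨fun a ha b hb => hA.cm a (hCA ha) b (hCA hb),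
      fun a ha => hA.ex a (hCA ha)⟩
  have hpA : 0 < Nat.card (FxU A) := Nat.card_pos
  have hpC : 0 < Nat.card C := Nat.card_pos
  have h4 : Nat.card A * Nat.card (FxU A) ≤ p * Nat.card C * Nat.card (FxU A) :=
    Nat.mul_le_mul_right _ hle
  have h5 : Nat.card C * (p * Nat.card (FxU A)) ≤ Nat.card C * Nat.card (FxU C) :=
    Nat.mul_le_mul_left _ h2
  have h6 : p * Nat.card C * Nat.card (FxU A) = Nat.card C * (p * Nat.card (FxU A)) := by ring
  have e1 : Nat.card A = p * Nat.card C := by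
    have : Nat.card A * Nat.card (FxU A) = p * Nat.card C * Nat.card (FxU A) := by omega
    exact Nat.eq_of_mul_eq_mul_right hpA this
  have e2 : Nat.card C * Nat.card (FxU C) = Nat.card U := by omega
  have e3 : p * Nat.card (FxU A) = Nat.card (FxU C) := by
    have : Nat.card C * (p * Nat.card (FxU A)) = Nat.card C * Nat.card (FxU C) := by omega
    exact Nat.eq_of_mul_eq_mul_left hpC this
  refine ⟨e1, e2, hgen, ?_⟩
  intro M hM hMK hCM
  by_contra hnM
  have hKc : K ≤ Subgroup.centralizer (C : Set (Un U)) := by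
    intro k hk
    rw [Subgroup.mem_centralizer_iff]
    intro c hc
    exact hCK c hc k hk
  have hMc : M ≤ Subgroup.centralizer (C : Set (Un U)) := by
    intro k hk
    rw [Subgroup.mem_centralizer_iff]
    intro c hc
    exact hCM c hc k hk
  have hac : a0 ∈ Subgroup.centralizer (C : Set (Un U)) := by
    rw [Subgroup.mem_centralizer_iff]
    intro c hc
    exact hcmA c hc
  have key := hTR3 p (Subgroup.centralizer (C : Set (Un U))) (FxU C) (res C)
    (K.subgroupOf _) (M.subgroupOf _) ⟨a0, hac⟩ (fun v => Subtype.ext (pv p v.1))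
    (perf hKc (hE.pf K hK)) (perf hMc (hE.pf M hM))
    (fun k hk l hl => Subtype.ext (hE.cm K hK M hM (Ne.symm hMK) k.1 hk l.1 hl))
    (cj_sub _ (hnm K hK a0 ha0)) (cj_sub _ (hnm M hM a0 ha0))
    (cq_sub hKc _ (hE.qs K hK a0 (hQ.QZ (hAQ ha0)) (hnm K hK a0 ha0) hna0))
    (cq_sub hMc _ (hE.qs M hM a0 (hQ.QZ (hAQ ha0)) (hnm M hM a0 ha0) hnM))
    (Subtype.ext (hA.ex a0 ha0)) (by
      set F := FixedBy (res C) (Subgroup.zpowers (⟨a0, hac⟩ :
        Subgroup.centralizer (C : Set (Un U)))) with hF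
      have h7 : Nat.card (FxU A) ≤ Nat.card F := by
        refine Nat.card_le_card_of_injective (fun u : FxU A => (⟨⟨u.1, hFle u.2⟩, ?_⟩ : F)) ?_
        · rw [hF, mem_FixedBy]
          intro g hg
          obtain ⟨j, hj⟩ := Subgroup.mem_zpowers_iff.mp hg
          apply Subtype.ext
          rw [res_ap]
          refine u.2 g.1 ?_
          rw [← hj]
          exact A.zpow_mem ha0 j
        · intro u v huv
          have h8 := congrArg (fun x : F => ((x.1 : FxU C) : U)) huv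
          exact Subtype.ext h8
      have h8 := AddSubgroup.index_mul_card F
      rw [← e3] at h8
      have h9 : F.index * Nat.card F ≤ p * Nat.card F := by
        rw [h8]
        exact Nat.mul_le_mul_left _ h7
      exact Nat.le_of_mul_le_mul_right h9 Nat.card_pos)
  rcases key with h7 | h7
  · refine tab hTAB hCp (hE.pf K hK) (hE.ne K hK) hCK (fun v hv d hd => ?_)
    have h8 := h7 ⟨d, hKc hd⟩ hd
    have h9 := congrArg (fun x : AddMonoid.End (FxU C) => ((x ⟨v, hv⟩ : FxU C) : U)) h8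
    exact h9
  · refine tab hTAB hCp (hE.pf M hM) (hE.ne M hM) hCM (fun v hv d hd => ?_)
    have h8 := h7 ⟨d, hMc hd⟩ hd
    have h9 := congrArg (fun x : AddMonoid.End (FxU C) => ((x ⟨v, hv⟩ : FxU C) : U)) h8
    exact h9

end Pool.Agent.Work.MP_6d7bb4.h65u
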