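import Pool.Agent.Work.MP_6d7bb4_G.InterfaceM

set_option autoImplicit false
set_option linter.unusedSectionVars false

/-! # Block KLE: offenders are generated by transvections -/

namespace Pool.Agent.Work.MP_6d7bb4.h65u

open MulAction
open Pool.Agent.Work.MP_6d7bb4.helper94 Pool.Agent.Work.MP_6d7bb4.helper94.Sol
open Tv Ff Ps

namespace X_KLE

section grp
variable {G : Type*} [Group G]

theorem cm_mul {K : Subgroup G} {a b : G} (ha : Cm K a) (hb : Cm K b) : Cm K (a * b) := by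
  intro k hk
  rw [mul_assoc, hb k hk, ← mul_assoc, ha k hk, mul_assoc]

theorem cm_inv {K : Subgroup G} {a : G} (ha : Cm K a) : Cm K a⁻¹ := by
  intro k hk
  rw [inv_mul_eq_iff_eq_mul, ← mul_assoc, ha k hk, mul_assoc, mul_inv_cancel, mul_one]

theorem cm_one {K : Subgroup G} : Cm K (1 : G) := by
  intro k _
  rw [one_mul, mul_one]

theorem cm_pow {K : Subgroup G} {a : G} (ha : Cm K a) (n : ℕ) : Cm K (a ^ n) := by
  induction n with
  | zero => rw [pow_zero]; exact cm_one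
  | succ n ih => rw [pow_succ]; exact cm_mul ih ha

/-- the centraliser, as a subgroup -/
def Ce (K : Subgroup G) : Subgroup G where
  carrier := {a | Cm K a}
  one_mem' := cm_one
  mul_mem' := fun ha hb => cm_mul ha hb
  inv_mem' := fun ha => cm_inv ha

theorem mem_Ce {K : Subgroup G} {a : G} : a ∈ Ce K ↔ Cm K a := Iff.rfl

theorem cj_sub (H : Subgroup G) (L : Subgroup G) (a : H) :
    cj a (L.subgroupOf H) = (cj a.1 L).subgroupOf H := by
  ext x
  rw [mem_cj, Subgroup.mem_subgroupOf, Subgroup.mem_subgroupOf, mem_cj]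
  exact Iff.rfl

theorem perf_sub {H L : Subgroup G} (hLH : L ≤ H) (hL : ⁅L, L⁆ = L) :
    ⁅L.subgroupOf H, L.subgroupOf H⁆ = L.subgroupOf H := by
  apply Subgroup.map_injective (H.subtype_injective)
  rw [Subgroup.map_commutator, Subgroup.map_subgroupOf_eq_of_le hLH, hL]

theorem cq_sub {H L : Subgroup G} (hLH : L ≤ H) (a : H) (h : L ≤ Cq L a.1) :
    L.subgroupOf H ≤ Cq (L.subgroupOf H) a := by
  have h1 : Cq L a.1 ≤ (Cq (L.subgroupOf H) a).map H.subtype := by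
    unfold Cq
    rw [Subgroup.closure_le]
    rintro c ⟨k, hk, rfl⟩
    refine ⟨(⟨k, hLH hk⟩ : H) * a * (⟨k, hLH hk⟩ : H)⁻¹ * a⁻¹, ?_, rfl⟩
    exact Subgroup.subset_closure ⟨⟨k, hLH hk⟩, Subgroup.mem_subgroupOf.2 hk, rfl⟩
  intro x hx
  obtain ⟨y, hy, hyx⟩ := h1 (h (Subgroup.mem_subgroupOf.1 hx))
  have h2 : y = x := Subtype.ext hyx
  rw [← h2]
  exact hy

theorem cm_sub {H L : Subgroup G} {a : H} (h : Cm L a.1) : Cm (L.subgroupOf H) a :=
  fun k hk => Subtype.ext (h k.1 (Subgroup.mem_subgroupOf.1 hk))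

theorem cm_of_sub {H L : Subgroup G} (hLH : L ≤ H) {a : H} (h : Cm (L.subgroupOf H) a) :
    Cm L a.1 :=
  fun k hk => congrArg Subtype.val (h ⟨k, hLH hk⟩ (Subgroup.mem_subgroupOf.2 hk))

end grp

section mdl
variable {U : Type} [AddCommGroup U] {p : ℕ} [Fact p.Prime] [Module (ZMod p) U]

theorem finU (hU : Finite U) : Finite (Un U) := by
  have : Finite (AddMonoid.End U) := DFunLike.finite (AddMonoid.End U)
  exact Finite.of_injective (fun u : Un U => (u : AddMonoid.End U)) Units.val_injective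

theorem psmul (u : U) : p • u = 0 := by
  rw [← Nat.cast_smul_eq_nsmul (ZMod p), ZMod.natCast_self, zero_smul]

theorem Pq_bot : Pq p (⊥ : Subgroup (Un U)) = ⊥ := by
  have h1 : Tq p (⊥ : Subgroup (Un U)) = ∅ := by
    rw [Set.eq_empty_iff_forall_notMem]
    rintro s ⟨hs, e, f, hT⟩
    exact hT.ne1 (Subgroup.mem_bot.1 hs)
  unfold Pq
  rw [h1, Subgroup.closure_empty]

theorem Pq_le (A : Subgroup (Un U)) : Pq p A ≤ A := by
  unfold Pq
  rw [Subgroup.closure_le]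
  intro s hs
  exact hs.1

theorem Pq_mono {A B : Subgroup (Un U)} (h : A ≤ B) : Pq p A ≤ Pq p B :=
  Subgroup.closure_mono (fun _ hs => ⟨h hs.1, hs.2⟩)

/-- the restriction to an invariant subgroup -/
def rs (H : Subgroup (Un U)) (S : AddSubgroup U)
    (h : ∀ g ∈ H, ∀ v ∈ S, (g : AddMonoid.End U) v ∈ S) : H →* AddMonoid.End S where
  toFun g :=
    { toFun := fun v => ⟨(g.1 : AddMonoid.End U) v.1, h g.1 g.2 v.1 v.2⟩
      map_zero' := Subtype.ext (map_zero (g.1 : AddMonoid.End U))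
      map_add' := fun v w => Subtype.ext (map_add (g.1 : AddMonoid.End U) v.1 w.1) }
  map_one' := by
    ext v
    rfl
  map_mul' := by
    intro a b
    ext v
    rfl

theorem rs_ap (H : Subgroup (Un U)) (S : AddSubgroup U)
    (h : ∀ g ∈ H, ∀ v ∈ S, (g : AddMonoid.End U) v ∈ S) (g : H) (v : S) :
    ((rs H S h g) v).1 = (g.1 : AddMonoid.End U) v.1 := rfl

/-- the elements which fix `w` -/
def St (w : U) : Subgroup (Un U) where
  carrier := {a | (a : AddMonoid.End U) w = w}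
  one_mem' := rfl
  mul_mem' := by
    intro a b ha hb
    show ((a * b : Un U) : AddMonoid.End U) w = w
    rw [mul_ap, hb, ha]
  inv_mem' := by
    intro a ha
    show ((a⁻¹ : Un U) : AddMonoid.End U) w = w
    have h1 := inv_ap a w
    rwa [show (a : AddMonoid.End U) w = w from ha] at h1

theorem mem_Fz {a : Un U} {v : U} :
    v ∈ FxU (Subgroup.zpowers a) ↔ (a : AddMonoid.End U) v = v := by
  constructor
  · intro h
    exact h a (Subgroup.mem_zpowers a)
  · intro h b hb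
    have h1 : Subgroup.zpowers a ≤ St v := by
      rw [Subgroup.zpowers_le]
      exact h
    exact h1 hb

/-- a power of order `p` with fixed points of index at most `p` is quadratic -/
theorem quad [Finite U] {a : Un U} (hap : a ^ p = 1)
    (hr : Nat.card U ≤ p * Nat.card ((a : AddMonoid.End U) - 1 : AddMonoid.End U).ker) :
    ((a : AddMonoid.End U) - 1) * ((a : AddMonoid.End U) - 1) = 0 := by
  obtain ⟨u, hu⟩ : ∃ u : AddMonoid.End U, u = (a : AddMonoid.End U) - 1 := ⟨_, rfl⟩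
  rw [← hu] at hr ⊢
  have hap1 : ∀ v, (a : AddMonoid.End U) v = v + u v := by
    intro v
    have h1 : u v = (a : AddMonoid.End U) v - v := by
      rw [hu]
      rfl
    rw [h1]
    abel
  have hcr : Nat.card (AddMonoidHom.range (u : U →+ U)) ≤ p := by
    have h1 : (AddMonoidHom.ker (u : U →+ U)).index * Nat.card (AddMonoidHom.ker (u : U →+ U)) =
      Nat.card U := AddSubgroup.index_mul_card _
    rw [AddSubgroup.index_ker] at h1
    have h2 : 0 < Nat.card (AddMonoidHom.ker (u : U →+ U)) := Nat.card_pos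
    rw [← h1] at hr
    exact Nat.le_of_mul_le_mul_right hr h2
  ext v
  show u (u v) = 0
  obtain ⟨w, hw⟩ : ∃ w, w = u v := ⟨_, rfl⟩
  rw [← hw]
  by_contra hne
  have hw0 : w ≠ 0 := by
    intro h
    rw [h, map_zero] at hne
    exact hne rfl
  let F : ZMod p → AddMonoidHom.range (u : U →+ U) := fun c =>
    ⟨c • w, ⟨c • v, by
      show u (c • v) = c • w
      rw [smul_map, hw]⟩⟩
  have hF : Function.Injective F := by
    intro c c' h
    exact smul_inj hw0 (congrArg Subtype.val h)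
  have hFb : Function.Bijective F :=
    hF.bijective_of_nat_card_le (by rw [Nat.card_zmod]; exact hcr)
  obtain ⟨c, hc⟩ := hFb.2 ⟨u w, ⟨w, rfl⟩⟩
  have hc1 : c • w = u w := congrArg Subtype.val hc
  have hk : ∀ k : ℕ, ((a ^ k : Un U) : AddMonoid.End U) w = (1 + c) ^ k • w := by
    intro k
    induction k with
    | zero =>
      rw [pow_zero, pow_zero, one_smul]
      rfl
    | succ k ih =>
      rw [pow_succ', mul_ap, ih, smul_map, hap1, ← hc1, pow_succ, mul_smul, add_smul, one_smul]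
  have h1 := hk p
  rw [hap, ZMod.pow_card] at h1
  have h2 : (1 : ZMod p) • w = (1 + c) • w := by
    rw [one_smul, ← h1]
    rfl
  have h3 := smul_inj hw0 h2
  have h4 : c = 0 := by
    have h5 : (1 : ZMod p) + c = 1 + 0 := by rw [← h3, add_zero]
    exact add_left_cancel h5
  rw [h4, zero_smul] at hc1
  exact hne hc1.symm

theorem claim1 (hKTV : Stmt_KTV) {Z : Subgroup (Un U)} {𝒦 : Set (Subgroup (Un U))}
    {Q Zq : Subgroup (Un U)} (hKE : KE Z 𝒦) (hKQ : KQ p Z 𝒦 Q Zq) {A : Subgroup (Un U)}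
    (hAQ : A ≤ Q) (hel : El p A) (hnm : ∀ K ∈ 𝒦, ∀ a ∈ A, cj a K = K)
    {K : Subgroup (Un U)} {a0 : Un U} (ha0 : a0 ∈ A) (hKa0 : ¬ Cm K a0)
    {C : Subgroup (Un U)} (hC : ∀ a, a ∈ C ↔ a ∈ A ∧ Cm K a) (hCP : C = Pq p C)
    (h4 : ∀ a ∈ A, ¬ Cm K a → ∀ M ∈ 𝒦, M ≠ K → (∀ c ∈ C, Cm M c) → Cm M a) :
    ∃ a1 ∈ A, ¬ Cm K a1 ∧ ∀ L ∈ 𝒦, L ≠ K → Cm L a1 := by
  have := hKE.fin
  have := finU hKE.fin
  obtain ⟨𝒞, h𝒞⟩ : ∃ 𝒞 : Set (Subgroup (Un U)), 𝒞 = {L | L ∈ 𝒦 ∧ ¬ ∀ c ∈ C, Cm L c} :=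
    ⟨_, rfl⟩
  have hmem : ∀ L, L ∈ 𝒞 ↔ L ∈ 𝒦 ∧ ¬ ∀ c ∈ C, Cm L c := by
    intro L
    rw [h𝒞]
    exact Iff.rfl
  have h1 : ∃ a1 ∈ A, ¬ Cm K a1 ∧ ∀ L ∈ 𝒞, Cm L a1 := by
    refine Set.Finite.induction_on_subset
      (motive := fun (𝒟 : Set (Subgroup (Un U))) _ => ∃ a1 ∈ A, ¬ Cm K a1 ∧ ∀ L ∈ 𝒟, Cm L a1)
      𝒞 (Set.toFinite 𝒞) ?_ ?_
    · exact ⟨a0, ha0, hKa0, fun L hL => absurd hL (Set.notMem_empty L)⟩
    · intro L 𝒟 hL hD hLD ih
      obtain ⟨a1, ha1, hKa1, hDa1⟩ := ih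
      obtain ⟨hLK, hLC⟩ := (hmem L).1 hL
      obtain ⟨s, hs, hsL⟩ : ∃ s ∈ Tq p C, ¬ Cm L s := by
        by_contra hcon
        push Not at hcon
        apply hLC
        have h2 : Pq p C ≤ Ce L := by
          unfold Pq
          rw [Subgroup.closure_le]
          exact hcon
        intro c hc
        rw [hCP] at hc
        exact h2 hc
      have hsC : s ∈ C := hs.1
      obtain ⟨hsA, hsK⟩ := (hC s).1 hsC
      obtain ⟨i, hi⟩ := hKQ.un L hLK s (hAQ hsA) a1 (hAQ ha1) (hnm L hLK s hsA)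
        (hnm L hLK a1 ha1) (by rw [hel.ex s hsA]; exact cm_one)
        (by rw [hel.ex a1 ha1]; exact cm_one) hsL
      refine ⟨a1 * s ^ i, A.mul_mem ha1 (A.pow_mem hsA i), ?_, ?_⟩
      · intro h3
        apply hKa1
        have h5 := cm_mul h3 (cm_inv (cm_pow hsK i))
        rwa [mul_inv_cancel_right] at h5
      · intro M hM
        rcases Set.mem_insert_iff.1 hM with rfl | hM
        · exact hi
        · refine cm_mul (hDa1 M hM) (cm_pow ?_ i)
          have hne : L ≠ M := by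
            rintro rfl
            exact hLD hM
          rcases (hKTV U p Z 𝒦 hKE s (hKQ.QZ (hAQ hsA)) hs.2).2 L hLK M
            ((hmem M).1 (hD hM)).1 hne with h6 | h6
          · exact absurd h6 hsL
          · exact h6
  obtain ⟨a1, ha1, hKa1, h𝒞a1⟩ := h1
  refine ⟨a1, ha1, hKa1, ?_⟩
  intro L hL hLK
  by_cases hLC : ∀ c ∈ C, Cm L c
  · exact h4 a1 ha1 hKa1 L hL hLK hLC
  · exact h𝒞a1 L ((hmem L).2 ⟨hL, hLC⟩)

theorem claim2 (hTAB : Stmt_TAB) (hKLB : Stmt_KLB) {Z : Subgroup (Un U)}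
    {𝒦 : Set (Subgroup (Un U))}
    {Q Zq : Subgroup (Un U)} (hKE : KE Z 𝒦) (hKQ : KQ p Z 𝒦 Q Zq) {A : Subgroup (Un U)}
    (hAQ : A ≤ Q) (hel : El p A) (hnm : ∀ K ∈ 𝒦, ∀ a ∈ A, cj a K = K)
    {K : Subgroup (Un U)} {a1 : Un U} (ha1 : a1 ∈ A)
    {C : Subgroup (Un U)} (hC : ∀ a, a ∈ C ↔ a ∈ A ∧ Cm K a)
    (h1 : ∀ L ∈ 𝒦, L ≠ K → Cm L a1)
    (h3 : ∀ a ∈ A, ∃ c ∈ C, ∃ i : ℕ, a = c * a1 ^ i) :
    Nat.card A * Nat.card (FxU A) ≤ p * Nat.card (FxU (Subgroup.zpowers a1)) := by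
  have := hKE.fin
  have := finU hKE.fin
  have hmG : ∀ g, g ∈ Subgroup.centralizer {a1} ↔ g * a1 = a1 * g := by
    intro g
    exact Subgroup.mem_centralizer_singleton_iff
  obtain ⟨H, hH⟩ : ∃ H : Subgroup (Un U), H = Subgroup.centralizer {a1} := ⟨_, rfl⟩
  rw [← hH] at hmG
  obtain ⟨S, hS⟩ : ∃ S : AddSubgroup U, S = FxU (Subgroup.zpowers a1) := ⟨_, rfl⟩
  have hmS : ∀ v, v ∈ S ↔ (a1 : AddMonoid.End U) v = v := by
    intro v
    rw [hS]
    exact mem_Fz
  have hHS : ∀ g ∈ H, ∀ v ∈ S, (g : AddMonoid.End U) v ∈ S := by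
    intro g hg v hv
    rw [hmS] at hv ⊢
    rw [← mul_ap, ← (hmG g).1 hg, mul_ap, hv]
  have hAH : A ≤ H := by
    intro a ha
    rw [hmG]
    exact hel.cm a ha a1 ha1
  have hzA : Subgroup.zpowers a1 ≤ A := by
    rw [Subgroup.zpowers_le]
    exact ha1
  have hLK : ∀ L ∈ 𝒦, (¬ ∀ c ∈ C, Cm L c) → L ≠ K := by
    rintro L - hL rfl
    exact hL (fun c hc => ((hC c).1 hc).2)
  have hLH : ∀ L ∈ 𝒦, (¬ ∀ c ∈ C, Cm L c) → L ≤ H := by
    intro L hL hLC l hl
    rw [hmG]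
    exact (h1 L hL (hLK L hL hLC) l hl).symm
  obtain ⟨𝒦', h𝒦'⟩ : ∃ 𝒦' : Set (Subgroup H),
      𝒦' = {M | ∃ L ∈ 𝒦, (¬ ∀ c ∈ C, Cm L c) ∧ M = L.subgroupOf H} := ⟨_, rfl⟩
  have hmK : ∀ M, M ∈ 𝒦' ↔ ∃ L ∈ 𝒦, (¬ ∀ c ∈ C, Cm L c) ∧ M = L.subgroupOf H := by
    intro M
    rw [h𝒦']
    exact Iff.rfl
  have key := (hKLB p H S (rs H S hHS) 𝒦' (A.subgroupOf H)
    ((Subgroup.zpowers a1).subgroupOf H) (fun v => Subtype.ext (psmul v.1))
    (fun a ha b hb => Subtype.ext (hel.cm a.1 (Subgroup.mem_subgroupOf.1 ha) b.1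
      (Subgroup.mem_subgroupOf.1 hb)))
    (fun a ha => Subtype.ext (hel.ex a.1 (Subgroup.mem_subgroupOf.1 ha)))
    ?_ ?_ ?_ ?_ ?_ ?_ ?_).1
  · have hA' : Nat.card (A.subgroupOf H) = Nat.card A :=
      Nat.card_congr (Subgroup.subgroupOfEquivOfLe hAH).toEquiv
    have hN' : Nat.card ((Subgroup.zpowers a1).subgroupOf H) ≤ p := by
      rw [Nat.card_congr (Subgroup.subgroupOfEquivOfLe (hzA.trans hAH)).toEquiv,
        Nat.card_zpowers]
      exact Nat.le_of_dvd (Fact.out (p := p.Prime)).pos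
        (orderOf_dvd_of_pow_eq_one (hel.ex a1 ha1))
    have hr : Nat.card ((Subgroup.zpowers a1).subgroupOf H) *
        ((Subgroup.zpowers a1).subgroupOf H).relIndex (A.subgroupOf H) = Nat.card A := by
      rw [← hA', ← Subgroup.relIndex_bot_left, ← Subgroup.relIndex_bot_left]
      refine Subgroup.relIndex_mul_relIndex _ _ _ bot_le ?_
      intro x hx
      exact Subgroup.mem_subgroupOf.2 (hzA (Subgroup.mem_subgroupOf.1 hx))
    have hF : Nat.card (FxU A) ≤ Nat.card (FixedBy (rs H S hHS) (A.subgroupOf H)) := by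
      let F : FxU A → FixedBy (rs H S hHS) (A.subgroupOf H) := fun v =>
        ⟨⟨v.1, (hmS v.1).2 (v.2 a1 ha1)⟩, fun a ha =>
          Subtype.ext (v.2 a.1 (Subgroup.mem_subgroupOf.1 ha))⟩
      refine Nat.card_le_card_of_injective F ?_
      intro v w hvw
      exact Subtype.ext (congrArg (fun z => z.1.1) hvw)
    have hi : (FixedBy (rs H S hHS) (A.subgroupOf H)).index *
        Nat.card (FixedBy (rs H S hHS) (A.subgroupOf H)) = Nat.card S :=
      AddSubgroup.index_mul_card _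
    rw [← hS, ← hi, ← hr]
    calc Nat.card ((Subgroup.zpowers a1).subgroupOf H) *
        ((Subgroup.zpowers a1).subgroupOf H).relIndex (A.subgroupOf H) * Nat.card (FxU A)
        ≤ p * (FixedBy (rs H S hHS) (A.subgroupOf H)).index *
          Nat.card (FixedBy (rs H S hHS) (A.subgroupOf H)) :=
          Nat.mul_le_mul (Nat.mul_le_mul hN' key) hF
      _ = _ := mul_assoc _ _ _
  · intro M hM
    obtain ⟨L, hL, hLC, rfl⟩ := (hmK M).1 hM
    refine ⟨perf_sub (hLH L hL hLC) (hKE.pf L hL), ?_⟩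
    by_contra hcon
    push Not at hcon
    apply hKE.ne L hL
    rw [eq_bot_iff]
    intro l hl
    rw [Subgroup.mem_bot]
    have h5 := hTAB p (Un U) U (Units.coeHom (AddMonoid.End U)) (Subgroup.zpowers a1) L
      (fun v => psmul v) (hKQ.Qp.to_le (hzA.trans hAQ)) (hKE.pf L hL) ?_ ?_ l hl
    · exact Units.ext h5
    · intro b hb d hd
      have h6 : Subgroup.zpowers a1 ≤ Ce L := by
        rw [Subgroup.zpowers_le]
        exact h1 L hL (hLK L hL hLC)
      exact h6 hb d hd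
    · intro v hv d hd
      have hvS : v ∈ S := (hmS v).2 (hv a1 (Subgroup.mem_zpowers a1))
      have h7 := hcon ⟨d, hLH L hL hLC hd⟩ (Subgroup.mem_subgroupOf.2 hd)
      have h8 := congrArg Subtype.val (DFunLike.congr_fun h7 ⟨v, hvS⟩)
      exact h8
  · intro M hM a ha
    obtain ⟨L, hL, hLC, rfl⟩ := (hmK M).1 hM
    rw [cj_sub, hnm L hL a.1 (Subgroup.mem_subgroupOf.1 ha)]
    exact hM
  · intro M hM M' hM' hne k hk l hl
    obtain ⟨L, hL, hLC, rfl⟩ := (hmK M).1 hM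
    obtain ⟨L', hL', hLC', rfl⟩ := (hmK M').1 hM'
    have hne' : L ≠ L' := by
      rintro rfl
      exact hne rfl
    exact Subtype.ext (hKE.cm L hL L' hL' hne' k.1 (Subgroup.mem_subgroupOf.1 hk) l.1
      (Subgroup.mem_subgroupOf.1 hl))
  · intro M hM a ha _ hMa
    obtain ⟨L, hL, hLC, rfl⟩ := (hmK M).1 hM
    have haA := Subgroup.mem_subgroupOf.1 ha
    exact cq_sub (hLH L hL hLC) a (hKE.qs L hL a.1 (hKQ.QZ (hAQ haA)) (hnm L hL a.1 haA)
      (fun h => hMa (cm_sub h)))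
  · intro M hM a ha b hb _ _ hMa
    obtain ⟨L, hL, hLC, rfl⟩ := (hmK M).1 hM
    have haA := Subgroup.mem_subgroupOf.1 ha
    have hbA := Subgroup.mem_subgroupOf.1 hb
    obtain ⟨i, hi⟩ := hKQ.un L hL a.1 (hAQ haA) b.1 (hAQ hbA) (hnm L hL a.1 haA)
      (hnm L hL b.1 hbA) (by rw [hel.ex a.1 haA]; exact cm_one)
      (by rw [hel.ex b.1 hbA]; exact cm_one) (fun h => hMa (cm_sub h))
    exact ⟨i, cm_sub hi⟩
  · intro a ha hcm
    have haA := Subgroup.mem_subgroupOf.1 ha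
    obtain ⟨c, hc, i, hci⟩ := h3 a.1 haA
    have hc1 : c = 1 := by
      refine hKQ.fa c (hAQ ((hC c).1 hc).1) ?_
      intro L hL
      by_cases hLC : ∀ c ∈ C, Cm L c
      · exact hLC c hc
      · have h5 : Cm L a.1 := cm_of_sub (hLH L hL hLC) (hcm _ ((hmK _).2 ⟨L, hL, hLC, rfl⟩))
        rw [hci] at h5
        have h6 := cm_mul h5 (cm_inv (cm_pow (h1 L hL (hLK L hL hLC)) i))
        rwa [mul_inv_cancel_right] at h6
    rw [Subgroup.mem_subgroupOf, hci, hc1, one_mul]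
    exact Subgroup.npow_mem_zpowers a1 i
  · intro x hx
    exact Subgroup.mem_subgroupOf.2 (hzA (Subgroup.mem_subgroupOf.1 hx))

end mdl

end X_KLE

open X_KLE in
theorem s_KLE (hTAB : Stmt_TAB) (hKLB : Stmt_KLB) (hKTV : Stmt_KTV) (_hKUN : Stmt_KUN)
    (hKLC : Stmt_KLC) : Stmt_KLE := by
  intro U _ p _ _ Z 𝒦 Q Zq hKE hKQ A hAQ hel
  refine ⟨(hKLC U p Z 𝒦 Q Zq hKE hKQ).1 A hAQ hel, ?_⟩
  have := hKE.fin
  have := finU hKE.fin
  have main : ∀ (n : ℕ) (A : Subgroup (Un U)), Nat.card A = n → A ≤ Q → El p A →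
      Nat.card A * Nat.card (FxU A) = Nat.card U → A = Pq p A := by
    intro n
    induction n using Nat.strong_induction_on with
    | _ n ih =>
      intro A hn hAQ hel hcard
      by_cases hA : A = ⊥
      · rw [hA, Pq_bot]
      · obtain ⟨⟨b, hbA⟩, hbx⟩ := Subgroup.ne_bot_iff_exists_ne_one.1 hA
        have hb1 : b ≠ 1 := fun h => hbx (Subtype.ext h)
        obtain ⟨K, hK, hKb⟩ : ∃ K ∈ 𝒦, ¬ Cm K b := by
          by_contra hcon
          push Not at hcon
          exact hb1 (hKQ.fa b (hAQ hbA) hcon)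
        obtain ⟨C, hCd⟩ : ∃ C : Subgroup (Un U), C = A ⊓ Ce K := ⟨_, rfl⟩
        have hC : ∀ a, a ∈ C ↔ a ∈ A ∧ Cm K a := by
          intro a
          rw [hCd, Subgroup.mem_inf, mem_Ce]
        obtain ⟨hnm, hst⟩ := (hKLC U p Z 𝒦 Q Zq hKE hKQ).2 A hAQ hel hcard
        obtain ⟨hpC, hCcard, -, -⟩ := hst K hK b hbA hKb C hC
        have hCA : C ≤ A := by
          rw [hCd]
          exact inf_le_left
        have hlt : Nat.card C < n := by
          rw [← hn, hpC]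
          have h5 : 0 < Nat.card C := Nat.card_pos
          have h6 := (Fact.out (p := p.Prime)).one_lt
          nlinarith
        have hCP : C = Pq p C := ih _ hlt C rfl (hCA.trans hAQ)
          ⟨fun a ha b hb => hel.cm a (hCA ha) b (hCA hb), fun a ha => hel.ex a (hCA ha)⟩ hCcard
        obtain ⟨a1, ha1, hKa1, hLa1⟩ := claim1 hKTV hKE hKQ hAQ hel hnm hbA hKb hC hCP
          (fun a ha hKa M hM hMK hMC => (hst K hK a ha hKa C hC).2.2.2 M hM hMK hMC)
        have h3 := (hst K hK a1 ha1 hKa1 C hC).2.2.1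
        have h2 := claim2 hTAB hKLB hKE hKQ hAQ hel hnm ha1 hC hLa1 h3
        have hker : Nat.card ((a1 : AddMonoid.End U) - 1 : AddMonoid.End U).ker =
            Nat.card (FxU (Subgroup.zpowers a1)) := by
          refine Nat.card_congr (Equiv.subtypeEquivRight ?_)
          intro v
          rw [mem_Fz, AddMonoidHom.mem_ker]
          show (a1 : AddMonoid.End U) v - v = 0 ↔ _
          exact sub_eq_zero
        rw [hcard, ← hker] at h2
        have ha11 : a1 ≠ 1 := by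
          rintro rfl
          exact hKa1 cm_one
        obtain ⟨e, f, hT⟩ := tv_of_rank ha11 (quad (hel.ex a1 ha1) h2) h2
        have ha1P : a1 ∈ Pq p A := Subgroup.subset_closure ⟨ha1, e, f, hT⟩
        refine le_antisymm ?_ (Pq_le A)
        intro a haA
        obtain ⟨c, hc, i, rfl⟩ := h3 a haA
        refine (Pq p A).mul_mem ?_ ((Pq p A).pow_mem ha1P i)
        rw [hCP] at hc
        exact Pq_mono hCA hc
  exact main _ A rfl hAQ hel

end Pool.Agent.Work.MP_6d7bb4.h65u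

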