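import Pool.Agent.Work.MP_6d7bb4_G.InterfaceM
import Pool.Agent.Work.MP_6d7bb4_S.B_MIN

set_option autoImplicit false
set_option linter.unusedSectionVars false

/-! # MP_6d7bb4, block KMI: the span of the centres is a minimal invariant subgroup (helper39) -/

namespace Pool.Agent.Work.MP_6d7bb4.h65u

open MulAction
open Pool.Agent.Work.MP_6d7bb4.helper94 Pool.Agent.Work.MP_6d7bb4.helper94.Sol
open Tv Ff Ps

open X_MIN in
theorem s_KMI (hKUN : Stmt_KUN) : Stmt_KMI := by
  intro U _ p _ _ Z 𝒦 t e f hKE htv htZ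
  have hS := inv_Sc Z e
  have heS : e ∈ Sc Z e := by
    have h1 := mem_Sc (Z := Z) e Z.one_mem
    rwa [ap_one] at h1
  refine ⟨hS, ?_, ?_⟩
  · intro S' hS'le hS'
    by_cases hex : ∃ u ∈ S', ∃ g ∈ Z, f (((g⁻¹ : Un U) : AddMonoid.End U) u) ≠ 0
    · right
      obtain ⟨u, hu, g, hg, hfu⟩ := hex
      have h1 := htv.conj g
      have h2 : ((g * t * g⁻¹ : Un U) : AddMonoid.End U) u - u ∈ S' :=
        S'.sub_mem (hS' _ (Z.mul_mem (Z.mul_mem hg htZ) (Z.inv_mem hg)) u hu) hu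
      rw [h1.ap u, add_sub_cancel_left] at h2
      have h3 : (g : AddMonoid.End U) e ∈ S' := by
        have h4 := ZMod.smul_mem h2 (f (((g⁻¹ : Un U) : AddMonoid.End U) u))⁻¹
        rw [← mul_smul] at h4
        have h5 : (f (((g⁻¹ : Un U) : AddMonoid.End U) u))⁻¹ *
            (f.comp ((g⁻¹ : Un U) : AddMonoid.End U)) u = 1 := inv_mul_cancel₀ hfu
        rw [h5, one_smul] at h4
        exact h4
      have h6 : e ∈ S' := by
        have h7 := hS' g⁻¹ (Z.inv_mem hg) _ h3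
        rwa [inv_ap] at h7
      refine le_antisymm hS'le ?_
      unfold Sc
      rw [AddSubgroup.closure_le]
      rintro _ ⟨h, hh, rfl⟩
      exact hS' h hh e h6
    · left
      push Not at hex
      obtain ⟨S'', hS'', hinf, hsup⟩ := hKE.ss S' hS'
      obtain ⟨v, hv⟩ := htv.f0
      have hv1 : v ∈ S' ⊔ S'' := by
        rw [hsup]
        exact AddSubgroup.mem_top v
      obtain ⟨v', hv', v'', hv'', hvv⟩ := AddSubgroup.mem_sup.1 hv1
      have hf1 : f v' = 0 := by
        have h1 := hex v' hv' 1 Z.one_mem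
        rw [inv_one, ap_one] at h1
        exact h1
      have hf2 : f v'' ≠ 0 := by
        rw [← hvv, map_add, hf1, zero_add] at hv
        exact hv
      have h2 : (t : AddMonoid.End U) v'' - v'' ∈ S'' := S''.sub_mem (hS'' t htZ _ hv'') hv''
      rw [htv.ap v'', add_sub_cancel_left] at h2
      have h3 : e ∈ S'' := by
        have h4 := ZMod.smul_mem h2 (f v'')⁻¹
        rw [← mul_smul, inv_mul_cancel₀ hf2, one_smul] at h4
        exact h4
      have h4 : Sc Z e ≤ S'' := by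
        unfold Sc
        rw [AddSubgroup.closure_le]
        rintro _ ⟨h, hh, rfl⟩
        exact hS'' h hh e h3
      rw [eq_bot_iff, ← hinf]
      exact le_inf le_rfl (le_trans hS'le h4)
  · rintro Q Zq hKQ ⟨g, hg, hgt⟩ a ha
    obtain ⟨u1, u2, -, u4⟩ := hKUN U p Z 𝒦 Q Zq hKE hKQ
    have hgT : g * t * g⁻¹ ∈ Tq p Q := ⟨hgt, _, _, htv.conj g⟩
    refine (clos hS (T := Tq p Q) ?_ a ha).2
    intro s hs
    obtain ⟨K, hK, hKs, -⟩ := u1 s hs
    obtain ⟨b, hb, hbT, hbK⟩ := u4 _ hgT K hK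
    have hsr := u2 _ hbT s hs K hK hbK hKs
    rw [Subgroup.zpowers_eq_closure] at hsr
    refine clos hS (T := {b * (g * t * g⁻¹) * b⁻¹}) ?_ s hsr
    intro r hr
    rw [Set.mem_singleton_iff] at hr
    have hbZ : b ∈ Z := hKQ.ZZ hb
    rw [hr]
    refine ⟨hKQ.QZ hbT.1, fun u => ?_⟩
    have h1 := (htv.conj g).conj b
    rw [h1.ap, add_sub_cancel_left]
    exact ZMod.smul_mem (hS b hbZ _ (mem_Sc e hg)) _

end Pool.Agent.Work.MP_6d7bb4.h65u
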