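import Pool.Agent.Work.MP_6d7bb4_G.InterfaceV

/-! # MP_6d7bb4: plan G (product action); block KNCV (helper22) -/

set_option autoImplicit false
set_option linter.unusedSectionVars false

namespace Pool.Agent.Work.MP_6d7bb4.h65u

open MulAction
open Pool.Agent.Work.MP_6d7bb4.helper94 Pool.Agent.Work.MP_6d7bb4.helper94.Sol
open Tv Ff Ps

namespace X_KNCV

/-- conjugates of images -/
theorem im_conj {V G : Type} [Group G] [MulAction G V] {p : ℕ} {x y : V} {H : Type} [Group H]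
    {ψ : stabilizer G x →* H} {s : H} (hs : s ∈ im ψ (Qe (G := G) p x y))
    (g : stabilizer G x) : ψ g * s * (ψ g)⁻¹ ∈ im ψ (Qe p x (g.1 • y)) := by
  obtain ⟨a, ha, rfl⟩ := hs
  have hgx : g.1 • x = x := mem_stabilizer_iff.1 g.2
  refine ⟨g * a * g⁻¹, ?_, ?_⟩
  · show (g * a * g⁻¹ : stabilizer G x).1 ∈ Qe p x (g.1 • y)
    have h1 : Qe (G := G) p x (g.1 • y) = Qe p (g.1 • x) (g.1 • y) := by rw [hgx]
    rw [h1, Qe_cj]
    exact conj_mem_cj ha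
  · rw [map_mul, map_mul, map_inv]

/-- the centraliser condition under conjugation by an element of `K` -/
theorem cm_conj {H : Type*} [Group H] {K : Subgroup H} {s x : H} (hx : x ∈ K)
    (h : Cm K (x * s * x⁻¹)) : Cm K s := by
  intro k hk
  have h1 := h (x * k * x⁻¹) (K.mul_mem (K.mul_mem hx hk) (K.inv_mem hx))
  have h2 : x * s * x⁻¹ * (x * k * x⁻¹) = x * (s * k) * x⁻¹ := by group
  have h3 : x * k * x⁻¹ * (x * s * x⁻¹) = x * (k * s) * x⁻¹ := by group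
  rw [h2, h3] at h1
  exact mul_left_cancel (mul_right_cancel h1)

/-- the subgroup fixing a vector -/
def fx {U : Type*} [AddCommGroup U] (e : U) : Subgroup (Un U) where
  carrier := {g | (g : AddMonoid.End U) e = e}
  one_mem' := rfl
  mul_mem' := by
    intro a b ha hb
    show (a : AddMonoid.End U) ((b : AddMonoid.End U) e) = e
    have hb' : (b : AddMonoid.End U) e = e := hb
    rw [hb']
    exact ha
  inv_mem' := by
    intro a ha
    show ((a⁻¹ : Un U) : AddMonoid.End U) e = e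
    have ha' : (a : AddMonoid.End U) e = e := ha
    have h1 := inv_ap a e
    rw [ha'] at h1
    exact h1

end X_KNCV

theorem s_KNCV (hFAB : Stmt_FAB) (hKTV : Stmt_KTV) (hKUN : Stmt_KUN) (hKPY : Stmt_KPY) :
    Stmt_KNCV := by
  intro V G _ _ Γ d p _ x W S R Bm U _ _ ψ 𝒦 t e f hVB 𝒞 h𝒞 hne y' hy'
  obtain ⟨K, hK𝒞⟩ := hne
  have hK : K ∈ 𝒦 := h𝒞 hK𝒞
  by_contra hcon
  push Not at hcon
  have hve := hVB.vs.ve
  have hke := hve.ke
  have hA : ∀ y, Γ.Adj x y → ∀ a b : stabilizer G x, a.1 ∈ Pk Bm ψ 𝒦 𝒞 y → b.1 ∈ Bm y' →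
      ∀ u : U, (ψ b : AddMonoid.End U) ((ψ a : AddMonoid.End U) u - u) =
        (ψ a : AddMonoid.End U) u - u := by
    intro y hy a b ha hb
    refine hVB.md.qp b a (fun v hv => ?_)
    have h1 := (mem_Cw.1 (hcon y hy a.1 ha v hv)).2 b.1 hb
    rw [h1, mul_inv_cancel_right]
  have hB : ∀ y, Γ.Adj x y → ∀ s ∈ Tq p (im ψ (Qe p x y)), ∀ (e' : U) (f' : U →+ ZMod p),
      TV s e' f' → ¬ Cm K s → ∀ b : stabilizer G x, b.1 ∈ Bm y' →
      (ψ b : AddMonoid.End U) e' = e' := by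
    intro y hy s hs e' f' hTV hnc b hb
    obtain ⟨k1, -, -, -⟩ := hKUN U p ψ.range 𝒦 _ _ hke (hve.kq y hy)
    obtain ⟨K2, hK2, -, hL⟩ := k1 s hs
    have hKK : K = K2 := by
      by_contra hne
      exact hnc (hL K hK hne)
    subst hKK
    have hsP : s ∈ im ψ (Pk Bm ψ 𝒦 𝒞 y) := by
      rw [(hKPY V G Γ d p x W S R Bm U ψ 𝒦 t e f hVB y hy).2.1 𝒞]
      refine ⟨Subgroup.subset_closure hs, mem_Cz.2 (fun L hL' => hL L hL'.1 ?_)⟩
      rintro rfl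
      exact hL'.2 hK𝒞
    obtain ⟨a, ha, rfl⟩ := hsP
    obtain ⟨u, hu⟩ := hTV.f0
    have h1 := hA y hy a b ha hb u
    have h2 : (ψ a : AddMonoid.End U) u - u = f' u • e' := by
      rw [hTV.ap, add_sub_cancel_left]
    rw [h2, smul_map] at h1
    have h3 := congrArg (fun w => (f' u)⁻¹ • w) h1
    rwa [inv_smul_smul₀ hu, inv_smul_smul₀ hu] at h3
  obtain ⟨s0, hs0, hnc0⟩ : ∃ s0 ∈ Tq p (im ψ (Qe p x y')), ¬ Cm K s0 := by
    obtain ⟨y0, hy0, ht0⟩ := hVB.vs.tQ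
    obtain ⟨g, hgx, hgy⟩ := hVB.loc.arc x y0 x y' hy0 hy'
    have h1 := X_KNCV.im_conj ht0 ⟨g, mem_stabilizer_iff.2 hgx⟩
    have h1' : ψ ⟨g, mem_stabilizer_iff.2 hgx⟩ * t * (ψ ⟨g, mem_stabilizer_iff.2 hgx⟩)⁻¹ ∈
        im ψ (Qe p x y') := by
      rw [← hgy]
      exact h1
    obtain ⟨-, -, -, k4⟩ := hKUN U p ψ.range 𝒦 _ _ hke (hve.kq y' hy')
    obtain ⟨b, -, h2, h3⟩ := k4 _ ⟨h1', ⟨_, _, hVB.vs.tv.conj _⟩⟩ K hK
    exact ⟨_, h2, h3⟩
  obtain ⟨e0, f0, hTV⟩ := hs0.2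
  have hs0B : s0 ∈ im ψ (Bm y') := by
    rw [hVB.vs.BT y' hy']
    exact Subgroup.subset_closure hs0
  obtain ⟨b0, hb0, hb0s⟩ := hs0B
  have hs0Z : s0 ∈ ψ.range := ⟨b0, hb0s⟩
  have hC : ∀ x1 ∈ K, f0 ((x1 : AddMonoid.End U) e0) = 0 := by
    intro x1 hx1
    obtain ⟨g, hg⟩ := hke.KZ K hK hx1
    have hgx : g.1 • x = x := mem_stabilizer_iff.1 g.2
    have hadj : Γ.Adj x (g.1 • y') := by
      have h3 : Γ.Adj (g.1 • x) (g.1 • y') := hVB.loc.adj _ _ _ hy'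
      rwa [hgx] at h3
    have h1 := X_KNCV.im_conj hs0.1 g
    rw [hg] at h1
    have hT := hTV.conj x1
    have h2 : ¬ Cm K (x1 * s0 * x1⁻¹) := fun h => hnc0 (X_KNCV.cm_conj hx1 h)
    have h3 := hB (g.1 • y') hadj _ ⟨h1, ⟨_, _, hT⟩⟩ _ _ hT h2 b0 hb0
    rw [hb0s, hTV.ap] at h3
    have h4 : f0 ((x1 : AddMonoid.End U) e0) • e0 = 0 := by
      have h5 : (x1 : AddMonoid.End U) e0 + f0 ((x1 : AddMonoid.End U) e0) • e0 =
          (x1 : AddMonoid.End U) e0 + 0 := by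
        rw [add_zero]
        exact h3
      exact add_left_cancel h5
    rcases smul_eq_zero.1 h4 with h5 | h5
    · exact h5
    · exact absurd h5 hTV.e0
  have hcj := (hKTV U p ψ.range 𝒦 hke s0 hs0Z ⟨_, _, hTV⟩).1 K hK
  have hqs := hke.qs K hK s0 hs0Z hcj hnc0
  have hfix : s0 ∈ X_KNCV.fx e0 := by
    show (s0 : AddMonoid.End U) e0 = e0
    rw [hTV.ap, hTV.fe, zero_smul, add_zero]
  have hKf : K ≤ X_KNCV.fx e0 := by
    refine hqs.trans ?_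
    unfold Cq
    rw [Subgroup.closure_le]
    rintro c ⟨k, hk, rfl⟩
    refine Subgroup.mul_mem _ ?_ (Subgroup.inv_mem _ hfix)
    show ((k * s0 * k⁻¹ : Un U) : AddMonoid.End U) e0 = e0
    rw [(hTV.conj k).ap]
    have h1 : (f0.comp ((k⁻¹ : Un U) : AddMonoid.End U)) e0 = 0 := hC k⁻¹ (K.inv_mem hk)
    rw [h1, zero_smul, add_zero]
  refine hke.ne K hK ((hFAB U p K s0 e0 f0 hTV (hke.pf K hK) hqs).1 (fun z hz => ⟨1, ?_⟩))
  rw [one_smul]
  exact hKf hz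

end Pool.Agent.Work.MP_6d7bb4.h65u
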