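import Pool.Agent.Work.MP_6d7bb4_G.InterfaceM

/-! # MP_6d7bb4: elements which commute modulo the kernel; block KOM2 (copy of KOM) -/

set_option autoImplicit false
set_option linter.unusedSectionVars false

namespace Pool.Agent.Work.MP_6d7bb4.h65u

open MulAction
open Pool.Agent.Work.MP_6d7bb4.helper94 Pool.Agent.Work.MP_6d7bb4.helper94.Sol
open Tv Ff Ps

namespace X_KOM2

section one
variable {X : Type} [Group X] {S : Type} [AddCommGroup S] (ρ : X →* AddMonoid.End S)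
  (K : Subgroup X)

/-- the elements which commute with `K` in the action on `S` -/
def cen : Subgroup X where
  carrier := {t | ∀ k ∈ K, ρ (k * t) = ρ (t * k)}
  one_mem' := fun k _ => by rw [mul_one, one_mul]
  mul_mem' := by
    intro s t hs ht k hk
    calc ρ (k * (s * t)) = ρ (k * s) * ρ t := by rw [← map_mul, mul_assoc]
      _ = ρ (s * k) * ρ t := by rw [hs k hk]
      _ = ρ s * ρ (k * t) := by rw [← map_mul, ← map_mul, mul_assoc]
      _ = ρ s * ρ (t * k) := by rw [ht k hk]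
      _ = ρ (s * t * k) := by rw [← map_mul, mul_assoc]
  inv_mem' := by
    intro t ht k hk
    calc ρ (k * t⁻¹) = ρ (t⁻¹ * (t * k) * t⁻¹) := by
          congr 1
          group
      _ = ρ t⁻¹ * ρ (t * k) * ρ t⁻¹ := by rw [map_mul, map_mul]
      _ = ρ t⁻¹ * ρ (k * t) * ρ t⁻¹ := by rw [ht k hk]
      _ = ρ (t⁻¹ * (k * t) * t⁻¹) := by rw [← map_mul, ← map_mul]
      _ = ρ (t⁻¹ * k) := by
          congr 1
          group

theorem cen_normal (hK : K.Normal) : (cen ρ K).Normal := by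
  refine ⟨fun t ht x k hk => ?_⟩
  have h1 : x⁻¹ * k * x ∈ K := by
    have := hK.conj_mem k hk x⁻¹
    rwa [inv_inv] at this
  calc ρ (k * (x * t * x⁻¹)) = ρ (x * ((x⁻¹ * k * x) * t) * x⁻¹) := by
        congr 1
        group
    _ = ρ x * ρ ((x⁻¹ * k * x) * t) * ρ x⁻¹ := by rw [map_mul, map_mul]
    _ = ρ x * ρ (t * (x⁻¹ * k * x)) * ρ x⁻¹ := by rw [ht _ h1]
    _ = ρ (x * (t * (x⁻¹ * k * x)) * x⁻¹) := by rw [← map_mul, ← map_mul]
    _ = ρ (x * t * x⁻¹ * k) := by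
        congr 1
        group

end one

section two
variable {X : Type} [Group X] [Finite X] {Q : Type} [Group Q] {π : X →* Q}
  {p : ℕ} [Fact p.Prime] {Y P : Subgroup X} {S : Type} [AddCommGroup S]
  {ρ : X →* AddMonoid.End S}

/-- step (1) -/
theorem act1 (hKY : π.ker ≤ Y) (hop : IsOp p Y P) (hnp : NP p ρ) :
    ∀ n ∈ P ⊓ π.ker, ρ n = 1 := by
  have hn : Nm (⊤ : Subgroup X) π.ker := fun x _ n hn => (MonoidHom.normal_ker π).conj_mem n hn x
  have h1 : P ⊓ π.ker ≤ O p π.ker := by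
    refine le_O inf_le_right ?_ (hop.pg.to_le inf_le_left)
    intro b hb n hn'
    exact ⟨hop.nm b (hKY hb) n hn'.1, hn b trivial n hn'.2⟩
  have h2 : ∀ n ∈ O p π.ker, ρ n = 1 := by
    refine hnp (O p π.ker) ?_ ?_
    · intro x n hn'
      exact nm_O hn x trivial n hn'
    · intro n hn'
      obtain ⟨k, hk⟩ := O_isP (p := p) π.ker ⟨n, hn'⟩
      refine ⟨k, ?_⟩
      have h3 : n ^ p ^ k = 1 := by
        have := congrArg Subtype.val hk
        simpa using this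
      rw [h3, map_one]
  exact fun n hn' => h2 n (h1 hn')

/-- step (2) -/
theorem comm1 (hKY : π.ker ≤ Y) (hop : IsOp p Y P)
    (h1 : ∀ n ∈ P ⊓ π.ker, ρ n = 1) : P ≤ cen ρ π.ker := by
  intro b hb k hk
  have h2 : k * b * k⁻¹ * b⁻¹ ∈ P ⊓ π.ker := by
    refine ⟨P.mul_mem (hop.nm k (hKY hk) b hb) (P.inv_mem hb), ?_⟩
    have h3 := (MonoidHom.normal_ker π).conj_mem k⁻¹ (π.ker.inv_mem hk) b
    have h4 := π.ker.mul_mem hk h3
    have h5 : k * (b * k⁻¹ * b⁻¹) = k * b * k⁻¹ * b⁻¹ := by group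
    rwa [h5] at h4
  calc ρ (k * b) = ρ ((k * b * k⁻¹ * b⁻¹) * (b * k)) := by
        congr 1
        group
    _ = ρ (b * k) := by rw [map_mul, h1 _ h2, one_mul]

/-- no elements of order `p` in a commutative normal subgroup -/
theorem nop (hnp : NP p ρ)
    (D : Subgroup X) (hD : D.Normal) (hc : ∀ a ∈ D, ∀ b ∈ D, ρ (a * b) = ρ (b * a)) :
    ∀ d ∈ D, ∀ m : ℕ, ρ (d ^ p ^ m) = 1 → ρ d = 1 := by
  set N : Subgroup X :=
    { carrier := {d | d ∈ D ∧ ∃ m : ℕ, ρ (d ^ p ^ m) = 1}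
      one_mem' := ⟨D.one_mem, 0, by rw [one_pow, map_one]⟩
      mul_mem' := by
        rintro a b ⟨ha, m, hm⟩ ⟨hb, m', hm'⟩
        refine ⟨D.mul_mem ha hb, m + m', ?_⟩
        have h1 : Commute (ρ a) (ρ b) := by
          show ρ a * ρ b = ρ b * ρ a
          rw [← map_mul, ← map_mul]
          exact hc a ha b hb
        rw [map_pow, map_mul, h1.mul_pow, ← map_pow, ← map_pow, pow_add, pow_mul, map_pow ρ (a ^ p ^ m),
          hm, one_pow, one_mul, mul_comm, pow_mul, map_pow, hm', one_pow]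
      inv_mem' := by
        rintro a ⟨ha, m, hm⟩
        refine ⟨D.inv_mem ha, m, ?_⟩
        have h1 : ρ (a ^ p ^ m) * ρ (a⁻¹ ^ p ^ m) = 1 := by
          rw [← map_mul, ← (Commute.refl a).inv_right.mul_pow, mul_inv_cancel, one_pow, map_one]
        rwa [hm, one_mul] at h1 } with hNdef
  have h1 : ∀ n ∈ N, ρ n = 1 := by
    refine hnp N ?_ ?_
    · rintro x n ⟨hn, m, hm⟩
      refine ⟨hD.conj_mem n hn x, m, ?_⟩
      rw [conj_pow, map_mul, map_mul, hm, mul_one, ← map_mul, mul_inv_cancel, map_one]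
    · rintro n ⟨_, hm⟩
      exact hm
  intro d hd m hm
  exact h1 d ⟨hd, m, hm⟩

end two

end X_KOM2

open X_KOM2 in
/-- KOM2 -/
theorem s_KOM2 : Stmt_KOM2 := by
  intro X _ _ Q _ π p _ Y P hKY hop S _ ρ hnp
  have hker : (π.ker).Normal := MonoidHom.normal_ker π
  have h1 := act1 (ρ := ρ) hKY hop hnp
  have h2 := comm1 hKY hop h1
  have hcN := cen_normal ρ π.ker hker
  obtain ⟨R, hR⟩ : ∃ R, R = Subgroup.normalClosure (P : Set X) := ⟨_, rfl⟩
  have hRN : R.Normal := by rw [hR]; exact Subgroup.normalClosure_normal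
  have hPR : P ≤ R := by rw [hR]; exact Subgroup.subset_normalClosure
  have hRc : R ≤ cen ρ π.ker := by
    rw [hR]
    exact Subgroup.normalClosure_le_normal (fun a ha => h2 ha)
  have hDN : (R ⊓ π.ker).Normal := Subgroup.normal_inf_normal R π.ker
  have hDc : ∀ a ∈ R ⊓ π.ker, ∀ b ∈ R ⊓ π.ker, ρ (a * b) = ρ (b * a) := by
    intro a ha b hb
    exact hRc hb.1 a ha.2
  rw [← hR]
  refine ⟨fun k hk g hg => ?_, ?_⟩
  · rw [← map_mul, ← map_mul]
    exact hRc hg k hk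
  intro x y b hb hc
  obtain ⟨g, hg⟩ : ∃ g, g = y * b * y⁻¹ := ⟨_, rfl⟩
  rw [← hg] at hc ⊢
  have hgR : g ∈ R := by
    rw [hg]
    exact hRN.conj_mem b (hPR hb) y
  obtain ⟨z, hz⟩ : ∃ z, z = x * g * x⁻¹ * g⁻¹ := ⟨_, rfl⟩
  have hzg : z * g = x * g * x⁻¹ := by
    rw [hz]
    group
  have hzR : z ∈ R := by
    rw [hz]
    exact R.mul_mem (hRN.conj_mem g hgR x) (R.inv_mem hgR)
  have hzk : z ∈ π.ker := by
    rw [MonoidHom.mem_ker, hz, map_mul, map_mul, map_mul, hc, map_inv, map_inv,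
      mul_inv_cancel_right, mul_inv_cancel]
  obtain ⟨m, hm⟩ := hop.pg ⟨b, hb⟩
  have hbm : b ^ p ^ m = 1 := by
    have := congrArg Subtype.val hm
    simpa using this
  have hgm : g ^ p ^ m = 1 := by
    rw [hg, conj_pow, hbm, mul_one, mul_inv_cancel]
  have hzgm : (z * g) ^ p ^ m = 1 := by
    rw [hzg, conj_pow, hgm, mul_one, mul_inv_cancel]
  have hcm : Commute (ρ z) (ρ g) := by
    show ρ z * ρ g = ρ g * ρ z
    rw [← map_mul, ← map_mul]
    exact hRc hgR z hzk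
  have hzm : ρ (z ^ p ^ m) = 1 := by
    have h3 : ρ ((z * g) ^ p ^ m) = 1 := by rw [hzgm, map_one]
    rw [map_pow, map_mul, hcm.mul_pow, ← map_pow, ← map_pow, hgm, map_one, mul_one] at h3
    exact h3
  have hz1 : ρ z = 1 := nop hnp (R ⊓ π.ker) hDN hDc z ⟨hzR, hzk⟩ m hzm
  calc ρ x * ρ g = ρ (z * (g * x)) := by
        rw [← map_mul]
        congr 1
        rw [← mul_assoc, hzg]
        group
    _ = ρ g * ρ x := by rw [map_mul, hz1, one_mul, map_mul]

end Pool.Agent.Work.MP_6d7bb4.h65u
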