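import Pool.Agent.Work.MP_6d7bb4_G.InterfaceV

set_option autoImplicit false
set_option linter.unusedSectionVars false

/-!
# MP_6d7bb4: block KPE, equivariance of the groups `Pk`
-/

namespace Pool.Agent.Work.MP_6d7bb4.h65u

open MulAction
open Pool.Agent.Work.MP_6d7bb4.helper94 Pool.Agent.Work.MP_6d7bb4.helper94.Sol
open Tv Ff Ps

namespace X_KPE

theorem card_cj {G : Type} [Group G] (g : G) (A : Subgroup G) :
    Nat.card (cj g A) = Nat.card A := by
  apply Nat.card_congr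
  refine ⟨fun b => ⟨g⁻¹ * b.1 * g, mem_cj.1 b.2⟩, fun a => ⟨g * a.1 * g⁻¹, conj_mem_cj a.2⟩, ?_, ?_⟩
  · intro b
    apply Subtype.ext
    change g * (g⁻¹ * b.1 * g) * g⁻¹ = b.1
    group
  · intro a
    apply Subtype.ext
    change g⁻¹ * (g * a.1 * g⁻¹) * g = a.1
    group

theorem cj_one {G : Type*} [Group G] (K : Subgroup G) : cj 1 K = K := by
  ext z
  rw [mem_cj]
  have e : (1 : G)⁻¹ * z * 1 = z := by group
  rw [e]

theorem cm_cj {G : Type*} [Group G] (K : Subgroup G) (a b : G) :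
    Cm (cj a K) b ↔ Cm K (a⁻¹ * b * a) := by
  constructor
  · intro h k hk
    have h1 := h _ (conj_mem_cj (g := a) hk)
    calc a⁻¹ * b * a * k = a⁻¹ * (b * (a * k * a⁻¹)) * a := by group
      _ = a⁻¹ * (a * k * a⁻¹ * b) * a := by rw [h1]
      _ = k * (a⁻¹ * b * a) := by group
  · intro h k hk
    have h1 := h _ (mem_cj.1 hk)
    calc b * k = a * (a⁻¹ * b * a * (a⁻¹ * k * a)) * a⁻¹ := by group
      _ = a * (a⁻¹ * k * a * (a⁻¹ * b * a)) * a⁻¹ := by rw [h1]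
      _ = k * b := by group

end X_KPE

open X_KPE in
theorem s_KPE (hKTV : Stmt_KTV) : Stmt_KPE := by
  intro V G _ _ Γ d p _ x W S R Bm U _ _ ψ 𝒦 t e f h
  have hve := h.vs.ve
  have hke := hve.ke
  have hB : ∀ y, Γ.Adj x y → Bm y ≤ stabilizer G x :=
    fun y hy => (h.vs.BQ y hy).trans (Qe_le_st x y)
  have hadj : ∀ y, Γ.Adj x y → ∀ g : stabilizer G x, Γ.Adj x (g.1 • y) := by
    intro y hy g
    have h1 := h.loc.adj g.1 x y hy
    rwa [show g.1 • x = x from g.2] at h1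
  -- (1)
  have P1 : ∀ y, Γ.Adj x y → ∀ (g : stabilizer G x), ∀ 𝒞 ⊆ 𝒦,
      Pk Bm ψ 𝒦 ((fun K => cj (ψ g) K) '' 𝒞) (g.1 • y) = cj g.1 (Pk Bm ψ 𝒦 𝒞 y) := by
    intro y hy g 𝒞 hC
    have hcj := h.vs.Bcj g.1 g.2 y hy
    have hgX : g.1 ∈ stabilizer G x := g.2
    have hr : ψ g ∈ ψ.range := ⟨g, rfl⟩
    have key : ∀ k : G, k ∈ stabilizer G x →
        (k ∈ Pk Bm ψ 𝒦 ((fun K => cj (ψ g) K) '' 𝒞) (g.1 • y) ↔
          k ∈ cj g.1 (Pk Bm ψ 𝒦 𝒞 y)) := by
      intro k hk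
      have hk' : g.1⁻¹ * k * g.1 ∈ stabilizer G x :=
        (stabilizer G x).mul_mem ((stabilizer G x).mul_mem ((stabilizer G x).inv_mem hgX) hk) hgX
      have h2 : (⟨g.1⁻¹ * k * g.1, hk'⟩ : stabilizer G x) = g⁻¹ * ⟨k, hk⟩ * g := rfl
      unfold Pk
      rw [mem_Kf hk, mem_cj, mem_Kf hk', hcj, mem_cj, h2, map_mul, map_mul, map_inv]
      refine and_congr_right (fun _ => ?_)
      constructor
      · intro h3 K hK
        have h4 := h3 (cj (ψ g) K) ⟨hke.cl K hK.1 _ hr, ?_⟩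
        · exact (cm_cj K (ψ g) _).1 h4
        · rintro ⟨K', hK', e1⟩
          have e2 : cj (ψ g) K' = cj (ψ g) K := e1
          have e3 : K' = K := by
            rw [← cj_cj_inv (ψ g) K', e2, cj_cj_inv]
          exact hK.2 (e3 ▸ hK')
      · intro h3 K hK
        have h4 := h3 (cj (ψ g)⁻¹ K) ⟨hke.cl K hK.1 _ (ψ.range.inv_mem hr), ?_⟩
        · have h5 := (cm_cj (cj (ψ g)⁻¹ K) (ψ g) (ψ ⟨k, hk⟩)).2 h4
          rw [cj_inv_cj] at h5
          exact h5
        · intro h6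
          exact hK.2 ⟨_, h6, cj_inv_cj _ _⟩
    ext k
    constructor
    · intro hk
      have h1 : k ∈ Bm (g.1 • y) := (Subgroup.mem_inf.1 hk).1
      exact (key k (hB _ (hadj y hy g) h1)).1 hk
    · intro hk
      have h1 : k ∈ Bm (g.1 • y) := by
        rw [hcj, mem_cj]
        exact (Subgroup.mem_inf.1 (mem_cj.1 hk)).1
      exact (key k (hB _ (hadj y hy g) h1)).2 hk
  refine ⟨P1, ?_, ?_, ?_, ?_, ?_⟩
  · -- (2)
    intro y hy g hg 𝒞 hC
    have h1 := P1 y hy g 𝒞 hC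
    have h2 : (fun K => cj (ψ g) K) '' 𝒞 = 𝒞 := by
      ext K
      constructor
      · rintro ⟨K', hK', rfl⟩
        show cj (ψ g) K' ∈ 𝒞
        rw [hg K' (hC hK')]
        exact hK'
      · intro hK
        exact ⟨K, hK, hg K (hC hK)⟩
    rw [h2] at h1
    exact h1
  · -- (3)
    intro z hz g hg
    have h1 : ψ g ∈ Pq p (im ψ (Qe p x z)) := by
      rw [← h.vs.BT z hz]
      exact ⟨g, hg, rfl⟩
    unfold Pq at h1
    obtain ⟨w, hw⟩ : ∃ w, w = ψ g := ⟨_, rfl⟩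
    rw [← hw] at h1 ⊢
    clear hw
    induction h1 using Subgroup.closure_induction with
    | mem s hs =>
      exact (hKTV U p ψ.range 𝒦 hke s ((hve.kq z hz).QZ hs.1) hs.2).1
    | one =>
      intro K _
      exact cj_one K
    | mul a b _ _ iha ihb =>
      intro K hK
      rw [cj_mul, ihb K hK, iha K hK]
    | inv a _ iha =>
      intro K hK
      have h2 := cj_cj_inv a K
      rw [iha K hK] at h2
      exact h2
  · -- (4)
    intro g hg
    exact h.md.cen g (mem_Cg.1 hg).2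
  · -- (5)
    intro g P hP
    have hgX : g.1 ∈ stabilizer G x := g.2
    have hW : ∀ v : G, v ∈ W ↔ g.1⁻¹ * v * g.1 ∈ W := by
      intro v
      constructor
      · intro hv
        have h1 := h.vs.Wn g.1⁻¹ ((stabilizer G x).inv_mem hgX) v hv
        rwa [inv_inv] at h1
      · intro hv
        have h1 := h.vs.Wn g.1 hgX _ hv
        have h2 : g.1 * (g.1⁻¹ * v * g.1) * g.1⁻¹ = v := by group
        rwa [h2] at h1
    have h1 : Cw W (cj g.1 P) = cj g.1 (Cw W P) := by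
      ext v
      rw [mem_cj, mem_Cw, mem_Cw, ← hW v]
      refine and_congr_right (fun _ => ?_)
      constructor
      · intro h2 a ha
        have h3 := h2 _ (conj_mem_cj (g := g.1) ha)
        calc a * (g.1⁻¹ * v * g.1) = g.1⁻¹ * (g.1 * a * g.1⁻¹ * v) * g.1 := by group
          _ = g.1⁻¹ * (v * (g.1 * a * g.1⁻¹)) * g.1 := by rw [h3]
          _ = g.1⁻¹ * v * g.1 * a := by group
      · intro h2 a ha
        have h3 := h2 _ (mem_cj.1 ha)
        calc a * v = g.1 * (g.1⁻¹ * a * g.1 * (g.1⁻¹ * v * g.1)) * g.1⁻¹ := by group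
          _ = g.1 * (g.1⁻¹ * v * g.1 * (g.1⁻¹ * a * g.1)) * g.1⁻¹ := by rw [h3]
          _ = v * a := by group
    unfold Tg
    rw [h1, card_cj, card_cj]
    exact hP
  · -- (6)
    intro y hy a ha b hb
    obtain ⟨z, hz, hzab⟩ := hke.tr a ha b hb
    have hq := hve.kq y hy
    obtain ⟨x', hx', hx'n, b', hb', rfl⟩ := hq.fc z hz
    have h1 : cj b' a ∈ 𝒦 := hke.cl a ha b' (hq.ZZ hb')
    rw [cj_mul, hx'n _ h1] at hzab
    obtain ⟨g, hg, rfl⟩ := hb'
    exact ⟨g, hg, hzab⟩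

end Pool.Agent.Work.MP_6d7bb4.h65u
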