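import Pool.Agent.Work.MP_6d7bb4_G.InterfaceV

set_option autoImplicit false
set_option linter.unusedSectionVars false

/-! # MP_6d7bb4 (plan G): block KPY, the groups `Pk` -/

namespace Pool.Agent.Work.MP_6d7bb4.h65u

open MulAction
open Pool.Agent.Work.MP_6d7bb4.helper94 Pool.Agent.Work.MP_6d7bb4.helper94.Sol
open Tv Ff Ps
open scoped commutatorElement

theorem s_KPY (hKCP : Stmt_KCP) : Stmt_KPY := by
  intro V G _ _ Γ d p _ x W S R Bm U _ _ ψ 𝒦 t e f h y hxy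
  have hv := h.vs
  have hve := hv.ve
  have hBs : Bm y ≤ stabilizer G x := (hv.BQ y hxy).trans (Qe_le_st x y)
  obtain ⟨-, k2, k3, k4⟩ := hKCP U p ψ.range 𝒦 _ _ hve.ke (hve.kq y hxy)
  have hBT := hv.BT y hxy
  -- (1)
  have p1 : ∀ 𝒞 : Set (Subgroup (Un U)), S ≤ Pk Bm ψ 𝒦 𝒞 y ∧ Pk Bm ψ 𝒦 𝒞 y ≤ Bm y := by
    intro 𝒞
    refine ⟨?_, inf_le_left⟩
    intro s hs
    have h1 : s ∈ Bm y := hv.SB y hxy hs
    have h2 : ψ ⟨s, hBs h1⟩ = 1 := (hve.ker ⟨s, hBs h1⟩).1 (hv.SR hs)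
    refine (mem_Kf (hBs h1)).2 ⟨h1, ?_⟩
    intro K _ k _
    rw [h2, one_mul, mul_one]
  -- (2)
  have p2 : ∀ 𝒞 : Set (Subgroup (Un U)),
      im ψ (Pk Bm ψ 𝒦 𝒞 y) = Pq p (im ψ (Qe p x y)) ⊓ Cz (𝒦 \ 𝒞) := by
    intro 𝒞
    apply le_antisymm
    · intro s hs
      obtain ⟨g, hg, rfl⟩ := mem_im'.1 hs
      have h1 := (mem_Kf g.2).1 hg
      refine Subgroup.mem_inf.2 ⟨?_, mem_Cz.2 h1.2⟩
      rw [← hBT]
      exact mem_im'.2 ⟨g, h1.1, rfl⟩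
    · intro s hs
      obtain ⟨h1, h2⟩ := Subgroup.mem_inf.1 hs
      rw [← hBT] at h1
      obtain ⟨g, hg, rfl⟩ := mem_im'.1 h1
      exact mem_im'.2 ⟨g, (mem_Kf g.2).2 ⟨hg, mem_Cz.1 h2⟩, rfl⟩
  -- (3)
  have p3 : ∀ P0 : Subgroup G, S ≤ P0 → P0 ≤ Bm y → ∀ 𝒞 : Set (Subgroup (Un U)),
      im ψ P0 = Pq p (im ψ (Qe p x y)) ⊓ Cz (𝒦 \ 𝒞) → P0 = Pk Bm ψ 𝒦 𝒞 y := by
    intro P hSP hPB 𝒞 hT
    apply le_antisymm
    · intro g hg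
      have h1 : g ∈ stabilizer G x := hBs (hPB hg)
      refine (mem_Kf h1).2 ⟨hPB hg, ?_⟩
      have h2 : ψ ⟨g, h1⟩ ∈ im ψ P := mem_im'.2 ⟨⟨g, h1⟩, hg, rfl⟩
      rw [hT] at h2
      exact mem_Cz.1 (Subgroup.mem_inf.1 h2).2
    · intro g hg
      have h1 : g ∈ Bm y := (p1 𝒞).2 hg
      have h2 : g ∈ stabilizer G x := hBs h1
      have h3 : ψ ⟨g, h2⟩ ∈ im ψ (Pk Bm ψ 𝒦 𝒞 y) := mem_im'.2 ⟨⟨g, h2⟩, hg, rfl⟩
      rw [p2 𝒞, ← hT] at h3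
      obtain ⟨a, ha, hag⟩ := mem_im'.1 h3
      have h4 : a⁻¹.1 * g ∈ R := by
        refine (hve.ker (a⁻¹ * ⟨g, h2⟩)).2 ?_
        rw [map_mul, map_inv, hag, inv_mul_cancel]
      have h5 : a⁻¹.1 * g ∈ Bm y := (Bm y).mul_mem ((Bm y).inv_mem (hPB ha)) h1
      have h6 : a⁻¹.1 * g ∈ P := hSP (hv.BR y hxy ⟨h5, h4⟩)
      have h7 : a.1 * (a⁻¹.1 * g) = g := by
        show a.1 * ((a.1)⁻¹ * g) = g
        rw [mul_inv_cancel_left]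
      rw [← h7]
      exact P.mul_mem ha h6
  have hanti : ∀ 𝒟 𝒟' : Set (Subgroup (Un U)), 𝒟 ⊆ 𝒟' → Cz 𝒟' ≤ Cz 𝒟 := by
    intro 𝒟 𝒟' hD z hz
    exact mem_Cz.2 (fun K hK => mem_Cz.1 hz K (hD hK))
  refine ⟨p1, p2, p3, ?_, ?_, ?_, ?_, ?_⟩
  · -- (4)
    refine (p3 S le_rfl (hv.SB y hxy) ∅ ?_).symm
    rw [Set.sdiff_empty]
    apply le_antisymm
    · intro s hs
      obtain ⟨g, hg, rfl⟩ := mem_im'.1 hs
      rw [(hve.ker g).1 (hv.SR hg)]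
      exact Subgroup.one_mem _
    · intro s hs
      obtain ⟨h1, h2⟩ := Subgroup.mem_inf.1 hs
      rw [k4 s h1 h2]
      exact Subgroup.one_mem _
  · -- (5)
    apply le_antisymm (p1 𝒦).2
    intro g hg
    refine (mem_Kf (hBs hg)).2 ⟨hg, ?_⟩
    intro K hK
    exact absurd hK.1 hK.2
  · -- (6)
    intro 𝒞 _ 𝒞' _
    refine (p3 _ ((p1 𝒞).1.trans le_sup_left) (sup_le (p1 𝒞).2 (p1 𝒞').2) _ ?_).symm
    have h1 : im ψ (Pk Bm ψ 𝒦 𝒞 y ⊔ Pk Bm ψ 𝒦 𝒞' y) =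
        im ψ (Pk Bm ψ 𝒦 𝒞 y) ⊔ im ψ (Pk Bm ψ 𝒦 𝒞' y) := by
      unfold Pool.Agent.Work.MP_6d7bb4.helper94.Sol.im
      rw [Subgroup.subgroupOf_sup ((p1 𝒞).2.trans hBs) ((p1 𝒞').2.trans hBs), Subgroup.map_sup]
    rw [h1, p2 𝒞, p2 𝒞']
    apply le_antisymm
    · refine sup_le ?_ ?_
      · refine inf_le_inf_left _ (hanti _ _ ?_)
        intro K hK
        exact ⟨hK.1, fun h2 => hK.2 (Or.inl h2)⟩
      · refine inf_le_inf_left _ (hanti _ _ ?_)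
        intro K hK
        exact ⟨hK.1, fun h2 => hK.2 (Or.inr h2)⟩
    · refine le_trans ?_ (k2 (𝒦 \ 𝒞) (fun K hK => hK.1) (𝒦 \ 𝒞') (fun K hK => hK.1))
      refine inf_le_inf_left _ (hanti _ _ ?_)
      rintro K ⟨h2, h3⟩
      exact ⟨h2.1, fun h4 => h4.elim h2.2 h3.2⟩
  · -- (7)
    intro 𝒞 _ 𝒞' _
    ext g
    constructor
    · intro hg
      have h1 : g ∈ stabilizer G x := hBs ((p1 _).2 hg)
      have h2 := (mem_Kf h1).1 hg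
      refine Subgroup.mem_inf.2 ⟨(mem_Kf h1).2 ⟨h2.1, fun K hK => h2.2 K ⟨hK.1, ?_⟩⟩,
        (mem_Kf h1).2 ⟨h2.1, fun K hK => h2.2 K ⟨hK.1, ?_⟩⟩⟩
      · exact fun h3 => hK.2 h3.1
      · exact fun h3 => hK.2 h3.2
    · intro hg
      obtain ⟨ha, hb⟩ := Subgroup.mem_inf.1 hg
      have h1 : g ∈ stabilizer G x := hBs ((p1 _).2 ha)
      have h2 := (mem_Kf h1).1 ha
      have h3 := (mem_Kf h1).1 hb
      refine (mem_Kf h1).2 ⟨h2.1, fun K hK => ?_⟩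
      by_cases h4 : K ∈ 𝒞
      · exact h3.2 K ⟨hK.1, fun h5 => hK.2 ⟨h4, h5⟩⟩
      · exact h2.2 K ⟨hK.1, h4⟩
  · -- (8)
    intro P0 hSP hPB hP
    refine p3 P0 hSP hPB _ ?_
    have hle : im ψ P0 ≤ Pq p (im ψ (Qe p x y)) := by
      rw [← hBT]
      intro s hs
      obtain ⟨g, hg, rfl⟩ := mem_im'.1 hs
      exact mem_im'.2 ⟨g, hPB hg, rfl⟩
    apply le_antisymm
    · intro s hs
      refine Subgroup.mem_inf.2 ⟨hle hs, mem_Cz.2 (fun K hK => ?_)⟩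
      by_contra h1
      exact hK.2 ⟨hK.1, s, hs, h1⟩
    · intro s hs
      obtain ⟨h1, h2⟩ := Subgroup.mem_inf.1 hs
      refine k3 (im ψ P0) hle hP s h1 (hanti _ _ ?_ h2)
      rintro K ⟨hK, hb⟩
      refine ⟨hK, ?_⟩
      rintro ⟨_, b, hb', hn⟩
      exact hn (hb b hb')

end Pool.Agent.Work.MP_6d7bb4.h65u
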