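import Pool.Agent.Work.MP_6d7bb4_G.InterfaceV

set_option autoImplicit false
set_option linter.unusedSectionVars false

/-!
# MP_6d7bb4, plan G, block KTG1: tight subgroups
-/

namespace Pool.Agent.Work.MP_6d7bb4.h65u

open MulAction
open Pool.Agent.Work.MP_6d7bb4.helper94 Pool.Agent.Work.MP_6d7bb4.helper94.Sol
open Tv Ff Ps

namespace X_KTG1

/-- `im` is monotone -/
theorem im_mono {G H : Type*} [Group G] [Group H] {X : Subgroup G} {ψ : X →* H}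
    {A A' : Subgroup G} (h : A ≤ A') : im ψ A ≤ im ψ A' := by
  intro s hs
  obtain ⟨g, hg, hgs⟩ := mem_im'.1 hs
  exact mem_im'.2 ⟨g, h hg, hgs⟩

end X_KTG1

theorem s_KTG1 (hKGT : Stmt_KGT) (hLBI : Stmt_LBIk) : Stmt_KTG1 := by
  intro V G _ _ Γ d p _ x W S R Bm U _ _ ψ 𝒦 t e f hKB y hxy P hSP hPB
  have vs := hKB.vs
  have ve := vs.ve
  have h1 : im ψ P ≤ im ψ (Bm y) := X_KTG1.im_mono hPB
  have h2 : im ψ (Bm y) = Pq p (im ψ (Qe p x y)) := vs.BT y hxy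
  have hPR : P ⊓ R ≤ S := le_trans (inf_le_inf_right R hPB) (vs.BR y hxy)
  have hPQ : P ≤ Qe p x y := hPB.trans (vs.BQ y hxy)
  have g1 := (hKGT U p ψ.range 𝒦 (im ψ (Qe p x y)) (im ψ (B x y)) ve.ke (ve.kq y hxy)
    (Tq p (im ψ (Qe p x y))) (le_refl _)).1
  rw [h2] at h1
  have hel : El p (im ψ P) := ⟨fun a ha b hb => g1.cm a (h1 ha) b (h1 hb), fun a ha => g1.ex a (h1 ha)⟩
  obtain ⟨k1, k2⟩ := hLBI V G Γ d p hKB.loc x W R U ψ 𝒦 ve hKB.md vs.Wf y hxy S P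
    vs.SR hSP hPR hPQ hel
  exact ⟨k1, fun hT => k2 (le_of_eq (Eq.symm hT))⟩

end Pool.Agent.Work.MP_6d7bb4.h65u
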