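import Pool.Agent.Work.MP_6d7bb4_G.InterfaceV

/-! # MP_6d7bb4: plan G (product action); block KTRV -/

set_option autoImplicit false
set_option linter.unusedSectionVars false

namespace Pool.Agent.Work.MP_6d7bb4.h65u

open MulAction
open Pool.Agent.Work.MP_6d7bb4.helper94 Pool.Agent.Work.MP_6d7bb4.helper94.Sol
open Tv Ff Ps

namespace X_KTRV

/-- `Pk` is monotone in the set of members. -/
theorem Pk_mono {V G : Type} [Group G] [MulAction G V] {x : V} {Bm : V → Subgroup G} {U : Type}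
    [AddCommGroup U] {ψ : stabilizer G x →* Un U} {𝒦 𝒞 𝒞' : Set (Subgroup (Un U))} {y : V}
    (h : 𝒞 ⊆ 𝒞') (hB : Bm y ≤ stabilizer G x) : Pk Bm ψ 𝒦 𝒞 y ≤ Pk Bm ψ 𝒦 𝒞' y := by
  intro g hg
  have hg0 : g ∈ Bm y := (Subgroup.mem_inf.1 hg).1
  have hgX : g ∈ stabilizer G x := hB hg0
  obtain ⟨-, h2⟩ := (mem_Kf hgX).1 hg
  exact (mem_Kf hgX).2 ⟨hg0, fun K hK => h2 K ⟨hK.1, fun hK' => hK.2 (h hK')⟩⟩

end X_KTRV

/-- KTRV. -/
theorem s_KTRV (hKPY : Stmt_KPY) (hKPE : Stmt_KPE) : Stmt_KTRV := by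
  intro V G _ _ Γ d p _ x W S R Bm U _ _ ψ 𝒦 t e f h 𝒞 h𝒞 hne y y' hy hy'
  obtain ⟨a1, -, -, a4, a5, a6, -, -⟩ := hKPY V G Γ d p x W S R Bm U ψ 𝒦 t e f h y' hy'
  obtain ⟨b1, -, -, -, -, b6⟩ := hKPE V G Γ d p x W S R Bm U ψ 𝒦 t e f h
  set M : Subgroup G := ⨆ b : (B x y : Subgroup G), cj b.1 (Pk Bm ψ 𝒦 𝒞 (b.1⁻¹ • y')) with hM
  -- the neighbours `b⁻¹ y'`
  have hadj : ∀ b : (B x y : Subgroup G), Γ.Adj x (b.1⁻¹ • y') := by
    intro b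
    have h1 := h.loc.adj b.1⁻¹ x y' hy'
    rwa [inv_smul_eq_iff.2 (mem_B.1 b.2).1.symm] at h1
  -- the conjugates
  have hcj : ∀ b : (B x y : Subgroup G), cj b.1 (Pk Bm ψ 𝒦 𝒞 (b.1⁻¹ • y')) =
      Pk Bm ψ 𝒦 ((fun K => cj (ψ ⟨b.1, (mem_B.1 b.2).1⟩) K) '' 𝒞) y' := by
    intro b
    have h1 := b1 (b.1⁻¹ • y') (hadj b) ⟨b.1, (mem_B.1 b.2).1⟩ 𝒞 h𝒞
    have h2 : b.1 • b.1⁻¹ • y' = y' := smul_inv_smul _ _
    simp only [h2] at h1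
    exact h1.symm
  have hle : ∀ b : (B x y : Subgroup G), cj b.1 (Pk Bm ψ 𝒦 𝒞 (b.1⁻¹ • y')) ≤ M := fun b =>
    le_iSup (fun b : (B x y : Subgroup G) => cj b.1 (Pk Bm ψ 𝒦 𝒞 (b.1⁻¹ • y'))) b
  have hSM : S ≤ M := by
    refine le_trans ?_ (hle ⟨1, one_mem _⟩)
    rw [hcj]
    exact (a1 _).1
  have hBX : Bm y' ≤ stabilizer G x := fun g hg =>
    Qe_le_st x y' (h.vs.BQ y' hy' hg)
  -- single members
  have hone : ∀ K ∈ 𝒦, Pk Bm ψ 𝒦 {K} y' ≤ M := by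
    intro K hK
    obtain ⟨K1, hK1⟩ := hne
    obtain ⟨g, hgB, hgK⟩ := b6 y hy K1 (h𝒞 hK1) K hK
    refine le_trans ?_ (hle ⟨g.1, hgB⟩)
    rw [hcj]
    refine X_KTRV.Pk_mono ?_ hBX
    rintro L hL
    have hL' : L = K := hL
    subst hL'
    exact ⟨K1, hK1, hgK⟩
  have hfin : 𝒦.Finite := by
    have := h.vs.ve.ke.fin
    have hinj : Function.Injective (fun (u : Un U) (v : U) => (u : AddMonoid.End U) v) := by
      intro u u' huu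
      apply Units.ext
      apply AddMonoidHom.ext
      intro v
      exact funext_iff.1 huu v
    have : Finite (Un U) := Finite.of_injective _ hinj
    exact Set.toFinite _
  have hall : ∀ 𝒟 : Set (Subgroup (Un U)), 𝒟.Finite → 𝒟 ⊆ 𝒦 → Pk Bm ψ 𝒦 𝒟 y' ≤ M := by
    intro 𝒟 h𝒟
    induction 𝒟, h𝒟 using Set.Finite.induction_on with
    | empty =>
      intro _
      rw [a4]
      exact hSM
    | insert hK hs ih =>
      rename_i K 𝒟'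
      intro hsub
      have hK𝒦 : K ∈ 𝒦 := hsub (Set.mem_insert _ _)
      have hs𝒦 : 𝒟' ⊆ 𝒦 := fun L hL => hsub (Set.mem_insert_of_mem _ hL)
      rw [Set.insert_eq, a6 _ (Set.singleton_subset_iff.2 hK𝒦) _ hs𝒦]
      exact sup_le (hone K hK𝒦) (ih hs𝒦)
  have h4 := hall 𝒦 hfin (Set.Subset.refl _)
  rwa [a5] at h4

end Pool.Agent.Work.MP_6d7bb4.h65u
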