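import Pool.Agent.Work.MP_6d7bb4_G.InterfaceM

set_option autoImplicit false
set_option linter.unusedSectionVars false

/-!
# MP_6d7bb4: plan G, block KUN (helper66): transvections in a good `p`-subgroup
-/

namespace Pool.Agent.Work.MP_6d7bb4.h65u

open MulAction
open Pool.Agent.Work.MP_6d7bb4.helper94 Pool.Agent.Work.MP_6d7bb4.helper94.Sol
open Tv Ff Ps

namespace X_KUN

theorem cm_mul {G : Type*} [Group G] {K : Subgroup G} {a b : G} (ha : Cm K a) (hb : Cm K b) :
    Cm K (a * b) := by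
  intro k hk
  rw [mul_assoc, hb k hk, ← mul_assoc, ha k hk, mul_assoc]

theorem cm_one {G : Type*} [Group G] (K : Subgroup G) : Cm K (1 : G) := by
  intro k _
  rw [one_mul, mul_one]

theorem cm_inv {G : Type*} [Group G] {K : Subgroup G} {a : G} (ha : Cm K a) : Cm K a⁻¹ := by
  intro k hk
  have h := ha k hk
  calc a⁻¹ * k = a⁻¹ * (k * a) * a⁻¹ := by group
    _ = a⁻¹ * (a * k) * a⁻¹ := by rw [h]
    _ = k * a⁻¹ := by group

theorem cm_pow {G : Type*} [Group G] {K : Subgroup G} {a : G} (ha : Cm K a) (n : ℕ) :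
    Cm K (a ^ n) := by
  induction n with
  | zero =>
    rw [pow_zero]
    exact cm_one K
  | succ n ih =>
    rw [pow_succ]
    exact cm_mul ih ha

theorem cm_conj {G : Type*} [Group G] {K : Subgroup G} {a g : G} :
    Cm (cj g K) (g * a * g⁻¹) ↔ Cm K a := by
  constructor
  · intro h k hk
    have h1 := h _ (conj_mem_cj (g := g) hk)
    have h2 : g * (a * k) * g⁻¹ = g * (k * a) * g⁻¹ := by
      calc g * (a * k) * g⁻¹ = g * a * g⁻¹ * (g * k * g⁻¹) := by group
        _ = g * k * g⁻¹ * (g * a * g⁻¹) := h1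
        _ = g * (k * a) * g⁻¹ := by group
    exact mul_left_cancel (mul_right_cancel h2)
  · intro h k hk
    rw [mem_cj] at hk
    have h1 := h _ hk
    calc g * a * g⁻¹ * k = g * (a * (g⁻¹ * k * g)) * g⁻¹ := by group
      _ = g * (g⁻¹ * k * g * a) * g⁻¹ := by rw [h1]
      _ = k * (g * a * g⁻¹) := by group

/-- the automorphisms which fix `u` -/
def Fp {U : Type*} [AddCommGroup U] (u : U) : Subgroup (Un U) where
  carrier := {x | (x : AddMonoid.End U) u = u}
  one_mem' := rfl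
  mul_mem' := by
    intro a b ha hb
    have h3 : (a : AddMonoid.End U) u = u := ha
    have h4 : (b : AddMonoid.End U) u = u := hb
    show ((a * b : Un U) : AddMonoid.End U) u = u
    rw [mul_ap, h4, h3]
  inv_mem' := by
    intro a ha
    have h3 : (a : AddMonoid.End U) u = u := ha
    have h4 := inv_ap a u
    rw [h3] at h4
    exact h4

end X_KUN

open X_KUN

theorem s_KUN (hKTV : Stmt_KTV) (hKDJ : Stmt_KDJ) : Stmt_KUN := by
  intro U _ p _ _ Z 𝒦 Q Zq hE hQ
  have hT : ∀ s ∈ Tq p Q, (∀ K ∈ 𝒦, cj s K = K) ∧ ∀ K ∈ 𝒦, ∀ L ∈ 𝒦, K ≠ L → Cm K s ∨ Cm L s :=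
    fun s hs => hKTV U p Z 𝒦 hE s (hQ.QZ hs.1) hs.2
  have hp1 : ∀ s ∈ Tq p Q, s ^ p = 1 := by
    rintro s ⟨-, e, f, h⟩
    exact h.pow_p
  have h1 : ∀ s ∈ Tq p Q, ∃ K ∈ 𝒦, ¬ Cm K s ∧ ∀ L ∈ 𝒦, L ≠ K → Cm L s := by
    intro s hs
    have h2 : ∃ K ∈ 𝒦, ¬ Cm K s := by
      by_contra hcon
      push Not at hcon
      obtain ⟨hsQ, e, f, h⟩ := hs
      exact h.ne1 (hQ.fa s hsQ hcon)
    obtain ⟨K, hK, hn⟩ := h2
    refine ⟨K, hK, hn, fun L hL hne => ?_⟩
    rcases (hT s hs).2 L hL K hK hne with h3 | h3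
    · exact h3
    · exact absurd h3 hn
  have h2 : ∀ s ∈ Tq p Q, ∀ s' ∈ Tq p Q, ∀ K ∈ 𝒦, ¬ Cm K s → ¬ Cm K s' →
      s' ∈ Subgroup.zpowers s := by
    intro s hs s' hs' K hK hn hn'
    obtain ⟨i, hi⟩ := hQ.un K hK s hs.1 s' hs'.1 ((hT s hs).1 K hK) ((hT s' hs').1 K hK)
      (by rw [hp1 s hs]; exact cm_one K) (by rw [hp1 s' hs']; exact cm_one K) hn
    have h3 : s' * s ^ i = 1 := by
      refine hQ.fa _ (mul_mem hs'.1 (pow_mem hs.1 i)) (fun L hL => ?_)
      rcases eq_or_ne L K with h4 | h4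
      · rw [h4]
        exact hi
      · have h5 : Cm L s := by
          rcases (hT s hs).2 L hL K hK h4 with h6 | h6
          · exact h6
          · exact absurd h6 hn
        have h5' : Cm L s' := by
          rcases (hT s' hs').2 L hL K hK h4 with h6 | h6
          · exact h6
          · exact absurd h6 hn'
        exact cm_mul h5' (cm_pow h5 i)
    have h4 : s' = (s ^ i)⁻¹ := eq_inv_of_mul_eq_one_left h3
    rw [h4]
    exact inv_mem (pow_mem (Subgroup.mem_zpowers s) i)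
  refine ⟨h1, h2, ?_, ?_⟩
  · intro s hs s' hs'
    refine ⟨?_, ?_⟩
    · by_cases hc : ∃ K ∈ 𝒦, ¬ Cm K s ∧ ¬ Cm K s'
      · obtain ⟨K, hK, hn, hn'⟩ := hc
        obtain ⟨n, hn⟩ := Subgroup.mem_zpowers_iff.mp (h2 s hs s' hs' K hK hn hn')
        rw [← hn, ← zpow_one_add, ← zpow_add_one, add_comm]
      · push Not at hc
        have h3 : s * s' * s⁻¹ * s'⁻¹ = 1 := by
          refine hQ.fa _ (mul_mem (mul_mem (mul_mem hs.1 hs'.1) (inv_mem hs.1))
            (inv_mem hs'.1)) (fun L hL => ?_)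
          by_cases h4 : Cm L s
          · have h5 : Cm (cj s' L) (s' * s⁻¹ * s'⁻¹) := cm_conj.mpr (cm_inv h4)
            rw [(hT s' hs').1 L hL] at h5
            have h6 := cm_mul h4 h5
            have h7 : s * (s' * s⁻¹ * s'⁻¹) = s * s' * s⁻¹ * s'⁻¹ := by group
            rwa [h7] at h6
          · have h4' : Cm L s' := hc L hL h4
            have h5 : Cm (cj s L) (s * s' * s⁻¹) := cm_conj.mpr h4'
            rw [(hT s hs).1 L hL] at h5
            exact cm_mul h5 (cm_inv h4')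
        calc s * s' = s * s' * s⁻¹ * s'⁻¹ * (s' * s) := by group
          _ = s' * s := by rw [h3, one_mul]
    · intro e e' f f' he he'
      obtain ⟨K, hK, hn, -⟩ := h1 s hs
      by_cases hc : Cm K s'
      · exact hKDJ U p Z 𝒦 hE s s' e e' f f' he he' (hQ.QZ hs.1) (hQ.QZ hs'.1) K hK hn hc
      · have h3 := h2 s hs s' hs' K hK hn hc
        have h4 : s ∈ Fp e := by
          show (s : AddMonoid.End U) e = e
          rw [he.ap, he.fe, zero_smul, add_zero]
        have h5 : Subgroup.zpowers s ≤ Fp e := by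
          rw [Subgroup.zpowers_le]
          exact h4
        have h6 : (s' : AddMonoid.End U) e = e := h5 h3
        rw [he'.ap] at h6
        have h7 : f' e • e' = 0 := left_eq_add.mp h6.symm
        rcases smul_eq_zero.mp h7 with h8 | h8
        · exact h8
        · exact absurd h8 he'.e0
  · intro s hs K hK
    obtain ⟨L, hL, hn, -⟩ := h1 s hs
    obtain ⟨g, hg, hgL⟩ := hE.tr L hL K hK
    obtain ⟨x, hx, hxK, b, hb, rfl⟩ := hQ.fc g hg
    have h3 : cj b L = K := by
      have h4 := hxK _ (hE.cl L hL b (hQ.ZZ hb))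
      rw [← h4, ← cj_mul]
      exact hgL
    refine ⟨b, hb, ⟨hQ.Zn b hb s hs.1, ?_⟩, ?_⟩
    · obtain ⟨-, e, f, h⟩ := hs
      exact ⟨_, _, h.conj b⟩
    · rw [← h3]
      intro h4
      exact hn (cm_conj.mp h4)

end Pool.Agent.Work.MP_6d7bb4.h65u
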