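import Pool.Agent.Work.MP_6d7bb4_G.InterfaceV

set_option autoImplicit false
set_option linter.unusedSectionVars false

/-! # MP_6d7bb4, plan G, block KVSC: from a tight subgroup to a set of members -/

namespace Pool.Agent.Work.MP_6d7bb4.h65u

open MulAction
open Pool.Agent.Work.MP_6d7bb4.helper94 Pool.Agent.Work.MP_6d7bb4.helper94.Sol
open Tv Ff Ps

theorem s_KVSC (hKPY : Stmt_KPY) (hKPE : Stmt_KPE) (hKTG1 : Stmt_KTG1) (hKVS2 : Stmt_KVS2) :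
    Stmt_KVSC := by
  intro V G _ _ Γ d p _ x W S R Bm U _ _ ψ 𝒦 t e f hB y hxy P hSP hPB hTg hnot
  obtain ⟨k1, k2, k3, k4, k5, k6, k7, k8⟩ := hKPY V G Γ d p x W S R Bm U ψ 𝒦 t e f hB y hxy
  obtain ⟨e1, e2, e3, e4, e5, e6⟩ := hKPE V G Γ d p x W S R Bm U ψ 𝒦 t e f hB
  have him := ((hKTG1 V G Γ d p x W S R Bm U ψ 𝒦 t e f hB y hxy P hSP hPB).2 hTg).1
  have hP := k8 P hSP hPB him
  obtain ⟨𝒞, hC⟩ : ∃ 𝒞 : Set (Subgroup (Un U)), 𝒞 = {K | K ∈ 𝒦 ∧ ∃ b ∈ im ψ P, ¬ Cm K b} :=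
    ⟨_, rfl⟩
  rw [← hC] at hP
  have hCK : 𝒞 ⊆ 𝒦 := by
    rw [hC]
    intro K hK
    exact hK.1
  refine ⟨𝒞, hCK, ?_, hP.symm, ?_⟩
  · by_contra hne
    have h1 : 𝒞 = ∅ := Set.not_nonempty_iff_eq_empty.1 hne
    rw [h1, k4] at hP
    exact hnot hP.le
  · intro y' hy'
    obtain ⟨g, hg, hgy⟩ := hB.vs.ve.Et y y' hxy hy'
    have h1 : Tg W S (Pk Bm ψ 𝒦 𝒞 y) := by
      rw [← hP]
      exact hTg
    have h2 := hKVS2 V G Γ d p x W S R Bm U ψ 𝒦 t e f hB y hxy 𝒞 hCK h1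
    have h3 := e2 y hxy g hg 𝒞 hCK
    have h4 := e2 y hxy g hg (𝒦 \ 𝒞) Set.diff_subset
    rw [hgy] at h3 h4
    rw [h3, h4]
    exact ⟨e5 g _ h1, e5 g _ h2⟩

end Pool.Agent.Work.MP_6d7bb4.h65u
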