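import Pool.Agent.Work.MP_6d7bb4_G.InterfaceV

set_option autoImplicit false
set_option linter.unusedSectionVars false

/-!
# MP_6d7bb4: plan G, block LBGk (the lower bound) (helper72)
-/

namespace Pool.Agent.Work.MP_6d7bb4.h65u

open MulAction
open Pool.Agent.Work.MP_6d7bb4.helper94 Pool.Agent.Work.MP_6d7bb4.helper94.Sol
open Tv Ff Ps
open scoped commutatorElement

theorem s_LBGk (hMDX : Stmt_MDX3) (hFMB : Stmt_FMB) (hLBI : Stmt_LBIk) : Stmt_LBGk := by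
  intro V G _ _ Γ d p _ ζ hw hFm x y hxy A hAQ hab
  have h := hw.loc
  obtain ⟨f1, f2, f3, f4, f5⟩ := hFMB V G Γ d p ζ h hFm
  have hfs : Finite (stabilizer G x) := h.fin x
  have hWf := (f2 x).2.2
  obtain ⟨R, U, iU, fU, ψ, hψ⟩ := hMDX G p (stabilizer G x) (VZ Γ ζ x) hfs hWf (f2 x).2.1
    (hFm.el x)
  obtain ⟨𝒦, hKV⟩ := hw.ve ζ hFm x y hxy R U ψ hψ
  let _ : Module (ZMod p) U := AddCommGroup.zmodModule hψ.ex
  refine (hLBI V G Γ d p h x (VZ Γ ζ x) R U ψ 𝒦 hKV hψ.toMd2 hWf y hxy (A ⊓ Qv Γ p x) A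
    (inf_le_right.trans hKV.QR) inf_le_left ?_ hAQ ?_).1
  · rintro a ⟨ha, haR⟩
    refine ⟨ha, ?_⟩
    rw [Qv_eq h hxy]
    exact ⟨hAQ ha, hKV.RK y hxy ⟨haR, Qe_le x y (hAQ ha)⟩⟩
  · constructor
    · rintro _ ⟨g, hg, rfl⟩ _ ⟨g', hg', rfl⟩
      rw [← map_mul, ← map_mul]
      congr 1
      exact Subtype.ext (hab.cm g.1 hg g'.1 hg')
    · rintro _ ⟨g, hg, rfl⟩
      rw [← map_pow]
      have h1 : g ^ p = 1 := Subtype.ext (hab.ex g.1 hg)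
      rw [h1, map_one]

end Pool.Agent.Work.MP_6d7bb4.h65u
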