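import Pool.Agent.Work.MP_6d7bb4_G.InterfaceV

set_option autoImplicit false
set_option linter.unusedSectionVars false

/-!
# MP_6d7bb4: plan G, block LBIk (the basic inequality at a vertex) (helper72)
-/

namespace Pool.Agent.Work.MP_6d7bb4.h65u

open MulAction
open Pool.Agent.Work.MP_6d7bb4.helper94 Pool.Agent.Work.MP_6d7bb4.helper94.Sol
open Tv Ff Ps
open scoped commutatorElement

namespace X_LBIk

/-- the order of a subgroup, of its image and of the kernel -/
theorem card_im {H G : Type*} [Group H] [Group G] {X : Subgroup G} (ψ : X →* H)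
    {P S : Subgroup G} (hP : P ≤ X) (hSP : S ≤ P)
    (hS : ∀ g : X, g.1 ∈ P → (ψ g = 1 ↔ g.1 ∈ S)) :
    Nat.card P = Nat.card (im ψ P) * Nat.card S := by
  obtain ⟨A', hA'⟩ : ∃ A', A' = im ψ P := ⟨_, rfl⟩
  rw [← hA']
  obtain ⟨f, hfd⟩ : ∃ f : P →* A', ∀ x : P, (f x).1 = ψ ⟨x.1, hP x.2⟩ :=
    ⟨(ψ.comp (Subgroup.inclusion hP)).codRestrict A' (fun x => by
      rw [hA']
      exact ⟨⟨x.1, hP x.2⟩, x.2, rfl⟩), fun _ => rfl⟩
  have hfs : Function.Surjective f := by
    rintro ⟨y, hy⟩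
    rw [hA'] at hy
    obtain ⟨x, hx, rfl⟩ := hy
    exact ⟨⟨x.1, hx⟩, Subtype.ext (hfd _)⟩
  have h5 : Nat.card P = Nat.card A' * Nat.card f.ker := by
    rw [Subgroup.card_eq_card_quotient_mul_card_subgroup f.ker]
    congr 1
    exact Nat.card_congr (QuotientGroup.quotientKerEquivOfSurjective f hfs).toEquiv
  rw [h5]
  congr 1
  refine Nat.card_congr ?_
  refine Equiv.ofBijective (fun x : f.ker =>
    (⟨x.1.1, (hS ⟨x.1.1, hP x.1.2⟩ x.1.2).mp ?_⟩ : S)) ⟨?_, ?_⟩
  · have h6 : f x.1 = 1 := x.2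
    rw [← hfd, h6]
    rfl
  · intro x x' hxx
    have h7 : x.1.1 = x'.1.1 := congrArg (fun z : S => z.1) hxx
    exact Subtype.ext (Subtype.ext h7)
  · rintro ⟨s, hs⟩
    refine ⟨⟨⟨s, hSP hs⟩, ?_⟩, rfl⟩
    rw [MonoidHom.mem_ker]
    refine Subtype.ext ?_
    rw [hfd]
    exact (hS ⟨s, hP (hSP hs)⟩ (hSP hs)).mpr hs

end X_LBIk

theorem s_LBIk (hKLE : Stmt_KLE) : Stmt_LBIk := by
  intro V G _ _ Γ d p _ h x W R U _ _ ψ 𝒦 hKV hMd hWf y hxy S P hSR hSP hPR hPQ hab
  have hfs : Finite (stabilizer G x) := h.fin x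
  have hU : Finite U := hKV.ke.fin
  have hPX : P ≤ stabilizer G x := hPQ.trans (Qe_le_st x y)
  have hPf : Finite P := Finite.of_injective _ (Subgroup.inclusion_injective hPX)
  have hSf : Finite S := Finite.of_injective _ (Subgroup.inclusion_injective hSP)
  have hcP := X_LBIk.card_im ψ hPX hSP (fun g hg => by
    rw [← hKV.ker g]
    exact ⟨fun hr => hPR ⟨hg, hr⟩, fun hs => hSR hs⟩)
  have hcd := hMd.cd P hPX
  have hA'Q : im ψ P ≤ im ψ (Qe p x y) := by
    rintro _ ⟨g, hg, rfl⟩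
    exact ⟨g, hPQ hg, rfl⟩
  obtain ⟨hO1, hO2⟩ := hKLE U p ψ.range 𝒦 (im ψ (Qe p x y)) (im ψ (B x y)) hKV.ke
    (hKV.kq y hxy) (im ψ P) hA'Q hab
  have hu : 0 < Nat.card U := Nat.card_pos
  have hs : 0 < Nat.card S := Nat.card_pos
  have hw : 0 < Nat.card W := Nat.card_pos
  rw [hcP]
  revert hO1 hO2 hcd
  generalize Nat.card (im ψ P) = a
  generalize Nat.card (FxU (im ψ P)) = F
  generalize Nat.card (Cw W P) = c
  revert hu hs hw
  generalize Nat.card U = u
  generalize Nat.card W = w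
  generalize Nat.card S = s
  intro hu hs hw hcd hO1 hO2
  refine ⟨?_, fun hge => ?_⟩
  · refine Nat.le_of_mul_le_mul_left ?_ hu
    calc u * (a * s * c) = a * s * (u * c) := by ring
      _ ≤ a * s * (w * F) := Nat.mul_le_mul_left _ hcd
      _ = (a * F) * (w * s) := by ring
      _ ≤ u * (w * s) := Nat.mul_le_mul_right _ hO1
  · have h1 : w ≤ a * c := by
      refine Nat.le_of_mul_le_mul_right ?_ hs
      calc w * s ≤ a * s * c := hge
        _ = a * c * s := by ring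
    have h2 : u ≤ a * F := by
      refine Nat.le_of_mul_le_mul_left ?_ hw
      calc w * u ≤ a * c * u := Nat.mul_le_mul_right _ h1
        _ = a * (u * c) := by ring
        _ ≤ a * (w * F) := Nat.mul_le_mul_left _ hcd
        _ = w * (a * F) := by ring
    refine ⟨hO2 (le_antisymm hO1 h2), ?_⟩
    calc w * F ≤ a * c * F := Nat.mul_le_mul_right _ h1
      _ = (a * F) * c := by ring
      _ ≤ u * c := Nat.mul_le_mul_right _ hO1

end Pool.Agent.Work.MP_6d7bb4.h65u
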