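import Pool.Agent.Work.MP_6d7bb4_G.InterfaceV

set_option autoImplicit false
set_option linter.unusedSectionVars false

/-!
# MP_6d7bb4: block LNKk (the group of a link is tight; adapted from B_LNK of MP_6d7bb4_S)
-/

namespace Pool.Agent.Work.MP_6d7bb4.h65u

open MulAction
open Pool.Agent.Work.MP_6d7bb4.helper94 Pool.Agent.Work.MP_6d7bb4.helper94.Sol
open Tv Ff Ps

namespace X_LNKk

theorem arith {a b α β s P : ℕ} (h1 : P * α ≤ a * s) (h2 : b * s ≤ P * β) (hs : 0 < s) :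
    b * α ≤ a * β := by
  refine Nat.le_of_mul_le_mul_left ?_ hs
  calc s * (b * α) = b * s * α := by ring
    _ ≤ P * β * α := Nat.mul_le_mul_right _ h2
    _ = P * α * β := by ring
    _ ≤ a * s * β := Nat.mul_le_mul_right _ h1
    _ = s * (a * β) := by ring

theorem arith2 {a b α β s P : ℕ} (h1 : P * α ≤ a * s) (h2 : b * s ≤ P * β) (hβ : 0 < β)
    (h3 : a * β ≤ b * α) : P * α = a * s := by
  refine le_antisymm h1 (Nat.le_of_mul_le_mul_left ?_ hβ)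
  calc β * (a * s) = a * β * s := by ring
    _ ≤ b * α * s := Nat.mul_le_mul_right _ h3
    _ = b * s * α := by ring
    _ ≤ P * β * α := Nat.mul_le_mul_right _ h2
    _ = β * (P * α) := by ring

variable {V G : Type} [Group G] [MulAction G V] {Γ : SimpleGraph V} {d p : ℕ} [Fact p.Prime]

theorem Sp_comm {x : V} {s v : G} (hs : s ∈ Sp (G := G) Γ p x) (hv : v ∈ Wp (G := G) Γ p x) :
    s * v = v * s :=
  ((mem_Cw.mp hs).2 v hv).symm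

theorem Sp_le_Qv (x : V) : Sp (G := G) Γ p x ≤ Qv Γ p x := fun _ hs => (mem_Cw.mp hs).1

theorem Bp_le_Qe (x y : V) : Bp (G := G) p x y ≤ Qe p x y := fun _ hb => (mem_Cw.mp hb).1

theorem half (hMDX : Stmt_MDX3) (hFMB : Sol.Stmt_FMB) (hLAT : Sol.Stmt_LAT) (hLBI : Stmt_LBIk)
    (hBAU1 : Stmt_BW1) (hBAU4 : Stmt_BW4) (hy : Hw G Γ d p)
    {x x' u : V} (hx : Γ.Adj x x') (hu : Wp (G := G) Γ p u ≤ Sp Γ p x') :
    Wp (G := G) Γ p u ⊔ Sp Γ p x ≤ Bp p x x' ∧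
    Nat.card (Wp (G := G) Γ p u ⊔ Sp Γ p x : Subgroup G) *
        Nat.card (Cw (Wp (G := G) Γ p x) (Wp (G := G) Γ p u)) ≤
      Nat.card (Wp (G := G) Γ p x) * Nat.card (Sp (G := G) Γ p x) ∧
    Nat.card (Wp (G := G) Γ p u) * Nat.card (Sp (G := G) Γ p x) ≤
      Nat.card (Wp (G := G) Γ p u ⊔ Sp Γ p x : Subgroup G) *
        Nat.card (Cw (Wp (G := G) Γ p u) (Wp (G := G) Γ p x)) ∧
    Cw (Wp (G := G) Γ p x) (Wp (G := G) Γ p u ⊔ Sp Γ p x) =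
      Cw (Wp (G := G) Γ p x) (Wp (G := G) Γ p u) ∧
    0 < Nat.card (Sp (G := G) Γ p x) ∧
    0 < Nat.card (Cw (Wp (G := G) Γ p u) (Wp (G := G) Γ p x)) := by
  have h := hy.loc
  obtain ⟨hFm, hWcj, hScj, hWS, hB4⟩ := hBAU4 V G Γ d p hy
  obtain ⟨-, -, -, -, -, hBcm, -, -⟩ := hBAU1 V G Γ d p hy
  obtain ⟨hSB, hBK, -, -, -, -, -⟩ := hB4 x x' hx
  obtain ⟨hSB', -, -, -, -, -, -⟩ := hB4 x' x hx.symm
  obtain ⟨-, hWst, -, -, -⟩ := hFMB V G Γ d p (Zp p) h hFm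
  have hWst' : ∀ y, Wp (G := G) Γ p y ≤ stabilizer G y ∧
      Nm (stabilizer G y) (Wp (G := G) Γ p y) ∧ Finite (Wp (G := G) Γ p y) := hWst
  have hWel : ∀ y, El p (Wp (G := G) Γ p y) := hFm.el
  -- the group of the link lies in Bp
  have hWB : Wp (G := G) Γ p u ≤ Bp p x x' := by
    rw [hBcm x x']
    exact hu.trans hSB'
  have hPB : Wp (G := G) Γ p u ⊔ Sp Γ p x ≤ Bp p x x' := sup_le hWB hSB
  have hPQ : Wp (G := G) Γ p u ⊔ Sp Γ p x ≤ Qe p x x' := hPB.trans (Bp_le_Qe x x')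
  have hPst : Wp (G := G) Γ p u ⊔ Sp Γ p x ≤ stabilizer G x := hPQ.trans (Qe_le_st x x')
  have hPf : Finite (Wp (G := G) Γ p u ⊔ Sp Γ p x : Subgroup G) := h.fin_le hPst
  have hSf : Finite (Sp (G := G) Γ p x) := h.fin_le (le_sup_right.trans hPst)
  have hWf := (hWst' x).2.2
  have hWuf := (hWst' u).2.2
  have hSn : Nm (Wp (G := G) Γ p u) (Sp (G := G) Γ p x) :=
    (nm_of_equiv hScj x).mono (le_sup_left.trans hPst)
  -- the centraliser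
  have hcw : Cw (Wp (G := G) Γ p x) (Wp (G := G) Γ p u ⊔ Sp Γ p x) =
      Cw (Wp (G := G) Γ p x) (Wp (G := G) Γ p u) := by
    ext v
    rw [mem_Cw, mem_Cw]
    constructor
    · rintro ⟨h1, h2⟩
      exact ⟨h1, fun a ha => h2 a (le_sup_left (a := Wp (G := G) Γ p u) ha)⟩
    · rintro ⟨h1, h2⟩
      refine ⟨h1, fun a ha => ?_⟩
      obtain ⟨b, hb, s, hs, rfl⟩ := mem_sup_nm hSn ha
      rw [mul_assoc, Sp_comm hs h1, ← mul_assoc, h2 b hb, mul_assoc]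
  -- the module at x
  obtain ⟨R, U, iU, fU, ψ, hψ⟩ := hMDX G p (stabilizer G x) (Wp (G := G) Γ p x) (h.fin x)
    hWf (hWst' x).2.1 (hWel x)
  let _ : Module (ZMod p) U := AddCommGroup.zmodModule hψ.ex
  obtain ⟨𝒦, hVE⟩ := hy.ve (Zp p) hFm x x' hx R U ψ hψ
  have hSR : Sp (G := G) Γ p x ≤ R := (Sp_le_Qv x).trans hVE.QR
  have hPR : (Wp (G := G) Γ p u ⊔ Sp Γ p x) ⊓ R ≤ Sp Γ p x := by
    intro g hg
    have h1 : g ∈ Bp (G := G) p x x' := hPB hg.1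
    refine hBK ⟨h1, hVE.RK x' hx ⟨hg.2, Qe_le x x' (Bp_le_Qe x x' h1)⟩⟩
  have him : ∀ a ∈ im ψ (Wp (G := G) Γ p u ⊔ Sp Γ p x),
      ∃ g : stabilizer G x, g.1 ∈ Wp (G := G) Γ p u ∧ ψ g = a := by
    intro a ha
    obtain ⟨g, hg, rfl⟩ := mem_im'.mp ha
    obtain ⟨b, hb, s, hs, hgs⟩ := mem_sup_nm hSn hg
    have hbst : b ∈ stabilizer G x := hPst (le_sup_left (a := Wp (G := G) Γ p u) hb)
    have hsst : s ∈ stabilizer G x := hPst (le_sup_right (a := Wp (G := G) Γ p u) hs)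
    refine ⟨⟨b, hbst⟩, hb, ?_⟩
    have h1 : g = ⟨b, hbst⟩ * ⟨s, hsst⟩ := Subtype.ext hgs
    have h2 : ψ ⟨s, hsst⟩ = 1 := (hVE.ker ⟨s, hsst⟩).mp (hSR hs)
    rw [h1, map_mul, h2, mul_one]
  have hab : El p (im ψ (Wp (G := G) Γ p u ⊔ Sp Γ p x)) := by
    constructor
    · intro a ha b hb
      obtain ⟨g, hg, rfl⟩ := him a ha
      obtain ⟨g', hg', rfl⟩ := him b hb
      rw [← map_mul, ← map_mul]
      refine congrArg ψ (Subtype.ext ?_)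
      exact (hWel u).cm g.1 hg g'.1 hg'
    · intro a ha
      obtain ⟨g, hg, rfl⟩ := him a ha
      have h1 : g ^ p = 1 := Subtype.ext ((hWel u).ex g.1 hg)
      rw [← map_pow, h1, map_one]
  have hL := (hLBI V G Γ d p h x (Wp (G := G) Γ p x) R U ψ 𝒦 hVE hψ.toMd2 hWf x' hx
    (Sp (G := G) Γ p x) (Wp (G := G) Γ p u ⊔ Sp Γ p x) hSR le_sup_right hPR hPQ hab).1
  rw [hcw] at hL
  have hLA := (hLAT G).1 (Wp (G := G) Γ p u) (Sp (G := G) Γ p x) hPf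
  have hle : (Wp (G := G) Γ p u ⊓ Sp Γ p x : Subgroup G) ≤
      Cw (Wp (G := G) Γ p u) (Wp (G := G) Γ p x) := by
    intro g hg
    rw [mem_Cw]
    exact ⟨hg.1, fun a ha => (Sp_comm hg.2 ha).symm⟩
  have hCf : Finite (Cw (Wp (G := G) Γ p u) (Wp (G := G) Γ p x)) :=
    Finite.of_injective _ (Subgroup.inclusion_injective
      (show Cw (Wp (G := G) Γ p u) (Wp (G := G) Γ p x) ≤ Wp (G := G) Γ p u from
        fun g hg => (mem_Cw.mp hg).1))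
  refine ⟨hPB, hL, ?_, hcw, Nat.card_pos, Nat.card_pos⟩
  refine hLA.trans (Nat.mul_le_mul_left _ ?_)
  exact Nat.card_le_card_of_injective _ (Subgroup.inclusion_injective hle)

end X_LNKk

open X_LNKk in
theorem s_LNKk (hMDX : Stmt_MDX3) (hFMB : Sol.Stmt_FMB) (hLAT : Sol.Stmt_LAT)
    (hLBI : Stmt_LBIk) (hBAU1 : Stmt_BW1) (hBAU4 : Stmt_BW4) : Stmt_LNKk := by
  intro V G _ _ Γ d p _ hy x x' w' w l
  obtain ⟨a1, a2, a3, a4, a5, a6⟩ := half hMDX hFMB hLAT hLBI hBAU1 hBAU4 hy l.xx l.wx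
  obtain ⟨-, b2, b3, -, b5, -⟩ := half hMDX hFMB hLAT hLBI hBAU1 hBAU4 hy l.ww l.xw
  refine ⟨?_, a1, ?_⟩
  · unfold Tg
    rw [a4]
    refine arith2 a2 a3 a6 ?_
    have h1 := arith b2 b3 b5
    exact h1
  · intro hcon
    apply l.cr
    obtain ⟨-, -, -, -, hB4⟩ := hBAU4 V G Γ d p hy
    obtain ⟨-, -, -, -, -, hBcm, -, -⟩ := hBAU1 V G Γ d p hy
    obtain ⟨-, -, -, -, -, -, h11⟩ := hB4 w w' l.ww
    obtain ⟨hSB', -, -, -, -, -, -⟩ := hB4 w' w l.ww.symm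
    intro v hv
    refine h11 v ?_ ?_
    · rw [hBcm w w']
      exact hSB' (l.xw hv)
    · intro b hb
      exact (Sp_comm (hcon (le_sup_left (a := Wp (G := G) Γ p w) hb)) hv).symm

end Pool.Agent.Work.MP_6d7bb4.h65u
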