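import Pool.Agent.Work.MP_6d7bb4_G.InterfaceM
import Pool.Agent.Work.MP_6d7bb4_S.B_SEM

set_option autoImplicit false
set_option linter.unusedSectionVars false

/-!
# MP_6d7bb4: plan G, block SEM3 (helper10), the semisimplification with complements
-/

namespace Pool.Agent.Work.MP_6d7bb4.h65u

open MulAction
open Pool.Agent.Work.MP_6d7bb4.helper94 Pool.Agent.Work.MP_6d7bb4.helper94.Sol
open Tv Ff Ps

namespace X_SEM3

open Qd

theorem compl_step {X U M : Type} [Group X] [AddCommGroup U] [AddCommGroup M]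
    {ψ : X →* AddMonoid.End U} {ρ : X →* AddMonoid.End M} {χ : X →* AddMonoid.End (U × M)}
    (hχ : ∀ x u, χ x u = (ψ x u.1, ρ x u.2))
    (hirr : ∀ W' : AddSubgroup M, Inv ρ W' → W' = ⊥ ∨ W' = ⊤)
    (hc : ∀ S : AddSubgroup U, Inv ψ S →
      ∃ S' : AddSubgroup U, Inv ψ S' ∧ S ⊓ S' = ⊥ ∧ S ⊔ S' = ⊤) :
    ∀ S : AddSubgroup (U × M), Inv χ S →
      ∃ S' : AddSubgroup (U × M), Inv χ S' ∧ S ⊓ S' = ⊥ ∧ S ⊔ S' = ⊤ := by
  intro S hS
  have hm1 : ∀ u : U, u ∈ S.comap (AddMonoidHom.inl U M) ↔ (u, (0 : M)) ∈ S := fun u => Iff.rfl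
  have hm2 : ∀ m : M, m ∈ S.map (AddMonoidHom.snd U M) ↔ ∃ u : U, (u, m) ∈ S := by
    intro m
    constructor
    · rintro ⟨s, hs, rfl⟩
      exact ⟨s.1, hs⟩
    · rintro ⟨u, hu⟩
      exact ⟨(u, m), hu, rfl⟩
  have hi1 : Inv ψ (S.comap (AddMonoidHom.inl U M)) := by
    intro x u hu
    rw [hm1] at hu ⊢
    have h := hS x _ hu
    rw [hχ] at h
    have h4 : ρ x (0 : M) = 0 := map_zero _
    simpa only [h4] using h
  have hi2 : Inv ρ (S.map (AddMonoidHom.snd U M)) := by
    intro x m hm
    rw [hm2] at hm ⊢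
    obtain ⟨u, hu⟩ := hm
    have h := hS x _ hu
    rw [hχ] at h
    exact ⟨_, h⟩
  obtain ⟨T, hT, hT1, hT2⟩ := hc _ hi1
  have hsplit : ∀ u : U, ∃ s t : U, (s, (0 : M)) ∈ S ∧ t ∈ T ∧ s + t = u := by
    intro u
    have h : u ∈ S.comap (AddMonoidHom.inl U M) ⊔ T := by
      rw [hT2]
      exact AddSubgroup.mem_top _
    obtain ⟨s, hs, t, ht, hst⟩ := AddSubgroup.mem_sup.mp h
    exact ⟨s, t, hs, ht, hst⟩
  have hzero : ∀ u : U, (u, (0 : M)) ∈ S → u ∈ T → u = 0 := by
    intro u hu hu'
    have h : u ∈ S.comap (AddMonoidHom.inl U M) ⊓ T := ⟨hu, hu'⟩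
    rw [hT1, AddSubgroup.mem_bot] at h
    exact h
  rcases hirr _ hi2 with h0 | h0
  · refine ⟨T.prod ⊤, ?_, ?_, ?_⟩
    · intro x u hu
      rw [hχ, AddSubgroup.mem_prod]
      exact ⟨hT x _ (AddSubgroup.mem_prod.mp hu).1, AddSubgroup.mem_top _⟩
    · rw [AddSubgroup.eq_bot_iff_forall]
      rintro ⟨u, m⟩ ⟨hu, hu'⟩
      have h1 : m ∈ S.map (AddMonoidHom.snd U M) := (hm2 m).mpr ⟨u, hu⟩
      rw [h0, AddSubgroup.mem_bot] at h1
      subst h1
      have h2 : u = 0 := hzero u hu (AddSubgroup.mem_prod.mp hu').1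
      rw [h2]
      rfl
    · rw [eq_top_iff]
      rintro ⟨u, m⟩ _
      obtain ⟨s, t, hs, ht, hst⟩ := hsplit u
      refine AddSubgroup.mem_sup.mpr ⟨(s, 0), hs, (t, m), ?_, ?_⟩
      · exact AddSubgroup.mem_prod.mpr ⟨ht, AddSubgroup.mem_top _⟩
      · exact Prod.ext hst (zero_add m)
  · refine ⟨T.prod ⊥, ?_, ?_, ?_⟩
    · intro x u hu
      have h1 := AddSubgroup.mem_prod.mp hu
      rw [hχ, AddSubgroup.mem_prod]
      refine ⟨hT x _ h1.1, ?_⟩
      have h2 : u.2 = 0 := AddSubgroup.mem_bot.mp h1.2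
      show ρ x u.2 ∈ (⊥ : AddSubgroup M)
      rw [h2, map_zero]
      exact AddSubgroup.zero_mem _
    · rw [AddSubgroup.eq_bot_iff_forall]
      rintro ⟨u, m⟩ ⟨hu, hu'⟩
      have h1 := AddSubgroup.mem_prod.mp hu'
      have h2 : m = 0 := AddSubgroup.mem_bot.mp h1.2
      subst h2
      have h3 : u = 0 := hzero u hu h1.1
      rw [h3]
      rfl
    · rw [eq_top_iff]
      rintro ⟨u, m⟩ _
      have h1 : m ∈ S.map (AddMonoidHom.snd U M) := by
        rw [h0]
        exact AddSubgroup.mem_top _
      obtain ⟨u', hu'⟩ := (hm2 m).mp h1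
      obtain ⟨s, t, hs, ht, hst⟩ := hsplit (u - u')
      refine AddSubgroup.mem_sup.mpr ⟨(u', m) + (s, 0), S.add_mem hu' hs, (t, 0), ?_, ?_⟩
      · exact AddSubgroup.mem_prod.mpr ⟨ht, AddSubgroup.zero_mem _⟩
      · refine Prod.ext ?_ ?_
        · show u' + s + t = u
          rw [add_assoc, hst]
          abel
        · show m + 0 + 0 = m
          rw [add_zero, add_zero]

theorem semi3 {X : Type} [Group X] {p : ℕ} (hp : p.Prime) [Finite X] : ∀ n : ℕ,
    ∀ (V : Type) [AddCommGroup V]
    [Finite V] (φ : X →* AddMonoid.End V), Nat.card V ≤ n → (∀ v : V, p • v = 0) →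
    ∃ (U : Type) (_ : AddCommGroup U) (_ : Finite U) (ψ : X →* AddMonoid.End U),
      Ss2 p φ ψ ∧ ∀ S : AddSubgroup U, Inv ψ S →
        ∃ S' : AddSubgroup U, Inv ψ S' ∧ S ⊓ S' = ⊥ ∧ S ⊔ S' = ⊤ := by
  intro n
  induction n with
  | zero =>
    intro V _ _ φ h
    have := Nat.card_pos (α := V)
    omega
  | succ n ih =>
    intro V _ _ φ hV hpV
    rcases subsingleton_or_nontrivial V with hs | hne
    · refine ⟨V, inferInstance, inferInstance, φ, ⟨⟨hpV, ?_, ?_, fun x h => h, fun a b h => h,
        fun A => le_refl _⟩, fun A _ b h => h, ?_⟩, ?_⟩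
      · intro N _ _ n _
        refine AddMonoidHom.ext (fun v => ?_)
        exact Subsingleton.elim _ _
      · intro x _
        refine ⟨0, AddMonoidHom.ext (fun v => ?_)⟩
        exact Subsingleton.elim _ _
      · intro A A' _ _ S _ _ _ _ _ a _ b _ v
        exact Subsingleton.elim _ _
      · intro S _
        refine ⟨⊥, ?_, ?_, ?_⟩
        · intro x v hv
          rw [Subsingleton.elim (φ x v) v]
          exact hv
        · rw [inf_bot_eq]
        · rw [eq_top_iff]
          intro v _
          rw [Subsingleton.elim v 0]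
          exact AddSubgroup.zero_mem _
    · have hfin : {W : AddSubgroup V | Inv φ W ∧ W ≠ ⊤}.Finite := Set.toFinite _
      obtain ⟨W, hW⟩ := hfin.exists_maximal ⟨⊥, inv_bot, bot_ne_top⟩
      obtain ⟨⟨hWi, hWne⟩, hmax⟩ := hW
      have hcardW : Nat.card W < Nat.card V := by
        refine lt_of_le_of_ne (AddSubgroup.card_le_card_addGroup W) ?_
        intro h
        exact hWne (AddSubgroup.eq_top_of_card_eq W h)
      have hpW : ∀ w : W, p • w = 0 := by
        intro w
        apply Subtype.ext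
        rw [AddSubgroup.coe_nsmul]
        exact hpV w.1
      have hpQ : ∀ w : V ⧸ W, p • w = 0 := by
        intro w
        obtain ⟨v, rfl⟩ := QuotientAddGroup.mk_surjective w
        rw [← QuotientAddGroup.mk_nsmul, hpV v]
        rfl
      obtain ⟨U, iU, fU, ψ, hψ, hcp⟩ := ih W (ra hWi) (by omega) hpW
      have hirr : ∀ W' : AddSubgroup (V ⧸ W), Inv (qa hWi) W' → W' = ⊥ ∨ W' = ⊤ := by
        intro W' hW'
        obtain ⟨W3, hW3⟩ : ∃ W3 : AddSubgroup V, ∀ v, v ∈ W3 ↔
            (QuotientAddGroup.mk v : V ⧸ W) ∈ W' :=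
          ⟨W'.comap (QuotientAddGroup.mk' W), fun v => Iff.rfl⟩
        have hle : W ≤ W3 := by
          intro v hv
          rw [hW3, (QuotientAddGroup.eq_zero_iff v).mpr hv]
          exact W'.zero_mem
        have hi3 : Inv φ W3 := by
          intro x v hv
          rw [hW3] at hv ⊢
          exact hW' x _ hv
        by_cases h3 : W3 = ⊤
        · right
          rw [eq_top_iff]
          intro y _
          obtain ⟨v, rfl⟩ := QuotientAddGroup.mk_surjective y
          rw [← hW3, h3]
          exact AddSubgroup.mem_top v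
        · left
          have h4 := hmax ⟨hi3, h3⟩ hle
          rw [AddSubgroup.eq_bot_iff_forall]
          intro y hy
          obtain ⟨v, rfl⟩ := QuotientAddGroup.mk_surjective y
          rw [QuotientAddGroup.eq_zero_iff]
          exact h4 ((hW3 v).mpr hy)
      obtain ⟨χ, hχ⟩ : ∃ χ : X →* AddMonoid.End (U × (V ⧸ W)),
          ∀ x u, χ x u = (ψ x u.1, qa hWi x u.2) :=
        ⟨{ toFun := fun x => (ψ x).prodMap (qa hWi x)
           map_one' := by
             rw [map_one, map_one]
             rfl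
           map_mul' := by
             intro x y
             rw [map_mul, map_mul]
             rfl }, fun x u => rfl⟩
      have hχ1 : ∀ x, χ x = 1 ↔ ψ x = 1 ∧ qa hWi x = 1 := by
        intro x
        constructor
        · intro h
          constructor
          · refine AddMonoidHom.ext (fun u => ?_)
            have h1 := hχ x (u, 0)
            rw [h] at h1
            exact (congrArg Prod.fst h1).symm
          · refine AddMonoidHom.ext (fun u => ?_)
            have h1 := hχ x (0, u)
            rw [h] at h1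
            exact (congrArg Prod.snd h1).symm
        · rintro ⟨h1, h2⟩
          refine AddMonoidHom.ext (fun u => ?_)
          show χ x u = u
          rw [hχ, h1, h2]
          rfl
      refine ⟨U × (V ⧸ W), inferInstance, inferInstance, χ, ⟨⟨?_, ?_, ?_, ?_, ?_, ?_⟩,
        X_SEM.tl_step hWi hχ hψ, X_SEM.tt_step hWi hχ hψ⟩, compl_step hχ hirr hcp⟩
      · intro u
        exact Prod.ext (hψ.ex u.1) (hpQ u.2)
      · intro N hN hNp n hn
        rw [hχ1]
        constructor
        · refine hψ.np N hN (fun n hn => ?_) n hn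
          obtain ⟨k, hk⟩ := hNp n hn
          exact ⟨k, ((hχ1 _).mp hk).1⟩
        · refine irr_act hp hpQ (qa hWi) hirr N hN (fun n hn => ?_) n hn
          obtain ⟨k, hk⟩ := hNp n hn
          exact ⟨k, ((hχ1 _).mp hk).2⟩
      · intro x hx
        obtain ⟨h1, h2⟩ := (hχ1 x).mp hx
        obtain ⟨k, hk⟩ := hψ.kp x h1
        refine ⟨k + 1, ?_⟩
        rw [pow_succ, pow_mul]
        refine two_step hpV φ (W := W) ?_ ?_
        · intro w hw
          have h3 : ra hWi (x ^ p ^ k) ⟨w, hw⟩ = ⟨w, hw⟩ := by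
            rw [hk]
            rfl
          exact congrArg Subtype.val h3
        · intro v
          have h3 : qa hWi (x ^ p ^ k) (QuotientAddGroup.mk v) = QuotientAddGroup.mk v := by
            rw [map_pow, h2, one_pow]
            rfl
          rw [qa_mk, QuotientAddGroup.eq] at h3
          have h4 : φ (x ^ p ^ k) v - v = -(-φ (x ^ p ^ k) v + v) := by abel
          rw [h4]
          exact W.neg_mem h3
      · intro x hx
        rw [hχ1]
        constructor
        · refine hψ.k1 x (AddMonoidHom.ext (fun w => Subtype.ext ?_))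
          show φ x w.1 = w.1
          rw [hx]
          rfl
        · refine AddMonoidHom.ext (fun w => ?_)
          obtain ⟨v, rfl⟩ := QuotientAddGroup.mk_surjective w
          show qa hWi x (QuotientAddGroup.mk v) = QuotientAddGroup.mk v
          rw [qa_mk, hx]
          rfl
      · intro a b hab u
        rw [hχ b, hχ a]
        refine Prod.ext ?_ ?_
        · refine hψ.qd a b (fun w => Subtype.ext ?_) u.1
          exact hab w.1
        · obtain ⟨v, hv⟩ := QuotientAddGroup.mk_surjective u.2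
          show qa hWi a (qa hWi b u.2 - u.2) = qa hWi b u.2 - u.2
          rw [← hv, qa_mk, ← QuotientAddGroup.mk_sub, qa_mk, hab v]
      · intro A
        -- fixed points on `V`
        have h1 : Nat.card (Fx φ A) ≤ Nat.card (Fx (ra hWi) A) * Nat.card (Fx (qa hWi) A) := by
          obtain ⟨f, hf⟩ : ∃ f : Fx φ A →+ Fx (qa hWi) A, ∀ v, (f v).1 = QuotientAddGroup.mk v.1 :=
            ⟨{ toFun := fun v => ⟨QuotientAddGroup.mk v.1, fun a ha => by
                 rw [qa_mk, v.2 a ha]⟩
               map_zero' := rfl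
               map_add' := fun _ _ => rfl }, fun v => rfl⟩
          refine (card_le_ker f).trans (Nat.mul_le_mul_right _ ?_)
          have h2 : ∀ v : f.ker, v.1.1 ∈ W := by
            intro v
            rw [← QuotientAddGroup.eq_zero_iff, ← hf, (AddMonoidHom.mem_ker).mp v.2]
            rfl
          refine Nat.card_le_card_of_injective (fun v : f.ker =>
            (⟨⟨v.1.1, h2 v⟩, fun a ha => Subtype.ext (v.1.2 a ha)⟩ : Fx (ra hWi) A)) ?_
          intro v v' h
          have h3 := congrArg (fun z : Fx (ra hWi) A => z.1.1) h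
          exact Subtype.ext (Subtype.ext h3)
        have h2 : Nat.card (Fx ψ A) * Nat.card (Fx (qa hWi) A) ≤ Nat.card (Fx χ A) := by
          rw [← Nat.card_prod]
          refine Nat.card_le_card_of_injective (fun z : Fx ψ A × Fx (qa hWi) A =>
            (⟨(z.1.1, z.2.1), fun a ha => by
              rw [hχ]
              exact Prod.ext (z.1.2 a ha) (z.2.2 a ha)⟩ : Fx χ A)) ?_
          intro z z' h
          have h3 := congrArg (fun z : Fx χ A => z.1) h
          exact Prod.ext (Subtype.ext (congrArg Prod.fst h3)) (Subtype.ext (congrArg Prod.snd h3))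
        have h3 := hψ.cd A
        have h4 : Nat.card V = Nat.card (V ⧸ W) * Nat.card W :=
          AddSubgroup.card_eq_card_quotient_mul_card_addSubgroup W
        rw [Nat.card_prod, h4]
        calc Nat.card U * Nat.card (V ⧸ W) * Nat.card (Fx φ A)
            ≤ Nat.card U * Nat.card (V ⧸ W) *
              (Nat.card (Fx (ra hWi) A) * Nat.card (Fx (qa hWi) A)) :=
              Nat.mul_le_mul_left _ h1
          _ = Nat.card (V ⧸ W) * Nat.card (Fx (qa hWi) A) *
              (Nat.card U * Nat.card (Fx (ra hWi) A)) := by ring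
          _ ≤ Nat.card (V ⧸ W) * Nat.card (Fx (qa hWi) A) *
              (Nat.card W * Nat.card (Fx ψ A)) := Nat.mul_le_mul_left _ h3
          _ = Nat.card (V ⧸ W) * Nat.card W *
              (Nat.card (Fx ψ A) * Nat.card (Fx (qa hWi) A)) := by ring
          _ ≤ _ := Nat.mul_le_mul_left _ h2

end X_SEM3

theorem s_SEM3 : Stmt_SEM3 := by
  intro X _ _ p hp V _ _ φ hpV
  exact X_SEM3.semi3 hp.out _ V φ le_rfl hpV

end Pool.Agent.Work.MP_6d7bb4.h65u
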