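import Pool.Agent.Work.MP_6d7bb4_G.InterfaceV

/-! # MP_6d7bb4: plan G (product action); block SYSk (helper53), adapted from block SYS (helper76) -/

set_option autoImplicit false
set_option linter.unusedSectionVars false

namespace Pool.Agent.Work.MP_6d7bb4.h65u

open MulAction
open Pool.Agent.Work.MP_6d7bb4.helper94 Pool.Agent.Work.MP_6d7bb4.helper94.Sol
open Tv Ff Ps
open scoped commutatorElement

namespace X_SYSk

theorem card_rel {G : Type} [Group G] {H K : Subgroup G} (h : H ≤ K) :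
    Nat.card H * H.relIndex K = Nat.card K := by
  have h1 := Subgroup.relIndex_mul_relIndex ⊥ H K bot_le h
  rwa [Subgroup.relIndex_bot_left, Subgroup.relIndex_bot_left] at h1

theorem rel_ne' {G : Type} [Group G] (H K : Subgroup G) (hK : Finite K) : H.relIndex K ≠ 0 := by
  have h1 : (H.subgroupOf K).index ≠ 0 := Subgroup.index_ne_zero_of_finite
  exact h1

/-- a conjugate of `t` lies in the image of `Qe p x y` -/
theorem conj_t {V G : Type} [Group G] [MulAction G V] {Γ : SimpleGraph V} {d p : ℕ}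
    [Fact p.Prime] (hl : Loc G Γ d) {x : V} {U : Type} [AddCommGroup U]
    (ψ : stabilizer G x →* Un U) {t : Un U} (ht : ∃ y, Γ.Adj x y ∧ t ∈ im ψ (Qe p x y)) :
    t ∈ ψ.range ∧ ∀ y, Γ.Adj x y → ∃ g ∈ ψ.range, g * t * g⁻¹ ∈ im ψ (Qe p x y) := by
  obtain ⟨y0, hy0, ht0⟩ := ht
  obtain ⟨a, ha, hat⟩ := mem_im'.1 ht0
  refine ⟨⟨a, hat⟩, fun y hy => ?_⟩
  obtain ⟨g, g1, g2⟩ := hl.arc x y0 x y hy0 hy
  have hg : g ∈ stabilizer G x := g1
  refine ⟨ψ ⟨g, hg⟩, ⟨_, rfl⟩, ?_⟩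
  have h1 : (Qe p x y : Subgroup G) = cj g (Qe p x y0) := by
    rw [← Qe_cj, g1, g2]
  refine mem_im'.2 ⟨⟨g, hg⟩ * a * (⟨g, hg⟩)⁻¹, ?_, ?_⟩
  · rw [h1]
    exact conj_mem_cj ha
  · rw [map_mul, map_mul, map_inv, hat]

end X_SYSk

open X_SYSk

/-- SYSk -/
theorem s_SYSk (hQDC : Sol.Stmt_QDC) (hFMB : Sol.Stmt_FMB) (hQIX : Sol.Stmt_QIX)
    (hMDX3 : Stmt_MDX3) (hKMI : Stmt_KMI) (hKGT : Stmt_KGT) (hKUN : Stmt_KUN)
    (hKTG1 : Stmt_KTG1) (hKVSC : Stmt_KVSC) (hKBLK : Stmt_KBLK) (hBW1 : Stmt_BW1)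
    (hBW4 : Stmt_BW4) (hTJ1k : Stmt_TJ1k) (hVSXk : Stmt_VSXk) (hLNKk : Stmt_LNKk) :
    Stmt_SYSk := by
  intro V G _ _ Γ d p _ h
  obtain ⟨b1, b2, b3, b4, b5, b6, b7, b8⟩ := hBW1 V G Γ d p h
  obtain ⟨c1, c2, c3, c4, c5⟩ := hBW4 V G Γ d p h
  obtain ⟨f1, f2, -, -, -⟩ := hFMB V G Γ d p (Zp p) h.loc c1
  have f2' : ∀ x, Wp (G := G) Γ p x ≤ stabilizer G x ∧ Nm (stabilizer G x) (Wp Γ p x) ∧
    Finite (Wp Γ p x : Subgroup G) := f2
  have hVB : ∀ x y, Γ.Adj x y → ∃ (R : Subgroup G) (U : Type) (_ : AddCommGroup U)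
      (_ : Module (ZMod p) U) (ψ : stabilizer G x →* Un U) (𝒦 : Set (Subgroup (Un U)))
      (t : Un U) (e : U) (f : U →+ ZMod p),
      KB Γ d p x (Wp Γ p x) (Sp Γ p x) R (Bp p x) ψ 𝒦 t e f := by
    intro x y hxy
    obtain ⟨R, U, iU, fU, ψ, hψ⟩ := hMDX3 G p (stabilizer G x) (Wp Γ p x) (h.loc.fin x)
      (f2' x).2.2 (f2' x).2.1 (c1.el x)
    let mU : Module (ZMod p) U := AddCommGroup.zmodModule hψ.ex
    obtain ⟨𝒦, t, e, f, hve, htv, htQ⟩ := hTJ1k V G Γ d p h x y hxy R U ψ hψ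
    exact ⟨R, U, iU, mU, ψ, 𝒦, t, e, f,
      hVSXk V G Γ d p h x R U ψ 𝒦 t e f hve htv htQ hψ.toMd2⟩
  have hZ : ∀ x y, Γ.Adj x y → Zp (G := G) p x y = Cw (Wp Γ p x) (Bp p x y) := by
    intro x y hxy
    obtain ⟨d1, d2, d3, d4, -⟩ := c5 x y hxy
    apply le_antisymm
    · intro z hz
      refine mem_Cw.2 ⟨z_le_VZ hxy hz, fun b hb => ?_⟩
      exact ((mem_Cw.1 hb).2 z hz).symm
    · rw [← d4]
      intro v hv
      have hv' := mem_Cw.1 hv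
      exact mem_Cw.2 ⟨hv'.1, fun a ha => hv'.2 a (d3 ha)⟩
  have hBst : ∀ x y, Γ.Adj x y → Bp (G := G) p x y ≤ stabilizer G x := fun x y hxy =>
    (inf_le_left : Bp (G := G) p x y ≤ Qe p x y).trans (Qe_le_st x y)
  refine ⟨c2, c3, b3, b5, b4, b6, fun x => inf_le_left, c4, ?_,
    fun x y _ => inf_le_left, fun x y hxy => (c5 x y hxy).1, fun x y hxy => (c5 x y hxy).2.1,
    fun x y hxy => (c5 x y hxy).2.2.2.2.2.2, fun x y hxy => (c5 x y hxy).2.2.2.2.2.1,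
    fun x y hxy => z_le_VZ hxy, ?_, ?_, c1.ne, ?_, ?_, ?_, ?_⟩
  · intro x s hs v hv
    exact ((mem_Cw.1 hs).2 v hv).symm
  · intro x y hxy z hz b hb
    exact ((mem_Cw.1 hb).2 z hz).symm
  · intro x y hxy v hv h1
    rw [hZ x y hxy]
    exact mem_Cw.2 ⟨hv, h1⟩
  · -- qd
    intro x y hxy b hb v hv
    obtain ⟨R, U, iU, mU, ψ, 𝒦, t, e, f, vb⟩ := hVB x y hxy
    have vs := vb.vs
    have ve := vs.ve
    have hbx := hBst x y hxy hb
    have hcW : b * v * b⁻¹ * v⁻¹ ∈ Wp (G := G) Γ p x :=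
      Subgroup.mul_mem _ ((f2' x).2.1 b hbx v hv) (Subgroup.inv_mem _ hv)
    have hmq := ve.kq y hxy
    obtain ⟨-, -, q3, -⟩ := hKUN U p _ _ _ _ ve.ke hmq
    obtain ⟨ht1, ht2⟩ := conj_t h.loc ψ vs.tQ
    obtain ⟨m1, m2, m3⟩ := hKMI U p _ _ t e f ve.ke vs.tv ht1
    have htg : Tg (Wp Γ p x) (Sp Γ p x) (Bp (G := G) p x y) := vs.tg y hxy
    obtain ⟨-, htl⟩ := (hKTG1 V G Γ d p x _ _ _ _ U ψ 𝒦 t e f vb y hxy (Bp p x y)
      (vs.SB y hxy) le_rfl).2 htg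
    have hBT : im ψ (Bp p x y) = Pq p (im ψ (Qe p x y)) := vs.BT y hxy
    have hmem : ∀ a : stabilizer G x, a.1 ∈ Bp (G := G) p x y →
        ψ a ∈ Subgroup.closure (Tq p (im ψ (Qe p x y))) := by
      intro a ha
      have h1 : ψ a ∈ im ψ (Bp p x y) := mem_im'.2 ⟨a, ha, rfl⟩
      rw [hBT] at h1
      exact h1
    have hS : ∀ a : stabilizer G x, a.1 ∈ Bp (G := G) p x y → ∀ u : U,
        (ψ a : AddMonoid.End U) u - u ∈ Sc ψ.range e := fun a ha =>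
      m3 _ _ hmq (ht2 y hxy) (ψ a) (hmem a ha)
    have hqd : ∀ a b : stabilizer G x, a.1 ∈ Bp (G := G) p x y → b.1 ∈ Bp (G := G) p x y →
        ∀ u : U, (ψ b : AddMonoid.End U) ((ψ a : AddMonoid.End U) u - u) =
          (ψ a : AddMonoid.End U) u - u := by
      intro a b' ha hb'
      exact hQDC U p (Tq p (im ψ (Qe p x y))) (Tq p (im ψ (Qe p x y))) (fun s hs => hs.2)
        (fun s hs => hs.2) (fun s hs s' hs' e1 e2 g1 g2 ht ht' =>
          (q3 s hs s' hs').2 e1 e2 g1 g2 ht ht') (ψ a) (hmem a ha) (ψ b') (hmem b' hb')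
    have htt := vb.md.tt (Bp p x y) (Bp p x y) (hBst x y hxy) (hBst x y hxy) htl htl
      (Sc ψ.range e) m1 m2 hS hS hqd
    rw [hZ x y hxy]
    refine mem_Cw.2 ⟨hcW, fun a ha => ?_⟩
    have h3 := htt b hb a ha v hv
    calc a * (b * v * b⁻¹ * v⁻¹) = a * (b * v * b⁻¹ * v⁻¹) * a⁻¹ * a := by group
      _ = b * v * b⁻¹ * v⁻¹ * a := by rw [h3]
  · -- ab
    intro x y hxy a ha b hb
    obtain ⟨R, U, iU, mU, ψ, 𝒦, t, e, f, vb⟩ := hVB x y hxy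
    have vs := vb.vs
    have ve := vs.ve
    have hmq := ve.kq y hxy
    obtain ⟨-, -, q3, -⟩ := hKUN U p _ _ _ _ ve.ke hmq
    have hBT : im ψ (Bp p x y) = Pq p (im ψ (Qe p x y)) := vs.BT y hxy
    have hmem : ∀ a : stabilizer G x, a.1 ∈ Bp (G := G) p x y →
        ψ a ∈ Subgroup.closure (Tq p (im ψ (Qe p x y))) := by
      intro a ha
      have h1 : ψ a ∈ im ψ (Bp p x y) := mem_im'.2 ⟨a, ha, rfl⟩
      rw [hBT] at h1
      exact h1
    have hab := ((hKGT U p _ _ _ _ ve.ke hmq (Tq p (im ψ (Qe p x y))) subset_rfl).1).1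
    have hax := hBst x y hxy ha
    have hbx := hBst x y hxy hb
    have h1 := hab _ (hmem ⟨a, hax⟩ ha) _ (hmem ⟨b, hbx⟩ hb)
    have h2 : ψ (⟨a, hax⟩ * ⟨b, hbx⟩ * (⟨a, hax⟩)⁻¹ * (⟨b, hbx⟩)⁻¹) = 1 := by
      rw [map_mul, map_mul, map_mul, map_inv, map_inv, h1]
      group
    have h3 := (ve.ker (⟨a, hax⟩ * ⟨b, hbx⟩ * (⟨a, hax⟩)⁻¹ * (⟨b, hbx⟩)⁻¹)).2 h2
    have h4 : a * b * a⁻¹ * b⁻¹ ∈ R := h3
    refine vs.BR y hxy ⟨?_, h4⟩
    exact Subgroup.mul_mem _ (Subgroup.mul_mem _ (Subgroup.mul_mem _ ha hb)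
      (Subgroup.inv_mem _ ha)) (Subgroup.inv_mem _ hb)
  · -- ix
    intro x y hxy
    obtain ⟨R, U, iU, mU, ψ, 𝒦, t, e, f, vb⟩ := hVB x y hxy
    have vs := vb.vs
    obtain ⟨d1, d2, d3, d4, -⟩ := c5 x y hxy
    have htg : Nat.card (Bp (G := G) p x y) * Nat.card (Cw (Wp Γ p x) (Bp (G := G) p x y)) =
      Nat.card (Wp (G := G) Γ p x) * Nat.card (Sp (G := G) Γ p x) := vs.tg y hxy
    rw [← hZ x y hxy] at htg
    have k1 := card_rel (H := Zp (G := G) p x y) (K := Wp Γ p x) (z_le_VZ hxy)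
    have k2 := card_rel (H := Sp (G := G) Γ p x) (K := Bp p x y) d1
    have hfx := h.loc.fin x
    have finS : ∀ H : Subgroup G, H ≤ stabilizer G x → Finite H := fun H hH =>
      Finite.of_injective _ (Subgroup.inclusion_injective hH)
    have hfB := finS _ (hBst x y hxy)
    have hfS := finS _ (d1.trans (hBst x y hxy))
    have hfW := (f2' x).2.2
    have hfZ : Finite (Zp (G := G) p x y) := finS _ ((z_le_VZ hxy).trans (f2' x).1)
    have hfQ : Finite (Qe (G := G) p x y) := finS _ (Qe_le_st x y)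
    have p1 : 0 < Nat.card (Sp (G := G) Γ p x) := Nat.card_pos
    have p2 : 0 < Nat.card (Zp (G := G) p x y) := Nat.card_pos
    have k3 : (Zp (G := G) p x y).relIndex (Wp Γ p x) = (Sp (G := G) Γ p x).relIndex (Bp p x y) := by
      rw [← k1, ← k2] at htg
      have k4 : Nat.card (Sp (G := G) Γ p x) * Nat.card (Zp (G := G) p x y) *
          (Sp (G := G) Γ p x).relIndex (Bp p x y) = Nat.card (Sp (G := G) Γ p x) *
          Nat.card (Zp (G := G) p x y) * (Zp (G := G) p x y).relIndex (Wp Γ p x) := by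
        linarith
      exact (Nat.eq_of_mul_eq_mul_left (Nat.mul_pos p1 p2) k4).symm
    rw [k3]
    have k5 : Qv (G := G) Γ p x ⊓ Bp p x y ≤ Sp Γ p x := by
      intro g hg
      exact d2 ⟨hg.2, Qv_le x hg.1⟩
    calc (Sp (G := G) Γ p x).relIndex (Bp p x y)
        ≤ (Qv (G := G) Γ p x ⊓ Bp p x y).relIndex (Bp p x y) :=
          Subgroup.relIndex_le_of_le_left k5 (X_SYSk.rel_ne' _ _ hfB)
      _ = (Qv (G := G) Γ p x).relIndex (Bp p x y) := Subgroup.inf_relIndex_right _ _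
      _ ≤ (Qv (G := G) Γ p x).relIndex (Qe p x y) :=
          Subgroup.relIndex_le_of_le_right inf_le_left (X_SYSk.rel_ne' _ _ hfQ)
      _ ≤ d.factorial := hQIX V G Γ d p h.loc x y hxy
  · -- lk
    intro x x' w' w hl
    obtain ⟨l1, l2, l3⟩ := hLNKk V G Γ d p h x x' w' w hl
    obtain ⟨R, U, iU, mU, ψ, 𝒦, t, e, f, vb⟩ := hVB x x' hl.xx
    obtain ⟨C, e1, e2, e3, e4⟩ := hKVSC V G Γ d p x _ _ _ _ U ψ 𝒦 t e f vb x' hl.xx _
      le_sup_right l2 l1 l3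
    exact ⟨_, _, hKBLK V G Γ d p x _ _ _ _ U ψ 𝒦 t e f vb C e1 e2 e4 (Zp p x)
      (fun y hy => hZ x y hy), e3⟩

end Pool.Agent.Work.MP_6d7bb4.h65u
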