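import Pool.Agent.Work.MP_6d7bb4_G.InterfaceV

set_option autoImplicit false
set_option linter.unusedSectionVars false

/-! # MP_6d7bb4, block TJ1k: a transvection (helper87, after B_TJ1) -/

namespace Pool.Agent.Work.MP_6d7bb4.h65u

open MulAction
open Pool.Agent.Work.MP_6d7bb4.helper94 Pool.Agent.Work.MP_6d7bb4.helper94.Sol
open Tv Ff Ps

theorem s_TJ1k (hBST : Pool.Agent.Work.MP_6d7bb4.helper94.Sol.Stmt_BST) (hKLE : Stmt_KLE)
    (hBW1 : Stmt_BW1) (hBW4 : Stmt_BW4) : Stmt_TJ1k := by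
  intro V G _ _ Γ d p _ hH x y hxy R U _ _ _ ψ hψ
  have h := hH.loc
  obtain ⟨b1, -⟩ := hBW1 V G Γ d p hH
  obtain ⟨c1, -, -, c4, c5⟩ := hBW4 V G Γ d p hH
  obtain ⟨e5, -, -, -, e9, -, -⟩ := c5 x y hxy
  obtain ⟨𝒦, hKV⟩ := hH.ve (Zp p) c1 x y hxy R U ψ hψ
  obtain ⟨A, hA, hAQv⟩ : ∃ A : Subgroup G, Am p (Qe p x y) A ∧ ¬ A ≤ Qv Γ p x := by
    by_contra hc
    push Not at hc
    exact b1 x y hxy (iSup_le fun A => hc A.1 A.2)
  have hAs : A ≤ stabilizer G x := hA.le.trans (Qe_le_st x y)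
  have hWel : El p (Wp (G := G) Γ p x) := c1.el x
  have hWQ : Wp (G := G) Γ p x ≤ Qe p x y :=
    (c4 x).trans (e5.trans inf_le_left)
  have hQf : Finite (Qe p x y : Subgroup G) := h.fin_le (Qe_le_st x y)
  have hRK : R ⊓ B x y ≤ K Γ x := hKV.RK y hxy
  have hAQ : ∀ a ∈ A, a ∈ R → a ∈ Qv Γ p x := by
    intro a ha haR
    rw [Qv_eq h hxy]
    exact ⟨hA.le ha, hRK ⟨haR, Qe_le x y (hA.le ha)⟩⟩
  have hAR : ∀ a ∈ A, a ∈ R → ∀ v ∈ Wp (G := G) Γ p x, a * v = v * a := by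
    intro a ha haR v hv
    have h1 : a ∈ Sp (G := G) Γ p x := e9 A hA ⟨ha, hAQ a ha haR⟩
    exact ((mem_Cw.mp h1).2 v hv).symm
  have hoff : Nat.card (Wp (G := G) Γ p x) *
      Nat.card (A ⊓ Subgroup.centralizer (Wp (G := G) Γ p x : Set G) : Subgroup G) ≤
      Nat.card A * Nat.card (Wp (G := G) Γ p x ⊓ Subgroup.centralizer (A : Set G) : Subgroup G) := by
    have h1 := hBST G p (Qe p x y) A (Wp Γ p x) (Cw A (Wp Γ p x)) hQf hA hWQ hWel inf_le_left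
    have h2 : Cw (Wp (G := G) Γ p x) (Cw A (Wp Γ p x)) = Wp Γ p x := by
      apply le_antisymm inf_le_left
      intro v hv
      refine mem_Cw.mpr ⟨hv, fun a ha => ?_⟩
      exact ((mem_Cw.mp ha).2 v hv).symm
    rw [h2, mul_comm] at h1
    exact h1
  have hof := hψ.of A hAs hAR hoff
  -- the groups
  obtain ⟨A', hA'⟩ : ∃ A', A' = im ψ A := ⟨_, rfl⟩
  have hof' : Nat.card U ≤ Nat.card A' * Nat.card (FxU A') := by
    rw [hA']
    exact hof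
  have hA1 : A' ≠ ⊥ := by
    intro hcon
    apply hAQv
    intro a ha
    have h1 : ψ ⟨a, hAs ha⟩ ∈ A' := by
      rw [hA']
      exact ⟨_, ha, rfl⟩
    rw [hcon, Subgroup.mem_bot] at h1
    exact hAQ a ha ((hψ.ker ⟨a, hAs ha⟩).mpr h1)
  have hel : El p A' := by
    rw [hA']
    refine ⟨?_, ?_⟩
    · rintro _ ⟨a, ha, rfl⟩ _ ⟨b, hb, rfl⟩
      rw [← map_mul, ← map_mul]
      congr 1
      exact Subtype.ext (hA.el.cm a.1 ha b.1 hb)
    · rintro _ ⟨a, ha, rfl⟩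
      rw [← map_pow]
      have h1 : a ^ p = 1 := Subtype.ext (hA.el.ex a.1 ha)
      rw [h1, map_one]
  have hAQe : A' ≤ im ψ (Qe p x y) := by
    rw [hA']
    rintro _ ⟨a, ha, rfl⟩
    exact ⟨a, hA.le ha, rfl⟩
  obtain ⟨k1, k2⟩ := hKLE U p ψ.range 𝒦 (im ψ (Qe p x y)) (im ψ (B x y)) hKV.ke (hKV.kq y hxy) A'
    hAQe hel
  have hPq := k2 (le_antisymm k1 hof')
  obtain ⟨t, ht⟩ : (Tq p A').Nonempty := by
    by_contra hcon
    rw [Set.not_nonempty_iff_eq_empty] at hcon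
    apply hA1
    rw [hPq]
    unfold Pq
    rw [hcon, Subgroup.closure_empty]
  obtain ⟨htA, e, f, hTV⟩ := ht
  exact ⟨𝒦, t, e, f, hKV, hTV, y, hxy, hAQe htA⟩

end Pool.Agent.Work.MP_6d7bb4.h65u
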