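import Pool.Agent.Work.MP_6d7bb4_G.InterfaceV

set_option autoImplicit false
set_option linter.unusedSectionVars false

/-!
# MP_6d7bb4: block TJ3k (adapted from B_TJ3 of MP_6d7bb4_S)
-/

namespace Pool.Agent.Work.MP_6d7bb4.h65u

open MulAction
open Pool.Agent.Work.MP_6d7bb4.helper94 Pool.Agent.Work.MP_6d7bb4.helper94.Sol
open Tv Ff Ps

namespace X_TJ3k

theorem El_mono {G : Type*} [Group G] {p : ℕ} {A A' : Subgroup G} (h : A ≤ A') (hA : El p A') :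
    El p A := ⟨fun a ha b hb => hA.cm a (h ha) b (h hb), fun a ha => hA.ex a (h ha)⟩

theorem im_mono {G H : Type*} [Group G] [Group H] {X : Subgroup G} (ψ : X →* H)
    {A A' : Subgroup G} (h : A ≤ A') : im ψ A ≤ im ψ A' := by
  rintro s ⟨g, hg, rfl⟩
  exact ⟨g, h hg, rfl⟩

theorem Cw_anti {G : Type*} [Group G] {W A A' : Subgroup G} (h : A ≤ A') :
    Cw W A' ≤ Cw W A := by
  intro v hv
  rw [mem_Cw] at hv ⊢
  exact ⟨hv.1, fun a ha => hv.2 a (h ha)⟩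

end X_TJ3k

open X_TJ3k in
theorem s_TJ3k (hLAT : Sol.Stmt_LAT) (hKGT : Stmt_KGT) (hKCE : Stmt_KCE) (hLBI : Stmt_LBIk)
    (hBW4 : Stmt_BW4) (hTJ2 : Stmt_TJ2k) : Stmt_TJ3k := by
  intro V G _ _ Γ d p _ h x R U _ _ ψ 𝒦 hVE hMd y hxy
  have hloc := h.loc
  obtain ⟨hFm, hWcj, hScj, hWS, h4⟩ := hBW4 V G Γ d p h
  obtain ⟨hSB, hBK, hJB, hCwJ, hAQ, hBnK, hct⟩ := h4 x y hxy
  obtain ⟨hA, hJ⟩ := hTJ2 V G Γ d p h x R U ψ 𝒦 hVE hMd y hxy
  have hBQ : Bp (G := G) p x y ≤ Qe p x y := inf_le_left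
  have hQst : (Qe p x y : Subgroup G) ≤ stabilizer G x := Qe_le_st x y
  have hSQv : Sp (G := G) Γ p x ≤ Qv Γ p x := inf_le_left
  have hSR : Sp (G := G) Γ p x ≤ R := hSQv.trans hVE.QR
  have hWst : Wp (G := G) Γ p x ≤ stabilizer G x :=
    (hWS x).trans (hSQv.trans (Qv_le_st x))
  have hWf : Finite (Wp (G := G) Γ p x) := hloc.fin_le hWst
  have hJS : Jt p (Qe p x y) ⊔ Sp Γ p x ≤ Bp (G := G) p x y := sup_le hJB hSB
  have hJSf : Finite (Jt p (Qe p x y) ⊔ Sp Γ p x : Subgroup G) :=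
    hloc.fin_le (hJS.trans (hBQ.trans hQst))
  have hBR : Bp (G := G) p x y ⊓ R ≤ Sp Γ p x := by
    intro g hg
    have h1 : g ∈ K Γ x := hVE.RK y hxy ⟨hg.2, Qe_le x y (hBQ hg.1)⟩
    exact hBK ⟨hg.1, h1⟩
  -- the image of `J ⊔ S`
  have hSps : ∀ g : stabilizer G x, g.1 ∈ Sp (G := G) Γ p x → ψ g = 1 := fun g hg =>
    (hVE.ker g).mp (hSR hg)
  have himJS : im ψ (Jt p (Qe p x y) ⊔ Sp Γ p x) ≤ Pq p (im ψ (Qe p x y)) := by
    have h1 : Jt p (Qe p x y) ⊔ Sp Γ p x ≤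
        ((Pq p (im ψ (Qe p x y))).comap ψ).map (stabilizer G x).subtype := by
      refine sup_le ?_ ?_
      · intro g hg
        have hgs : g ∈ stabilizer G x := hQst (hBQ (hJB hg))
        refine ⟨⟨g, hgs⟩, ?_, rfl⟩
        show ψ ⟨g, hgs⟩ ∈ Pq p (im ψ (Qe p x y))
        rw [← hJ]
        exact ⟨⟨g, hgs⟩, hg, rfl⟩
      · intro g hg
        have hgs : g ∈ stabilizer G x := Qv_le_st x (hSQv hg)
        refine ⟨⟨g, hgs⟩, ?_, rfl⟩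
        show ψ ⟨g, hgs⟩ ∈ Pq p (im ψ (Qe p x y))
        rw [hSps ⟨g, hgs⟩ hg]
        exact one_mem _
    rintro s ⟨g, hg, rfl⟩
    obtain ⟨g', hg', hgg⟩ := h1 hg
    have h2 : g' = g := Subtype.ext hgg
    rw [← h2]
    exact hg'
  have hel : El p (Pq p (im ψ (Qe p x y))) :=
    (hKGT U p ψ.range 𝒦 (im ψ (Qe p x y)) (im ψ (B x y)) hVE.ke (hVE.kq y hxy)
      (Tq p (im ψ (Qe p x y))) (fun _ hs => hs)).1
  -- the basic inequality
  have hLB : ∀ P : Subgroup G, Sp Γ p x ≤ P → P ≤ Jt p (Qe p x y) ⊔ Sp Γ p x →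
      Nat.card P * Nat.card (Cw (Wp Γ p x) P) ≤
        Nat.card (Wp (G := G) Γ p x) * Nat.card (Sp (G := G) Γ p x) ∧
      (Nat.card (Wp (G := G) Γ p x) * Nat.card (Sp (G := G) Γ p x) ≤
        Nat.card P * Nat.card (Cw (Wp Γ p x) P) → im ψ P = Pq p (im ψ P) ∧
        Nat.card (Wp (G := G) Γ p x) * Nat.card (FxU (im ψ P)) ≤
          Nat.card U * Nat.card (Cw (Wp Γ p x) P)) := by
    intro P hSP hPJ
    refine hLBI V G Γ d p hloc x (Wp Γ p x) R U ψ 𝒦 hVE hMd hWf y hxy (Sp Γ p x) P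
      hSR hSP ?_ (hPJ.trans (hJS.trans hBQ)) ?_
    · intro g hg
      exact hBR ⟨hJS (hPJ hg.1), hg.2⟩
    · exact El_mono ((im_mono ψ hPJ).trans himJS) hel
  -- `S` is tight
  have hTS : Tg (Wp Γ p x) (Sp Γ p x) (Sp (G := G) Γ p x) := by
    have h1 : Cw (Wp (G := G) Γ p x) (Sp Γ p x) = Wp Γ p x := by
      refine le_antisymm inf_le_left ?_
      intro v hv
      rw [mem_Cw]
      refine ⟨hv, fun s hs => ?_⟩
      have h2 : s ∈ Cw (Qv Γ p x) (Wp (G := G) Γ p x) := hs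
      rw [mem_Cw] at h2
      exact (h2.2 v hv).symm
    unfold Tg
    rw [h1]
    exact Nat.mul_comm _ _
  -- a maximal tight group
  obtain ⟨P, hP⟩ := Set.Finite.exists_maximal
    (s := {P : Subgroup G | Sp Γ p x ≤ P ∧ P ≤ Jt p (Qe p x y) ⊔ Sp Γ p x ∧
      Tg (Wp Γ p x) (Sp Γ p x) P})
    ((finite_Iic (Jt p (Qe p x y) ⊔ Sp Γ p x : Subgroup G)).subset (fun P hP => hP.2.1))
    ⟨Sp Γ p x, le_refl _, le_sup_right, hTS⟩
  obtain ⟨⟨hSP, hPJ, hTP⟩, hPmax⟩ := hP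
  have hAP : ∀ A : Subgroup G, Am p (Qe p x y) A → A ≤ P := by
    intro A hAm
    have hAJ : A ≤ Jt p (Qe p x y) :=
      le_iSup (fun A : {A : Subgroup G // Am p (Qe p x y) A} => A.1) ⟨A, hAm⟩
    have hTA := (hA A hAm).2.2
    have hASJ : A ⊔ Sp Γ p x ≤ Jt p (Qe p x y) ⊔ Sp Γ p x := sup_le_sup_right hAJ _
    have hsup : P ⊔ (A ⊔ Sp Γ p x) ≤ Jt p (Qe p x y) ⊔ Sp Γ p x := sup_le hPJ hASJ
    have hfin : Finite (P ⊔ (A ⊔ Sp Γ p x) : Subgroup G) :=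
      hloc.fin_le (hsup.trans (hJS.trans (hBQ.trans hQst)))
    have h5 := ((hLAT G).2 (Wp Γ p x) (Sp Γ p x) P (A ⊔ Sp Γ p x) hWf hfin hTP hTA
      (hLB _ (hSP.trans le_sup_left) hsup).1
      (hLB _ (le_inf hSP le_sup_right) (inf_le_left.trans hPJ)).1).1
    have h6 : P ⊔ (A ⊔ Sp Γ p x) ≤ P :=
      hPmax ⟨hSP.trans le_sup_left, hsup, h5⟩ le_sup_left
    exact (le_sup_left.trans le_sup_right).trans h6
  have hJP : Jt p (Qe p x y) ≤ P := iSup_le (fun A => hAP A.1 A.2)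
  have hPe : P = Jt p (Qe p x y) ⊔ Sp Γ p x := le_antisymm hPJ (sup_le hJP hSP)
  have hTJ : Tg (Wp Γ p x) (Sp Γ p x) (Jt p (Qe p x y) ⊔ Sp Γ p x : Subgroup G) := by
    rw [← hPe]
    exact hTP
  have hineq := ((hLB _ le_sup_right (le_refl (Jt p (Qe p x y) ⊔ Sp Γ p x))).2 hTJ.ge).2
  -- (1)
  have hB : Bp (G := G) p x y = Jt p (Qe p x y) ⊔ Sp Γ p x := by
    refine le_antisymm ?_ hJS
    intro b hb
    have hbQ : b ∈ Qe p x y := hBQ hb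
    have hbs : b ∈ stabilizer G x := hQst hbQ
    have hbZ : ∀ z ∈ Zp p x y, z * b = b * z := by
      have h2 : b ∈ Cw (Qe p x y) (Zp p x y) := hb
      rw [mem_Cw] at h2
      exact h2.2
    have h7 : ∀ u ∈ FxU (Pq p (im ψ (Qe p x y))),
        (ψ ⟨b, hbs⟩ : AddMonoid.End U) u = u := by
      intro u hu
      refine hMd.tl (Jt p (Qe p x y) ⊔ Sp Γ p x) (hJS.trans (hBQ.trans hQst)) hineq ⟨b, hbs⟩ ?_
        u (FxU_anti himJS hu)
      intro v hv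
      have h8 : v ∈ Zp p x y := by
        rw [← hCwJ]
        exact Cw_anti le_sup_left hv
      exact (hbZ v h8).symm
    have h9 : ψ ⟨b, hbs⟩ ∈ Pq p (im ψ (Qe p x y)) :=
      hKCE U p ψ.range 𝒦 (im ψ (Qe p x y)) (im ψ (B x y)) hVE.ke (hVE.kq y hxy)
        (ψ ⟨b, hbs⟩) ⟨⟨b, hbs⟩, hbQ, rfl⟩ h7
    rw [← hJ] at h9
    obtain ⟨j, hjJ, hj⟩ := h9
    have hjJ' : j.1 ∈ Jt p (Qe p x y) := hjJ
    have h10 : ((j⁻¹ * ⟨b, hbs⟩ : stabilizer G x) : G) ∈ R := by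
      rw [hVE.ker, map_mul, map_inv, hj]
      exact inv_mul_cancel _
    have h11 : j.1⁻¹ * b ∈ Sp (G := G) Γ p x :=
      hBR ⟨Subgroup.mul_mem _ (Subgroup.inv_mem _ (hJB hjJ')) hb, h10⟩
    have h12 : b = j.1 * (j.1⁻¹ * b) := by group
    rw [h12]
    exact mul_mem (Subgroup.mem_sup_left hjJ') (Subgroup.mem_sup_right h11)
  refine ⟨hB, ?_, ?_⟩
  · rw [hB]
    refine le_antisymm himJS ?_
    rw [← hJ]
    exact im_mono ψ le_sup_left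
  · rw [hB]
    exact hTJ

end Pool.Agent.Work.MP_6d7bb4.h65u
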