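import Pool.Agent.Work.MP_6d7bb4_G.InterfaceM

set_option autoImplicit false
set_option linter.unusedSectionVars false

/-! # Block TR2: a transvection and two commuting perfect groups (helper87) -/

namespace Pool.Agent.Work.MP_6d7bb4.h65u

open MulAction
open Pool.Agent.Work.MP_6d7bb4.helper94 Pool.Agent.Work.MP_6d7bb4.helper94.Sol
open Tv Ff Ps
open scoped commutatorElement

namespace X_TR2

/-- a group is not the union of two proper subgroups -/
theorem uni {G : Type*} [Group G] {L A B : Subgroup G} (h : ∀ y ∈ L, y ∈ A ∨ y ∈ B) :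
    L ≤ A ∨ L ≤ B := by
  by_contra hcon
  rw [not_or, SetLike.not_le_iff_exists, SetLike.not_le_iff_exists] at hcon
  obtain ⟨⟨a, ha, ha'⟩, b, hb, hb'⟩ := hcon
  have haB : a ∈ B := (h a ha).resolve_left ha'
  have hbA : b ∈ A := (h b hb).resolve_right hb'
  rcases h (a * b) (L.mul_mem ha hb) with h1 | h1
  · exact ha' ((A.mul_mem_cancel_right hbA).1 h1)
  · exact hb' ((B.mul_mem_cancel_left haB).1 h1)

section
variable {U : Type*} [AddCommGroup U] {p : ℕ} [Fact p.Prime] [Module (ZMod p) U]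

/-- functionals with comparable kernels -/
theorem prop_of_ker (f g : U →+ ZMod p) (h : ∀ v, g v = 0 → f v = 0) :
    ∃ c : ZMod p, ∀ v, f v = c * g v := by
  by_cases hg : ∀ v, g v = 0
  · exact ⟨0, fun v => by rw [h v (hg v), zero_mul]⟩
  · push Not at hg
    obtain ⟨v0, hv0⟩ := hg
    refine ⟨f v0 * (g v0)⁻¹, fun v => ?_⟩
    have h1 : g (v - (g v * (g v0)⁻¹) • v0) = 0 := by
      rw [map_sub, f_smul, mul_assoc, inv_mul_cancel₀ hv0, mul_one, sub_self]
    have h2 := h _ h1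
    rw [map_sub, f_smul, sub_eq_zero] at h2
    rw [h2]
    ring

/-- the stabiliser of the line of `e` -/
def LA (p : ℕ) [Fact p.Prime] [Module (ZMod p) U] (e : U) (he : e ≠ 0) : Subgroup (Un U) where
  carrier := {y | ∃ c : ZMod p, (y : AddMonoid.End U) e = c • e}
  mul_mem' := by
    rintro x y ⟨c, hc⟩ ⟨d, hd⟩
    refine ⟨d * c, ?_⟩
    rw [mul_ap, hd, smul_map, hc, mul_smul]
  one_mem' := ⟨1, by rw [one_smul]; rfl⟩
  inv_mem' := by
    rintro x ⟨c, hc⟩
    have h1 : e = c • ((x⁻¹ : Un U) : AddMonoid.End U) e := by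
      rw [← smul_map, ← hc, inv_ap]
    have hc0 : c ≠ 0 := by
      rintro rfl
      rw [zero_smul] at h1
      exact he h1
    refine ⟨c⁻¹, ?_⟩
    calc ((x⁻¹ : Un U) : AddMonoid.End U) e = c⁻¹ • (c • ((x⁻¹ : Un U) : AddMonoid.End U) e) := by
          rw [← mul_smul, inv_mul_cancel₀ hc0, one_smul]
      _ = c⁻¹ • e := by rw [← h1]

/-- the stabiliser of the kernel of `f` -/
def LB (f : U →+ ZMod p) (hf : ∃ v, f v ≠ 0) : Subgroup (Un U) where
  carrier := {y | ∃ c : ZMod p, ∀ v, f ((y : AddMonoid.End U) v) = c * f v}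
  mul_mem' := by
    rintro x y ⟨c, hc⟩ ⟨d, hd⟩
    refine ⟨c * d, fun v => ?_⟩
    rw [mul_ap, hc, hd, mul_assoc]
  one_mem' := ⟨1, fun v => by rw [one_mul]; rfl⟩
  inv_mem' := by
    rintro x ⟨c, hc⟩
    have h1 : ∀ v, f v = c * f (((x⁻¹ : Un U) : AddMonoid.End U) v) := fun v => by
      rw [← hc, ap_inv]
    have hc0 : c ≠ 0 := by
      rintro rfl
      obtain ⟨v, hv⟩ := hf
      apply hv
      rw [h1 v, zero_mul]
    refine ⟨c⁻¹, fun v => ?_⟩
    rw [h1 v, ← mul_assoc, inv_mul_cancel₀ hc0, one_mul]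

theorem mem_LA {e : U} {he : e ≠ 0} {y : Un U} :
    y ∈ LA p e he ↔ ∃ c : ZMod p, (y : AddMonoid.End U) e = c • e := Iff.rfl

theorem mem_LB {f : U →+ ZMod p} {hf : ∃ v, f v ≠ 0} {y : Un U} :
    y ∈ LB f hf ↔ ∃ c : ZMod p, ∀ v, f ((y : AddMonoid.End U) v) = c * f v := Iff.rfl

variable {K L : Subgroup (Un U)} {s : Un U} {e : U} {f : U →+ ZMod p}

theorem comm_ap {x y : Un U} (h : x * y = y * x) (v : U) :
    (x : AddMonoid.End U) ((y : AddMonoid.End U) v) =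
      (y : AddMonoid.End U) ((x : AddMonoid.End U) v) := by
  rw [← mul_ap, ← mul_ap, h]

/-- the span of `e` and `y e` contains all `x e` -/
theorem key (hs : TV s e f) (hKL : ∀ k ∈ K, ∀ l ∈ L, k * l = l * k) (hcL : cj s L = L)
    {y : Un U} (hy : y ∈ L) (hyB : y ∉ LB f hs.f0) {x : Un U} (hx : x ∈ K) :
    ∃ a b : ZMod p, (x : AddMonoid.End U) e = a • e + b • (y : AddMonoid.End U) e := by
  -- the vector `v`
  obtain ⟨v, hv1, hv2⟩ : ∃ v, f (((y⁻¹ : Un U) : AddMonoid.End U) v) = 0 ∧ f v ≠ 0 := by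
    by_contra hcon
    push Not at hcon
    obtain ⟨c, hc⟩ := prop_of_ker f (f.comp ((y⁻¹ : Un U) : AddMonoid.End U)) hcon
    apply hyB
    refine mem_LB.2 ⟨c, fun v => ?_⟩
    rw [hc ((y : AddMonoid.End U) v)]
    show c * f (((y⁻¹ : Un U) : AddMonoid.End U) ((y : AddMonoid.End U) v)) = c * f v
    rw [inv_ap]
  obtain ⟨w, hw⟩ : ∃ w : Un U, w = y * s * y⁻¹ * s⁻¹ := ⟨_, rfl⟩
  have hwL : w ∈ L := by
    rw [hw]
    have h1 : s * y⁻¹ * s⁻¹ ∈ L := by
      rw [← hcL]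
      exact conj_mem_cj (L.inv_mem hy)
    have h2 : y * s * y⁻¹ * s⁻¹ = y * (s * y⁻¹ * s⁻¹) := by group
    rw [h2]
    exact L.mul_mem hy h1
  have hws : ∀ v, (w : AddMonoid.End U) ((s : AddMonoid.End U) v) - (s : AddMonoid.End U) v =
      f (((y⁻¹ : Un U) : AddMonoid.End U) v) • (y : AddMonoid.End U) e - f v • e := by
    intro v
    have h1 : (w : AddMonoid.End U) ((s : AddMonoid.End U) v) =
        ((y * s * y⁻¹ : Un U) : AddMonoid.End U) v := by
      rw [hw, mul_ap, inv_ap]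
    rw [h1, (hs.conj y).ap v, hs.ap v]
    show v + f (((y⁻¹ : Un U) : AddMonoid.End U) v) • (y : AddMonoid.End U) e - (v + f v • e) = _
    abel
  have h1 := hws v
  rw [hv1, zero_smul, zero_sub] at h1
  -- `e = - (f v)⁻¹ (w u - u)`
  have h2 : e = (-(f v)⁻¹) • ((w : AddMonoid.End U) ((s : AddMonoid.End U) v) -
      (s : AddMonoid.End U) v) := by
    rw [h1, smul_neg, neg_smul, neg_neg, ← mul_smul, inv_mul_cancel₀ hv2, one_smul]
  obtain ⟨v', hv'⟩ : ∃ v', v' = ((s⁻¹ : Un U) : AddMonoid.End U)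
      ((x : AddMonoid.End U) ((s : AddMonoid.End U) v)) := ⟨_, rfl⟩
  have h3 : (s : AddMonoid.End U) v' = (x : AddMonoid.End U) ((s : AddMonoid.End U) v) := by
    rw [hv', ap_inv]
  have h4 : (x : AddMonoid.End U) e = (-(f v)⁻¹) • ((w : AddMonoid.End U)
      ((s : AddMonoid.End U) v') - (s : AddMonoid.End U) v') := by
    rw [h3, ← comm_ap (hKL x hx w hwL), ← map_sub, ← smul_map, ← h2]
  rw [h4, hws v']
  refine ⟨(f v)⁻¹ * f v', -(f v)⁻¹ * f (((y⁻¹ : Un U) : AddMonoid.End U) v'), ?_⟩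
  rw [smul_sub, ← mul_smul, ← mul_smul, neg_mul, neg_mul, neg_smul, neg_smul]
  abel

end

end X_TR2

open X_TR2 in
theorem s_TR2 (hFAB : Stmt_FAB) : Stmt_TR2 := by
  intro U _ p _ _ _ K L s e f hs hK hL hKL hcK hcL hKq hLq
  by_contra hcon
  rw [not_or] at hcon
  obtain ⟨hK0, hL0⟩ := hcon
  obtain ⟨hKA, -⟩ := hFAB U p K s e f hs hK hKq
  obtain ⟨hLA, hLB⟩ := hFAB U p L s e f hs hL hLq
  -- `x0`
  obtain ⟨x0, hx0, hx0e⟩ : ∃ x ∈ K, ∀ c : ZMod p, (x : AddMonoid.End U) e ≠ c • e := by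
    by_contra hcon
    push Not at hcon
    exact hK0 (hKA hcon)
  obtain ⟨W, hW⟩ : ∃ W : Submodule (ZMod p) U,
      W = Submodule.span (ZMod p) {e, (x0 : AddMonoid.End U) e} := ⟨_, rfl⟩
  have hWm : ∀ v, v ∈ W ↔ ∃ a b : ZMod p, a • e + b • (x0 : AddMonoid.End U) e = v := by
    intro v
    rw [hW]
    exact Submodule.mem_span_pair
  have heW : e ∈ W := (hWm e).2 ⟨1, 0, by rw [one_smul, zero_smul, add_zero]⟩
  have hxW : (x0 : AddMonoid.End U) e ∈ W := (hWm _).2 ⟨0, 1, by rw [one_smul, zero_smul, zero_add]⟩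
  -- elements outside of `LB`
  have hgood1 : ∀ y ∈ L, y ∉ LB f hs.f0 → (y : AddMonoid.End U) e ∈ W := by
    intro y hy hyB
    obtain ⟨a, b, hab⟩ := key hs hKL hcL hy hyB hx0
    have hb : b ≠ 0 := by
      rintro rfl
      rw [zero_smul, add_zero] at hab
      exact hx0e a hab
    have h1 : (y : AddMonoid.End U) e = b⁻¹ • ((x0 : AddMonoid.End U) e - a • e) := by
      rw [hab, add_sub_cancel_left, ← mul_smul, inv_mul_cancel₀ hb, one_smul]
    rw [h1]
    exact W.smul_mem _ (W.sub_mem hxW (W.smul_mem _ heW))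
  -- there is an element outside of `LB`
  obtain ⟨y0, hy0, hy0B⟩ : ∃ y ∈ L, y ∉ LB f hs.f0 := by
    by_contra hcon
    push Not at hcon
    exact hL0 (hLB fun x hx => mem_LB.1 (hcon x hx))
  have hxeW : ∀ x ∈ K, (x : AddMonoid.End U) e ∈ W := by
    intro x hx
    obtain ⟨a, b, hab⟩ := key hs hKL hcL hy0 hy0B hx
    rw [hab]
    exact W.add_mem (W.smul_mem _ heW) (W.smul_mem _ (hgood1 y0 hy0 hy0B))
  -- `x0` leaves `W` invariant
  have hx0W : ∀ v ∈ W, (x0 : AddMonoid.End U) v ∈ W := by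
    intro v hv
    obtain ⟨a, b, rfl⟩ := (hWm v).1 hv
    rw [map_add, smul_map, smul_map, ← mul_ap]
    exact W.add_mem (W.smul_mem _ hxW) (W.smul_mem _ (hxeW _ (K.mul_mem hx0 hx0)))
  have hyW : ∀ y ∈ L, (y : AddMonoid.End U) e ∈ W → ∀ v ∈ W, (y : AddMonoid.End U) v ∈ W := by
    intro y hy hye v hv
    obtain ⟨a, b, rfl⟩ := (hWm v).1 hv
    rw [map_add, smul_map, smul_map, ← comm_ap (hKL x0 hx0 y hy)]
    exact W.add_mem (W.smul_mem _ hye) (W.smul_mem _ (hx0W _ hye))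
  -- the subgroup `L2`
  obtain ⟨L2, hL2⟩ : ∃ L2 : Subgroup (Un U), ∀ y, y ∈ L2 ↔ y ∈ L ∧
      (y : AddMonoid.End U) e ∈ W ∧ ((y⁻¹ : Un U) : AddMonoid.End U) e ∈ W := by
    refine ⟨{ carrier := {y | y ∈ L ∧ (y : AddMonoid.End U) e ∈ W ∧
                ((y⁻¹ : Un U) : AddMonoid.End U) e ∈ W}
              mul_mem' := ?_
              one_mem' := ?_
              inv_mem' := ?_ }, fun y => Iff.rfl⟩
    · rintro x y ⟨h1, h2, h3⟩ ⟨h4, h5, h6⟩
      refine ⟨L.mul_mem h1 h4, ?_, ?_⟩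
      · rw [mul_ap]
        exact hyW x h1 h2 _ h5
      · rw [mul_inv_rev, mul_ap]
        exact hyW _ (L.inv_mem h4) h6 _ h3
    · refine ⟨L.one_mem, heW, ?_⟩
      rw [inv_one]
      exact heW
    · rintro x ⟨h1, h2, h3⟩
      refine ⟨L.inv_mem h1, h3, ?_⟩
      rw [inv_inv]
      exact h2
  have hLL2 : L ≤ L2 := by
    rcases uni (L := L) (A := L2) (B := LB f hs.f0) (fun y hy => by
      by_cases hyB : y ∈ LB f hs.f0
      · exact Or.inr hyB
      · refine Or.inl ((hL2 y).2 ⟨hy, hgood1 y hy hyB, hgood1 _ (L.inv_mem hy) fun h => hyB ?_⟩)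
        exact (Subgroup.inv_mem_iff _).1 h) with h | h
    · exact h
    · exact absurd (hLB fun x hx => mem_LB.1 (h hx)) hL0
  have hLW : ∀ y ∈ L, (y : AddMonoid.End U) e ∈ W := fun y hy => ((hL2 y).1 (hLL2 hy)).2.1
  -- commutation on `e`
  have hsw : ∀ y1 ∈ L, ∀ y2 ∈ L, ((y1 * y2 : Un U) : AddMonoid.End U) e =
      ((y2 * y1 : Un U) : AddMonoid.End U) e := by
    intro y1 h1 y2 h2
    obtain ⟨a1, b1, e1⟩ := (hWm _).1 (hLW y1 h1)
    obtain ⟨a2, b2, e2⟩ := (hWm _).1 (hLW y2 h2)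
    rw [mul_ap, mul_ap]
    have f1 : (y1 : AddMonoid.End U) ((y2 : AddMonoid.End U) e) =
        a2 • (y1 : AddMonoid.End U) e +
          b2 • (x0 : AddMonoid.End U) ((y1 : AddMonoid.End U) e) := by
      rw [← e2, map_add, smul_map, smul_map, ← comm_ap (hKL x0 hx0 y1 h1)]
    have f2 : (y2 : AddMonoid.End U) ((y1 : AddMonoid.End U) e) =
        a1 • (y2 : AddMonoid.End U) e +
          b1 • (x0 : AddMonoid.End U) ((y2 : AddMonoid.End U) e) := by
      rw [← e1, map_add, smul_map, smul_map, ← comm_ap (hKL x0 hx0 y2 h2)]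
    rw [f1, f2, ← e1, ← e2, map_add, map_add, smul_map, smul_map, smul_map, smul_map]
    simp only [smul_add, ← mul_smul]
    rw [mul_comm a1 a2, mul_comm b1 b2, mul_comm b1 a2, mul_comm a1 b2]
    abel
  -- the stabiliser of `e`
  obtain ⟨L3, hL3⟩ : ∃ L3 : Subgroup (Un U), ∀ y, y ∈ L3 ↔ (y : AddMonoid.End U) e = e := by
    refine ⟨{ carrier := {y | (y : AddMonoid.End U) e = e}
              mul_mem' := ?_
              one_mem' := rfl
              inv_mem' := ?_ }, fun y => Iff.rfl⟩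
    · intro x y h1 h2
      show ((x * y : Un U) : AddMonoid.End U) e = e
      rw [mul_ap, show (y : AddMonoid.End U) e = e from h2, show (x : AddMonoid.End U) e = e from h1]
    · intro x h1
      show ((x⁻¹ : Un U) : AddMonoid.End U) e = e
      have h2 : (x : AddMonoid.End U) e = e := h1
      calc ((x⁻¹ : Un U) : AddMonoid.End U) e =
          ((x⁻¹ : Un U) : AddMonoid.End U) ((x : AddMonoid.End U) e) := by rw [h2]
        _ = e := inv_ap x e
  have hLL3 : L ≤ L3 := by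
    rw [← hL, Subgroup.commutator_le]
    intro y1 h1 y2 h2
    rw [hL3]
    have e1 : ∀ z ∈ L, ((y1 * y2 * z : Un U) : AddMonoid.End U) e =
        ((y2 * y1 * z : Un U) : AddMonoid.End U) e := by
      intro z hz
      rw [hsw (y1 * y2) (L.mul_mem h1 h2) z hz, hsw (y2 * y1) (L.mul_mem h2 h1) z hz,
        mul_ap z (y1 * y2), mul_ap z (y2 * y1), hsw y1 h1 y2 h2]
    have e2 := e1 ((y2 * y1)⁻¹) (L.inv_mem (L.mul_mem h2 h1))
    rw [mul_inv_cancel] at e2
    have e3 : ⁅y1, y2⁆ = y1 * y2 * (y2 * y1)⁻¹ := by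
      rw [commutatorElement_def]
      group
    rw [e3, e2]
    rfl
  exact hL0 (hLA fun x hx => ⟨1, by rw [one_smul]; exact (hL3 x).1 (hLL3 hx)⟩)

end Pool.Agent.Work.MP_6d7bb4.h65u
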