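import Pool.Agent.Work.MP_6d7bb4_G.InterfaceM

set_option autoImplicit false
set_option linter.unusedSectionVars false

/-! # Block TR3: two commuting perfect groups and an element acting as a transvection -/

namespace Pool.Agent.Work.MP_6d7bb4.h65u

open MulAction
open Pool.Agent.Work.MP_6d7bb4.helper94 Pool.Agent.Work.MP_6d7bb4.helper94.Sol
open Tv Ff Ps

namespace X_TR3

theorem map_Cq {G G' : Type*} [Group G] [Group G'] (φ : G →* G') (K : Subgroup G) (s : G) :
    (Cq K s).map φ = Cq (K.map φ) (φ s) := by
  unfold Cq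
  rw [MonoidHom.map_closure]
  congr 1
  ext y
  constructor
  · rintro ⟨x, ⟨k, hk, rfl⟩, rfl⟩
    exact ⟨φ k, ⟨k, hk, rfl⟩, by simp⟩
  · rintro ⟨_, ⟨k, hk, rfl⟩, rfl⟩
    exact ⟨k * s * k⁻¹ * s⁻¹, ⟨k, hk, rfl⟩, by simp⟩

theorem map_cj {G G' : Type*} [Group G] [Group G'] (φ : G →* G') (K : Subgroup G) (s : G)
    (h : cj s K = K) : cj (φ s) (K.map φ) = K.map φ := by
  ext y
  rw [mem_cj]
  constructor
  · rintro ⟨k, hk, he⟩
    have h1 : s * k * s⁻¹ ∈ K := by
      have h2 := conj_mem_cj (g := s) hk
      rwa [h] at h2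
    refine ⟨s * k * s⁻¹, h1, ?_⟩
    rw [map_mul, map_mul, map_inv, he]
    group
  · rintro ⟨k, hk, rfl⟩
    have h1 : s⁻¹ * k * s ∈ K := by
      rw [← mem_cj, h]
      exact hk
    exact ⟨_, h1, by simp⟩

theorem map_le {G G' : Type*} [Group G] [Group G'] (φ : G →* G') (K : Subgroup G) (s : G)
    (h : K ≤ Cq K s) : K.map φ ≤ Cq (K.map φ) (φ s) := by
  rw [← map_Cq]
  exact Subgroup.map_mono h

section basic

variable {G : Type} [Group G] {V : Type} [AddCommGroup V] (σ : G →* AddMonoid.End V)

theorem mul (x y : G) (v : V) : σ (x * y) v = σ x (σ y v) := by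
  rw [map_mul]
  rfl

theorem one (v : V) : σ 1 v = v := by
  rw [map_one]
  rfl

theorem inv (x : G) (v : V) : σ x⁻¹ (σ x v) = v := by
  rw [← mul, inv_mul_cancel, one]

theorem zs (x : G) (n : ℤ) (v : V) : σ x (n • v) = n • σ x v := map_zsmul _ _ _

theorem inv_fix {x : G} {c : V} (h : σ x c = c) : σ x⁻¹ c = c := by
  have h1 := inv σ x c
  rwa [h] at h1

/-- the stabiliser of a vector -/
def stab (c : V) : Subgroup G where
  carrier := {g | σ g c = c}
  one_mem' := one σ c
  mul_mem' := by
    intro x y hx hy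
    show σ (x * y) c = c
    have hx' : σ x c = c := hx
    have hy' : σ y c = c := hy
    rw [mul, hy', hx']
  inv_mem' := by
    intro x hx
    exact inv_fix σ hx

/-- an element of order `p` with large fixed points is a transvection -/
theorem trv (p : ℕ) (hp : p.Prime) (a : G) (hV : ∀ v : V, p • v = 0) (hap : a ^ p = 1)
    (hidx : (FixedBy σ (Subgroup.zpowers a)).index ≤ p) (hF : Finite V) :
    (∀ v, σ a (σ a v - v) = σ a v - v) := by
  have _ := Fact.mk hp
  by_cases hH : ∀ v, σ a v = v
  · intro v
    exact hH _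
  · push Not at hH
    obtain ⟨v0, hv0⟩ := hH
    set c : V := σ a v0 - v0 with hcdef
    have hc : c ≠ 0 := sub_ne_zero.mpr hv0
    have hpc : p • c = 0 := hV c
    have hord : addOrderOf c = p := addOrderOf_eq_prime hpc hc
    let f : V →+ V := AddMonoidHom.mk' (fun v => σ a v - v) (by
      intro u v
      rw [map_add]
      abel)
    have hfv : ∀ v, f v = σ a v - v := fun v => rfl
    have hker : f.ker = FixedBy σ (Subgroup.zpowers a) := by
      ext v
      rw [AddMonoidHom.mem_ker, hfv, sub_eq_zero]
      constructor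
      · intro h g hg
        have h1 : Subgroup.zpowers a ≤ stab σ v := by
          rw [Subgroup.zpowers_le]
          exact h
        exact h1 hg
      · intro h
        exact h a (Subgroup.mem_zpowers a)
    have hcard : Nat.card f.range ≤ p := by
      rw [← AddSubgroup.index_ker, hker]
      exact hidx
    have hrange : AddSubgroup.zmultiples c = f.range := by
      apply AddSubgroup.eq_of_le_of_card_ge
      · rw [AddSubgroup.zmultiples_le]
        exact ⟨v0, hfv v0⟩
      · rw [Nat.card_zmultiples, hord]
        exact hcard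
    have ha : ∀ v, ∃ n : ℤ, σ a v - v = n • c := by
      intro v
      have h1 : f v ∈ AddSubgroup.zmultiples c := by
        rw [hrange]
        exact ⟨v, rfl⟩
      obtain ⟨n, hn⟩ := AddSubgroup.mem_zmultiples_iff.mp h1
      refine ⟨n, ?_⟩
      rw [hn, hfv]
    have hac : σ a c = c := by
      obtain ⟨n, hn⟩ := ha c
      have h1 : σ a c = (1 + n) • c := by
        rw [add_smul, one_smul, ← hn]
        abel
      have h2 : ∀ k : ℕ, σ (a ^ k) c = ((1 + n) ^ k) • c := by
        intro k
        induction k with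
        | zero => rw [pow_zero, pow_zero, one, one_smul]
        | succ k ih => rw [pow_succ, mul, h1, zs, ih, smul_smul, pow_succ']
      have h3 := h2 p
      rw [hap, one] at h3
      have h4 : ((1 + n) ^ p - 1) • c = 0 := by
        rw [sub_smul, one_smul, ← h3, sub_self]
      have h5 : (p : ℤ) ∣ (1 + n) ^ p - 1 := by
        have h5' := addOrderOf_dvd_iff_zsmul_eq_zero.mpr h4
        rwa [hord] at h5'
      have h6 : (p : ℤ) ∣ n := by
        rw [← ZMod.intCast_zmod_eq_zero_iff_dvd] at h5 ⊢
        push_cast at h5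
        rw [ZMod.pow_card, add_sub_cancel_left] at h5
        exact h5
      have h7 : n • c = 0 := by
        rw [← addOrderOf_dvd_iff_zsmul_eq_zero, hord]
        exact h6
      rw [h7] at hn
      exact sub_eq_zero.mp hn
    intro v
    obtain ⟨n, hn⟩ := ha v
    rw [hn, zs, hac]

end basic

end X_TR3

open X_TR3 in
theorem s_TR3 (hTR2 : Stmt_TR2) : Stmt_TR3 := by
  intro p hpF G _ _ V _ _ σ K L s hV hK hL hKL hsK hsL hKq hLq hsp hidx
  have hp : p.Prime := hpF.out
  let _ : Module (ZMod p) V := AddCommGroup.zmodModule hV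
  let φ : G →* Un V := σ.toHomUnits
  have hφ : ∀ g v, ((φ g : Un V) : AddMonoid.End V) v = σ g v := fun g v => rfl
  have key : K.map φ = ⊥ ∨ L.map φ = ⊥ := by
    by_cases hs1 : φ s = 1
    · left
      have h1 := map_le φ K s hKq
      rw [eq_bot_iff]
      refine h1.trans ?_
      unfold Cq
      rw [Subgroup.closure_le]
      rintro y ⟨k, _, rfl⟩
      rw [hs1]
      simp
    · have h2 := trv σ p hp s hV hsp hidx inferInstance
      have hq : ((φ s : AddMonoid.End V) - 1) * ((φ s : AddMonoid.End V) - 1) = 0 := by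
        refine AddMonoidHom.ext (fun v => ?_)
        show σ s (σ s v - v) - (σ s v - v) = 0
        rw [h2, sub_self]
      have hk : ((φ s : AddMonoid.End V) - 1 : AddMonoid.End V).ker =
          FixedBy σ (Subgroup.zpowers s) := by
        ext v
        have e : v ∈ ((φ s : AddMonoid.End V) - 1 : AddMonoid.End V).ker ↔ σ s v - v = 0 := Iff.rfl
        rw [e, sub_eq_zero]
        constructor
        · intro h g hg
          have h1 : Subgroup.zpowers s ≤ stab σ v := by
            rw [Subgroup.zpowers_le]
            exact h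
          exact h1 hg
        · intro h
          exact h s (Subgroup.mem_zpowers s)
      have hr : Nat.card V ≤ p * Nat.card ((φ s : AddMonoid.End V) - 1 : AddMonoid.End V).ker := by
        rw [hk, ← AddSubgroup.index_mul_card (FixedBy σ (Subgroup.zpowers s))]
        exact Nat.mul_le_mul_right _ hidx
      obtain ⟨e, f, hT⟩ := tv_of_rank hs1 hq hr
      refine hTR2 V p inferInstance (K.map φ) (L.map φ) (φ s) e f hT ?_ ?_ ?_ (map_cj φ K s hsK)
        (map_cj φ L s hsL) (map_le φ K s hKq) (map_le φ L s hLq)
      · rw [← Subgroup.map_commutator, hK]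
      · rw [← Subgroup.map_commutator, hL]
      · rintro _ ⟨k, hk, rfl⟩ _ ⟨l, hl, rfl⟩
        rw [← map_mul, ← map_mul, hKL k hk l hl]
  rcases key with h | h
  · left
    intro k hk
    have h1 : φ k = 1 := by
      rw [← Subgroup.mem_bot, ← h]
      exact Subgroup.mem_map_of_mem φ hk
    refine AddMonoidHom.ext (fun v => ?_)
    have h2 := hφ k v
    rw [h1] at h2
    exact h2.symm
  · right
    intro k hk
    have h1 : φ k = 1 := by
      rw [← Subgroup.mem_bot, ← h]
      exact Subgroup.mem_map_of_mem φ hk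
    refine AddMonoidHom.ext (fun v => ?_)
    have h2 := hφ k v
    rw [h1] at h2
    exact h2.symm

end Pool.Agent.Work.MP_6d7bb4.h65u
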