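import Pool.Agent.Work.MP_6d7bb4_G.InterfaceV

set_option autoImplicit false
set_option linter.unusedSectionVars false

/-! # MP_6d7bb4, plan G, BLOCK VSXk: the vertex system of the Baumann system (helper18) -/

namespace Pool.Agent.Work.MP_6d7bb4.h65u

open MulAction
open Pool.Agent.Work.MP_6d7bb4.helper94 Pool.Agent.Work.MP_6d7bb4.helper94.Sol
open Tv Ff Ps

theorem s_VSXk (hFMB : Sol.Stmt_FMB) (hBW1 : Stmt_BW1) (hBW4 : Stmt_BW4) (hTJ3k : Stmt_TJ3k) :
    Stmt_VSXk := by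
  intro V G _ _ Γ d p _ hy x R U _ _ ψ 𝒦 t e f hve htv htQ hmd
  obtain ⟨-, -, -, -, bcj, -, -, -⟩ := hBW1 V G Γ d p hy
  obtain ⟨fm, -, scj, -, rest⟩ := hBW4 V G Γ d p hy
  obtain ⟨-, f2, -, -, -⟩ := hFMB V G Γ d p (Zp p) hy.loc fm
  have tj := hTJ3k V G Γ d p hy x R U ψ 𝒦 hve hmd
  have bq : ∀ y, (Bp p x y : Subgroup G) ≤ Qe p x y := fun y b hb => (mem_Cw.1 hb).1
  refine ⟨hy.loc, ?_, hmd⟩
  exact
    { ve := hve
      tv := htv
      tQ := htQ
      Wel := fm.el x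
      Wn := (f2 x).2.1
      Wf := (f2 x).2.2
      Sn := nm_of_equiv scj x
      SR := fun s hs => hve.QR (mem_Cw.1 hs).1
      SW := fun s hs v hv => ((mem_Cw.1 hs).2 v hv).symm
      BQ := fun y _ => bq y
      SB := fun y hxy => (rest x y hxy).1
      BR := fun y hxy b hb =>
        (rest x y hxy).2.1 ⟨hb.1, hve.RK y hxy ⟨hb.2, Qe_le x y (bq y hb.1)⟩⟩
      Bcj := fun g hg y _ => by
        have h1 := bcj g x y
        rw [hg] at h1
        exact h1
      BT := fun y hxy => (tj y hxy).2.1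
      tg := fun y hxy => (tj y hxy).2.2 }

end Pool.Agent.Work.MP_6d7bb4.h65u
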