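import Pool.Agent.Work.MP_6d7bb4_G.DefsA

set_option autoImplicit false
set_option linter.unusedSectionVars false

/-!
# MP_6d7bb4, plan G (product action): interface, part A: the abstract system `Sg` (helper94)

The statements of `MP_6d7bb4_S/Interface1.lean`, part A, for `Sg`. Files `B_X.lean` with `theorem s_X`.
-/

namespace Pool.Agent.Work.MP_6d7bb4.helper94.Sol

open MulAction Tv Ff Ps
open scoped commutatorElement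

/-- BLOCK BASg (uses nothing): as BAS -/
def Stmt_BASg : Prop := ∀ (V G : Type) [Group G] [MulAction G V] (Γ : SimpleGraph V) (d p : ℕ)
  [Fact p.Prime] (W S : V → Subgroup G) (Z Bm : V → V → Subgroup G), Loc G Γ d →
  Sg Γ d p W S Z Bm →
  (∀ x, W x ≤ K Γ x ∧ S x ≤ K Γ x) ∧
  (∀ x, Nm (stabilizer G x) (W x) ∧ Nm (stabilizer G x) (S x)) ∧
  (∀ x y, Γ.Adj x y → Nm (B x y) (Bm x y) ∧ Nm (B x y) (Z x y)) ∧
  (∀ x x' w' w, Lw Γ W S x x' w' w → Lw Γ W S w w' x' x) ∧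
  (∀ (g : G) x x' w' w, Lw Γ W S x x' w' w → Lw Γ W S (g • x) (g • x') (g • w') (g • w)) ∧
  (∀ x y y', Γ.Adj x y → Γ.Adj x y' → ∃ g ∈ (⨆ z : {z // Γ.Adj x z}, Bm x z.1), g • y = y')

/-- BLOCK NRMg (uses BASg): as NRM -/
def Stmt_NRMg : Prop := ∀ (V G : Type) [Group G] [MulAction G V] (Γ : SimpleGraph V) (d p : ℕ)
  [Fact p.Prime] (W S : V → Subgroup G) (Z Bm : V → V → Subgroup G), Loc G Γ d →
  Sg Γ d p W S Z Bm → ∀ x x' w' w, Lw Γ W S x x' w' w → ∀ y, Γ.Adj x y → W y ≤ S w' →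
  Nm (W w ⊔ S x) (W x ⊔ W y)

/-- BLOCK BLTg (uses BASg): as BLT -/
def Stmt_BLTg : Prop := ∀ (V G : Type) [Group G] [MulAction G V] (Γ : SimpleGraph V) (d p : ℕ)
  [Fact p.Prime] (W S : V → Subgroup G) (Z Bm : V → V → Subgroup G), Loc G Γ d →
  Sg Γ d p W S Z Bm → ∀ (x : V) (P Pc : V → Subgroup G),
  Bg Γ x (W x) (S x) (Z x) (Bm x) P Pc →
  (∀ g ∈ (⨆ z : {z // Γ.Adj x z}, Bm x z.1) ⊔ Cg x (W x), g • x = x ∧
    ∀ y, Γ.Adj x y → P (g • y) = cj g (P y) ∧ Pc (g • y) = cj g (Pc y)) ∧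
  (∀ g ∈ (⨆ z : {z // Γ.Adj x z}, P z.1) ⊔ Cg x (W x),
    g ∈ (⨆ z : {z // Γ.Adj x z}, Bm x z.1) ⊔ Cg x (W x)) ∧
  (∀ g ∈ (⨆ z : {z // Γ.Adj x z}, P z.1) ⊔ Cg x (W x), ∀ y, Γ.Adj x y → ∀ b ∈ Pc y,
    g * b * g⁻¹ * b⁻¹ ∈ Cg x (W x)) ∧
  (∀ g ∈ (⨆ z : {z // Γ.Adj x z}, P z.1) ⊔ Cg x (W x), ∀ y, Γ.Adj x y →
    Pc y ≤ Pc (g • y) ⊔ Cg x (W x)) ∧
  (∀ y y', Γ.Adj x y → Γ.Adj x y' → ∃ g ∈ (⨆ z : {z // Γ.Adj x z}, P z.1),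
    P y' ≤ P (g • y) ⊔ Cg x (W x) ∧ P (g • y) ≤ P y' ⊔ Cg x (W x))

/-- BLOCK GENg (uses BASg, BLTg): the generation argument with `Nz`.
PROOF. As GEN. `Y` is the join of the `P (g x')`, `g ∈ T`, with `Nz P (g x') x'`. If `q ∈ T` normalises
`Z x x'` then `Nz P (q g x') x'` iff `Nz P (g x') x'`, so `q` normalises `Y`. This holds for `q ∈ C` and
for `q ∈ P (g x')` if not `Nz P (g x') x'`. -/
def Stmt_GENg : Prop := ∀ (V G : Type) [Group G] [MulAction G V] (Γ : SimpleGraph V) (d p : ℕ)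
  [Fact p.Prime] (W S : V → Subgroup G) (Z Bm : V → V → Subgroup G), Loc G Γ d →
  Sg Γ d p W S Z Bm → ∀ (x x' : V) (P Pc : V → Subgroup G), Γ.Adj x x' →
  Bg Γ x (W x) (S x) (Z x) (Bm x) P Pc → ∀ D : Subgroup G, Nm (B x x') D →
  (∀ g ∈ (⨆ z : {z // Γ.Adj x z}, P z.1) ⊔ Cg x (W x), Nz (W x) (Z x) P (g • x') x' →
    Nm (P (g • x')) D) → Nm (stabilizer G x) D

/-- BLOCK EXTg (uses BASg, NRMg, BLTg, GENg): extension of a link. -/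
def Stmt_EXTg : Prop := ∀ (V G : Type) [Group G] [MulAction G V] (Γ : SimpleGraph V) (d p : ℕ)
  [Fact p.Prime] (W S : V → Subgroup G) (Z Bm : V → V → Subgroup G), Loc G Γ d →
  Sg Γ d p W S Z Bm → ∀ (x x' w' w : V), Lw Γ W S x x' w' w → ∀ P Pc : V → Subgroup G,
  Bg Γ x (W x) (S x) (Z x) (Bm x) P Pc → P x' = W w ⊔ S x →
  ∃ y, Γ.Adj x y ∧ Nz (W x) (Z x) P x' y ∧ Pc x' ≤ Pc y ⊔ Cg x (W x) ∧ ¬ W y ≤ S w'

/-- BLOCK PTWg (uses BASg, EXTg): critical paths of any length. -/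
def Stmt_PTWg : Prop := ∀ (V G : Type) [Group G] [MulAction G V] (Γ : SimpleGraph V) (d p : ℕ)
  [Fact p.Prime] (W S : V → Subgroup G) (Z Bm : V → V → Subgroup G), Loc G Γ d →
  Sg Γ d p W S Z Bm → ∀ (x0 y0 : V), Γ.Adj x0 y0 → ∃ c, Mw Γ W S c ∧
  ∀ n, ∃ s : ℕ → V, Pg Γ W S Z Bm c s n

/-- BLOCK CNVg (uses BASg): convexity. -/
def Stmt_CNVg : Prop := ∀ (V G : Type) [Group G] [MulAction G V] (Γ : SimpleGraph V) (d p : ℕ)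
  [Fact p.Prime] (W S : V → Subgroup G) (Z Bm : V → V → Subgroup G), Loc G Γ d →
  Sg Γ d p W S Z Bm → ∀ (c n : ℕ) (s : ℕ → V), Mw Γ W S c → Pg Γ W S Z Bm c s n →
  ∀ k, c ≤ k → k ≤ n → ∀ a ∈ ⁅W (s (k + c + 1)), W (s k)⁆, ∀ j, k ≤ j → j ≤ k + c →
  a ∈ Z (s (j + 1)) (s j)

/-- BLOCK BDWg (uses BASg, CNVg): the critical distance is bounded by the sizes of the groups `W`. -/
def Stmt_BDWg : Prop := ∀ (V G : Type) [Group G] [MulAction G V] (Γ : SimpleGraph V) (d p : ℕ)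
  [Fact p.Prime] (W S : V → Subgroup G) (Z Bm : V → V → Subgroup G), Loc G Γ d →
  Sg Γ d p W S Z Bm → ∀ (c : ℕ) (s : ℕ → V), Mw Γ W S c → Pg Γ W S Z Bm c s (2 * c + 2) →
  ∀ M, (∀ x, Nat.card (W x) ≤ M) → 2 ^ (c + 2) ≤ M

/-- BLOCK CRDg (uses BASg): the sizes of the groups `W`. -/
def Stmt_CRDg : Prop := ∀ (V G : Type) [Group G] [MulAction G V] (Γ : SimpleGraph V) (d p : ℕ)
  [Fact p.Prime] (W S : V → Subgroup G) (Z Bm : V → V → Subgroup G), Loc G Γ d →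
  Sg Γ d p W S Z Bm → ∀ x0 y0, Γ.Adj x0 y0 → ∀ x, Nat.card (W x) ≤ d.factorial ^ (2 * d + 1)

/-- BLOCK FIWg (uses BASg, PTWg, BDWg, CRDg): the end. -/
def Stmt_FIWg : Prop := ∀ (V G : Type) [Group G] [MulAction G V] (Γ : SimpleGraph V) (d p : ℕ)
  [Fact p.Prime] (W S : V → Subgroup G) (Z Bm : V → V → Subgroup G), Loc G Γ d →
  Sg Γ d p W S Z Bm → ∀ x y, Γ.Adj x y → ∀ r, d.factorial ^ (2 * d + 1) ≤ r →
  ∀ z ∈ (Wr Γ r x y : Subgroup G), z ∈ Z x y → z = 1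

end Pool.Agent.Work.MP_6d7bb4.helper94.Sol
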