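import Pool.Agent.Work.MP_6d7bb4_S.Interface1

set_option autoImplicit false
set_option linter.unusedSectionVars false

/-!
# MP_6d7bb4, plan G (product action): the abstract system with one-sided commutators (helper94)

The system `Sy` of `MP_6d7bb4_S` without the groups `R`, and with the one-sided relation `Nz` instead of
`Nr`: `Bg`, `Sg`, `Pg` replace `Bl`, `Sy`, `Pw`. `Lw`, `Mw`, `Cg`, `Cw` are unchanged.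
-/

namespace Pool.Agent.Work.MP_6d7bb4.helper94.Sol

open MulAction Tv Ff Ps
open scoped commutatorElement

section sysg
variable {V G : Type*} [Group G] [MulAction G V]

/-- `[W, P y]` is not contained in `Z y'` -/
def Nz (W : Subgroup G) (Z P : V → Subgroup G) (y y' : V) : Prop :=
  ∃ a ∈ P y, ∃ v ∈ W, a * v * a⁻¹ * v⁻¹ ∉ Z y'

/-- a block at the vertex `x` (`W = W x`, `S = S x`, `Z y = Z x y`, `Bm y = Bm x y`) -/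
structure Bg (Γ : SimpleGraph V) (x : V) (W S : Subgroup G) (Z Bm : V → Subgroup G)
    (P Pc : V → Subgroup G) : Prop where
  SP : ∀ y, Γ.Adj x y → S ≤ P y
  PB : ∀ y, Γ.Adj x y → P y ≤ Bm y
  SPc : ∀ y, Γ.Adj x y → S ≤ Pc y
  PcB : ∀ y, Γ.Adj x y → Pc y ≤ Bm y
  sup : ∀ y, Γ.Adj x y → Bm y ≤ P y ⊔ Pc y
  cjJ : ∀ z, Γ.Adj x z → ∀ g ∈ Bm z, ∀ y, Γ.Adj x y →
    P (g • y) = cj g (P y) ∧ Pc (g • y) = cj g (Pc y)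
  cjC : ∀ g ∈ Cg x W, ∀ y, Γ.Adj x y → P (g • y) = cj g (P y) ∧ Pc (g • y) = cj g (Pc y)
  cmV : ∀ y y', Γ.Adj x y → Γ.Adj x y' → ∀ a ∈ P y, ∀ b ∈ Pc y', ∀ v ∈ W,
    a * (b * v * b⁻¹) * a⁻¹ = b * (a * v * a⁻¹) * b⁻¹
  gen : ∀ y, Γ.Adj x y → W ≤ Cw W (P y) ⊔ Cw W (Pc y)
  tr : ∀ y y', Γ.Adj x y → Γ.Adj x y' →
    Bm y' ≤ ⨆ b : (B x y : Subgroup G), cj b.1 (P (b.1⁻¹ • y'))
  nc : ∀ y', Γ.Adj x y' → ∃ y, Γ.Adj x y ∧ Nz W Z P y y'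

/-- the system -/
structure Sg (Γ : SimpleGraph V) (d p : ℕ) (W S : V → Subgroup G) (Z Bm : V → V → Subgroup G) :
    Prop where
  Wcj : ∀ (g : G) x, W (g • x) = cj g (W x)
  Scj : ∀ (g : G) x, S (g • x) = cj g (S x)
  Zcj : ∀ (g : G) x y, Z (g • x) (g • y) = cj g (Z x y)
  Bcj : ∀ (g : G) x y, Bm (g • x) (g • y) = cj g (Bm x y)
  Zcm : ∀ x y, Z x y = Z y x
  Bcm : ∀ x y, Bm x y = Bm y x
  SQ : ∀ x, S x ≤ Qv Γ p x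
  WS : ∀ x, W x ≤ S x
  SW : ∀ x, ∀ s ∈ S x, ∀ v ∈ W x, s * v = v * s
  BQ : ∀ x y, Γ.Adj x y → Bm x y ≤ Qe p x y
  SB : ∀ x y, Γ.Adj x y → S x ≤ Bm x y
  BK : ∀ x y, Γ.Adj x y → Bm x y ⊓ K Γ x ≤ S x
  ct : ∀ x y, Γ.Adj x y → ∀ b ∈ Bm x y, (∀ v ∈ W x, b * v = v * b) → b ∈ S x
  ne : ∀ x y, Γ.Adj x y → ¬ Bm x y ≤ K Γ x
  ZW : ∀ x y, Γ.Adj x y → Z x y ≤ W x
  ZB : ∀ x y, Γ.Adj x y → ∀ z ∈ Z x y, ∀ b ∈ Bm x y, b * z = z * b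
  BZ : ∀ x y, Γ.Adj x y → ∀ v ∈ W x, (∀ b ∈ Bm x y, b * v = v * b) → v ∈ Z x y
  Zn : ∀ x y, Γ.Adj x y → Z x y ≠ ⊥
  qd : ∀ x y, Γ.Adj x y → ∀ b ∈ Bm x y, ∀ v ∈ W x, b * v * b⁻¹ * v⁻¹ ∈ Z x y
  ab : ∀ x y, Γ.Adj x y → ∀ a ∈ Bm x y, ∀ b ∈ Bm x y, a * b * a⁻¹ * b⁻¹ ∈ S x
  ix : ∀ x y, Γ.Adj x y → (Z x y).relIndex (W x) ≤ d.factorial
  lk : ∀ x x' w' w, Lw Γ W S x x' w' w →
    ∃ P Pc : V → Subgroup G, Bg Γ x (W x) (S x) (Z x) (Bm x) P Pc ∧ P x' = W w ⊔ S x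

end sysg

/-- a path all of whose segments of length `c + 1` are links, with blocks -/
structure Pg {V G : Type} [Group G] [MulAction G V] (Γ : SimpleGraph V) (W S : V → Subgroup G)
    (Z Bm : V → V → Subgroup G) (c : ℕ) (s : ℕ → V) (n : ℕ) : Prop where
  ad : ∀ k, k < n + c + 1 → Γ.Adj (s k) (s (k + 1))
  cr : ∀ k, k ≤ n → ¬ W (s (k + c + 1)) ≤ S (s k)
  bl : ∀ k, k < n → ∃ P Pc : V → Subgroup G,
    Bg Γ (s (k + c + 1)) (W (s (k + c + 1))) (S (s (k + c + 1)))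
      (Z (s (k + c + 1))) (Bm (s (k + c + 1))) P Pc ∧
    P (s (k + c)) = W (s k) ⊔ S (s (k + c + 1)) ∧
    Nz (W (s (k + c + 1))) (Z (s (k + c + 1))) P (s (k + c)) (s (k + c + 2)) ∧
    Pc (s (k + c)) ≤ Pc (s (k + c + 2)) ⊔ Cg (s (k + c + 1)) (W (s (k + c + 1)))

end Pool.Agent.Work.MP_6d7bb4.helper94.Sol
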