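import Pool.Agent.Work.MP_6d7bb4_G.InterfaceM
import Pool.Agent.Work.MP_6d7bb4_G.DefsA
import Pool.Agent.Work.MP_6d7bb4_S.Interface3

set_option autoImplicit false
set_option linter.unusedSectionVars false

/-!
# MP_6d7bb4: plan G (product action); interface, vertices (helper65)

The file of block `X` is `Pool/Agent/Work/MP_6d7bb4_G/B_X.lean`: `import` this file, namespace
`Pool.Agent.Work.MP_6d7bb4.h65u`, the same `open` lines, `theorem s_X (hA : Stmt_A) (hB : Stmt_B) .. : Stmt_X`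
with the blocks of the column uses as hypotheses in that order; auxiliary lemmas in `namespace X_X`.

Most blocks are adaptations of blocks of `MP_6d7bb4_S` (files `B_X.lean` there, statements in `Interface2.lean`,
`Interface3.lean` of that folder): `KE`, `KQ`, `KV`, `KS`, `KB`, `Hw`, `Pk` replace `ME`, `MQ`, `VE`, `VS`, `VB`, `Hy`, `Pf`.
USEFUL. `cj_mul`, `mem_cj`, `conj_mem_cj`, `cj_mono`, `nm_cj`, `cj_of_nm`, `cj_inv_cj`, `cj_cj_inv`; for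
`h : KB Γ d p x W S R Bm ψ 𝒦 t e f`: `h.vs.ve.ke : KE ψ.range 𝒦`, `h.vs.ve.kq y hxy : KQ p ψ.range 𝒦 (im ψ (Qe p x y))
(im ψ (B x y))`, `h.vs.BT y hxy : im ψ (Bm y) = Pq p (im ψ (Qe p x y))`; `mem_Kf`, `mem_Cz`.
-/

namespace Pool.Agent.Work.MP_6d7bb4.h65u

open MulAction
open Pool.Agent.Work.MP_6d7bb4.helper94 Pool.Agent.Work.MP_6d7bb4.helper94.Sol
open Tv Ff Ps

/-! ## 6. Lower bounds at a vertex -/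

/-- BLOCK LBIk (uses KLE): the basic inequality at a vertex. Copy `B_LBI.lean`; instead of VMQ and OFF use KLE for
`KV.ke`, `KV.kq y hxy` and `im ψ P ≤ im ψ (Qe p x y)`; `U` is finite by `KV.ke.fin`. -/
def Stmt_LBIk : Prop := ∀ (V G : Type) [Group G] [MulAction G V] (Γ : SimpleGraph V) (d p : ℕ)
  [Fact p.Prime], Loc G Γ d → ∀ (x : V) (W R : Subgroup G) (U : Type) [AddCommGroup U]
  [Module (ZMod p) U] (ψ : stabilizer G x →* Un U) (𝒦 : Set (Subgroup (Un U))),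
  KV Γ p x R ψ 𝒦 → Md2 p (stabilizer G x) W R ψ → Finite W →
  ∀ y, Γ.Adj x y → ∀ S P : Subgroup G, S ≤ R → S ≤ P → P ⊓ R ≤ S → P ≤ Qe p x y →
  El p (im ψ P) →
  Nat.card P * Nat.card (Cw W P) ≤ Nat.card W * Nat.card S ∧
  (Nat.card W * Nat.card S ≤ Nat.card P * Nat.card (Cw W P) → im ψ P = Pq p (im ψ P) ∧
    Nat.card W * Nat.card (FxU (im ψ P)) ≤ Nat.card U * Nat.card (Cw W P))

/-- BLOCK LBGk (uses MDX3, Sol.FMB, LBIk): the lower bound.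
PROOF. MDX3 for `V = VZ Γ ζ x` (FMB (2), `Fm.el`, `h.fin x`) gives `R`, `U`, `ψ`; `Hw.ve` gives `𝒦` with `KV`; `U` is a
`ZMod p`-module (`AddCommGroup.zmodModule`, `Md.ex`). LBIk for `P = A`, `S = A ⊓ Qv Γ p x`: `S ≤ R` by `KV.QR`; `A ⊓ R ≤ S`: an
element is in `B x y` (`Qe_le`), so in `K Γ x` (`KV.RK`), so in `Qe ⊓ K = Qv` (`Qv_eq`); the image of an elementary
abelian group is elementary abelian. -/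
def Stmt_LBGk : Prop := ∀ (V G : Type) [Group G] [MulAction G V] (Γ : SimpleGraph V) (d p : ℕ)
  [Fact p.Prime] (ζ : V → V → Subgroup G), Hw G Γ d p → Fm Γ p ζ → ∀ x y, Γ.Adj x y →
  ∀ A : Subgroup G, A ≤ Qe p x y → El p A →
  Nat.card A * Nat.card (Cw (VZ Γ ζ x) A) ≤
    Nat.card (VZ Γ ζ x : Subgroup G) * Nat.card (A ⊓ Qv Γ p x : Subgroup G)

/-! ## 7. The Baumann system -/

/-- BLOCK BW1 (uses Sol.TH1): as `Sol.Stmt_BAU1`, with `Hw`. Copy `s_BU1` of `MP_6d7bb4_h65u/Bau.lean` (import that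
file for the lemmas in `X_BU1`); only `loc` and `cb` are used. -/
def Stmt_BW1 : Prop := ∀ (V G : Type) [Group G] [MulAction G V] (Γ : SimpleGraph V) (d p : ℕ)
  [Fact p.Prime], Hw G Γ d p →
  (∀ x y, Γ.Adj x y → ¬ Jt p (Qe p x y : Subgroup G) ≤ Qv Γ p x) ∧
  (∀ (g : G) (x y : V), Jt p (Qe p (g • x) (g • y)) = cj g (Jt p (Qe p x y))) ∧
  (∀ (g : G) (x y : V), Zp p (g • x) (g • y) = cj g (Zp p x y)) ∧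
  (∀ x y : V, Zp (G := G) p x y = Zp p y x) ∧
  (∀ (g : G) (x y : V), Bp p (g • x) (g • y) = cj g (Bp p x y)) ∧
  (∀ x y : V, Bp (G := G) p x y = Bp p y x) ∧
  (∀ x y, Γ.Adj x y → Zz (G := G) p x y ≤ Zp p x y) ∧
  Fm (G := G) Γ p (Zz p)

/-- BLOCK BW2 (uses Sol.TH1, LBGk, BW1): as `Sol.Stmt_BAU2`, with `Hw`. Copy `s_BU2`; instead of VMD use LBGk for
`ζ = Zz p`. -/
def Stmt_BW2 : Prop := ∀ (V G : Type) [Group G] [MulAction G V] (Γ : SimpleGraph V) (d p : ℕ)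
  [Fact p.Prime], Hw G Γ d p → ∀ x y, Γ.Adj x y →
  (∀ A : Subgroup G, Am p (Qe p x y) A → Am p (Qe p x y) (Vv Γ p x ⊔ (A ⊓ Qv Γ p x)) ∧
    Am p (Qv Γ p x) (Vv Γ p x ⊔ (A ⊓ Qv Γ p x))) ∧
  (∀ A : Subgroup G, Am p (Qv Γ p x) A → Am p (Qe p x y) A) ∧
  Jt p (Qv Γ p x : Subgroup G) ≤ Jt p (Qe p x y)

/-- BLOCK BW3 (uses Sol.TH1, BW1, BW2): as `Sol.Stmt_BAU3`, with `Hw`. Copy `s_BU3`. -/
def Stmt_BW3 : Prop := ∀ (V G : Type) [Group G] [MulAction G V] (Γ : SimpleGraph V) (d p : ℕ)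
  [Fact p.Prime], Hw G Γ d p → ∀ x y, Γ.Adj x y →
  Vv (G := G) Γ p x ≤ OZ p (Jt p (Qv Γ p x)) ∧
  Zp (G := G) p x y ≤ OZ p (Jt p (Qv Γ p x)) ∧
  (∀ z ∈ OZ p (Jt p (Qv Γ p x : Subgroup G)), ∀ b ∈ Jt p (Qe p x y),
    b * z * b⁻¹ * z⁻¹ ∈ Vv Γ p x) ∧
  (∀ z ∈ OZ p (Jt p (Qv Γ p x : Subgroup G)), (∀ b ∈ Jt p (Qe p x y), b * z = z * b) →
    z ∈ Zp p x y) ∧
  Wp (G := G) Γ p x ≤ Vv Γ p x ⊔ Zp p x y ∧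
  Vv (G := G) Γ p x ≤ Wp Γ p x ∧
  Wp (G := G) Γ p x ≤ OZ p (Jt p (Qv Γ p x))

/-- BLOCK BW4 (uses Sol.FMB, BW1, BW3): as `Sol.Stmt_BAU4`, with `Hw`. Copy `s_BU4`. -/
def Stmt_BW4 : Prop := ∀ (V G : Type) [Group G] [MulAction G V] (Γ : SimpleGraph V) (d p : ℕ)
  [Fact p.Prime], Hw G Γ d p →
  Fm (G := G) Γ p (Zp p) ∧
  (∀ (g : G) x, Wp Γ p (g • x) = cj g (Wp Γ p x)) ∧
  (∀ (g : G) x, Sp Γ p (g • x) = cj g (Sp Γ p x)) ∧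
  (∀ x, Wp (G := G) Γ p x ≤ Sp Γ p x) ∧
  ∀ x y, Γ.Adj x y →
  Sp (G := G) Γ p x ≤ Bp p x y ∧
  Bp (G := G) p x y ⊓ K Γ x ≤ Sp Γ p x ∧
  Jt p (Qe p x y : Subgroup G) ≤ Bp p x y ∧
  Cw (Wp (G := G) Γ p x) (Jt p (Qe p x y)) = Zp p x y ∧
  (∀ A : Subgroup G, Am p (Qe p x y) A → A ⊓ Qv Γ p x ≤ Sp Γ p x) ∧
  ¬ Bp (G := G) p x y ≤ K Γ x ∧
  ∀ b ∈ Bp (G := G) p x y, (∀ v ∈ Wp Γ p x, b * v = v * b) → b ∈ Sp Γ p x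

/-- BLOCK TJ1k (uses Sol.BST, KLE, BW1, BW4): a transvection. Compare `B_TJ1.lean`.
PROOF. `Hw.ve` for `ζ = Zp p` (BW4 (1); `Wp Γ p x` is by definition `VZ Γ (Zp p) x`) gives `𝒦` with `KV`. By BW1 (1) there is `A`
with `Am p (Qe p x y) A`, `¬ A ≤ Qv Γ p x` (`Jt` is the supremum of the `A`). Let `W = Wp Γ p x`, `C = Cw A W`. BST
(`W ≤ Sp ≤ Qv ≤ Qe`): `|C| |Cw W C| ≤ |A| |Cw W A|`, and `Cw W C = W`. So `Md.of` applies to `A`: an element of `A ⊓ R` lies in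
`R ⊓ B x y ≤ K Γ x` (`KV.RK`), so in `A ⊓ Qv ≤ Sp` (`Qv_eq`, BW4 (9)), and commutes with `W`. So with `A' = im ψ A`:
`|U| ≤ |A'| |FxU A'|`. KLE (`El p A'`): equality, so `A' = Pq p A'`. `A' ≠ ⊥`, since otherwise `A ≤ R` (`Md.ker`) and `A ≤ Qe ⊓ K = Qv`. So
`Tq p A'` is not empty. -/
def Stmt_TJ1k : Prop := ∀ (V G : Type) [Group G] [MulAction G V] (Γ : SimpleGraph V) (d p : ℕ)
  [Fact p.Prime], Hw G Γ d p → ∀ x y, Γ.Adj x y → ∀ (R : Subgroup G) (U : Type)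
  [AddCommGroup U] [Finite U] [Module (ZMod p) U] (ψ : stabilizer G x →* Un U),
  Md3 p (stabilizer G x) (Wp Γ p x) R ψ →
  ∃ (𝒦 : Set (Subgroup (Un U))) (t : Un U) (e : U) (f : U →+ ZMod p), KV Γ p x R ψ 𝒦 ∧
    TV t e f ∧ ∃ y, Γ.Adj x y ∧ t ∈ im ψ (Qe p x y)

/-- BLOCK TJ2k (uses Sol.BST, Sol.LAT, KUN, LBIk, BW1, BW4): elementary abelian subgroups of maximal order. Adapt
`B_TJ2.lean`. (1) as there (`im ψ (A ⊔ S) = im ψ A` is elementary abelian; LBIk). (2) `≤` as there. `≥`: some `A` is not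
contained in `Qv`, so `im ψ A = Pq p (im ψ A) ≠ ⊥` and there is `s0 ∈ Tq p (im ψ A)`. Let `s' ∈ Tq p Q`, `Q = im ψ (Qe p x y)`. KUN
(1): there is `K ∈ 𝒦`, `¬ Cm K s'`. KUN (4) for `s0`: `b ∈ im ψ (B x y)` with `b s0 b⁻¹ ∈ Tq p Q`, `¬ Cm K (b s0 b⁻¹)`. KUN (2):
`s' ∈ zpowers (b s0 b⁻¹)`; and `b s0 b⁻¹ ∈ im ψ (Jt p (Qe p x y))` as `B x y` normalises `Jt` (BW1 (2)). -/
def Stmt_TJ2k : Prop := ∀ (V G : Type) [Group G] [MulAction G V] (Γ : SimpleGraph V) (d p : ℕ)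
  [Fact p.Prime], Hw G Γ d p → ∀ (x : V) (R : Subgroup G) (U : Type) [AddCommGroup U]
  [Module (ZMod p) U] (ψ : stabilizer G x →* Un U) (𝒦 : Set (Subgroup (Un U))),
  KV Γ p x R ψ 𝒦 → Md2 p (stabilizer G x) (Wp Γ p x) R ψ →
  ∀ y, Γ.Adj x y →
  (∀ A : Subgroup G, Am p (Qe p x y) A → im ψ A = Pq p (im ψ A) ∧
    im ψ (A ⊔ Sp Γ p x) = im ψ A ∧ Tg (Wp Γ p x) (Sp Γ p x) (A ⊔ Sp Γ p x)) ∧
  im ψ (Jt p (Qe p x y)) = Pq p (im ψ (Qe p x y))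

/-- BLOCK TJ3k (uses Sol.LAT, KGT, KCE, LBIk, BW4, TJ2k): the structure of `Bp`. Adapt `B_TJ3.lean` (KGT with
`T = Tq p Q` instead of GTR: `Pq p Q` is elementary abelian; KCE instead of CEN). -/
def Stmt_TJ3k : Prop := ∀ (V G : Type) [Group G] [MulAction G V] (Γ : SimpleGraph V) (d p : ℕ)
  [Fact p.Prime], Hw G Γ d p → ∀ (x : V) (R : Subgroup G) (U : Type) [AddCommGroup U]
  [Module (ZMod p) U] (ψ : stabilizer G x →* Un U) (𝒦 : Set (Subgroup (Un U))),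
  KV Γ p x R ψ 𝒦 → Md2 p (stabilizer G x) (Wp Γ p x) R ψ →
  ∀ y, Γ.Adj x y → Bp (G := G) p x y = Jt p (Qe p x y) ⊔ Sp Γ p x ∧
  im ψ (Bp p x y) = Pq p (im ψ (Qe p x y)) ∧ Tg (G := G) (Wp Γ p x) (Sp Γ p x) (Bp p x y)

/-- BLOCK VSXk (uses Sol.FMB, BW1, BW4, TJ3k): the vertex system of the Baumann system. Adapt `B_VSX.lean`. -/
def Stmt_VSXk : Prop := ∀ (V G : Type) [Group G] [MulAction G V] (Γ : SimpleGraph V) (d p : ℕ)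
  [Fact p.Prime], Hw G Γ d p → ∀ (x : V) (R : Subgroup G) (U : Type) [AddCommGroup U]
  [Module (ZMod p) U] (ψ : stabilizer G x →* Un U) (𝒦 : Set (Subgroup (Un U))) (t : Un U)
  (e : U) (f : U →+ ZMod p), KV Γ p x R ψ 𝒦 → TV t e f →
  (∃ y, Γ.Adj x y ∧ t ∈ im ψ (Qe p x y)) → Md2 p (stabilizer G x) (Wp Γ p x) R ψ →
  KB Γ d p x (Wp Γ p x) (Sp Γ p x) R (Bp p x) ψ 𝒦 t e f

/-! ## 8. The vertex system -/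

/-- BLOCK KPY (uses KCP): the groups `Pk`.
PROOF. Write `Q = im ψ (Qe p x y)`, `P = Pq p Q = im ψ (Bm y)` (`BT`); `Bm y ≤ Qe p x y ≤ stabilizer G x`, `mem_Kf`. (1) For `s ∈ S ≤ R`:
`ψ s = 1` (`KV.ker`). (2) `mem_Kf`. (3) `P0 ≤ Pk 𝒞 y` by (2), `mem_Kf`. Let `g ∈ Pk 𝒞 y`: `ψ g ∈ im ψ P0`, `ψ g = ψ a` with `a ∈ P0`,
`a⁻¹ g ∈ Bm y ⊓ R ≤ S ≤ P0` (`BR`). (4) (3) for `P0 = S`, by (2) and KCP (4). (5) `𝒦 \ 𝒦 = ∅`. (6) `≥`: `Kf` is antitone. `≤`: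
`𝒦 \ (𝒞 ∪ 𝒞') = (𝒦 \ 𝒞) ∩ (𝒦 \ 𝒞')`; let `g` be in the left side; KCP (2): `ψ g = a a'` (`P` is abelian by `El`: KCP (2) gives
`ψ g ∈ (P ⊓ Cz (𝒦 \ 𝒞)) ⊔ (P ⊓ Cz (𝒦 \ 𝒞'))`; the image of `Pk 𝒞 y ⊔ Pk 𝒞' y` under `ψ` contains both groups by (2)), so
`ψ g = ψ b` with `b ∈ Pk 𝒞 y ⊔ Pk 𝒞' y` and `b⁻¹ g ∈ Bm y ⊓ R ≤ S ≤ Pk 𝒞 y`. (7) `mem_Kf`. (8) Let `𝒞` be as in the statement;
`𝒦 \ 𝒞 = {K ∈ 𝒦 | ∀ b ∈ im ψ P0, Cm K b}`. `P0 ≤ Pk 𝒞 y` is clear. Let `g ∈ Pk 𝒞 y`; by KCP (3) with `A = im ψ P0 ≤ P`, `ψ g ∈ im ψ P0`; now as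
in (3). -/
def Stmt_KPY : Prop := ∀ (V G : Type) [Group G] [MulAction G V] (Γ : SimpleGraph V) (d p : ℕ)
  [Fact p.Prime] (x : V) (W S R : Subgroup G) (Bm : V → Subgroup G) (U : Type)
  [AddCommGroup U] [Module (ZMod p) U] (ψ : stabilizer G x →* Un U)
  (𝒦 : Set (Subgroup (Un U))) (t : Un U) (e : U) (f : U →+ ZMod p),
  KB Γ d p x W S R Bm ψ 𝒦 t e f → ∀ y, Γ.Adj x y →
  (∀ 𝒞 : Set (Subgroup (Un U)), S ≤ Pk Bm ψ 𝒦 𝒞 y ∧ Pk Bm ψ 𝒦 𝒞 y ≤ Bm y) ∧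
  (∀ 𝒞 : Set (Subgroup (Un U)),
    im ψ (Pk Bm ψ 𝒦 𝒞 y) = Pq p (im ψ (Qe p x y)) ⊓ Cz (𝒦 \ 𝒞)) ∧
  (∀ P0 : Subgroup G, S ≤ P0 → P0 ≤ Bm y → ∀ 𝒞 : Set (Subgroup (Un U)),
    im ψ P0 = Pq p (im ψ (Qe p x y)) ⊓ Cz (𝒦 \ 𝒞) → P0 = Pk Bm ψ 𝒦 𝒞 y) ∧
  Pk Bm ψ 𝒦 ∅ y = S ∧
  Pk Bm ψ 𝒦 𝒦 y = Bm y ∧
  (∀ 𝒞 ⊆ 𝒦, ∀ 𝒞' ⊆ 𝒦, Pk Bm ψ 𝒦 (𝒞 ∪ 𝒞') y = Pk Bm ψ 𝒦 𝒞 y ⊔ Pk Bm ψ 𝒦 𝒞' y) ∧
  (∀ 𝒞 ⊆ 𝒦, ∀ 𝒞' ⊆ 𝒦, Pk Bm ψ 𝒦 (𝒞 ∩ 𝒞') y = Pk Bm ψ 𝒦 𝒞 y ⊓ Pk Bm ψ 𝒦 𝒞' y) ∧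
  (∀ P0 : Subgroup G, S ≤ P0 → P0 ≤ Bm y → im ψ P0 = Pq p (im ψ P0) →
    P0 = Pk Bm ψ 𝒦 {K | K ∈ 𝒦 ∧ ∃ b ∈ im ψ P0, ¬ Cm K b} y)

/-- BLOCK KPE (uses KTV): equivariance.
PROOF. (1) `h ∈ Pk (cj (ψ g) '' 𝒞) (g y)` iff `h ∈ Bm (g y) = cj g (Bm y)` (`Bcj`) and `ψ h` centralises all members of
`𝒦 \ (cj (ψ g) '' 𝒞) = cj (ψ g) '' (𝒦 \ 𝒞)` (`cj (ψ g)` is injective and maps `𝒦` onto `𝒦`: `KE.cl` for `ψ g` and `(ψ g)⁻¹`), and `ψ h`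
centralises `cj (ψ g) K` iff `ψ (g⁻¹ h g)` centralises `K`. (2) (1), as `cj (ψ g) '' 𝒞 = 𝒞`. (3)
`ψ g ∈ im ψ (Bm z) = Pq p (im ψ (Qe p x z))`, generated by transvections in `ψ.range`; KTV (first part); the set of `a` with
`cj a K = K` for all `K ∈ 𝒦` is a subgroup (`cj_mul`). (4) `Md.cen`. (5) `|cj g P| = |P|`, `Cw W (cj g P) = cj g (Cw W P)` by `Wn`
(see `B_PY2.lean`). (6) for `a`, `b ∈ 𝒦`: `KE.tr` gives `z ∈ ψ.range`, `cj z a = b`; `KQ.fc` for `y`: `z = x' * b'`, `x'` normalises all members,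
`b' ∈ im ψ (B x y)`, so `cj b' a = b` (`cj b' a ∈ 𝒦`). -/
def Stmt_KPE : Prop := ∀ (V G : Type) [Group G] [MulAction G V] (Γ : SimpleGraph V) (d p : ℕ)
  [Fact p.Prime] (x : V) (W S R : Subgroup G) (Bm : V → Subgroup G) (U : Type)
  [AddCommGroup U] [Module (ZMod p) U] (ψ : stabilizer G x →* Un U)
  (𝒦 : Set (Subgroup (Un U))) (t : Un U) (e : U) (f : U →+ ZMod p),
  KB Γ d p x W S R Bm ψ 𝒦 t e f →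
  (∀ y, Γ.Adj x y → ∀ (g : stabilizer G x), ∀ 𝒞 ⊆ 𝒦,
    Pk Bm ψ 𝒦 ((fun K => cj (ψ g) K) '' 𝒞) (g.1 • y) = cj g.1 (Pk Bm ψ 𝒦 𝒞 y)) ∧
  (∀ y, Γ.Adj x y → ∀ (g : stabilizer G x), (∀ K ∈ 𝒦, cj (ψ g) K = K) → ∀ 𝒞 ⊆ 𝒦,
    Pk Bm ψ 𝒦 𝒞 (g.1 • y) = cj g.1 (Pk Bm ψ 𝒦 𝒞 y)) ∧
  (∀ z, Γ.Adj x z → ∀ g : stabilizer G x, g.1 ∈ Bm z → ∀ K ∈ 𝒦, cj (ψ g) K = K) ∧
  (∀ g : stabilizer G x, g.1 ∈ Cg x W → ψ g = 1) ∧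
  (∀ (g : stabilizer G x) (P : Subgroup G), Tg W S P → Tg W S (cj g.1 P)) ∧
  (∀ y, Γ.Adj x y → ∀ a ∈ 𝒦, ∀ b ∈ 𝒦, ∃ g : stabilizer G x, g.1 ∈ B x y ∧ cj (ψ g) a = b)

/-- BLOCK KTG1 (uses KGT, LBIk): tight subgroups. Adapt `B_TG1.lean`: let `S ≤ P0 ≤ Bm y`; `P0 ⊓ R ≤ Bm y ⊓ R ≤ S` (`BR`),
`P0 ≤ Qe p x y` (`BQ`), `im ψ P0 ≤ im ψ (Bm y) = Pq p (im ψ (Qe p x y))` is elementary abelian (KGT with `T = Tq p _`), and LBIk. -/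
def Stmt_KTG1 : Prop := ∀ (V G : Type) [Group G] [MulAction G V] (Γ : SimpleGraph V) (d p : ℕ)
  [Fact p.Prime] (x : V) (W S R : Subgroup G) (Bm : V → Subgroup G) (U : Type)
  [AddCommGroup U] [Module (ZMod p) U] (ψ : stabilizer G x →* Un U)
  (𝒦 : Set (Subgroup (Un U))) (t : Un U) (e : U) (f : U →+ ZMod p),
  KB Γ d p x W S R Bm ψ 𝒦 t e f → ∀ y, Γ.Adj x y →
  ∀ P : Subgroup G, S ≤ P → P ≤ Bm y →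
  Nat.card P * Nat.card (Cw W P) ≤ Nat.card W * Nat.card S ∧
  (Tg W S P → im ψ P = Pq p (im ψ P) ∧
    Nat.card W * Nat.card (FxU (im ψ P)) ≤ Nat.card U * Nat.card (Cw W P))

/-- BLOCK KVS2 (uses Sol.LAT, Sol.LTC, KPY, KPE, KTG1): complements of tight subgroups are tight. Adapt
`B_VS2.lean`.
PROOF. LTC with `Ω = Subgroup (Un U)` (finite: `KE.fin`), `T = 𝒦` and `F` the set of all `X ⊆ 𝒦` such that `Pk X y` is tight.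
`∅ ∈ F`: KPY (4), `Cw W S = W` (`SW`). `𝒦 ∈ F`: KPY (5), `KS.tg`. Unions and intersections: KPY (6), (7), LAT (2), KTG1 (for
the two inequalities). Transitivity: KPE (6) gives `g` with `g y = y`, `cj (ψ g) a = b`; `m K = cj (ψ g) K`; KPE (1), (5) (and
`m '' X ⊆ 𝒦`, `KE.cl`). -/
def Stmt_KVS2 : Prop := ∀ (V G : Type) [Group G] [MulAction G V] (Γ : SimpleGraph V) (d p : ℕ)
  [Fact p.Prime] (x : V) (W S R : Subgroup G) (Bm : V → Subgroup G) (U : Type)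
  [AddCommGroup U] [Module (ZMod p) U] (ψ : stabilizer G x →* Un U)
  (𝒦 : Set (Subgroup (Un U))) (t : Un U) (e : U) (f : U →+ ZMod p),
  KB Γ d p x W S R Bm ψ 𝒦 t e f → ∀ y, Γ.Adj x y → ∀ 𝒞 ⊆ 𝒦,
  Tg W S (Pk Bm ψ 𝒦 𝒞 y) → Tg W S (Pk Bm ψ 𝒦 (𝒦 \ 𝒞) y)

/-- BLOCK KVSC (uses KPY, KPE, KTG1, KVS2): from a tight subgroup to a set of members of `𝒦`.
PROOF. KTG1: `im ψ P = Pq p (im ψ P)`, so by KPY (8) `P = Pk 𝒞 y` with `𝒞 = {K ∈ 𝒦 | ∃ b ∈ im ψ P, ¬ Cm K b}`. `𝒞` is not empty: otherwise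
`P = Pk ∅ y = S` (KPY (4)). `Pk (𝒦 \ 𝒞) y` is tight by KVS2. For another neighbour `y'`: `KV.Et` gives `g` with `g y = y'` such
that `ψ g` normalises all members; KPE (2) (`𝒦 \ 𝒞 ⊆ 𝒦`), (5). -/
def Stmt_KVSC : Prop := ∀ (V G : Type) [Group G] [MulAction G V] (Γ : SimpleGraph V) (d p : ℕ)
  [Fact p.Prime] (x : V) (W S R : Subgroup G) (Bm : V → Subgroup G) (U : Type)
  [AddCommGroup U] [Module (ZMod p) U] (ψ : stabilizer G x →* Un U)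
  (𝒦 : Set (Subgroup (Un U))) (t : Un U) (e : U) (f : U →+ ZMod p),
  KB Γ d p x W S R Bm ψ 𝒦 t e f → ∀ y, Γ.Adj x y →
  ∀ P : Subgroup G, S ≤ P → P ≤ Bm y → Tg W S P → ¬ P ≤ S →
  ∃ 𝒞 : Set (Subgroup (Un U)), 𝒞 ⊆ 𝒦 ∧ 𝒞.Nonempty ∧ Pk Bm ψ 𝒦 𝒞 y = P ∧
    ∀ y', Γ.Adj x y' → Tg W S (Pk Bm ψ 𝒦 𝒞 y') ∧ Tg W S (Pk Bm ψ 𝒦 (𝒦 \ 𝒞) y')

/-- BLOCK KCMV (uses Sol.QDC, KDJ, KUN, KMI, KCP, KPY, KTG1): the two groups of a block commute on `W`. Adapt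
`B_CMV.lean`.
PROOF. Let `A = Pk 𝒞 y`, `A' = Pk (𝒦 \ 𝒞) y'`, both tight. `Md2.tt` for `A`, `A'` and the subgroup `Sc ψ.range e` (KMI (1), (2)): the
first two hypotheses are KTG1 (KPY (1)); for `a ∈ A`: `ψ a ∈ Pq p (im ψ (Qe p x y))` (KPY (2)), so `ψ a u - u ∈ Sc` by KMI (3) with
`KV.kq y` (`KS.tQ` gives `y0` with `t ∈ im ψ (Qe p x y0)`; `h.arc` gives `g` with `g x = x`, `g y0 = y`, and `Qe_cj`), the same for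
`A'`; and `ψ b (ψ a u - u) = ψ a u - u` by QDC with `T = {s ∈ Tq p (Q y) | ∀ K ∈ 𝒦 \ 𝒞, Cm K s}`,
`T' = {s ∈ Tq p (Q y') | ∀ K ∈ 𝒞, Cm K s}`, `Q y = im ψ (Qe p x y)` (KPY (2), KCP (1), `𝒦 \ (𝒦 \ 𝒞) = 𝒞`): for `s ∈ T`, `s' ∈ T'` there is
`K ∈ 𝒦` with `¬ Cm K s` (KUN (1)), so `K ∈ 𝒞` and `Cm K s'`, and `f' e = 0` by KDJ. This gives: `b [a, v] b⁻¹ = [a, v]` for
`a ∈ A`, `b ∈ A'`, `v ∈ W`, where `[a, v] = a v a⁻¹ v⁻¹`. Exchanging the roles of `(𝒞, y)` and `(𝒦 \ 𝒞, y')`: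
`a [b, v] a⁻¹ = [b, v]`. So `a (b v b⁻¹) a⁻¹ = a ([b, v] v) a⁻¹ = [b, v] (a v a⁻¹) = [b, v] [a, v] v`, and
`b (a v a⁻¹) b⁻¹ = [a, v] [b, v] v`; `W` is abelian and contains the commutators (`Wn`). -/
def Stmt_KCMV : Prop := ∀ (V G : Type) [Group G] [MulAction G V] (Γ : SimpleGraph V) (d p : ℕ)
  [Fact p.Prime] (x : V) (W S R : Subgroup G) (Bm : V → Subgroup G) (U : Type)
  [AddCommGroup U] [Module (ZMod p) U] (ψ : stabilizer G x →* Un U)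
  (𝒦 : Set (Subgroup (Un U))) (t : Un U) (e : U) (f : U →+ ZMod p),
  KB Γ d p x W S R Bm ψ 𝒦 t e f → ∀ 𝒞 ⊆ 𝒦,
  (∀ y, Γ.Adj x y → Tg W S (Pk Bm ψ 𝒦 𝒞 y) ∧ Tg W S (Pk Bm ψ 𝒦 (𝒦 \ 𝒞) y)) →
  ∀ y y', Γ.Adj x y → Γ.Adj x y' → ∀ a ∈ Pk Bm ψ 𝒦 𝒞 y, ∀ b ∈ Pk Bm ψ 𝒦 (𝒦 \ 𝒞) y',
  ∀ v ∈ W, a * (b * v * b⁻¹) * a⁻¹ = b * (a * v * a⁻¹) * b⁻¹

/-- BLOCK KGNV (uses Sol.LAT, KPY): centralisers generate `W`. Adapt `B_GNV.lean`: `P = Pk 𝒞 y`, `P' = Pk (𝒦 \ 𝒞) y`; by KPY (4)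
to (7) `P ⊔ P' = Bm y`, `P ⊓ P' = S`. -/
def Stmt_KGNV : Prop := ∀ (V G : Type) [Group G] [MulAction G V] (Γ : SimpleGraph V) (d p : ℕ)
  [Fact p.Prime] (x : V) (W S R : Subgroup G) (Bm : V → Subgroup G) (U : Type)
  [AddCommGroup U] [Module (ZMod p) U] (ψ : stabilizer G x →* Un U)
  (𝒦 : Set (Subgroup (Un U))) (t : Un U) (e : U) (f : U →+ ZMod p),
  KB Γ d p x W S R Bm ψ 𝒦 t e f → ∀ 𝒞 ⊆ 𝒦, ∀ y, Γ.Adj x y →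
  Tg W S (Pk Bm ψ 𝒦 𝒞 y) → Tg W S (Pk Bm ψ 𝒦 (𝒦 \ 𝒞) y) →
  Bm y ≤ Pk Bm ψ 𝒦 𝒞 y ⊔ Pk Bm ψ 𝒦 (𝒦 \ 𝒞) y ∧
  W ≤ Cw W (Pk Bm ψ 𝒦 𝒞 y) ⊔ Cw W (Pk Bm ψ 𝒦 (𝒦 \ 𝒞) y)

/-- BLOCK KTRV (uses KPY, KPE): the conjugates of a block generate `Bm`.
PROOF. Let `M` be the supremum. For `b ∈ B x y` put `y1 = b⁻¹ y'`, a neighbour of `x`. By KPE (1) (for `y1`, `b`)
`cj b (Pk 𝒞 y1) = Pk (cj (ψ b) '' 𝒞) y'`, so `S ≤ M` (KPY (1)). Let `K1 ∈ 𝒞`, `K ∈ 𝒦`. KPE (6) gives `b ∈ B x y` with `cj (ψ b) K1 = K`, so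
`K ∈ cj (ψ b) '' 𝒞` and `Pk {K} y' ≤ Pk (cj (ψ b) '' 𝒞) y' ≤ M` (`Pk` is monotone in `𝒞`: `mem_Kf`). So `Pk 𝒞' y' ≤ M` for all finite
`𝒞' ⊆ 𝒦` by `Set.Finite.induction_on` (`∅`: KPY (4); `insert`: KPY (6)), in particular `Bm y' = Pk 𝒦 y' ≤ M` (KPY (5); `𝒦` is
finite: `KE.fin`). -/
def Stmt_KTRV : Prop := ∀ (V G : Type) [Group G] [MulAction G V] (Γ : SimpleGraph V) (d p : ℕ)
  [Fact p.Prime] (x : V) (W S R : Subgroup G) (Bm : V → Subgroup G) (U : Type)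
  [AddCommGroup U] [Module (ZMod p) U] (ψ : stabilizer G x →* Un U)
  (𝒦 : Set (Subgroup (Un U))) (t : Un U) (e : U) (f : U →+ ZMod p),
  KB Γ d p x W S R Bm ψ 𝒦 t e f → ∀ 𝒞 ⊆ 𝒦, 𝒞.Nonempty → ∀ y y', Γ.Adj x y → Γ.Adj x y' →
  Bm y' ≤ ⨆ b : (B x y : Subgroup G), cj b.1 (Pk Bm ψ 𝒦 𝒞 (b.1⁻¹ • y'))

/-- BLOCK KNCV (uses FAB, KTV, KUN, KPY): a block does not act trivially modulo `Z y'`.
PROOF. Suppose that `a v a⁻¹ v⁻¹` (`a ∈ Pk 𝒞 y`, `v ∈ W`) lies in `Cw W (Bm y')` for all neighbours `y`, so it commutes with all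
`b ∈ Bm y'`. `Md2.qp` (for `b`, `a`): `ψ b (ψ a u - u) = ψ a u - u` for `u : U`. Let `K ∈ 𝒞`, `Q y = im ψ (Qe p x y)`. (i) Let `y ~ x`,
`s ∈ Tq p (Q y)`, `TV s e' f'`, `¬ Cm K s`. Then `s` centralises all other members (KUN (1)), so by KPY (2) `s = ψ a` with
`a ∈ Pk 𝒞 y`, and `s u - u = f' u • e'`, so `ψ b e' = e'` for all `b ∈ Bm y'` (`TV.f0`). (ii) There is `s0 ∈ Tq p (Q y')` with
`¬ Cm K s0`: `KS.tQ`, `h.arc`, `Qe_cj` give a conjugate of `t` in `Q y'`, and KUN (4). Let `TV s0 e0 f0`;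
`s0 ∈ Pq p (Q y') = im ψ (Bm y')`, so `s0` fixes the centres `e'` of (i). (iii) Let `x1 ∈ K`, `x1 = ψ g` (`KE.KZ`). `x1 s0 x1⁻¹` is a
transvection with centre `x1 e0` (`TV.conj`), in `Q (g y')` (`Qe_cj`, `g x = x`), and does not centralise `K` (`cj x1 K = K`). By (i),
(ii) `s0` fixes `x1 e0`: `f0 (x1 e0) = 0` for all `x1 ∈ K`. (iv) So `k s0 k⁻¹` fixes `e0` for `k ∈ K`
(`(k s0 k⁻¹) e0 = e0 + f0 (k⁻¹ e0) • k e0`), `s0` too, so all elements of `K ≤ Cq K s0` (KTV, `KE.qs`) fix `e0`; FAB (A) gives `K = ⊥`,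
against `KE.ne`. -/
def Stmt_KNCV : Prop := ∀ (V G : Type) [Group G] [MulAction G V] (Γ : SimpleGraph V) (d p : ℕ)
  [Fact p.Prime] (x : V) (W S R : Subgroup G) (Bm : V → Subgroup G) (U : Type)
  [AddCommGroup U] [Module (ZMod p) U] (ψ : stabilizer G x →* Un U)
  (𝒦 : Set (Subgroup (Un U))) (t : Un U) (e : U) (f : U →+ ZMod p),
  KB Γ d p x W S R Bm ψ 𝒦 t e f → ∀ 𝒞 ⊆ 𝒦, 𝒞.Nonempty → ∀ y', Γ.Adj x y' →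
  ∃ y, Γ.Adj x y ∧ ∃ a ∈ Pk Bm ψ 𝒦 𝒞 y, ∃ v ∈ W, a * v * a⁻¹ * v⁻¹ ∉ Cw W (Bm y')

/-- BLOCK KBLK (uses KPY, KPE, KCMV, KGNV, KTRV, KNCV): blocks.
PROOF. `SP`, `PB`, `SPc`, `PcB`: KPY (1). `sup`, `gen`: KGNV. `cjJ`: KPE (2), (3) (`Bm z ≤ Qe p x z ≤ stabilizer G x`;
`𝒦 \ 𝒞 ⊆ 𝒦`). `cjC`: KPE (4), (2). `cmV`: KCMV. `tr`: KTRV. `nc`: KNCV. -/
def Stmt_KBLK : Prop := ∀ (V G : Type) [Group G] [MulAction G V] (Γ : SimpleGraph V) (d p : ℕ)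
  [Fact p.Prime] (x : V) (W S R : Subgroup G) (Bm : V → Subgroup G) (U : Type)
  [AddCommGroup U] [Module (ZMod p) U] (ψ : stabilizer G x →* Un U)
  (𝒦 : Set (Subgroup (Un U))) (t : Un U) (e : U) (f : U →+ ZMod p),
  KB Γ d p x W S R Bm ψ 𝒦 t e f → ∀ 𝒞 ⊆ 𝒦, 𝒞.Nonempty →
  (∀ y, Γ.Adj x y → Tg W S (Pk Bm ψ 𝒦 𝒞 y) ∧ Tg W S (Pk Bm ψ 𝒦 (𝒦 \ 𝒞) y)) →
  ∀ Z : V → Subgroup G, (∀ y, Γ.Adj x y → Z y = Cw W (Bm y)) →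
  Bg Γ x W S Z Bm (Pk Bm ψ 𝒦 𝒞) (Pk Bm ψ 𝒦 (𝒦 \ 𝒞))

/-! ## 9. Assembly -/

/-- BLOCK LNKk (uses MDX3, Sol.FMB, Sol.LAT, LBIk, BW1, BW4): the group of a link is tight. Adapt `B_LNK.lean`:
MDX3 (FMB (2), BW4 (1)) and `Hw.ve` with `ζ = Zp p` give `R`, `U`, `ψ`, `𝒦`, `KV` at `x`; LBIk (`im ψ (W w ⊔ S x) = im ψ (W w)` is
elementary abelian). -/
def Stmt_LNKk : Prop := ∀ (V G : Type) [Group G] [MulAction G V] (Γ : SimpleGraph V) (d p : ℕ)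
  [Fact p.Prime], Hw G Γ d p → ∀ x x' w' w, Lw (G := G) Γ (Wp Γ p) (Sp Γ p) x x' w' w →
  Tg (G := G) (Wp Γ p x) (Sp Γ p x) (Wp Γ p w ⊔ Sp Γ p x) ∧
  Wp (G := G) Γ p w ⊔ Sp Γ p x ≤ Bp p x x' ∧ ¬ Wp (G := G) Γ p w ⊔ Sp Γ p x ≤ Sp Γ p x

/-- BLOCK SYSk (uses Sol.QDC, Sol.FMB, Sol.QIX, MDX3, KMI, KGT, KUN, KTG1, KVSC, KBLK, BW1, BW4, TJ1k, VSXk,
LNKk): the system. Adapt `B_SYS.lean`; the fields `Rs`, `Rn`, `RC` are gone.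
PROOF. For a vertex `x` with a neighbour MDX3 (`h.fin x`, FMB (2), BW4 (1)), TJ1k and VSXk give
`KB Γ d p x (Wp Γ p x) (Sp Γ p x) R (Bp p x) ψ 𝒦 t e f`. `Cw (Wp x) (Bp x y) = Zp p x y` (`≤`: `Jt ≤ Bp`, BW4 (8); `≥`: definition of `Bp`).
FIELDS. `Wcj`, `Scj`, `Zcj`, `Bcj`, `Zcm`, `Bcm`: BW1, BW4. `SQ`, `SW`, `BQ`, `ZB`: definition. `WS`, `SB`, `BK`, `ct`, `ne`: BW4. `ZW`:
`z_le_VZ`. `BZ`, `Zn`: above, `Fm.ne`. `qd`: `Md2.tt` with `A = A' = Bp p x y` (tight: `KS.tg`; KTG1 gives the second form), the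
subgroup `Sc ψ.range e` (KMI; a conjugate of `t` lies in `im ψ (Qe p x y)`: `KS.tQ`, `h.arc`, `Qe_cj`), QDC with
`T = T' = Tq p (im ψ (Qe p x y))` (`f2 e1 = 0` by KUN (3)): so every commutator `b v b⁻¹ v⁻¹` is centralised by `Bp p x y`, and lies
in `Wp`. `ab`: `im ψ (Bp) = Pq p _` is abelian (KGT), so `a b a⁻¹ b⁻¹ ∈ Bp ⊓ R ≤ Sp` (`BR`). `ix`: as in `B_SYS.lean`. `lk`: LNKk
gives a tight `P = Wp w ⊔ Sp x ≤ Bp x x'`, `¬ P ≤ Sp x`; KVSC gives `𝒞` with `Pk 𝒞 x' = P`; KBLK. -/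
def Stmt_SYSk : Prop := ∀ (V G : Type) [Group G] [MulAction G V] (Γ : SimpleGraph V) (d p : ℕ)
  [Fact p.Prime], Hw G Γ d p → Sg (G := G) Γ d p (Wp Γ p) (Sp Γ p) (Zp p) (Bp p)

end Pool.Agent.Work.MP_6d7bb4.h65u
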