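import Pool.Agent.Work.MP_6d7bb4_h65u.All2
import Pool.Agent.Work.MP_6d7bb4_G.AllA
import Pool.Agent.Work.MP_6d7bb4_G.FinalG
import Pool.Agent.Work.MP_6d7bb4_G.B_DLU
import Pool.Agent.Work.MP_6d7bb4_G.B_ORC
import Pool.Agent.Work.MP_6d7bb4_G.B_KLB
import Pool.Agent.Work.MP_6d7bb4_G.B_FAB
import Pool.Agent.Work.MP_6d7bb4_G.B_TR2
import Pool.Agent.Work.MP_6d7bb4_G.B_TR3
import Pool.Agent.Work.MP_6d7bb4_G.B_KTV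
import Pool.Agent.Work.MP_6d7bb4_G.B_KDJ
import Pool.Agent.Work.MP_6d7bb4_G.B_KUN
import Pool.Agent.Work.MP_6d7bb4_G.B_KLC
import Pool.Agent.Work.MP_6d7bb4_G.B_KLE
import Pool.Agent.Work.MP_6d7bb4_G.B_KGT
import Pool.Agent.Work.MP_6d7bb4_G.B_KCE
import Pool.Agent.Work.MP_6d7bb4_G.B_KMI
import Pool.Agent.Work.MP_6d7bb4_G.B_KCP
import Pool.Agent.Work.MP_6d7bb4_G.B_SEM3
import Pool.Agent.Work.MP_6d7bb4_G.B_MDX3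
import Pool.Agent.Work.MP_6d7bb4_G.B_KOM2
import Pool.Agent.Work.MP_6d7bb4_G.B_DIC2
import Pool.Agent.Work.MP_6d7bb4_G.B_FIX2
import Pool.Agent.Work.MP_6d7bb4_G.B_KTG
import Pool.Agent.Work.MP_6d7bb4_G.B_KEQ
import Pool.Agent.Work.MP_6d7bb4_G.B_HWG
import Pool.Agent.Work.MP_6d7bb4_G.B_LBIk
import Pool.Agent.Work.MP_6d7bb4_G.B_LBGk
import Pool.Agent.Work.MP_6d7bb4_G.B_BW1
import Pool.Agent.Work.MP_6d7bb4_G.B_BW2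
import Pool.Agent.Work.MP_6d7bb4_G.B_BW3
import Pool.Agent.Work.MP_6d7bb4_G.B_BW4
import Pool.Agent.Work.MP_6d7bb4_G.B_TJ1k
import Pool.Agent.Work.MP_6d7bb4_G.B_TJ2k
import Pool.Agent.Work.MP_6d7bb4_G.B_TJ3k
import Pool.Agent.Work.MP_6d7bb4_G.B_VSXk
import Pool.Agent.Work.MP_6d7bb4_G.B_KPY
import Pool.Agent.Work.MP_6d7bb4_G.B_KPE
import Pool.Agent.Work.MP_6d7bb4_G.B_KTG1
import Pool.Agent.Work.MP_6d7bb4_G.B_KVS2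
import Pool.Agent.Work.MP_6d7bb4_G.B_KVSC
import Pool.Agent.Work.MP_6d7bb4_G.B_KCMV
import Pool.Agent.Work.MP_6d7bb4_G.B_KGNV
import Pool.Agent.Work.MP_6d7bb4_G.B_KTRV
import Pool.Agent.Work.MP_6d7bb4_G.B_KNCV
import Pool.Agent.Work.MP_6d7bb4_G.B_KBLK
import Pool.Agent.Work.MP_6d7bb4_G.B_LNKk
import Pool.Agent.Work.MP_6d7bb4_G.B_SYSk

set_option autoImplicit false

/-! # MP_6d7bb4: plan G (product action); assembly (helper65) -/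

namespace Pool.Agent.Work.MP_6d7bb4.h65u

open MulAction Pool.Agent.Work.MP_6d7bb4.helper94 Pool.Agent.Work.MP_6d7bb4.helper94.Sol

theorem p_DLU : Stmt_DLU := s_DLU
theorem p_ORC : Stmt_ORC := s_ORC p_TAB p_TRN p_DLU
theorem p_KLB : Stmt_KLB := s_KLB p_TAB p_ORC
theorem p_FAB : Stmt_FAB := s_FAB
theorem p_TR2 : Stmt_TR2 := s_TR2 p_FAB
theorem p_TR3 : Stmt_TR3 := s_TR3 p_TR2
theorem p_KTV : Stmt_KTV := s_KTV p_TRN p_TR2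
theorem p_KDJ : Stmt_KDJ := s_KDJ p_KTV
theorem p_KUN : Stmt_KUN := s_KUN p_KTV p_KDJ
theorem p_KLC : Stmt_KLC := s_KLC p_TAB p_KLB p_TR3
theorem p_KLE : Stmt_KLE := s_KLE p_TAB p_KLB p_KTV p_KUN p_KLC
theorem p_KGT : Stmt_KGT := s_KGT p_KUN p_KLE
theorem p_KCE : Stmt_KCE := s_KCE p_FAB p_KTV p_KUN p_KLE p_KGT
theorem p_KMI : Stmt_KMI := s_KMI p_KUN
theorem p_KCP : Stmt_KCP := s_KCP p_KUN p_KGT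
theorem p_SEM3 : Stmt_SEM3 := s_SEM3
theorem p_MDX3 : Stmt_MDX3 := s_MDX3 p_SEM3
theorem p_KOM2 : Stmt_KOM2 := s_KOM2
theorem p_DIC2 : Stmt_DIC2 := s_DIC2
theorem p_FIX2 : Stmt_FIX2 := s_FIX2
theorem p_KTG : Stmt_KTG := s_KTG p_KTC
theorem p_KEQ : Stmt_KEQ := s_KEQ p_KTC p_KOM2 p_DIC2 p_FIX2 p_KTG
theorem p_HWG : Stmt_HWG := s_HWG p_FMB p_KEQ
theorem p_LBIk : Stmt_LBIk := s_LBIk p_KLE
theorem p_LBGk : Stmt_LBGk := s_LBGk p_MDX3 p_FMB p_LBIk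
theorem p_BW1 : Stmt_BW1 := s_BW1 p_TH1
theorem p_BW2 : Stmt_BW2 := s_BW2 p_TH1 p_LBGk p_BW1
theorem p_BW3 : Stmt_BW3 := s_BW3 p_TH1 p_BW1 p_BW2
theorem p_BW4 : Stmt_BW4 := s_BW4 p_FMB p_BW1 p_BW3
theorem p_TJ1k : Stmt_TJ1k := s_TJ1k p_BST p_KLE p_BW1 p_BW4
theorem p_TJ2k : Stmt_TJ2k := s_TJ2k p_BST p_LAT p_KUN p_LBIk p_BW1 p_BW4
theorem p_TJ3k : Stmt_TJ3k := s_TJ3k p_LAT p_KGT p_KCE p_LBIk p_BW4 p_TJ2k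
theorem p_VSXk : Stmt_VSXk := s_VSXk p_FMB p_BW1 p_BW4 p_TJ3k
theorem p_KPY : Stmt_KPY := s_KPY p_KCP
theorem p_KPE : Stmt_KPE := s_KPE p_KTV
theorem p_KTG1 : Stmt_KTG1 := s_KTG1 p_KGT p_LBIk
theorem p_KVS2 : Stmt_KVS2 := s_KVS2 p_LAT p_LTC p_KPY p_KPE p_KTG1
theorem p_KVSC : Stmt_KVSC := s_KVSC p_KPY p_KPE p_KTG1 p_KVS2
theorem p_KCMV : Stmt_KCMV := s_KCMV p_QDC p_KDJ p_KUN p_KMI p_KCP p_KPY p_KTG1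
theorem p_KGNV : Stmt_KGNV := s_KGNV p_LAT p_KPY
theorem p_KTRV : Stmt_KTRV := s_KTRV p_KPY p_KPE
theorem p_KNCV : Stmt_KNCV := s_KNCV p_FAB p_KTV p_KUN p_KPY
theorem p_KBLK : Stmt_KBLK := s_KBLK p_KPY p_KPE p_KCMV p_KGNV p_KTRV p_KNCV
theorem p_LNKk : Stmt_LNKk := s_LNKk p_MDX3 p_FMB p_LAT p_LBIk p_BW1 p_BW4
theorem p_SYSk : Stmt_SYSk := s_SYSk p_QDC p_FMB p_QIX p_MDX3 p_KMI p_KGT p_KUN p_KTG1 p_KVSC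
  p_KBLK p_BW1 p_BW4 p_TJ1k p_VSXk p_LNKk

section main
variable {V : Type} {Γ : SimpleGraph V} {Ω : Type}

/-- finitely many classes, bounded stabilisers -/
theorem maing [Fintype Ω] {F : Subgroup (Equiv.Perm Ω)}
    (hF1 : ∀ a b : Ω, ∃ σ ∈ F, σ a = b)
    (hF2 : ∀ N : Subgroup (Equiv.Perm Ω), N ≤ F →
        (∀ f ∈ F, ∀ n ∈ N, f * n * f⁻¹ ∈ N) →
        ((∀ a b : Ω, ∃ σ ∈ N, σ a = b) ∨ (∀ σ ∈ N, ∀ a : Ω, σ a = a → σ = 1)))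
    (hF3 : ∀ p : ℕ, p.Prime → Cond F p ∨ CondG F p)
    (hT : Γ.IsTree) :
    ∃ S : Finset (Subgroup (Γ ≃g Γ)), ∀ H : Subgroup (Γ ≃g Γ),
      (∀ v : V, {g : Γ ≃g Γ | g ∈ H ∧ g v = v}.Finite) →
      (∀ x : V, ∃ e : Γ.neighborSet x ≃ Ω, LA Γ H F x e) →
      ((∃ g ∈ H, ∃ x y : V, Γ.Adj x y ∧ g x = y ∧ g y = x ∧ g * g = 1) ∨
        (∀ x y : V, ∃ g ∈ H, g x = y)) →
      (∃ K ∈ S, ∃ a : Γ ≃g Γ, H = K.map (MulAut.conj a).toMonoidHom) ∧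
      ∀ v : V, Nat.card {g : Γ ≃g Γ // g ∈ H ∧ g v = v} ≤ bndu (Fintype.card Ω) :=
  psvg p_FIW p_BAU1 p_SYS p_BU1 p_SYU p_VTF p_CDU t_FIWg p_BW1 p_SYSk p_HWG hF1 hF2 hF3 hT

end main

end Pool.Agent.Work.MP_6d7bb4.h65u
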