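import Pool.Agent.Work.MP_6d7bb4_G.InterfaceT

/-! # MP_6d7bb4: plan G; block CTU, condition (T) excludes offenders -/

set_option autoImplicit false
set_option linter.unusedSectionVars false

namespace Pool.Agent.Work.MP_6d7bb4.h65u

open MulAction
open Pool.Agent.Work.MP_6d7bb4.helper94 Pool.Agent.Work.MP_6d7bb4.helper94.Sol
open Tv Ff Ps
open scoped commutatorElement

namespace X_CTU

theorem cm_of_cen {G : Type*} [Group G] {K : Subgroup G} {x : G} :
    x ∈ Subgroup.centralizer (K : Set G) ↔ Cm K x := by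
  rw [Subgroup.mem_centralizer_iff]
  constructor
  · intro h k hk
    exact (h k hk).symm
  · intro h k hk
    exact (h k hk).symm

theorem cm_one {G : Type*} [Group G] (K : Subgroup G) : Cm K (1 : G) := by
  intro k _
  rw [one_mul, mul_one]

section kps
variable {Ω : Type} {F : Subgroup (Equiv.Perm Ω)} {𝒩 : Set (Subgroup (Equiv.Perm Ω))}
  {X : Type} [Group X] {π : X →* Equiv.Perm Ω} {U : Type} [AddCommGroup U] {ψ : X →* Un U}
  {P : Ω → Subgroup X} {κ : Subgroup (Equiv.Perm Ω) → Subgroup (Un U)}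

/-- elements with the same image in `T` differ by a central element -/
theorem same (hκ : Kps 𝒩 π ψ P κ) {T : Subgroup (Equiv.Perm Ω)} (hT : T ∈ 𝒩) {g g' : X}
    (h : π g = π g') : Cm (κ T) (ψ (g⁻¹ * g')) := by
  rw [hκ.ce T hT]
  intro t _
  rw [map_mul, map_inv, h, inv_mul_cancel, one_mul, mul_one]

/-- the groups are quasisimple -/
theorem qsm (hN : Qhy F 𝒩) (hκ : Kps 𝒩 π ψ P κ) {T : Subgroup (Equiv.Perm Ω)} (hT : T ∈ 𝒩)
    (M : Subgroup (Un U)) (hM : M ≤ κ T) (hn : Nm (κ T) M) :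
    M = κ T ∨ ∀ m ∈ M, Cm (κ T) m := by
  rcases hN.qs T hT ((M.comap ψ ⊓ T.comap π).map π) (by
    rintro _ ⟨g, hg, rfl⟩
    exact hg.2) (by
    rintro t ht _ ⟨g, hg, rfl⟩
    obtain ⟨h, hh, hhk⟩ := hκ.lf T hT t ht
    refine ⟨h * g * h⁻¹, ⟨?_, ?_⟩, ?_⟩
    · show ψ (h * g * h⁻¹) ∈ M
      rw [map_mul, map_mul, map_inv]
      exact hn _ hhk _ hg.1
    · show π (h * g * h⁻¹) ∈ T
      rw [map_mul, map_mul, map_inv, hh]
      exact mul_mem (mul_mem ht hg.2) (inv_mem ht)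
    · rw [map_mul, map_mul, map_inv, hh]) with h | h
  · left
    refine le_antisymm hM ?_
    have hdec : ∀ k ∈ κ T, ∃ m ∈ M, ∃ z, z ∈ κ T ∧ Cm (κ T) z ∧ k = m * z := by
      intro k hk
      obtain ⟨g', hg', hgT⟩ := hκ.dn T hT k hk
      rw [← h] at hgT
      obtain ⟨g, hg, hgg⟩ := hgT
      have h1 := same hκ hT hgg
      refine ⟨ψ g, hg.1, ψ (g⁻¹ * g'), ?_, h1, ?_⟩
      · rw [map_mul, map_inv, hg']
        exact mul_mem (inv_mem (hM hg.1)) hk
      · rw [← map_mul, mul_inv_cancel_left, hg']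
    rw [← hκ.pf T hT, Subgroup.commutator_le]
    intro k hk l hl
    obtain ⟨m, hm, z, hz, hzc, rfl⟩ := hdec k hk
    obtain ⟨m', hm', z', hz', hzc', rfl⟩ := hdec l hl
    have h1 : ⁅m * z, m' * z'⁆ = m * m' * m⁻¹ * m'⁻¹ := by
      rw [commutatorElement_def]
      have e1 : z * m' = m' * z := hzc m' (hM hm')
      have e2 : z * z' = z' * z := hzc z' hz'
      have e3 : z' * m⁻¹ = m⁻¹ * z' := hzc' m⁻¹ (inv_mem (hM hm))
      calc m * z * (m' * z') * (m * z)⁻¹ * (m' * z')⁻¹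
          = m * (z * m') * z' * z⁻¹ * m⁻¹ * z'⁻¹ * m'⁻¹ := by group
        _ = m * m' * (z * z') * z⁻¹ * m⁻¹ * z'⁻¹ * m'⁻¹ := by rw [e1]; group
        _ = m * m' * (z' * m⁻¹) * z'⁻¹ * m'⁻¹ := by rw [e2]; group
        _ = m * m' * m⁻¹ * m'⁻¹ := by rw [e3]; group
    rw [h1]
    exact mul_mem (mul_mem (mul_mem hm hm') (inv_mem hm)) (inv_mem hm')
  · right
    intro m hm
    obtain ⟨g, rfl, hgT⟩ := hκ.dn T hT m (hM hm)
    rw [hκ.ce T hT]
    exact h (π g) ⟨g, ⟨hm, hgT⟩, rfl⟩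

/-- the index of the centre -/
theorem idx [Finite X] (hκ : Kps 𝒩 π ψ P κ) {T : Subgroup (Equiv.Perm Ω)} (hT : T ∈ 𝒩)
    (hTf : Finite T) :
    (Subgroup.centralizer (κ T : Set (Un U))).relIndex (κ T) ≤ Nat.card T := by
  choose g hg hgT using hκ.dn T hT
  have h1 : Function.Injective
      (fun x : (κ T) ⧸ (Subgroup.centralizer (κ T : Set (Un U))).subgroupOf (κ T) =>
        (⟨π (g x.out.1 x.out.2), hgT x.out.1 x.out.2⟩ : T)) := by
    intro x y hxy
    have h2 : π (g x.out.1 x.out.2) = π (g y.out.1 y.out.2) := congrArg Subtype.val hxy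
    have h3 := same hκ hT h2
    rw [map_mul, map_inv, hg, hg] at h3
    rw [← QuotientGroup.out_eq' x, ← QuotientGroup.out_eq' y, QuotientGroup.eq,
      Subgroup.mem_subgroupOf, cm_of_cen]
    exact h3
  exact Nat.card_le_card_of_injective _ h1

end kps

end X_CTU

open X_CTU in
theorem s_CTU (hKEQ0 : Stmt_KEQ0) (hTLB : Stmt_TLB) (hKLD : Stmt_KLD) : Stmt_CTU := by
  intro Ω F p _ hF
  obtain ⟨𝒩, hN, hT⟩ := hF
  intro X _ _ π hπ ω Y P hY hP S _ _ ρ A hAP hOff
  exfalso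
  have hYo : ∀ (ω : Ω) (x : X), x ∈ Yo π ω ↔ π x ω = ω := fun ω x => Iff.rfl
  have hYY : Y = Yo π ω := by
    ext x
    rw [hY, hYo]
  have hO : ∀ ω', IsOp p (Yo π ω') (O p (Yo π ω')) := fun ω' =>
    ⟨O_le p _, O_nm _, O_isP _, fun N h1 h2 h3 => le_O h1 h2 h3⟩
  have hAO : ∀ a ∈ A, a ∈ O p (Yo π ω) := by
    intro a ha
    rw [← hYY]
    exact le_O hP.le hP.nm hP.pg (hAP ha)
  have hfe : Finite (AddMonoid.End S) :=
    Finite.of_injective (fun f : AddMonoid.End S => (f : S → S)) DFunLike.coe_injective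
  have hfu : Finite (Un S) :=
    Finite.of_injective (fun u : Un S => (u : AddMonoid.End S)) Units.val_injective
  obtain ⟨ψ, hψ⟩ : ∃ ψ : X →* Un S, ψ = ρ.toHomUnits := ⟨_, rfl⟩
  have hval : ∀ x, ((ψ x : Un S) : AddMonoid.End S) = ρ x := by
    intro x
    rw [hψ, MonoidHom.coe_toHomUnits]
  have hcomp : (Units.coeHom (AddMonoid.End S)).comp ψ = ρ := by
    apply MonoidHom.ext
    intro x
    exact hval x
  have hNP : NP p ((Units.coeHom (AddMonoid.End S)).comp ψ) := by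
    rw [hcomp]
    intro N hNn hNp
    exact Ps.irr_act (Fact.out : p.Prime) hOff.ex ρ hOff.irr N hNn hNp
  obtain ⟨a0, ha0, ha0n⟩ := hOff.nt
  have ha0ψ : ψ a0 ≠ 1 := by
    intro h
    apply ha0n
    rw [← hval, h, Units.val_one]
  obtain ⟨κ, hκ⟩ := hKEQ0 Ω F p 𝒩 hN X π hπ S ψ hNP (fun ω' => O p (Yo π ω')) hO
    ⟨ω, a0, hAO a0 ha0, ha0ψ⟩
  have hπF : ∀ x : X, π x ∈ F := fun x => by
    rw [← hπ]
    exact ⟨x, rfl⟩
  have hFf : Finite F := by
    rw [← hπ]
    exact Set.finite_range π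
  have hmain := hKLD p (Un S) S (Units.coeHom (AddMonoid.End S)) {K | ∃ T ∈ 𝒩, K = κ T}
    (A.map ψ) ⊥ hOff.ex
    (by
      rintro _ ⟨a, ha, rfl⟩ _ ⟨b, hb, rfl⟩
      rw [← map_mul, hOff.ab a ha b hb, map_mul])
    (by
      rintro _ ⟨a, ha, rfl⟩
      rw [← map_pow, hOff.pw a ha, map_one])
    (by
      rintro _ ⟨T, hTN, rfl⟩
      refine ⟨hκ.pf T hTN, ?_⟩
      obtain ⟨k, hk, hk1⟩ := (Subgroup.bot_or_exists_ne_one (κ T)).resolve_left (hκ.ne T hTN)
      exact ⟨k, hk, fun h => hk1 (Units.ext h)⟩)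
    (by
      rintro _ ⟨T, hTN, rfl⟩ _ ⟨a, ha, rfl⟩
      exact ⟨cj (π a) T, hN.cl T hTN _ (hπF a), hκ.eq T hTN a⟩)
    (by
      rintro _ ⟨T, hTN, rfl⟩ _ ⟨T', hTN', rfl⟩ hne
      exact hκ.cm T hTN T' hTN' fun h => hne (by rw [h]))
    (by
      rintro _ ⟨T, hTN, rfl⟩ A1 hA1 hA1n hA1c W _ _ κW αW hWex hWeq hWnt
      obtain ⟨c, r, u, hr, hrp, huT, hur, ⟨t0, ht0, hut0⟩, hc, hlt⟩ := hT T hTN
      have : Fact r.Prime := ⟨hr⟩
      have hTf : Finite T := Finite.of_injective _ (Subgroup.inclusion_injective (hN.le T hTN))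
      obtain ⟨g, hg, hgK⟩ := hκ.lf T hTN u huT
      refine hTLB p r hrp (Un S) (κ T) A1 c (Nat.card T) (ψ g) (hκ.pf T hTN)
        (qsm hN hκ hTN) (idx hκ hTN hTf) ?_ ?_ hA1n hA1c ?_ ?_ hgK ?_ ?_ ?_ W κW αW hWex hWeq
        hWnt
      · intro a ha b hb
        obtain ⟨a', ha', rfl⟩ := hA1 ha
        obtain ⟨b', hb', rfl⟩ := hA1 hb
        rw [← map_mul, hOff.ab a' ha' b' hb', map_mul]
      · intro a ha
        obtain ⟨a', ha', rfl⟩ := hA1 ha
        rw [← map_pow, hOff.pw a' ha', map_one]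
      · intro a ha hac
        have h1 := hA1n a ha
        obtain ⟨a', ha', rfl⟩ := hA1 ha
        rw [hκ.eq T hTN] at h1
        exact hκ.qs T hTN a' (hκ.ij _ (hN.cl T hTN _ (hπF a')) T hTN h1) hac
      · -- the index in `A1`
        have h1 : (A ⊓ A1.comap ψ).map ψ = A1 := by
          refine le_antisymm ?_ ?_
          · rintro _ ⟨a, ha, rfl⟩
            exact ha.2
          · intro a ha
            obtain ⟨a', ha', rfl⟩ := hA1 ha
            exact ⟨a', ⟨ha', ha⟩, rfl⟩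
        have h2 : (Subgroup.centralizer (κ T : Set (Un S))).comap ψ =
            (Subgroup.centralizer (T : Set (Equiv.Perm Ω))).comap π := by
          ext x
          rw [Subgroup.mem_comap, Subgroup.mem_comap, cm_of_cen, cm_of_cen]
          exact hκ.ce T hTN x
        rw [← h1, ← Subgroup.relIndex_comap, h2, Subgroup.relIndex_comap]
        refine hc ω (P.map π) ((A ⊓ A1.comap ψ).map π) ?_ ?_ ?_ ?_ ?_ ?_ ?_ ?_
        · rw [← hπ]
          exact Subgroup.map_le_range π P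
        · rintro _ ⟨b, hb, rfl⟩
          exact (hY b).mp (hP.le hb)
        · rintro f hf hfω _ ⟨b, hb, rfl⟩
          rw [← hπ] at hf
          obtain ⟨x, rfl⟩ := hf
          refine ⟨x * b * x⁻¹, hP.nm x ((hY x).mpr hfω) b hb, ?_⟩
          rw [map_mul, map_mul, map_inv]
        · exact hP.pg.map π
        · exact Subgroup.map_mono (inf_le_left.trans hAP)
        · rintro _ ⟨a, ha, rfl⟩ _ ⟨b, hb, rfl⟩
          rw [← map_mul, hOff.ab a ha.1 b hb.1, map_mul]
        · rintro _ ⟨a, ha, rfl⟩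
          rw [← map_pow, hOff.pw a ha.1, map_one]
        · rintro _ ⟨a, ha, rfl⟩
          have h3 := hA1n (ψ a) ha.2
          rw [hκ.eq T hTN] at h3
          exact hκ.ij _ (hN.cl T hTN _ (hπF a)) T hTN h3
      · rw [hκ.ce T hTN]
        intro h
        apply hut0
        rw [← hg]
        exact h t0 ht0
      · rw [← map_pow, hκ.ce T hTN]
        intro t _
        rw [map_pow, hg, hur, one_mul, mul_one]
      · refine lt_of_lt_of_le hlt (Subgroup.card_le_of_le ?_)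
        refine Subgroup.closure_mono (Set.union_subset_union_right _ ?_)
        rintro i ⟨t, ht, h⟩
        obtain ⟨x, hx, hxK⟩ := hκ.lf T hTN t ht
        refine ⟨ψ x, hxK, ?_⟩
        rw [← map_mul, ← map_inv, ← map_mul, ← map_pow, ← map_inv, ← map_mul, hκ.ce T hTN]
        intro s _
        have h1 : π (x * g * x⁻¹ * (g ^ (i : ZMod r).val)⁻¹) = 1 := by
          rw [map_mul, map_mul, map_mul, map_inv, map_inv, map_pow, hx, hg, h, mul_inv_cancel]
        rw [h1, one_mul, mul_one])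
    (by
      rintro _ ⟨a, ha, rfl⟩ hall
      rw [Subgroup.mem_bot]
      exact hκ.fa ω a (hAO a ha) fun T hTN => hall _ ⟨T, hTN, rfl⟩)
    bot_le
    (by
      intro h
      apply ha0ψ
      have h1 : ψ a0 ∈ A.map ψ := ⟨a0, ha0, rfl⟩
      rw [← h, Subgroup.mem_bot] at h1
      exact h1)
  have hfb : FixedBy (Units.coeHom (AddMonoid.End S)) (A.map ψ) = FixedBy ρ A := by
    ext s
    rw [mem_FixedBy, mem_FixedBy]
    constructor
    · intro h a ha
      rw [← hval]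
      exact h (ψ a) ⟨a, ha, rfl⟩
    · rintro h _ ⟨a, ha, rfl⟩
      show ((ψ a : Un S) : AddMonoid.End S) s = s
      rw [hval]
      exact h a ha
  have hker : ρ.ker = ψ.ker := by
    ext x
    rw [MonoidHom.mem_ker, MonoidHom.mem_ker]
    constructor
    · intro h
      apply Units.ext
      rw [hval x, h]
      rfl
    · intro h
      rw [← hval x, h]
      rfl
  rw [Subgroup.relIndex_bot_left, hfb] at hmain
  have h2 := hOff.of
  rw [hker, Subgroup.relIndex_ker] at h2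
  omega

end Pool.Agent.Work.MP_6d7bb4.h65u
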