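import Pool.Agent.Work.MP_6d7bb4_G.InterfaceT

set_option autoImplicit false
set_option linter.unusedSectionVars false

/-! # MP_6d7bb4, plan G: block DIC3 (helper18; adapted from DIC2) -/

namespace Pool.Agent.Work.MP_6d7bb4.h65u

open MulAction
open Pool.Agent.Work.MP_6d7bb4.helper94 Pool.Agent.Work.MP_6d7bb4.helper94.Sol
open Tv Ff Ps
open scoped commutatorElement

namespace X_DIC3

theorem com_central {G : Type} [Group G] {T : Subgroup G} {c d s t : G} (hs : s ∈ T) (ht : t ∈ T)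
    (hc : ∀ x ∈ T, c * x = x * c) (hd : ∀ x ∈ T, d * x = x * d) (hdT : d ∈ T) :
    (c * s) * (d * t) * (c * s)⁻¹ * (d * t)⁻¹ = s * t * s⁻¹ * t⁻¹ := by
  have h1 : (c * s) * (d * t) = (c * d) * (s * t) := by
    calc (c * s) * (d * t) = c * (s * d) * t := by group
      _ = c * (d * s) * t := by rw [hd s hs]
      _ = (c * d) * (s * t) := by group
  have h2 : (d * t) * (c * s) = (c * d) * (t * s) := by
    calc (d * t) * (c * s) = d * (t * c) * s := by group
      _ = d * (c * t) * s := by rw [hc t ht]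
      _ = (d * c) * (t * s) := by group
      _ = (c * d) * (t * s) := by rw [hc d hdT]
  have h3 : (c * s) * (d * t) * (c * s)⁻¹ * (d * t)⁻¹ =
      ((c * s) * (d * t)) * ((d * t) * (c * s))⁻¹ := by group
  have h4 : (s * t) * (t * s)⁻¹ ∈ T :=
    T.mul_mem (T.mul_mem hs ht) (T.inv_mem (T.mul_mem ht hs))
  have h5 : (c * d) * ((s * t) * (t * s)⁻¹) = ((s * t) * (t * s)⁻¹) * (c * d) := by
    calc (c * d) * ((s * t) * (t * s)⁻¹) = c * (d * ((s * t) * (t * s)⁻¹)) := by group
      _ = c * (((s * t) * (t * s)⁻¹) * d) := by rw [hd _ h4]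
      _ = (c * ((s * t) * (t * s)⁻¹)) * d := by group
      _ = (((s * t) * (t * s)⁻¹) * c) * d := by rw [hc _ h4]
      _ = ((s * t) * (t * s)⁻¹) * (c * d) := by group
  rw [h3, h1, h2]
  calc (c * d) * (s * t) * ((c * d) * (t * s))⁻¹
      = ((c * d) * ((s * t) * (t * s)⁻¹)) * (c * d)⁻¹ := by group
    _ = (((s * t) * (t * s)⁻¹) * (c * d)) * (c * d)⁻¹ := by rw [h5]
    _ = s * t * s⁻¹ * t⁻¹ := by group

end X_DIC3

open X_DIC3 in
theorem s_DIC3 : Stmt_DIC3 := by
  intro Ω F 𝒩 hG X _ π hπ R hR T hT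
  have hF : ∀ f ∈ F, ∃ x : X, π x = f := by
    intro f hf
    rw [← hπ] at hf
    exact hf
  have hnm : ∀ f ∈ F, ∀ m ∈ R.map π, f * m * f⁻¹ ∈ R.map π := by
    intro f hf m hm
    obtain ⟨x, rfl⟩ := hF f hf
    obtain ⟨r, hr, rfl⟩ := hm
    refine ⟨x * r * x⁻¹, hR.conj_mem r hr x, ?_⟩
    simp [map_mul, map_inv]
  have hgF : ∀ g : X, π g ∈ F := by
    intro g
    rw [← hπ]
    exact ⟨g, rfl⟩
  have hTF := hG.le T hT
  have hpf := hG.pf T hT
  rcases hG.qs T hT (T ⊓ R.map π) inf_le_left (fun t ht m hm =>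
      ⟨T.mul_mem (T.mul_mem ht hm.1) (T.inv_mem ht), hnm t (hTF ht) m hm.2⟩) with h | h
  · left
    rw [← h]
    exact inf_le_right
  · right
    intro g hg t ht
    have hgm : π g ∈ R.map π := ⟨g, hg, rfl⟩
    by_cases hc : cj (π g) T = T
    · -- every commutator of elements of `T` commutes with `π g`
      have hcen : ∀ x ∈ T, π g * x * (π g)⁻¹ * x⁻¹ ∈ T ⊓ R.map π := by
        intro x hx
        constructor
        · have h1 : π g * x * (π g)⁻¹ ∈ T := by
            have := conj_mem_cj (g := π g) hx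
            rwa [hc] at this
          exact T.mul_mem h1 (T.inv_mem hx)
        · have e : π g * x * (π g)⁻¹ * x⁻¹ = π g * (x * (π g)⁻¹ * x⁻¹) := by group
          rw [e]
          exact (R.map π).mul_mem hgm (hnm x (hTF hx) _ ((R.map π).inv_mem hgm))
      have hle : ⁅T, T⁆ ≤ Subgroup.centralizer {π g} := by
        rw [Subgroup.commutator_le]
        intro s hs t ht
        rw [Subgroup.mem_centralizer_singleton_iff]
        have hcs := hcen s hs
        have hct := hcen t ht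
        have e1 : π g * s * (π g)⁻¹ = (π g * s * (π g)⁻¹ * s⁻¹) * s := by group
        have e2 : π g * t * (π g)⁻¹ = (π g * t * (π g)⁻¹ * t⁻¹) * t := by group
        have e3 : π g * (s * t * s⁻¹ * t⁻¹) * (π g)⁻¹ =
            (π g * s * (π g)⁻¹) * (π g * t * (π g)⁻¹) * (π g * s * (π g)⁻¹)⁻¹ *
              (π g * t * (π g)⁻¹)⁻¹ := by group
        rw [e1, e2, com_central hs ht (h _ hcs) (h _ hct) hct.1] at e3
        rw [commutatorElement_def]
        have e4 : s * t * s⁻¹ * t⁻¹ * π g =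
            (π g * (s * t * s⁻¹ * t⁻¹) * (π g)⁻¹) * π g := by rw [e3]
        rw [e4]
        group
      rw [hpf] at hle
      have h1 := hle ht
      rw [Subgroup.mem_centralizer_singleton_iff] at h1
      exact h1.symm
    · exfalso
      have hT' : cj (π g) T ∈ 𝒩 := hG.cl T hT _ (hgF g)
      have key : ∀ s ∈ T, ∀ t ∈ T, s * t * s⁻¹ * t⁻¹ ∈ T ⊓ R.map π := by
        intro s hsT t htT
        have ht' : π g * t⁻¹ * (π g)⁻¹ ∈ cj (π g) T := conj_mem_cj (T.inv_mem htT)
        have hcm := hG.cm T hT _ hT' (fun h => hc h.symm) s hsT _ ht'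
        set t' := π g * t⁻¹ * (π g)⁻¹ with ht'd
        have hcM : t * t' ∈ R.map π := by
          have e : t * t' = (t * π g * t⁻¹) * (π g)⁻¹ := by rw [ht'd]; group
          rw [e]
          exact (R.map π).mul_mem (hnm t (hTF htT) _ hgm) ((R.map π).inv_mem hgm)
        have h1 : s * (t * t') * s⁻¹ * (t * t')⁻¹ ∈ R.map π :=
          (R.map π).mul_mem (hnm s (hTF hsT) _ hcM) ((R.map π).inv_mem hcM)
        have h2 : s * (t * t') * s⁻¹ * (t * t')⁻¹ = s * t * s⁻¹ * t⁻¹ := by
          have h3 : t' * s⁻¹ = s⁻¹ * t' := by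
            have : s⁻¹ * (s * t') * s⁻¹ = s⁻¹ * (t' * s) * s⁻¹ := by rw [hcm]
            calc t' * s⁻¹ = s⁻¹ * (s * t') * s⁻¹ := by group
              _ = s⁻¹ * (t' * s) * s⁻¹ := this
              _ = s⁻¹ * t' := by group
          calc s * (t * t') * s⁻¹ * (t * t')⁻¹ = s * t * (t' * s⁻¹) * t'⁻¹ * t⁻¹ := by group
            _ = s * t * (s⁻¹ * t') * t'⁻¹ * t⁻¹ := by rw [h3]
            _ = s * t * s⁻¹ * t⁻¹ := by group
        rw [h2] at h1
        exact ⟨T.mul_mem (T.mul_mem (T.mul_mem hsT htT) (T.inv_mem hsT)) (T.inv_mem htT), h1⟩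
      have hle : ⁅T, T⁆ ≤ T ⊓ R.map π := by
        rw [Subgroup.commutator_le]
        intro s hs t ht
        rw [commutatorElement_def]
        exact key s hs t ht
      have hcomm : ⁅T, T⁆ = ⊥ := by
        rw [eq_bot_iff, Subgroup.commutator_le]
        intro s hs t ht
        rw [Subgroup.mem_bot, commutatorElement_eq_one_iff_mul_comm]
        rw [hpf] at hle
        exact h s (hle hs) t ht
      exact hG.ne T hT (hpf.symm.trans hcomm)

end Pool.Agent.Work.MP_6d7bb4.h65u
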