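import Pool.Agent.Work.MP_6d7bb4_G.InterfaceT

set_option autoImplicit false
set_option linter.unusedSectionVars false

/-! # Block EGT (helper1): eigenvalues -/

namespace Pool.Agent.Work.MP_6d7bb4.h65u

open MulAction
open Pool.Agent.Work.MP_6d7bb4.helper94 Pool.Agent.Work.MP_6d7bb4.helper94.Sol
open Tv Ff Ps

namespace X_EGT

section size

variable {S : Type} [AddCommGroup S] [Finite S]

theorem finEnd : Finite (AddMonoid.End S) :=
  Finite.of_injective (fun f : AddMonoid.End S => (f : S → S)) (fun _ _ h => DFunLike.coe_injective h)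

theorem size' {p : ℕ} [hp : Fact p.Prime] [Module (ZMod p) S] {n : ℕ}
    (hn : Nat.card S = p ^ n) : Nat.card (AddMonoid.End S) ≤ p ^ n ^ 2 := by
  classical
  have hfin : Module.Finite (ZMod p) S := Module.Finite.of_finite
  let b := Module.finBasis (ZMod p) S
  have h1 : Nat.card S = p ^ Module.finrank (ZMod p) S := by
    have h2 := Module.natCard_eq_pow_finrank (K := ZMod p) (V := S)
    rwa [Nat.card_zmod] at h2
  have h2 : Module.finrank (ZMod p) S = n :=
    Nat.pow_right_injective hp.out.two_le (h1.symm.trans hn)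
  have hinj : Function.Injective (fun (f : AddMonoid.End S) (i : Fin (Module.finrank (ZMod p) S)) =>
      f (b i)) := by
    intro f g hfg
    have h3 : AddMonoidHom.toZModLinearMap p (f : S →+ S) =
        AddMonoidHom.toZModLinearMap p (g : S →+ S) := by
      refine b.ext fun i => ?_
      exact congrFun hfg i
    refine AddMonoidHom.ext fun s => ?_
    exact congrArg (fun l : S →ₗ[ZMod p] S => l s) h3
  have h4 := Nat.card_le_card_of_injective _ hinj
  rw [Nat.card_fun, hn, Nat.card_fin, h2, ← pow_mul, ← pow_two] at h4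
  exact h4

theorem size {p : ℕ} [hp : Fact p.Prime] (hpS : ∀ s : S, p • s = 0) {n : ℕ}
    (hn : Nat.card S = p ^ n) : Nat.card (AddMonoid.End S) ≤ p ^ n ^ 2 := by
  let inst : Module (ZMod p) S := AddCommGroup.zmodModule hpS
  exact size' hn

end size

section act

variable {S : Type} [AddCommGroup S] (K : Subgroup (Un S))

/-- the maps which commute with the centre of `K` -/
def U2 : AddSubgroup (AddMonoid.End S) where
  carrier := {f | ∀ z ∈ K, Cm K z → (z : AddMonoid.End S) * f = f * (z : AddMonoid.End S)}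
  zero_mem' := fun k _ _ => by rw [mul_zero, zero_mul]
  add_mem' := by
    intro f g hf hg k hk hk'
    rw [mul_add, add_mul, hf k hk hk', hg k hk hk']
  neg_mem' := by
    intro f hf k hk hk'
    rw [mul_neg, neg_mul, hf k hk hk']

theorem val_inv (k : Un S) : (k : AddMonoid.End S) * ((k⁻¹ : Un S) : AddMonoid.End S) = 1 := by
  rw [← Units.val_mul, mul_inv_cancel, Units.val_one]

theorem inv_val (k : Un S) : ((k⁻¹ : Un S) : AddMonoid.End S) * (k : AddMonoid.End S) = 1 := by
  rw [← Units.val_mul, inv_mul_cancel, Units.val_one]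

theorem U2_conj {k : Un S} (hk : k ∈ K) {f : AddMonoid.End S} (hf : f ∈ U2 K) :
    (k : AddMonoid.End S) * f * ((k⁻¹ : Un S) : AddMonoid.End S) ∈ U2 K := by
  intro z hz hz'
  have h1 := hf z hz hz'
  have h2 : (z : AddMonoid.End S) * (k : AddMonoid.End S) =
      (k : AddMonoid.End S) * (z : AddMonoid.End S) := by
    rw [← Units.val_mul, ← Units.val_mul, hz' k hk]
  have h3 : (z : AddMonoid.End S) * ((k⁻¹ : Un S) : AddMonoid.End S) =
      ((k⁻¹ : Un S) : AddMonoid.End S) * (z : AddMonoid.End S) := by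
    rw [← Units.val_mul, ← Units.val_mul, hz' k⁻¹ (K.inv_mem hk)]
  calc (z : AddMonoid.End S) * ((k : AddMonoid.End S) * f * ((k⁻¹ : Un S) : AddMonoid.End S)) =
      ((z : AddMonoid.End S) * (k : AddMonoid.End S)) * f *
        ((k⁻¹ : Un S) : AddMonoid.End S) := by simp only [mul_assoc]
    _ = (k : AddMonoid.End S) * ((z : AddMonoid.End S) * f) *
        ((k⁻¹ : Un S) : AddMonoid.End S) := by rw [h2]; simp only [mul_assoc]
    _ = (k : AddMonoid.End S) * f * ((z : AddMonoid.End S) *
        ((k⁻¹ : Un S) : AddMonoid.End S)) := by rw [h1]; simp only [mul_assoc]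
    _ = _ := by rw [h3]; simp only [mul_assoc]

/-- the action by conjugation -/
def act : K →* AddMonoid.End (U2 K) where
  toFun x :=
    { toFun := fun f => ⟨(x.1 : AddMonoid.End S) * f.1 * ((x.1⁻¹ : Un S) : AddMonoid.End S),
        U2_conj K x.2 f.2⟩
      map_zero' := Subtype.ext (by
        show (x.1 : AddMonoid.End S) * 0 * ((x.1⁻¹ : Un S) : AddMonoid.End S) = 0
        rw [mul_zero, zero_mul])
      map_add' := fun f g => Subtype.ext (by
        show (x.1 : AddMonoid.End S) * (f.1 + g.1) * ((x.1⁻¹ : Un S) : AddMonoid.End S) =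
          (x.1 : AddMonoid.End S) * f.1 * ((x.1⁻¹ : Un S) : AddMonoid.End S) +
            (x.1 : AddMonoid.End S) * g.1 * ((x.1⁻¹ : Un S) : AddMonoid.End S)
        rw [mul_add, add_mul]) }
  map_one' := by
    refine AddMonoidHom.ext fun f => Subtype.ext ?_
    show ((1 : Un S) : AddMonoid.End S) * f.1 * (((1 : Un S)⁻¹ : Un S) : AddMonoid.End S) = f.1
    rw [inv_one, Units.val_one, one_mul, mul_one]
  map_mul' := by
    intro x y
    refine AddMonoidHom.ext fun f => Subtype.ext ?_
    show ((x.1 * y.1 : Un S) : AddMonoid.End S) * f.1 *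
        (((x.1 * y.1)⁻¹ : Un S) : AddMonoid.End S) =
      (x.1 : AddMonoid.End S) * ((y.1 : AddMonoid.End S) * f.1 *
        ((y.1⁻¹ : Un S) : AddMonoid.End S)) * ((x.1⁻¹ : Un S) : AddMonoid.End S)
    rw [mul_inv_rev, Units.val_mul, Units.val_mul]
    simp only [mul_assoc]

theorem act_ker {z : K} (hz : Cm K z.1) : act K z = 1 := by
  refine AddMonoidHom.ext fun f => Subtype.ext ?_
  show (z.1 : AddMonoid.End S) * f.1 * ((z.1⁻¹ : Un S) : AddMonoid.End S) = f.1
  rw [f.2 z.1 z.2 hz, mul_assoc, val_inv, mul_one]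

theorem act_ker' {z : K} (hz : Cm K z.1) : (act K).toHomUnits z = 1 :=
  Units.ext (act_ker K hz)

end act

end X_EGT

open X_EGT in
theorem s_EGT (hEIG : Stmt_EIG) : Stmt_EGT := by
  classical
  intro p r _ _ hrp S _ _ hpS K v hv hnc hvr n hn
  have hfin : Finite (AddMonoid.End S) := finEnd
  have hU2 : ∀ f : U2 K, p • f = 0 := by
    intro f
    refine Subtype.ext (AddMonoidHom.ext fun s => ?_)
    show ((p • f : U2 K) : AddMonoid.End S) s = 0
    rw [AddSubgroup.coe_nsmul]
    exact hpS (f.1 s)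
  have hg1 : (act K).toHomUnits ⟨v, hv⟩ ≠ 1 := by
    intro hg
    apply hnc
    intro k hk
    have hmem : (k : AddMonoid.End S) ∈ U2 K := by
      intro z _ hz'
      rw [← Units.val_mul, ← Units.val_mul, hz' k hk]
    have hg' : act K ⟨v, hv⟩ = 1 := congrArg Units.val hg
    have h1 : (v : AddMonoid.End S) * (k : AddMonoid.End S) * ((v⁻¹ : Un S) : AddMonoid.End S) =
        (k : AddMonoid.End S) := by
      have h2 : (act K ⟨v, hv⟩ ⟨_, hmem⟩).1 = (k : AddMonoid.End S) := by
        rw [hg']
        rfl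
      exact h2
    apply Units.ext
    rw [Units.val_mul, Units.val_mul]
    calc (v : AddMonoid.End S) * (k : AddMonoid.End S) =
        ((v : AddMonoid.End S) * (k : AddMonoid.End S) * ((v⁻¹ : Un S) : AddMonoid.End S)) *
          (v : AddMonoid.End S) := by rw [mul_assoc _ _ (v : AddMonoid.End S), inv_val, mul_one]
      _ = (k : AddMonoid.End S) * (v : AddMonoid.End S) := by rw [h1]
  have hgr : (act K).toHomUnits ⟨v, hv⟩ ^ r = 1 := by
    rw [← map_pow]
    exact act_ker' K hvr
  have h1 := hEIG p r hrp (U2 K) hU2 _ hg1 hgr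
  have h2 : Nat.card (U2 K) ≤ p ^ n ^ 2 :=
    (Nat.card_le_card_of_injective (fun f : U2 K => f.1) Subtype.val_injective).trans
      (size hpS hn)
  have h3 := (Nat.pow_le_pow_iff_right (Fact.out : p.Prime).one_lt).mp (h1.trans h2)
  refine le_trans ?_ h3
  refine Subgroup.card_le_of_le (Subgroup.closure_mono ?_)
  rintro i (hi | ⟨k, hk, hc⟩)
  · exact Or.inl hi
  · right
    refine ⟨(act K).toHomUnits ⟨k, hk⟩, ?_⟩
    rw [← mul_inv_eq_one, ← map_pow, ← map_mul, ← map_inv, ← map_mul, ← map_inv, ← map_mul]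
    exact act_ker' K hc

end Pool.Agent.Work.MP_6d7bb4.h65u
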