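import Pool.Agent.Work.MP_6d7bb4_G.InterfaceT

/-! # MP_6d7bb4: plan G, part 3; block KEQq, the component environment of a module -/

set_option autoImplicit false
set_option linter.unusedSectionVars false

namespace Pool.Agent.Work.MP_6d7bb4.h65u

open MulAction
open Pool.Agent.Work.MP_6d7bb4.helper94 Pool.Agent.Work.MP_6d7bb4.helper94.Sol
open Tv Ff Ps

theorem s_KEQq (hKEQ0 : Stmt_KEQ0) : Stmt_KEQq := by
  intro Ω F p _ hG X _ _ π hπ U _ _ ψ hNP hss P hP hex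
  obtain ⟨𝒩, hN, hn5⟩ := hG
  obtain ⟨κ, hκ⟩ := hKEQ0 Ω F p 𝒩 hN X π hπ U ψ hNP P hP hex
  have hπF : ∀ x : X, π x ∈ F := fun x => by rw [← hπ]; exact ⟨x, rfl⟩
  have hYo : ∀ (ω : Ω) (x : X), x ∈ Yo π ω ↔ π x ω = ω := fun ω x => Iff.rfl
  have hcl : ∀ T ∈ 𝒩, ∀ x : X, cj (π x) T ∈ 𝒩 := fun T hT x => hN.cl T hT (π x) (hπF x)
  have hcjT : ∀ T ∈ 𝒩, ∀ x : X, cj (ψ x) (κ T) = κ T → cj (π x) T = T := by
    intro T hT x h
    rw [hκ.eq T hT x] at h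
    exact hκ.ij _ (hcl T hT x) T hT h
  refine ⟨{L | ∃ T ∈ 𝒩, L = κ T}, ?_, ?_, ?_⟩
  · refine ⟨inferInstance, ?_, ?_, ?_, ?_, ?_, ?_, ?_, ?_, hss⟩
    · rcases 𝒩.eq_empty_or_nonempty with hemp | ⟨T0, hT0⟩
      · exfalso
        obtain ⟨ω, b, hb, hne⟩ := hex
        apply hne
        refine hκ.fa ω b hb ?_
        intro T hT
        rw [hemp] at hT
        exact absurd hT (Set.notMem_empty T)
      · exact ⟨κ T0, T0, hT0, rfl⟩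
    · rintro _ ⟨T, hT, rfl⟩
      exact hκ.le T hT
    · rintro _ ⟨T, hT, rfl⟩
      exact hκ.pf T hT
    · rintro _ ⟨T, hT, rfl⟩
      exact hκ.ne T hT
    · rintro _ ⟨T, hT, rfl⟩ _ ⟨x, rfl⟩
      exact ⟨cj (π x) T, hcl T hT x, hκ.eq T hT x⟩
    · rintro _ ⟨T, hT, rfl⟩ _ ⟨T', hT', rfl⟩
      obtain ⟨f, hf, hfT⟩ := hN.tr T hT T' hT'
      rw [← hπ] at hf
      obtain ⟨y, rfl⟩ := hf
      exact ⟨ψ y, ⟨y, rfl⟩, by rw [hκ.eq T hT y, hfT]⟩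
    · rintro _ ⟨T, hT, rfl⟩ _ ⟨T', hT', rfl⟩ h
      exact hκ.cm T hT T' hT' (fun h' => h (by rw [h']))
    · rintro _ ⟨T, hT, rfl⟩ _ ⟨x, rfl⟩ h1 h2
      exact hκ.qs T hT x (hcjT T hT x h1) h2
  · intro ω
    refine ⟨?_, ?_, ?_, ?_, ?_, ?_, ?_⟩
    · rintro _ ⟨b, _, rfl⟩
      exact ⟨b, rfl⟩
    · exact (hP ω).pg.map ψ
    · rintro _ ⟨b, hb, rfl⟩ h
      exact hκ.fa ω b hb (fun T hT => h _ ⟨T, hT, rfl⟩)
    · rintro _ ⟨T, hT, rfl⟩ _ ⟨a, ha, rfl⟩ _ ⟨b, hb, rfl⟩ h1 h2 h3 h4 h5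
      have h1' := hcjT T hT a h1
      have h2' := hcjT T hT b h2
      rw [← map_pow] at h3 h4
      have h3' := (hκ.ce T hT _).1 h3
      have h4' := (hκ.ce T hT _).1 h4
      rw [map_pow] at h3' h4'
      have h5' : ∃ t ∈ T, π a * t ≠ t * π a := by
        by_contra hcon
        push Not at hcon
        exact h5 ((hκ.ce T hT a).2 hcon)
      have hle : (P ω).map π ≤ F := by
        rintro _ ⟨y, _, rfl⟩
        exact hπF y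
      have hfx : ∀ n ∈ (P ω).map π, n ω = ω := by
        rintro _ ⟨y, hy, rfl⟩
        exact (hYo ω y).1 ((hP ω).le hy)
      have hnm : ∀ f ∈ F, f ω = ω → ∀ n ∈ (P ω).map π, f * n * f⁻¹ ∈ (P ω).map π := by
        rintro f hf hfω _ ⟨y, hy, rfl⟩
        rw [← hπ] at hf
        obtain ⟨z, rfl⟩ := hf
        refine ⟨z * y * z⁻¹, (hP ω).nm z ((hYo ω z).2 hfω) y hy, ?_⟩
        rw [map_mul, map_mul, map_inv]
      obtain ⟨i, hi⟩ := hn5 ω ((P ω).map π) hle hfx hnm ((hP ω).pg.map π) T hT (π a)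
        ⟨a, ha, rfl⟩ (π b) ⟨b, hb, rfl⟩ h1' h2' h3' h4' h5'
      refine ⟨i, ?_⟩
      rw [← map_pow, ← map_mul]
      apply (hκ.ce T hT _).2
      rw [map_mul, map_pow]
      exact hi
    · rintro _ ⟨y, hy, rfl⟩ _ ⟨b, hb, rfl⟩
      refine ⟨y * b * y⁻¹, (hP ω).nm y hy b hb, ?_⟩
      rw [map_mul, map_mul, map_inv]
    · rintro _ ⟨y, _, rfl⟩
      exact ⟨y, rfl⟩
    · rintro _ ⟨z, rfl⟩
      obtain ⟨g, hg, hgω⟩ := hκ.tr ω (π z ω)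
      refine ⟨ψ g, ⟨g, rfl⟩, ?_, ψ (g⁻¹ * z), ⟨g⁻¹ * z, ?_, rfl⟩, ?_⟩
      · rintro _ ⟨T, hT, rfl⟩
        exact hg T hT
      · show π (g⁻¹ * z) ω = ω
        rw [map_mul, Equiv.Perm.mul_apply, ← hgω, map_inv]
        exact (π g).symm_apply_apply ω
      · rw [← map_mul]
        congr 1
        group
  · intro ω ω'
    obtain ⟨g, hg, hgω⟩ := hκ.tr ω ω'
    refine ⟨g, ?_, hgω⟩
    rintro _ ⟨T, hT, rfl⟩
    exact hg T hT

end Pool.Agent.Work.MP_6d7bb4.h65u
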