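import Pool.Agent.Work.MP_6d7bb4_G.InterfaceT
import Pool.Agent.Work.MP_6d7bb4_G.B_KLB

set_option autoImplicit false
set_option linter.unusedSectionVars false

/-! # MP_6d7bb4, plan G, block KLD: the strict lower bound (helper41) -/

namespace Pool.Agent.Work.MP_6d7bb4.h65u

open MulAction
open Pool.Agent.Work.MP_6d7bb4.helper94 Pool.Agent.Work.MP_6d7bb4.helper94.Sol
open Tv Ff Ps

namespace X_KLD

open X_KLB

section grp
variable {G : Type} [Group G]

/-- the hypothesis of KLD for one member `K` -/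
def HP (p : ℕ) (K A : Subgroup G) : Prop :=
  ∀ A1 : Subgroup G, A1 ≤ A → (∀ a ∈ A1, cj a K = K) → (∃ a ∈ A1, ¬ Cm K a) →
    ∀ (W : Type) [AddCommGroup W] [Finite W] (κ : K →* AddMonoid.End W)
      (α : A1 →* AddMonoid.End W), (∀ w : W, p • w = 0) →
      (∀ (a : A1) (k k' : K), k'.1 = a.1 * k.1 * a.1⁻¹ → α a * κ k = κ k' * α a) →
      (∃ k, κ k ≠ 1) →
      (Subgroup.centralizer (K : Set G)).relIndex A1 < (FixedBy α ⊤).index

/-- the hypotheses on `A` -/
structure HZ (p : ℕ) (𝒦 : Set (Subgroup G)) (A : Subgroup G) : Prop where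
  ab : ∀ a ∈ A, ∀ b ∈ A, a * b = b * a
  pw : ∀ a ∈ A, a ^ p = 1
  cl : ∀ K ∈ 𝒦, ∀ a ∈ A, cj a K ∈ 𝒦
  hp : ∀ K ∈ 𝒦, HP p K A

theorem HZ.mono {p : ℕ} {𝒦 : Set (Subgroup G)} {A C : Subgroup G} (h : HZ p 𝒦 A) (hCA : C ≤ A) :
    HZ p 𝒦 C where
  ab := fun a ha b hb => h.ab a (hCA ha) b (hCA hb)
  pw := fun a ha => h.pw a (hCA ha)
  cl := fun K hK a ha => h.cl K hK a (hCA ha)
  hp := fun K hK A1 hA1 => h.hp K hK A1 (hA1.trans hCA)

/-- products -/
theorem mem_sup' {A B A1 : Subgroup G} (hab : ∀ a ∈ A, ∀ b ∈ A, a * b = b * a) (hB : B ≤ A)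
    (hA1 : A1 ≤ A) {x : G} (hx : x ∈ B ⊔ A1) : ∃ b ∈ B, ∃ a ∈ A1, x = a * b := by
  let D : Subgroup G :=
    { carrier := {x | ∃ b ∈ B, ∃ a ∈ A1, x = a * b}
      one_mem' := ⟨1, B.one_mem, 1, A1.one_mem, by simp⟩
      mul_mem' := by
        rintro x y ⟨b, hb, a, ha, rfl⟩ ⟨b', hb', a', ha', rfl⟩
        refine ⟨b * b', B.mul_mem hb hb', a * a', A1.mul_mem ha ha', ?_⟩
        have h1 : b * a' = a' * b := hab b (hB hb) a' (hA1 ha')
        calc a * b * (a' * b') = a * (b * a') * b' := by group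
          _ = a * (a' * b) * b' := by rw [h1]
          _ = a * a' * (b * b') := by group
      inv_mem' := by
        rintro x ⟨b, hb, a, ha, rfl⟩
        refine ⟨b⁻¹, B.inv_mem hb, a⁻¹, A1.inv_mem ha, ?_⟩
        rw [mul_inv_rev]
        exact hab b⁻¹ (hB (B.inv_mem hb)) a⁻¹ (hA1 (A1.inv_mem ha)) }
  have h1 : B ⊔ A1 ≤ D := by
    refine sup_le ?_ ?_
    · intro b hb
      exact ⟨b, hb, 1, A1.one_mem, by simp⟩
    · intro a ha
      exact ⟨1, B.one_mem, a, ha, by simp⟩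
  exact h1 hx

theorem relIndex_le' [Finite G] {A B A1 C : Subgroup G} (hab : ∀ a ∈ A, ∀ b ∈ A, a * b = b * a)
    (hB : B ≤ A) (hA1 : A1 ≤ A) (hCB : C ≤ B) (hA : A ≤ B ⊔ A1) :
    B.relIndex A ≤ C.relIndex A1 := by
  have hmem : ∀ x : A1, (x : G) ∈ A := fun x => hA1 x.2
  let f : A1 ⧸ C.subgroupOf A1 → A ⧸ B.subgroupOf A :=
    Quotient.lift (fun x : A1 => (QuotientGroup.mk (⟨x.1, hmem x⟩ : A) : A ⧸ B.subgroupOf A)) (by
      intro x y hxy
      have h1 : (QuotientGroup.mk x : A1 ⧸ C.subgroupOf A1) = QuotientGroup.mk y :=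
        Quotient.sound hxy
      rw [QuotientGroup.eq, Subgroup.mem_subgroupOf] at h1
      show (QuotientGroup.mk (⟨x.1, hmem x⟩ : A) : A ⧸ B.subgroupOf A) =
        QuotientGroup.mk (⟨y.1, hmem y⟩ : A)
      rw [QuotientGroup.eq, Subgroup.mem_subgroupOf]
      exact hCB h1)
  have hsur : Function.Surjective f := by
    intro x
    obtain ⟨⟨x, hx⟩, rfl⟩ := QuotientGroup.mk_surjective x
    obtain ⟨b, hb, a, ha, hxe⟩ := mem_sup' hab hB hA1 (hA hx)
    refine ⟨QuotientGroup.mk ⟨a, ha⟩, ?_⟩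
    show (QuotientGroup.mk (⟨a, hmem ⟨a, ha⟩⟩ : A) : A ⧸ B.subgroupOf A) =
      QuotientGroup.mk (⟨x, hx⟩ : A)
    rw [QuotientGroup.eq, Subgroup.mem_subgroupOf]
    show a⁻¹ * x ∈ B
    rw [hxe, inv_mul_cancel_left]
    exact hb
  exact Nat.card_le_card_of_surjective _ hsur

variable {V : Type} [AddCommGroup V]

theorem step (hTAB : Stmt_TAB) (hORC : Stmt_ORC) (p : ℕ) [Fact p.Prime] [Finite G] [Finite V]
    (σ : G →* AddMonoid.End V) (𝒦 : Set (Subgroup G)) (A : Subgroup G)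
    (hV : ∀ v : V, p • v = 0) (hY : HZ p 𝒦 A)
    (hK : ∀ K ∈ 𝒦, ⁅K, K⁆ = K ∧ ∃ k ∈ K, σ k ≠ 1)
    (hcm : ∀ K ∈ 𝒦, ∀ L ∈ 𝒦, K ≠ L → ∀ k ∈ K, ∀ l ∈ L, k * l = l * k)
    (K : Subgroup G) (hKm : K ∈ 𝒦) (hnc : ¬ A ≤ cen A K) :
    (cen A K).relIndex A * (FixedBy σ (cen A K)).index < (FixedBy σ A).index := by
  have hp : p.Prime := Fact.out
  obtain ⟨C, hC⟩ : ∃ C, C = cen A K := ⟨_, rfl⟩
  rw [← hC] at hnc ⊢
  have hCA : C ≤ A := by
    rw [hC]
    exact fun a ha => ha.1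
  have hCK : ∀ c ∈ C, ∀ k ∈ K, c * k = k * c := by
    intro c hc
    rw [hC] at hc
    exact hc.2
  obtain ⟨B0, hCB, hBA, hB1, hAB⟩ := exists_B0 (A1 := stb A K) hp hY.ab hY.pw hCA
  obtain ⟨hO, f, hf1, hf2, hf3⟩ := relORC hTAB hORC p σ B0 C K hV hCB
    (fun a ha b hb => hY.ab a (hBA ha) b (hBA hb)) (fun a ha => hY.pw a (hBA ha)) hCK
    (by
      intro a ha haC k hk l hl
      have h2 : cj a K ≠ K := fun h => haC (hB1 ⟨ha, hBA ha, h⟩)
      exact hcm (cj a K) (hY.cl K hKm a (hBA ha)) K hKm h2 _ (conj_mem_cj hk) l hl)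
    (hK K hKm).1 (hK K hKm).2
  have hm0 : 0 < C.relIndex B0 := Nat.pos_of_ne_zero Subgroup.index_ne_zero_of_finite
  have hi0 : 0 < (FixedBy σ C).index := Nat.pos_of_ne_zero AddSubgroup.index_ne_zero_of_finite
  by_cases hA1 : stb A K ≤ C
  · have h1 : A = B0 := le_antisymm (hAB.trans (sup_le le_rfl (hA1.trans hCB))) hBA
    rw [← h1] at hO hm0
    have h2 : C.relIndex A ≠ 1 := fun h => hnc (Subgroup.relIndex_eq_one.1 h)
    have h3 : C.relIndex A < C.relIndex A ^ 2 := by nlinarith [Nat.lt_of_le_of_ne hm0 (Ne.symm h2)]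
    exact (Nat.mul_lt_mul_of_pos_right h3 hi0).trans_le hO
  · obtain ⟨a1, ha1, ha1C⟩ := SetLike.not_le_iff_exists.1 hA1
    have ha1m : ¬ Cm K a1 := by
      intro h
      apply ha1C
      rw [hC]
      exact ⟨ha1.1, h⟩
    have hstA : stb A K ≤ A := fun a ha => ha.1
    have hstG : stb A K ≤ Subgroup.centralizer (B0 : Set G) := by
      intro a ha
      rw [Subgroup.mem_centralizer_iff]
      intro b hb
      exact hY.ab b (hBA hb) a ha.1
    have hfG : ∀ k, f k ∈ Subgroup.centralizer (B0 : Set G) := by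
      intro k
      rw [Subgroup.mem_centralizer_iff]
      intro b hb
      exact hf1 b hb k
    let κ : K →* AddMonoid.End (FixedBy σ B0) :=
      (res σ B0).comp (f.codRestrict (Subgroup.centralizer (B0 : Set G)) hfG)
    let α : stb A K →* AddMonoid.End (FixedBy σ B0) :=
      (res σ B0).comp (Subgroup.inclusion hstG)
    have hlt := hY.hp K hKm (stb A K) hstA (fun a ha => ha.2) ⟨a1, ha1, ha1m⟩
      (FixedBy σ B0) κ α
      (by
        intro v
        apply Subtype.ext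
        exact hV v.1)
      (by
        intro a k k' hk'
        have hg : ∀ k ∈ K, a.1 * k * a.1⁻¹ ∈ K := by
          intro k hk
          have h1 := conj_mem_cj (g := a.1) hk
          rw [a.2.2] at h1
          exact h1
        have h1 := hf3 a.1 hg (fun b hb => hY.ab b (hBA hb) a.1 a.2.1) k
        have h2 : (⟨a.1 * k * a.1⁻¹, hg k k.2⟩ : K) = k' := Subtype.ext hk'.symm
        rw [h2] at h1
        have h3 : a.1 * f k = f k' * a.1 := by
          rw [← h1]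
          group
        show (res σ B0) _ * (res σ B0) _ = (res σ B0) _ * (res σ B0) _
        rw [← map_mul, ← map_mul]
        congr 1
        apply Subtype.ext
        exact h3)
      (by
        obtain ⟨k0, v0, hv0, hkv0⟩ := hf2
        refine ⟨k0, ?_⟩
        intro h
        apply hkv0
        have h1 := congrArg (fun e => ((e ⟨v0, hv0⟩ : FixedBy σ B0) : V)) h
        exact h1)
    -- translate both sides
    have hc1 : (Subgroup.centralizer (K : Set G)).relIndex (stb A K) = C.relIndex (stb A K) := by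
      unfold Subgroup.relIndex
      congr 1
      ext x
      rw [Subgroup.mem_subgroupOf, Subgroup.mem_subgroupOf, Subgroup.mem_centralizer_iff, hC,
        mem_cen]
      constructor
      · intro h
        exact ⟨x.2.1, fun k hk => (h k hk).symm⟩
      · rintro ⟨-, h⟩ k hk
        exact (h k hk).symm
    have hFA : FixedBy σ A ≤ FixedBy σ B0 := fun v hv b hb => hv b (hBA hb)
    have hc2 : (FixedBy α ⊤).index = (FixedBy σ A).relIndex (FixedBy σ B0) := by
      unfold AddSubgroup.relIndex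
      congr 1
      ext u
      rw [AddSubgroup.mem_addSubgroupOf, mem_FixedBy, mem_FixedBy]
      constructor
      · intro h a ha
        obtain ⟨b, hb, a', ha', rfl⟩ := mem_sup' hY.ab hBA hstA (hAB ha)
        have h1 : σ a' u.1 = u.1 := congrArg Subtype.val (h ⟨a', ha'⟩ (Subgroup.mem_top _))
        rw [map_mul]
        show σ a' (σ b u.1) = u.1
        rw [u.2 b hb, h1]
      · intro h a _
        apply Subtype.ext
        exact h a.1 a.2.1
    rw [hc1, hc2] at hlt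
    have h11 := AddSubgroup.relIndex_mul_index hFA
    have h12 := Subgroup.relIndex_mul_relIndex C B0 A hCB hBA
    have h13 : B0.relIndex A ≤ C.relIndex (stb A K) := relIndex_le' hY.ab hBA hstA hCB hAB
    have h14 : B0.relIndex A < (FixedBy σ A).relIndex (FixedBy σ B0) := h13.trans_lt hlt
    calc C.relIndex A * (FixedBy σ C).index
        = B0.relIndex A * (C.relIndex B0 * (FixedBy σ C).index) := by rw [← h12]; ring
      _ < (FixedBy σ A).relIndex (FixedBy σ B0) * (C.relIndex B0 * (FixedBy σ C).index) :=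
        Nat.mul_lt_mul_of_pos_right h14 (Nat.mul_pos hm0 hi0)
      _ ≤ (FixedBy σ A).relIndex (FixedBy σ B0) * (FixedBy σ B0).index := by
        apply Nat.mul_le_mul_left
        refine le_trans ?_ hO
        apply Nat.mul_le_mul_right
        nlinarith
      _ = _ := h11

/-- the statement for `zer A 𝒦` -/
theorem main (hTAB : Stmt_TAB) (hORC : Stmt_ORC) (p : ℕ) [Fact p.Prime] [Finite G] [Finite V]
    (σ : G →* AddMonoid.End V) (𝒦 : Set (Subgroup G)) (hV : ∀ v : V, p • v = 0)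
    (hK : ∀ K ∈ 𝒦, ⁅K, K⁆ = K ∧ ∃ k ∈ K, σ k ≠ 1)
    (hcm : ∀ K ∈ 𝒦, ∀ L ∈ 𝒦, K ≠ L → ∀ k ∈ K, ∀ l ∈ L, k * l = l * k) (A : Subgroup G)
    (hY : HZ p 𝒦 A) : (zer A 𝒦).relIndex A ≤ (FixedBy σ A).index ∧
      (¬ A ≤ zer A 𝒦 → (zer A 𝒦).relIndex A < (FixedBy σ A).index) := by
  induction hn : Nat.card A using Nat.strong_induction_on generalizing A with
  | _ n ih =>
  by_cases hall : ∀ a ∈ A, ∀ K ∈ 𝒦, Cm K a
  · have h1 : A ≤ zer A 𝒦 := fun a ha => ⟨ha, hall a ha⟩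
    refine ⟨?_, fun h => absurd h1 h⟩
    rw [Subgroup.relIndex_eq_one.2 h1]
    exact Nat.one_le_iff_ne_zero.2 AddSubgroup.index_ne_zero_of_finite
  push Not at hall
  obtain ⟨a0, ha0, K, hKm, hKa⟩ := hall
  have hCA : cen A K ≤ A := fun a ha => ha.1
  have hne : ¬ A ≤ cen A K := fun h => hKa (h ha0).2
  have hlt : Nat.card (cen A K) < n := by
    rw [← hn]
    have h2 : cen A K < A := lt_of_le_of_ne hCA (fun h => hne h.ge)
    exact Set.ncard_lt_ncard (s := (cen A K : Set G)) (t := (A : Set G)) h2 (Set.toFinite _)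
  have h1 := (ih _ hlt (cen A K) (hY.mono hCA) rfl).1
  have h2 : zer (cen A K) 𝒦 = zer A 𝒦 := by
    ext a
    rw [mem_zer, mem_zer, mem_cen]
    constructor
    · rintro ⟨⟨h3, -⟩, h4⟩
      exact ⟨h3, h4⟩
    · rintro ⟨h3, h4⟩
      exact ⟨⟨h3, h4 K hKm⟩, h4⟩
  rw [h2] at h1
  have hst := step hTAB hORC p σ 𝒦 A hV hY hK hcm K hKm hne
  have h3 := Subgroup.relIndex_mul_relIndex (zer A 𝒦) (cen A K) A
    (fun a ha => ⟨ha.1, ha.2 K hKm⟩) hCA
  have h4 : (zer A 𝒦).relIndex A < (FixedBy σ A).index := by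
    calc (zer A 𝒦).relIndex A = (zer A 𝒦).relIndex (cen A K) * (cen A K).relIndex A := h3.symm
      _ ≤ (FixedBy σ (cen A K)).index * (cen A K).relIndex A := Nat.mul_le_mul_right _ h1
      _ = (cen A K).relIndex A * (FixedBy σ (cen A K)).index := by ring
      _ < _ := hst
  exact ⟨h4.le, fun _ => h4⟩

end grp

end X_KLD

open X_KLB X_KLD in
theorem s_KLD (hTAB : Stmt_TAB) (hORC : Stmt_ORC) : Stmt_KLD := by
  intro p _ G _ _ V _ _ σ 𝒦 A N hV hab hpw hK hcl hcm hhp hN hNA hNe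
  have hY : HZ p 𝒦 A := ⟨hab, hpw, hcl, hhp⟩
  have hzN : zer A 𝒦 ≤ N := fun a ha => hN a ha.1 ha.2
  have hrel : N.relIndex A ≤ (zer A 𝒦).relIndex A :=
    Subgroup.relIndex_le_of_le_left hzN Subgroup.index_ne_zero_of_finite
  have hne : ¬ A ≤ zer A 𝒦 := fun h => hNe (le_antisymm hNA (h.trans hzN))
  exact hrel.trans_lt ((main hTAB hORC p σ 𝒦 hV hK hcm A hY).2 hne)

end Pool.Agent.Work.MP_6d7bb4.h65u
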