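import Pool.Agent.Work.MP_6d7bb4_G.InterfaceT

/-! # MP_6d7bb4: plan G (product action); block KTG3 -/

set_option autoImplicit false
set_option linter.unusedSectionVars false

namespace Pool.Agent.Work.MP_6d7bb4.h65u

open MulAction
open Pool.Agent.Work.MP_6d7bb4.helper94 Pool.Agent.Work.MP_6d7bb4.helper94.Sol
open Tv Ff Ps
open scoped commutatorElement

namespace X_KTG3

/-- the commutators with `g` generate a subgroup normalised by `K` -/
theorem cq_nm {G : Type} [Group G] (K : Subgroup G) (g : G) :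
    ∀ a ∈ K, ∀ m ∈ Cq K g, a * m * a⁻¹ ∈ Cq K g := by
  intro a ha m hm
  refine Subgroup.closure_induction (p := fun m _ => a * m * a⁻¹ ∈ Cq K g) ?_ ?_ ?_ ?_ hm
  · rintro c ⟨k, hk, rfl⟩
    have h1 : a * k * g * (a * k)⁻¹ * g⁻¹ ∈ Cq K g :=
      Subgroup.subset_closure ⟨a * k, mul_mem ha hk, rfl⟩
    have h2 : a * g * a⁻¹ * g⁻¹ ∈ Cq K g := Subgroup.subset_closure ⟨a, ha, rfl⟩
    have h3 : a * (k * g * k⁻¹ * g⁻¹) * a⁻¹ =
        a * k * g * (a * k)⁻¹ * g⁻¹ * (a * g * a⁻¹ * g⁻¹)⁻¹ := by group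
    rw [h3]
    exact mul_mem h1 (inv_mem h2)
  · rw [mul_one, mul_inv_cancel]
    exact one_mem _
  · intro x y _ _ hx hy
    have h1 : a * (x * y) * a⁻¹ = (a * x * a⁻¹) * (a * y * a⁻¹) := by group
    rw [h1]
    exact mul_mem hx hy
  · intro x _ hx
    have h1 : a * x⁻¹ * a⁻¹ = (a * x * a⁻¹)⁻¹ := by group
    rw [h1]
    exact inv_mem hx

theorem cq_le {G : Type} [Group G] (K : Subgroup G) (g : G) (h : cj g K = K) : Cq K g ≤ K := by
  unfold Cq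
  rw [Subgroup.closure_le]
  rintro c ⟨k, hk, rfl⟩
  have h1 : g * k⁻¹ * g⁻¹ ∈ K := by
    have := conj_mem_cj (g := g) (inv_mem hk)
    rwa [h] at this
  have h2 : k * g * k⁻¹ * g⁻¹ = k * (g * k⁻¹ * g⁻¹) := by group
  show k * g * k⁻¹ * g⁻¹ ∈ K
  rw [h2]
  exact mul_mem hk h1

theorem cq_map {G H : Type} [Group G] [Group H] (f : G →* H) (K : Subgroup G) (g : G) :
    (Cq K g).map f = Cq (K.map f) (f g) := by
  unfold Cq
  rw [MonoidHom.map_closure]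
  congr 1
  ext x
  constructor
  · rintro ⟨c, ⟨k, hk, rfl⟩, rfl⟩
    refine ⟨f k, ⟨k, hk, rfl⟩, ?_⟩
    rw [map_mul, map_mul, map_mul, map_inv, map_inv]
  · rintro ⟨_, ⟨k, hk, rfl⟩, rfl⟩
    refine ⟨k * g * k⁻¹ * g⁻¹, ⟨k, hk, rfl⟩, ?_⟩
    rw [map_mul, map_mul, map_mul, map_inv, map_inv]

theorem com_eq {G : Type} [Group G] {k z l w : G} (_a1 : Commute z k) (a2 : Commute z l)
    (a3 : Commute w k) (_a4 : Commute w l) (a5 : Commute z w) : ⁅k * z, l * w⁆ = ⁅k, l⁆ := by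
  have b1 : k * z * (l * w) = (k * l) * (z * w) := by
    rw [mul_assoc, ← mul_assoc z l w, a2.eq]
    group
  have b2 : l * w * (k * z) = (l * k) * (z * w) := by
    rw [mul_assoc, ← mul_assoc w k z, a3.eq, a5.eq]
    group
  have b3 : ∀ a b : G, ⁅a, b⁆ = (a * b) * (b * a)⁻¹ := by
    intro a b
    rw [commutatorElement_def, _root_.mul_inv_rev, mul_assoc]
  rw [b3, b3, b1, b2, _root_.mul_inv_rev, _root_.mul_inv_rev]
  group

/-- a quasisimple group is generated by its commutators with an element which normalises it and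
does not centralise it -/
theorem cq_quasi {G : Type} [Group G] (T : Subgroup G)
    (hs : ∀ M : Subgroup G, M ≤ T → (∀ t ∈ T, ∀ m ∈ M, t * m * t⁻¹ ∈ M) →
      M = T ∨ ∀ m ∈ M, ∀ t ∈ T, m * t = t * m) (hp : ⁅T, T⁆ = T) (g : G)
    (h : cj g T = T) (hn : ∃ t ∈ T, g * t ≠ t * g) : Cq T g = T := by
  rcases hs (Cq T g) (cq_le T g h) (cq_nm T g) with h1 | h1
  · exact h1
  exfalso
  obtain ⟨t, ht, hne⟩ := hn
  apply hne
  have key : ⁅T, T⁆ ≤ Subgroup.centralizer {g} := by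
    rw [Subgroup.commutator_le]
    intro a ha b hb
    have hz : ∀ a ∈ T, ∃ z ∈ Cq T g, g * a * g⁻¹ = a * z := by
      intro a ha
      have hc : a * g * a⁻¹ * g⁻¹ ∈ Cq T g := Subgroup.subset_closure ⟨a, ha, rfl⟩
      refine ⟨(a * g * a⁻¹ * g⁻¹)⁻¹, inv_mem hc, ?_⟩
      rw [← h1 _ (inv_mem hc) a ha]
      group
    obtain ⟨z, hz1, hz2⟩ := hz a ha
    obtain ⟨w, hw1, hw2⟩ := hz b hb
    have hzT := cq_le T g h hz1
    have h3 : g * ⁅a, b⁆ * g⁻¹ = ⁅a * z, b * w⁆ := by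
      rw [← hz2, ← hw2, commutatorElement_def, commutatorElement_def]
      group
    have h4 : ⁅a * z, b * w⁆ = ⁅a, b⁆ :=
      com_eq (h1 z hz1 a ha) (h1 z hz1 b hb) (h1 w hw1 a ha) (h1 w hw1 b hb)
        (h1 w hw1 z hzT).symm
    rw [h4] at h3
    rw [Subgroup.mem_centralizer_iff]
    intro x hx
    rw [Set.mem_singleton_iff] at hx
    subst hx
    exact mul_inv_eq_iff_eq_mul.mp h3
  rw [hp] at key
  have := key ht
  rw [Subgroup.mem_centralizer_iff] at this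
  exact this g (Set.mem_singleton g)

end X_KTG3

open X_KTG3

theorem s_KTG3 (hKTC : Stmt_KTC) : Stmt_KTG3 := by
  intro X _ Q _ π R S _ ρ hR hk T hs hTT hT g hg hne
  obtain ⟨hc1, hc2⟩ := hKTC X Q π R S ρ hR hk
  obtain ⟨hmap, _, hperf⟩ := hc2 T hTT hT
  obtain ⟨K0, hK0⟩ : ∃ K0, K0 = KT π R T := ⟨_, rfl⟩
  rw [← hK0] at hmap hperf ⊢
  have hcj : cj g K0 = K0 := by
    have := hc1 g T
    rw [hg, ← hK0] at this
    exact this.symm
  have hKR : K0 ≤ R := by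
    rw [hK0]
    exact (Subgroup.commutator_le_self _).trans inf_le_left
  have hM : (Cq K0 g).map π = T := by
    rw [cq_map, hmap]
    exact cq_quasi T hs hTT (π g) hg hne
  have hdec : ∀ x ∈ K0, ∃ m ∈ Cq K0 g, ∃ z ∈ K0, z ∈ π.ker ∧ x = m * z := by
    intro x hx
    have h1 : π x ∈ (Cq K0 g).map π := by
      rw [hM, ← hmap]
      exact ⟨x, hx, rfl⟩
    obtain ⟨m, hm1, hm2⟩ := h1
    refine ⟨m, hm1, m⁻¹ * x, mul_mem (inv_mem (cq_le K0 g hcj hm1)) hx, ?_, ?_⟩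
    · rw [MonoidHom.mem_ker, map_mul, map_inv, hm2, inv_mul_cancel]
    · rw [mul_inv_cancel_left]
  have hcu : ∀ k ∈ π.ker, ∀ r ∈ R, Commute (ρ.toHomUnits k) (ρ.toHomUnits r) := by
    intro k hk' r hr
    exact Units.ext (hk k hk' r hr)
  rw [← cq_map, ← hperf, Subgroup.commutator_le]
  rintro _ ⟨x, hx, rfl⟩ _ ⟨y, hy, rfl⟩
  obtain ⟨k, hk1, z, hz1, hz2, rfl⟩ := hdec x hx
  obtain ⟨l, hl1, w, hw1, hw2, rfl⟩ := hdec y hy
  have hkR := hKR (cq_le K0 g hcj hk1)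
  have hlR := hKR (cq_le K0 g hcj hl1)
  rw [map_mul, map_mul, com_eq (hcu z hz2 k hkR) (hcu z hz2 l hlR) (hcu w hw2 k hkR)
    (hcu w hw2 l hlR) (hcu z hz2 w (hKR hw1)), ← map_commutatorElement]
  exact ⟨⁅k, l⁆, by
    rw [commutatorElement_def]
    exact mul_mem (mul_mem (mul_mem hk1 hl1) (inv_mem hk1)) (inv_mem hl1), rfl⟩

end Pool.Agent.Work.MP_6d7bb4.h65u
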