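import Pool.Agent.Work.MP_6d7bb4_G.InterfaceT

/-! # MP_6d7bb4: plan G; block TLB, no offenders -/

set_option autoImplicit false
set_option linter.unusedSectionVars false

namespace Pool.Agent.Work.MP_6d7bb4.h65u

open MulAction
open Pool.Agent.Work.MP_6d7bb4.helper94 Pool.Agent.Work.MP_6d7bb4.helper94.Sol
open Tv Ff Ps
open scoped commutatorElement

namespace X_TLB

section rep
variable {M : Type} [Group M] {W : Type} [AddCommGroup W]

/-- restriction to an invariant subgroup -/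
def res (κ : M →* AddMonoid.End W) (W0 : AddSubgroup W) (h : ∀ m, ∀ w ∈ W0, κ m w ∈ W0) :
    M →* AddMonoid.End W0 where
  toFun m :=
    { toFun := fun w => ⟨κ m w.1, h m w.1 w.2⟩
      map_zero' := Subtype.ext (map_zero _)
      map_add' := fun x y => Subtype.ext (map_add _ _ _) }
  map_one' := by
    apply AddMonoidHom.ext
    intro w
    apply Subtype.ext
    show κ 1 w.1 = w.1
    rw [map_one]
    rfl
  map_mul' := by
    intro m n
    apply AddMonoidHom.ext
    intro w
    apply Subtype.ext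
    show κ (m * n) w.1 = κ m (κ n w.1)
    rw [map_mul]
    rfl

theorem res_apply (κ : M →* AddMonoid.End W) (W0 : AddSubgroup W)
    (h : ∀ m, ∀ w ∈ W0, κ m w ∈ W0) (m : M) (w : W0) : (res κ W0 h m w).1 = κ m w.1 := rfl

/-- the quotient by an invariant subgroup -/
def quo (κ : M →* AddMonoid.End W) (W0 : AddSubgroup W) (h : ∀ m, ∀ w ∈ W0, κ m w ∈ W0) :
    M →* AddMonoid.End (W ⧸ W0) where
  toFun m := QuotientAddGroup.map W0 W0 (κ m) (fun w hw => h m w hw)
  map_one' := by
    apply AddMonoidHom.ext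
    intro w
    obtain ⟨w, rfl⟩ := QuotientAddGroup.mk_surjective w
    show ((κ 1 w : W) : W ⧸ W0) = (w : W ⧸ W0)
    rw [map_one]
    rfl
  map_mul' := by
    intro m n
    apply AddMonoidHom.ext
    intro w
    obtain ⟨w, rfl⟩ := QuotientAddGroup.mk_surjective w
    show ((κ (m * n) w : W) : W ⧸ W0) = ((κ m (κ n w) : W) : W ⧸ W0)
    rw [map_mul]
    rfl

theorem quo_mk (κ : M →* AddMonoid.End W) (W0 : AddSubgroup W)
    (h : ∀ m, ∀ w ∈ W0, κ m w ∈ W0) (m : M) (w : W) :
    quo κ W0 h m (w : W ⧸ W0) = ((κ m w : W) : W ⧸ W0) := rfl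

/-- the index of the fixed points on an invariant subgroup -/
theorem idx_res [Finite W] (α : M →* AddMonoid.End W) (W0 : AddSubgroup W)
    (h : ∀ m, ∀ w ∈ W0, α m w ∈ W0) :
    (FixedBy (res α W0 h) ⊤).index ≤ (FixedBy α ⊤).index := by
  have h1 : FixedBy (res α W0 h) ⊤ = (FixedBy α ⊤).addSubgroupOf W0 := by
    ext w
    rw [mem_FixedBy, AddSubgroup.mem_addSubgroupOf, mem_FixedBy]
    constructor
    · intro hw a ha
      exact congrArg Subtype.val (hw a ha)
    · intro hw a ha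
      exact Subtype.ext (hw a ha)
  rw [h1]
  have h2 : (FixedBy α ⊤).relIndex W0 ∣ (FixedBy α ⊤).index :=
    AddSubgroup.relIndex_dvd_index_of_normal _ _
  exact Nat.le_of_dvd (Nat.pos_of_ne_zero AddSubgroup.index_ne_zero_of_finite) h2

/-- the index of the fixed points on a quotient -/
theorem idx_quo [Finite W] (α : M →* AddMonoid.End W) (W0 : AddSubgroup W)
    (h : ∀ m, ∀ w ∈ W0, α m w ∈ W0) :
    (FixedBy (quo α W0 h) ⊤).index ≤ (FixedBy α ⊤).index := by
  have h1 : FixedBy α ⊤ ≤ (FixedBy (quo α W0 h) ⊤).comap (QuotientAddGroup.mk' W0) := by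
    intro w hw a ha
    show ((α a w : W) : W ⧸ W0) = (w : W ⧸ W0)
    rw [hw a ha]
  have h2 := AddSubgroup.index_comap_of_surjective (FixedBy (quo α W0 h) ⊤)
    (QuotientAddGroup.mk'_surjective W0)
  rw [← h2]
  exact Nat.le_of_dvd (Nat.pos_of_ne_zero AddSubgroup.index_ne_zero_of_finite)
    (AddSubgroup.index_dvd_of_le h1)

end rep

section grp

/-- the index of a subgroup in a product -/
theorem relIndex_prod {H : Type*} [Group H] [Finite H] (C K A E : Subgroup H) (hK : K ≤ E)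
    (hA : A ≤ E) (hE : ∀ g ∈ E, ∃ k ∈ K, ∃ a ∈ A, g = k * a)
    (hn : ∀ a ∈ A, ∀ x ∈ C, a⁻¹ * x * a ∈ C) :
    C.relIndex E ≤ C.relIndex K * C.relIndex A := by
  have h1 : Function.Surjective (fun xy : (K ⧸ C.subgroupOf K) × (A ⧸ C.subgroupOf A) =>
      (QuotientGroup.mk (⟨xy.1.out.1 * xy.2.out.1, mul_mem (hK xy.1.out.2) (hA xy.2.out.2)⟩ : E) :
        E ⧸ C.subgroupOf E)) := by
    intro z
    obtain ⟨⟨g, hg⟩, rfl⟩ := QuotientGroup.mk_surjective z
    obtain ⟨k, hk, a, ha, rfl⟩ := hE g hg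
    refine ⟨((QuotientGroup.mk (⟨k, hk⟩ : K)), (QuotientGroup.mk (⟨a, ha⟩ : A))), ?_⟩
    obtain ⟨c1, hc1⟩ := QuotientGroup.mk_out_eq_mul (C.subgroupOf K) (⟨k, hk⟩ : K)
    obtain ⟨c2, hc2⟩ := QuotientGroup.mk_out_eq_mul (C.subgroupOf A) (⟨a, ha⟩ : A)
    symm
    rw [QuotientGroup.eq, Subgroup.mem_subgroupOf]
    show (k * a)⁻¹ * ((QuotientGroup.mk (⟨k, hk⟩ : K) : K ⧸ C.subgroupOf K).out.1 *
      (QuotientGroup.mk (⟨a, ha⟩ : A) : A ⧸ C.subgroupOf A).out.1) ∈ C
    rw [hc1, hc2]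
    show (k * a)⁻¹ * ((k * c1.1.1) * (a * c2.1.1)) ∈ C
    have h2 : (k * a)⁻¹ * ((k * c1.1.1) * (a * c2.1.1)) = (a⁻¹ * c1.1.1 * a) * c2.1.1 := by group
    rw [h2]
    exact mul_mem (hn a ha _ (Subgroup.mem_subgroupOf.1 c1.2)) (Subgroup.mem_subgroupOf.1 c2.2)
  have h3 := Nat.card_le_card_of_surjective _ h1
  rw [Nat.card_prod] at h3
  exact h3

/-- the index in the image -/
theorem relIndex_range {G H : Type*} [Group G] [Finite G] [Group H] (X C : Subgroup G)
    (D : Subgroup H) (f : X →* H) (h : ∀ x : X, x.1 ∈ C → f x ∈ D) :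
    D.relIndex f.range ≤ C.relIndex X := by
  rw [← Subgroup.index_comap]
  have h1 : C.subgroupOf X ≤ D.comap f := fun x hx => h x (Subgroup.mem_subgroupOf.1 hx)
  exact Nat.le_of_dvd (Nat.pos_of_ne_zero Subgroup.index_ne_zero_of_finite)
    (Subgroup.index_dvd_of_le h1)

theorem cm_of_cen {G : Type*} [Group G] {K : Subgroup G} {x : G} :
    x ∈ Subgroup.centralizer (K : Set G) ↔ Cm K x := by
  rw [Subgroup.mem_centralizer_iff]
  constructor
  · intro h k hk
    exact (h k hk).symm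
  · intro h k hk
    exact (h k hk).symm

theorem perf_top {G : Type} [Group G] {K : Subgroup G} (h : ⁅K, K⁆ = K) : commutator K = ⊤ := by
  apply Subgroup.map_injective K.subtype_injective
  rw [Subgroup.map_subtype_commutator, h, ← MonoidHom.range_eq_map, Subgroup.range_subtype]

theorem perf_range {G H : Type} [Group G] [Group H] {K : Subgroup G} (h : ⁅K, K⁆ = K)
    (f : K →* H) : ⁅f.range, f.range⁆ = f.range := by
  have h1 := perf_top h
  rw [commutator_def] at h1
  rw [MonoidHom.range_eq_map, ← Subgroup.map_commutator, h1]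

theorem triv_of_comm {G : Type} [Group G] {K : Subgroup G} (h1 : ⁅K, K⁆ = K)
    (h2 : ∀ k ∈ K, ∀ l ∈ K, k * l = l * k) : K = ⊥ := by
  have h3 : ⁅K, K⁆ ≤ ⊥ := by
    rw [Subgroup.commutator_le]
    intro a ha b hb
    rw [Subgroup.mem_bot, commutatorElement_def, h2 a ha b hb]
    group
  rw [h1] at h3
  exact le_bot_iff.1 h3

end grp

theorem card_pow (p : ℕ) [Fact p.Prime] (S : Type) [AddCommGroup S] [Finite S]
    (h : ∀ s : S, p • s = 0) : ∃ n : ℕ, Nat.card S = p ^ n := by
  let _i : Module (ZMod p) S := AddCommGroup.zmodModule (n := p) h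
  let _j : Fintype S := Fintype.ofFinite S
  refine ⟨Module.finrank (ZMod p) S, ?_⟩
  have h1 := Module.card_eq_pow_finrank (K := ZMod p) (V := S)
  rw [ZMod.card] at h1
  rw [Nat.card_eq_fintype_card]
  exact h1

end X_TLB

open X_TLB in
theorem s_TLB (hGNT : Stmt_GNT) (hEGT : Stmt_EGT) : Stmt_TLB := by
  intro p r _ _ hrp G _ _ K A c τ v hperf hqs hτ hAab hAp hAn hAnc hAq hAc hv hvn hvr hbig
  have hp1 : 1 < p := (Fact.out : p.Prime).one_lt
  -- strong induction
  suffices H : ∀ (n : ℕ) (W : Type) [AddCommGroup W] [Finite W] (κ : K →* AddMonoid.End W)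
      (α : A →* AddMonoid.End W), Nat.card W ≤ n → (∀ w : W, p • w = 0) →
      (∀ (a : A) (k k' : K), k'.1 = a.1 * k.1 * a.1⁻¹ → α a * κ k = κ k' * α a) →
      (∃ k, κ k ≠ 1) →
      (Subgroup.centralizer (K : Set G)).relIndex A < (FixedBy α ⊤).index by
    intro W _ _ κ α h1 h2 h3
    exact H _ W κ α le_rfl h1 h2 h3
  intro n
  induction n with
  | zero =>
    intro W _ _ κ α hcard
    have : 0 < Nat.card W := Nat.card_pos
    omega
  | succ n ih =>
  intro W _ _ κ α hcard hex heq hnt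
  by_cases hred : ∃ W0 : AddSubgroup W, W0 ≠ ⊥ ∧ W0 ≠ ⊤ ∧ (∀ k, ∀ w ∈ W0, κ k w ∈ W0) ∧
      ∀ a, ∀ w ∈ W0, α a w ∈ W0
  · -- the reducible case
    obtain ⟨W0, hb, ht, hκ, hα⟩ := hred
    by_cases hW0 : ∃ k, ∃ w ∈ W0, κ k w ≠ w
    · have hlt : Nat.card W0 < Nat.card W := by
        have h1 := AddSubgroup.card_mul_index W0
        have h2 : W0.index ≠ 1 := fun h => ht (AddSubgroup.index_eq_one.1 h)
        have h3 : W0.index ≠ 0 := AddSubgroup.index_ne_zero_of_finite
        have h4 : 0 < Nat.card W0 := Nat.card_pos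
        nlinarith [show 2 ≤ W0.index by omega]
      have h1 := ih W0 (res κ W0 hκ) (res α W0 hα) (by omega)
        (fun w => Subtype.ext (by
          rw [AddSubgroup.coe_nsmul]
          exact hex w.1)) (by
          intro a k k' hk
          have h2 := heq a k k' hk
          apply AddMonoidHom.ext
          intro w
          apply Subtype.ext
          exact DFunLike.congr_fun h2 w.1) (by
          obtain ⟨k, w, hw, hne⟩ := hW0
          refine ⟨k, fun h => hne ?_⟩
          have h2 := DFunLike.congr_fun h (⟨w, hw⟩ : W0)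
          exact congrArg Subtype.val h2)
      exact lt_of_lt_of_le h1 (idx_res α W0 hα)
    · push Not at hW0
      have hlt : Nat.card (W ⧸ W0) < Nat.card W := by
        have h1 := AddSubgroup.card_eq_card_quotient_mul_card_addSubgroup W0
        have h2 : 1 < Nat.card W0 := by
          rw [AddSubgroup.one_lt_card_iff_ne_bot]
          exact hb
        have h4 : 0 < Nat.card (W ⧸ W0) := Nat.card_pos
        nlinarith
      have h1 := ih (W ⧸ W0) (quo κ W0 hκ) (quo α W0 hα) (by omega)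
        (fun w => by
          obtain ⟨w, rfl⟩ := QuotientAddGroup.mk_surjective w
          rw [← QuotientAddGroup.mk_nsmul, hex w]
          rfl) (by
          intro a k k' hk
          have h2 := heq a k k' hk
          apply AddMonoidHom.ext
          intro w
          obtain ⟨w, rfl⟩ := QuotientAddGroup.mk_surjective w
          exact congrArg (QuotientAddGroup.mk (s := W0)) (DFunLike.congr_fun h2 w)) (by
          by_contra hcon
          push Not at hcon
          have hd : ∀ k, ∀ w, κ k w - w ∈ W0 := by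
            intro k w
            have h2 := DFunLike.congr_fun (hcon k) (w : W ⧸ W0)
            rw [quo_mk] at h2
            have h3 : ((κ k w : W) : W ⧸ W0) = (w : W ⧸ W0) := h2
            rw [eq_comm, QuotientAddGroup.eq] at h3
            rwa [neg_add_eq_sub] at h3
          have hcomm : ∀ k l, κ k * κ l = κ l * κ k := by
            intro k l
            apply AddMonoidHom.ext
            intro w
            show κ k (κ l w) = κ l (κ k w)
            have h2 := hW0 k _ (hd l w)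
            have h3 := hW0 l _ (hd k w)
            rw [map_sub, sub_eq_iff_eq_add] at h2 h3
            rw [h2, h3]
            abel
          have hbot : (κ.toHomUnits).range = ⊥ := by
            refine triv_of_comm (perf_range hperf κ.toHomUnits) ?_
            rintro _ ⟨k, rfl⟩ _ ⟨l, rfl⟩
            exact Units.ext (hcomm k l)
          obtain ⟨k, hk⟩ := hnt
          apply hk
          have h2 : κ.toHomUnits k ∈ (κ.toHomUnits).range := ⟨k, rfl⟩
          rw [hbot, Subgroup.mem_bot] at h2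
          have h3 := congrArg Units.val h2
          rw [MonoidHom.coe_toHomUnits] at h3
          exact h3)
      exact lt_of_lt_of_le h1 (idx_quo α W0 hα)
  · -- the irreducible case
    by_contra hcon
    push Not at hcon hred
    have hirr : ∀ W0 : AddSubgroup W, (∀ k, ∀ w ∈ W0, κ k w ∈ W0) →
        (∀ a, ∀ w ∈ W0, α a w ∈ W0) → W0 = ⊥ ∨ W0 = ⊤ := by
      intro W0 h1 h2
      by_contra h3
      push Not at h3
      obtain ⟨a, w, hw, hne⟩ := hred W0 h3.1 h3.2 h1
      exact hne (h2 a w hw)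
    have hfe : Finite (AddMonoid.End W) :=
      Finite.of_injective (fun f : AddMonoid.End W => (f : W → W)) DFunLike.coe_injective
    have hfu : Finite (Un W) :=
      Finite.of_injective (fun u : Un W => (u : AddMonoid.End W)) Units.val_injective
    obtain ⟨κ', hκ'⟩ : ∃ κ' : K →* Un W, κ' = κ.toHomUnits := ⟨_, rfl⟩
    obtain ⟨α', hα'⟩ : ∃ α' : A →* Un W, α' = α.toHomUnits := ⟨_, rfl⟩
    have hκv : ∀ k, ((κ' k : Un W) : AddMonoid.End W) = κ k := by
      intro k
      rw [hκ', MonoidHom.coe_toHomUnits]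
    have hαv : ∀ a, ((α' a : Un W) : AddMonoid.End W) = α a := by
      intro a
      rw [hα', MonoidHom.coe_toHomUnits]
    have heq' : ∀ (a : A) (k k' : K), k'.1 = a.1 * k.1 * a.1⁻¹ →
        α' a * κ' k * (α' a)⁻¹ = κ' k' := by
      intro a k k' hk
      have h1 : α' a * κ' k = κ' k' * α' a := by
        apply Units.ext
        rw [Units.val_mul, Units.val_mul, hκv, hκv, hαv]
        exact heq a k k' hk
      rw [h1, mul_inv_cancel_right]
    have haK : ∀ a ∈ A, ∀ k ∈ K, a * k * a⁻¹ ∈ K := by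
      intro a ha k hk
      have h1 := conj_mem_cj (g := a) hk
      rwa [hAn a ha] at h1
    have hnmA : Nm α'.range κ'.range := by
      rintro _ ⟨a, rfl⟩ _ ⟨k, rfl⟩
      exact ⟨⟨a.1 * k.1 * a.1⁻¹, haK a.1 a.2 k.1 k.2⟩, (heq' a k _ rfl).symm⟩
    obtain ⟨E, hE⟩ : ∃ E : Subgroup (Un W), E = α'.range ⊔ κ'.range := ⟨_, rfl⟩
    have hKE : κ'.range ≤ E := by
      rw [hE]
      exact le_sup_right
    have hAE : α'.range ≤ E := by
      rw [hE]
      exact le_sup_left
    have hEK : Nm E κ'.range := by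
      rw [hE]
      exact hnmA.sup_left (nm_self _)
    have hEg : ∀ g ∈ E, ∃ k ∈ κ'.range, ∃ a ∈ α'.range, g = k * a := by
      intro g hg
      rw [hE] at hg
      obtain ⟨a, ha, k, hk, rfl⟩ := mem_sup_nm hnmA hg
      exact ⟨a * k * a⁻¹, hnmA a ha k hk, a, ha, by group⟩
    have hpf := perf_range hperf κ'
    have hne : κ'.range ≠ ⊥ := by
      intro hbot
      obtain ⟨k, hk⟩ := hnt
      apply hk
      have h2 : κ' k ∈ κ'.range := ⟨k, rfl⟩
      rw [hbot, Subgroup.mem_bot] at h2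
      rw [← hκv, h2, Units.val_one]
    have hab : ∀ a ∈ α'.range, ∀ b ∈ α'.range, a * b = b * a := by
      rintro _ ⟨a, rfl⟩ _ ⟨b, rfl⟩
      rw [← map_mul, ← map_mul]
      congr 1
      exact Subtype.ext (hAab a.1 a.2 b.1 b.2)
    have hpg : IsPGroup p α'.range := by
      rintro ⟨_, a, rfl⟩
      refine ⟨1, ?_⟩
      apply Subtype.ext
      show α' a ^ p ^ 1 = 1
      rw [pow_one, ← map_pow]
      have h1 : a ^ p = 1 := Subtype.ext (hAp a.1 a.2)
      rw [h1, map_one]
    have hCq : ∃ a ∈ α'.range, κ'.range ≤ Cq κ'.range a := by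
      obtain ⟨a0, ha0, hna0⟩ := hAnc
      have h1 := hAq a0 ha0 hna0
      refine ⟨α' ⟨a0, ha0⟩, ⟨_, rfl⟩, ?_⟩
      have h2 : Cq K a0 ≤ ((Cq κ'.range (α' ⟨a0, ha0⟩)).comap κ').map K.subtype := by
        unfold Cq
        rw [Subgroup.closure_le]
        rintro _ ⟨k, hk, rfl⟩
        have hk2 := haK a0 ha0 k⁻¹ (inv_mem hk)
        refine ⟨⟨k, hk⟩ * ⟨a0 * k⁻¹ * a0⁻¹, hk2⟩, ?_, ?_⟩
        · show κ' (⟨k, hk⟩ * ⟨a0 * k⁻¹ * a0⁻¹, hk2⟩) ∈ Cq κ'.range (α' ⟨a0, ha0⟩)
          apply Subgroup.subset_closure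
          refine ⟨κ' ⟨k, hk⟩, ⟨_, rfl⟩, ?_⟩
          rw [map_mul, ← heq' ⟨a0, ha0⟩ (⟨k, hk⟩)⁻¹ ⟨a0 * k⁻¹ * a0⁻¹, hk2⟩ rfl, map_inv]
          group
        · show k * (a0 * k⁻¹ * a0⁻¹) = k * a0 * k⁻¹ * a0⁻¹
          group
      rintro _ ⟨k, rfl⟩
      obtain ⟨k', hk', hkk⟩ := h2 (h1 k.2)
      have h3 : k' = k := Subtype.ext hkk
      rw [← h3]
      exact hk'
    have hirr' : ∀ W0 : AddSubgroup W, Iv E W0 → W0 = ⊥ ∨ W0 = ⊤ := by
      intro W0 hW0
      refine hirr W0 ?_ ?_
      · intro k w hw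
        rw [← hκv]
        exact hW0 _ (hKE ⟨k, rfl⟩) w hw
      · intro a w hw
        rw [← hαv]
        exact hW0 _ (hAE ⟨a, rfl⟩) w hw
    have hcm : ∀ x : K, Cm K x.1 → Cm κ'.range (κ' x) := by
      rintro x hx _ ⟨k, rfl⟩
      rw [← map_mul, ← map_mul]
      congr 1
      exact Subtype.ext (hx k.1 k.2)
    have hidx : (Subgroup.centralizer (κ'.range : Set (Un W))).relIndex E ≤ τ * p ^ c := by
      refine (relIndex_prod _ κ'.range α'.range E hKE hAE hEg ?_).trans ?_
      · intro a ha x hx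
        rw [cm_of_cen] at hx ⊢
        intro k hk
        have h1 := hx _ (hnmA a ha k hk)
        calc a⁻¹ * x * a * k = a⁻¹ * (x * (a * k * a⁻¹)) * a := by group
          _ = a⁻¹ * (a * k * a⁻¹ * x) * a := by rw [h1]
          _ = k * (a⁻¹ * x * a) := by group
      · refine Nat.mul_le_mul ((relIndex_range K (Subgroup.centralizer (K : Set G)) _ κ' ?_).trans
          hτ) ((relIndex_range A (Subgroup.centralizer (K : Set G)) _ α' ?_).trans hAc)
        · intro x hx
          rw [cm_of_cen] at hx ⊢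
          exact hcm x hx
        · intro x hx
          rw [cm_of_cen] at hx ⊢
          rintro _ ⟨k, rfl⟩
          have h1 := heq' x k k (by
            rw [hx k.1 k.2]
            group)
          calc α' x * κ' k = α' x * κ' k * (α' x)⁻¹ * α' x := by group
            _ = κ' k * α' x := by rw [h1]
    have hFx : FixedBy α ⊤ = FxU α'.range := by
      ext w
      rw [mem_FixedBy, mem_FxU]
      constructor
      · rintro h _ ⟨a, rfl⟩
        rw [hαv]
        exact h a trivial
      · intro h a _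
        rw [← hαv]
        exact h _ ⟨a, rfl⟩
    have hcardW := hGNT p W E κ'.range α'.range hex hKE hAE hEK hEg hpf hne hab hpg hCq hirr'
      (Nat.log 2 (τ * p ^ c)) (Nat.log_mono_right hidx)
    obtain ⟨d, hd⟩ := card_pow p W hex
    have hdm : d ≤ c * Nat.log 2 (τ * p ^ c) := by
      have h1 : p ^ d ≤ p ^ (c * Nat.log 2 (τ * p ^ c)) := by
        rw [← hd, pow_mul]
        refine hcardW.trans (Nat.pow_le_pow_left ?_ _)
        rw [← hFx]
        exact hcon.trans hAc
      exact (Nat.pow_le_pow_iff_right hp1).mp h1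
    -- the element v
    have hvn' : ¬ Cm κ'.range (κ' ⟨v, hv⟩) := by
      intro hcv
      obtain ⟨M, hM⟩ : ∃ M : Subgroup G,
          M = ((Subgroup.centralizer (κ'.range : Set (Un W))).comap κ').map K.subtype := ⟨_, rfl⟩
      have hMm : ∀ x : K, x.1 ∈ M ↔ Cm κ'.range (κ' x) := by
        intro x
        rw [hM]
        constructor
        · rintro ⟨y, hy, hyx⟩
          have h1 : y = x := Subtype.ext hyx
          rw [← h1]
          exact cm_of_cen.1 hy
        · intro h
          exact ⟨x, cm_of_cen.2 h, rfl⟩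
      have hMK : M ≤ K := by
        rw [hM]
        rintro _ ⟨y, _, rfl⟩
        exact y.2
      rcases hqs M hMK (by
        intro b hb m hm
        have h1 := (hMm ⟨m, hMK hm⟩).1 hm
        refine (hMm (⟨b, hb⟩ * ⟨m, hMK hm⟩ * (⟨b, hb⟩)⁻¹)).2 ?_
        rw [map_mul, map_mul, map_inv]
        have h2 : κ' ⟨b, hb⟩ * κ' ⟨m, hMK hm⟩ * (κ' ⟨b, hb⟩)⁻¹ = κ' ⟨m, hMK hm⟩ := by
          rw [← h1 _ ⟨⟨b, hb⟩, rfl⟩]
          group
        rw [h2]
        exact h1) with h | h
      · apply hne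
        refine triv_of_comm hpf ?_
        rintro _ ⟨k, rfl⟩ l hl
        exact (hMm k).1 (by
          rw [h]
          exact k.2) l hl
      · exact hvn (h v ((hMm ⟨v, hv⟩).2 hcv))
    have hvr' : Cm κ'.range ((κ' ⟨v, hv⟩) ^ r) := by
      rw [← map_pow]
      exact hcm _ hvr
    have hE2 := hEGT p r hrp W hex κ'.range (κ' ⟨v, hv⟩) ⟨_, rfl⟩ hvn' hvr' d hd
    have hsub : Subgroup.closure ({i : (ZMod r)ˣ | (i : ZMod r) = (p : ZMod r)} ∪
        {i : (ZMod r)ˣ | ∃ k ∈ K, Cm K (k * v * k⁻¹ * (v ^ (i : ZMod r).val)⁻¹)}) ≤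
        Subgroup.closure ({i : (ZMod r)ˣ | (i : ZMod r) = (p : ZMod r)} ∪
        {i : (ZMod r)ˣ | ∃ k ∈ κ'.range, Cm κ'.range (k * κ' ⟨v, hv⟩ * k⁻¹ *
          (κ' ⟨v, hv⟩ ^ (i : ZMod r).val)⁻¹)}) := by
      refine Subgroup.closure_mono (Set.union_subset_union_right _ ?_)
      rintro i ⟨k, hk, h⟩
      refine ⟨κ' ⟨k, hk⟩, ⟨_, rfl⟩, ?_⟩
      rw [← map_mul, ← map_inv, ← map_mul, ← map_pow, ← map_inv, ← map_mul]
      exact hcm _ h
    have h2 := Subgroup.card_le_of_le hsub
    have h4 : d ^ 2 ≤ (c * Nat.log 2 (τ * p ^ c)) ^ 2 := Nat.pow_le_pow_left hdm 2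
    omega

end Pool.Agent.Work.MP_6d7bb4.h65u
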