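import Pool.Agent.Work.MP_6d7bb4_G.InterfaceM
import Pool.Agent.Work.MP_6d7bb4_h65u.Interface2

set_option autoImplicit false
set_option linter.unusedSectionVars false

/-!
# MP_6d7bb4: plan G, part 3: quasisimple subgroups; groups without offenders on the components (helper65)

Rules as in `InterfaceM.lean`: `Pool/Agent/Work/MP_6d7bb4_G/B_X.lean`, `import` this file, namespace
`Pool.Agent.Work.MP_6d7bb4.h65u`, the same `open` lines, `theorem s_X (hA : Stmt_A) .. : Stmt_X`, auxiliary lemmas in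
`namespace X_X`. You may import the other `B_X.lean` files for their auxiliary lemmas.
-/

namespace Pool.Agent.Work.MP_6d7bb4.h65u

open MulAction
open Pool.Agent.Work.MP_6d7bb4.helper94 Pool.Agent.Work.MP_6d7bb4.helper94.Sol
open Tv Ff Ps

/-- `𝒩` is one conjugacy class of quasisimple subgroups of `F`, different members commute, the members
generate a transitive group -/
structure Qhy {Ω : Type} (F : Subgroup (Equiv.Perm Ω)) (𝒩 : Set (Subgroup (Equiv.Perm Ω))) :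
    Prop where
  le : ∀ T ∈ 𝒩, T ≤ F
  ne : ∀ T ∈ 𝒩, T ≠ ⊥
  pf : ∀ T ∈ 𝒩, ⁅T, T⁆ = T
  qs : ∀ T ∈ 𝒩, ∀ M : Subgroup (Equiv.Perm Ω), M ≤ T → (∀ t ∈ T, ∀ m ∈ M, t * m * t⁻¹ ∈ M) →
    M = T ∨ ∀ m ∈ M, ∀ t ∈ T, m * t = t * m
  cl : ∀ T ∈ 𝒩, ∀ f ∈ F, cj f T ∈ 𝒩
  tr : ∀ T ∈ 𝒩, ∀ T' ∈ 𝒩, ∃ f ∈ F, cj f T = T'
  cm : ∀ T ∈ 𝒩, ∀ T' ∈ 𝒩, T ≠ T' → ∀ t ∈ T, ∀ t' ∈ T', t * t' = t' * t
  pt : ∀ a b : Ω, ∃ n ∈ sSup 𝒩, n a = b

/-- condition (G) with quasisimple subgroups -/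
def CondGq {Ω : Type} (F : Subgroup (Equiv.Perm Ω)) (p : ℕ) : Prop :=
  ∃ 𝒩 : Set (Subgroup (Equiv.Perm Ω)), Qhy F 𝒩 ∧
    ∀ (ω : Ω) (N : Subgroup (Equiv.Perm Ω)), N ≤ F → (∀ n ∈ N, n ω = ω) →
      (∀ f ∈ F, f ω = ω → ∀ n ∈ N, f * n * f⁻¹ ∈ N) → IsPGroup p N →
      ∀ T ∈ 𝒩, ∀ g ∈ N, ∀ h ∈ N, cj g T = T → cj h T = T → (∀ t ∈ T, g ^ p * t = t * g ^ p) →
      (∀ t ∈ T, h ^ p * t = t * h ^ p) → (∃ t ∈ T, g * t ≠ t * g) →
      ∃ i : ℕ, ∀ t ∈ T, h * g ^ i * t = t * (h * g ^ i)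

/-- condition (T): there are no offenders on the members of `𝒩` -/
def CondT {Ω : Type} (F : Subgroup (Equiv.Perm Ω)) (p : ℕ) : Prop :=
  ∃ 𝒩 : Set (Subgroup (Equiv.Perm Ω)), Qhy F 𝒩 ∧ ∀ T ∈ 𝒩,
    ∃ (c r : ℕ) (u : Equiv.Perm Ω), r.Prime ∧ r ≠ p ∧ u ∈ T ∧ u ^ r = 1 ∧
      (∃ t ∈ T, u * t ≠ t * u) ∧
      (∀ (ω : Ω) (N A : Subgroup (Equiv.Perm Ω)), N ≤ F → (∀ n ∈ N, n ω = ω) →
        (∀ f ∈ F, f ω = ω → ∀ n ∈ N, f * n * f⁻¹ ∈ N) → IsPGroup p N → A ≤ N →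
        (∀ a ∈ A, ∀ b ∈ A, a * b = b * a) → (∀ a ∈ A, a ^ p = 1) → (∀ a ∈ A, cj a T = T) →
        (Subgroup.centralizer (T : Set (Equiv.Perm Ω))).relIndex A ≤ p ^ c) ∧
      (c * Nat.log 2 (Nat.card T * p ^ c)) ^ 2 <
        Nat.card (Subgroup.closure ({i : (ZMod r)ˣ | (i : ZMod r) = (p : ZMod r)} ∪
          {i : (ZMod r)ˣ | ∃ t ∈ T, t * u * t⁻¹ = u ^ (i : ZMod r).val}))

/-! ## 1. Quasisimple subgroups -/

/-- BLOCK DIC3 (uses nothing): as `Stmt_DIC2`, for quasisimple subgroups. Adapt `B_DIC2.lean`.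
PROOF. `R.map π` is normalised by `F = π.range`, so `D = T ⊓ R.map π` is normalised by `T`; by `qs` it is `T` (done) or
central in `T`. Let it be central, `g ∈ R.map π`. If `cj g T = T` then `t g t⁻¹ g⁻¹ ∈ D` for `t ∈ T`; `h t = t g t⁻¹ g⁻¹`
satisfies `h (s t) = s (h t) s⁻¹ (h s) = h t * h s`, with values in the commutative group `D`, so `h` is trivial on
commutators, so on `T = ⁅T, T⁆`. If `cj g T ≠ T`: for `s`, `t ∈ T` let `c = t (g t⁻¹ g⁻¹) ∈ R.map π`; `g t⁻¹ g⁻¹ ∈ cj g T` commutes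
with `s` and `t`, so `s c s⁻¹ c⁻¹ = s t s⁻¹ t⁻¹ ∈ D`, so `⁅T, T⁆ ≤ D` is commutative, so `T = ⁅T, T⁆ = ⊥`, against `ne`. -/
def Stmt_DIC3 : Prop := ∀ (Ω : Type) (F : Subgroup (Equiv.Perm Ω))
  (𝒩 : Set (Subgroup (Equiv.Perm Ω))), Qhy F 𝒩 → ∀ (X : Type) [Group X]
  (π : X →* Equiv.Perm Ω), π.range = F → ∀ R : Subgroup X, R.Normal →
  ∀ T ∈ 𝒩, T ≤ R.map π ∨ ∀ g ∈ R, ∀ t ∈ T, π g * t = t * π g

/-- BLOCK FIX3 (uses nothing): as `Stmt_FIX2`, for quasisimple subgroups. Copy `B_FIX2.lean` (only `le`, `cl`, `pt`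
are used). -/
def Stmt_FIX3 : Prop := ∀ (Ω : Type) (F : Subgroup (Equiv.Perm Ω)) (p : ℕ) [Fact p.Prime]
  (𝒩 : Set (Subgroup (Equiv.Perm Ω))), Qhy F 𝒩 →
  ∀ (X : Type) [Group X] [Finite X] (π : X →* Equiv.Perm Ω), π.range = F →
  ∀ (ω : Ω) (Y P : Subgroup X), (∀ x : X, x ∈ Y ↔ π x ω = ω) → IsOp p Y P →
  ∀ (S : Type) [AddCommGroup S] (ρ : X →* AddMonoid.End S), NP p ρ →
  ∀ b ∈ P, (∀ T ∈ 𝒩, ∀ x : X, π x ∈ T → ρ x * ρ b = ρ b * ρ x) → ρ b = 1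

/-- BLOCK KTG3 (uses KTC): as `Stmt_KTG`, for quasisimple `T`. Adapt `B_KTG.lean`: `M.map π` (generated by the
`t (π g) t⁻¹ (π g)⁻¹`) is contained in `T` and normalised by `T`; if it is central in `T` then `t ↦ t (π g) t⁻¹ (π g)⁻¹` is
a homomorphism from `T` to a commutative group (as in DIC3), so trivial on `⁅T, T⁆ = T`, against the last
hypothesis; so it is `T`. -/
def Stmt_KTG3 : Prop := ∀ (X : Type) [Group X] (Q : Type) [Group Q] (π : X →* Q)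
  (R : Subgroup X) (S : Type) [AddCommGroup S] (ρ : X →* AddMonoid.End S), R.Normal →
  (∀ k ∈ π.ker, ∀ g ∈ R, ρ k * ρ g = ρ g * ρ k) →
  ∀ T : Subgroup Q, (∀ M : Subgroup Q, M ≤ T → (∀ t ∈ T, ∀ m ∈ M, t * m * t⁻¹ ∈ M) →
    M = T ∨ ∀ m ∈ M, ∀ t ∈ T, m * t = t * m) → ⁅T, T⁆ = T → T ≤ R.map π →
  ∀ g : X, cj (π g) T = T → (∃ t ∈ T, π g * t ≠ t * π g) →
  (KT π R T).map ρ.toHomUnits ≤ Cq ((KT π R T).map ρ.toHomUnits) (ρ.toHomUnits g)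

/-- the groups `κ T` belonging to the members `T` of `𝒩` -/
structure Kps {Ω : Type} (𝒩 : Set (Subgroup (Equiv.Perm Ω))) {X : Type} [Group X]
    (π : X →* Equiv.Perm Ω) {U : Type} [AddCommGroup U] (ψ : X →* Un U) (P : Ω → Subgroup X)
    (κ : Subgroup (Equiv.Perm Ω) → Subgroup (Un U)) : Prop where
  pf : ∀ T ∈ 𝒩, ⁅κ T, κ T⁆ = κ T
  ne : ∀ T ∈ 𝒩, κ T ≠ ⊥
  le : ∀ T ∈ 𝒩, κ T ≤ ψ.range
  eq : ∀ T ∈ 𝒩, ∀ g : X, cj (ψ g) (κ T) = κ (cj (π g) T)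
  cm : ∀ T ∈ 𝒩, ∀ T' ∈ 𝒩, T ≠ T' → ∀ k ∈ κ T, ∀ l ∈ κ T', k * l = l * k
  ij : ∀ T ∈ 𝒩, ∀ T' ∈ 𝒩, κ T = κ T' → T = T'
  ce : ∀ T ∈ 𝒩, ∀ g : X, Cm (κ T) (ψ g) ↔ ∀ t ∈ T, π g * t = t * π g
  qs : ∀ T ∈ 𝒩, ∀ g : X, cj (π g) T = T → ¬ Cm (κ T) (ψ g) → κ T ≤ Cq (κ T) (ψ g)
  lf : ∀ T ∈ 𝒩, ∀ t ∈ T, ∃ g : X, π g = t ∧ ψ g ∈ κ T
  dn : ∀ T ∈ 𝒩, ∀ k ∈ κ T, ∃ g : X, ψ g = k ∧ π g ∈ T
  fa : ∀ ω, ∀ b ∈ P ω, (∀ T ∈ 𝒩, Cm (κ T) (ψ b)) → ψ b = 1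
  tr : ∀ ω ω', ∃ g : X, (∀ T ∈ 𝒩, cj (ψ g) (κ T) = κ T) ∧ π g ω = ω'

/-- BLOCK KEQ0 (uses KTC, KOM2, DIC3, FIX3, KTG3): the groups `κ T`. Adapt `B_KEQ.lean` (the argument is contained in
its proof).
PROOF. `ρ = (Units.coeHom _).comp ψ`, `ρ.toHomUnits = ψ`. Take `ω0`, `b0 ∈ P ω0` with `ψ b0 ≠ 1`,
`R = Subgroup.normalClosure (P ω0)`; `P ω ≤ R` for all `ω` and `R` is also the normal closure of `P ω`. KOM2 (1): `ρ k` commutes
with `ρ R` for `k ∈ π.ker`. (1) `T ≤ R.map π` for all `T ∈ 𝒩`: otherwise by DIC3 `π R` centralises one `T`, so all (`tr`), and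
`ρ b0 = 1` by KOM2 (2) and FIX3. (2) `κ T = (KT π R T).map ψ`. `eq`: KTC, first part. `pf`: KTC (3). `ne`: as (2) of KEQ. `le` clear.
`cm`, `ij`: as (3) of KEQ. `ce`, `qs`: as (4) of KEQ (KTG3). `lf`: `(KT π R T).map π = T` (KTC (1)). `dn`: the same. `fa`: `π b`
centralises all `T` by `ce`; KOM2 (2), FIX3 (for `ω`). `tr`: as the last statement of KEQ: there is `n` in the supremum of the
`KT π R T` with `π n ω = ω'` (`pt`), and `ψ n` normalises all `κ T`. -/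
def Stmt_KEQ0 : Prop := ∀ (Ω : Type) (F : Subgroup (Equiv.Perm Ω)) (p : ℕ) [Fact p.Prime]
  (𝒩 : Set (Subgroup (Equiv.Perm Ω))), Qhy F 𝒩 → ∀ (X : Type) [Group X] [Finite X]
  (π : X →* Equiv.Perm Ω), π.range = F → ∀ (U : Type) [AddCommGroup U] (ψ : X →* Un U),
  NP p ((Units.coeHom _).comp ψ) → ∀ P : Ω → Subgroup X, (∀ ω, IsOp p (Yo π ω) (P ω)) →
  (∃ ω, ∃ b ∈ P ω, ψ b ≠ 1) → ∃ κ : Subgroup (Equiv.Perm Ω) → Subgroup (Un U), Kps 𝒩 π ψ P κ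

/-- BLOCK KEQq (uses KEQ0): the environment of a module; same conclusion as `Stmt_KEQ`.
PROOF. `𝒦 = {κ T | T ∈ 𝒩}` with `κ` from KEQ0. `KE`: `fin`: `Finite U`; `non`: if `𝒩 = ∅` then `Kps.fa` gives `ψ b = 1` for `b ∈ P ω`, against
the hypothesis; `KZ`: `le`; `pf`, `ne`; `cl`: `eq`, `Qhy.cl`; `tr`: `eq`, `Qhy.tr`; `cm`: `Kps.cm`; `qs`: `cj (ψ g) (κ T) = κ T` implies
`cj (π g) T = T` (`eq`, `ij`), `Kps.qs`; `ss`: hypothesis. `KQ` for `ω`: `Qp`: `IsOp.pg`; `Zn`: `IsOp.nm`; `fa`: `Kps.fa`; `un`: `g = ψ a`,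
`h = ψ b`, `a`, `b ∈ P ω`; `eq`, `ij`, `ce` translate everything to `π a`, `π b ∈ (P ω).map π`, a `p`-group in `F` fixing `ω`,
normalised by the stabiliser of `ω` in `F`; last clause of `CondGq`. `fc`: for `z = ψ x` take `n` from `Kps.tr` with
`π n ω = π x ω`; `z = ψ n * ψ (n⁻¹ x)`. Last statement: `Kps.tr`. -/
def Stmt_KEQq : Prop := ∀ (Ω : Type) (F : Subgroup (Equiv.Perm Ω)) (p : ℕ) [Fact p.Prime],
  CondGq F p → ∀ (X : Type) [Group X] [Finite X] (π : X →* Equiv.Perm Ω), π.range = F →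
  ∀ (U : Type) [AddCommGroup U] [Finite U] (ψ : X →* Un U), NP p ((Units.coeHom _).comp ψ) →
  (∀ S : AddSubgroup U, Iv ψ.range S → ∃ S' : AddSubgroup U, Iv ψ.range S' ∧ S ⊓ S' = ⊥ ∧
    S ⊔ S' = ⊤) →
  ∀ P : Ω → Subgroup X, (∀ ω, IsOp p (Yo π ω) (P ω)) → (∃ ω, ∃ b ∈ P ω, ψ b ≠ 1) →
  ∃ 𝒦 : Set (Subgroup (Un U)), KE ψ.range 𝒦 ∧
    (∀ ω, KQ p ψ.range 𝒦 ((P ω).map ψ) ((Yo π ω).map ψ)) ∧
    ∀ ω ω', ∃ g : X, (∀ K ∈ 𝒦, cj (ψ g) K = K) ∧ π g ω = ω'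

/-- BLOCK HWGq (uses Sol.FMB, KEQq): as `Stmt_HWG`. Copy `B_HWG.lean` with KEQq instead of KEQ. -/
def Stmt_HWGq : Prop := ∀ (V Ω : Type) (Γ : SimpleGraph V) (H : Subgroup (Γ ≃g Γ))
  (F : Subgroup (Equiv.Perm Ω)) (d p : ℕ) [Fact p.Prime], Loc H Γ d → CB0 H Γ p →
  (∀ x, ∃ e, LA Γ H F x e) → CondGq F p → Hw H Γ d p

/-! ## 2. Groups without offenders on the components -/

/-- BLOCK GNT (uses GRD): few conjugates of `A` generate a group containing `K`.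
PROOF. Let `D = E ⊓ Subgroup.centralizer K`, normalised by `E`. (1) A subgroup `N ≤ E` which is a `p`-group normalised by
`E` is trivial: `FxU N ≠ ⊥` (a `p`-group acting on a nontrivial finite `p`-group, `U ≠ 0` as `K ≠ ⊥`) is invariant under
`E`, so it is `⊤` and `N = ⊥`. (2) `D ≤ K`. `⁅E, E⁆ ≤ K` (`E = K A`, `A` commutative), so commutators of elements of `D` are in
`K ⊓ D`, which commutes with `K` and with `D`; so for `a`, `b ∈ D` the commutator is central in `D`,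
`[a ^ n, b] = [a, b] ^ n`, `(a b) ^ n = a ^ n b ^ n [b, a] ^ (n (n - 1) / 2)`. So the elements of `D` of order a power of `p`
form a subgroup (if `a ^ p ^ k = b ^ p ^ k = 1` then `[a, b] ^ p ^ k = 1`, and `(a b) ^ p ^ (2 k + 1) = 1`); or:
`⊥ ≤ K ⊓ D ≤ D` is a central series, `D` is nilpotent and its Sylow `p`-subgroup is normal. It is normalised by `E`, so
trivial by (1). For `g ∈ D`, `g = k a`, some `g ^ p ^ m ∈ K` (modulo `K` it is `a`), and `g` is a power of `g ^ p ^ m` (its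
order is prime to `p`), so `g ∈ K`. (3) Apply GRD in the group `E ⧸ D` (`D.subgroupOf E` is normal) to `F = ⊤` and the image of
`A`, which is not trivial (`K ≤ Cq K a`, `K ≠ ⊥`, so `a ∉ D`). This gives `e i ∈ E` for `i : Fin (Nat.log 2 |E ⧸ D|)` such
that with `T1 = ⨆ i, cj (e i) A` all `f a f⁻¹` (`f ∈ E`, `a ∈ A`) lie in `T1 ⊔ D = T1 D`. So `K ≤ Cq K a ≤ T1 D`. (4) `K ≤ T1`: for
`k`, `k' ∈ K`, `k = t c`, `k' = t' c'` with `t`, `t' ∈ T1`, `c`, `c' ∈ D`; `c`, `c'` commute with `k`, `k'` and with each other (`D ≤ K`), so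
`k k' k⁻¹ k'⁻¹ = t t' t⁻¹ t'⁻¹ ∈ T1`, and `K = ⁅K, K⁆`. (5) `FxU K` is invariant under `E` and not `⊤`, so `⊥`; so
`⨅ i, FxU (cj (e i) A) = FxU T1 = ⊥` has index `|U|`. The index of `FxU (cj e A)` is that of `FxU A` (`e` maps one onto the
other), `AddSubgroup.index_iInf_le`, and `|E ⧸ D| = (Subgroup.centralizer K).relIndex E`. -/
def Stmt_GNT : Prop := ∀ (p : ℕ) [Fact p.Prime] (U : Type) [AddCommGroup U] [Finite U]
  (E K A : Subgroup (Un U)), (∀ u : U, p • u = 0) → K ≤ E → A ≤ E → Nm E K →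
  (∀ g ∈ E, ∃ k ∈ K, ∃ a ∈ A, g = k * a) → ⁅K, K⁆ = K → K ≠ ⊥ →
  (∀ a ∈ A, ∀ b ∈ A, a * b = b * a) → IsPGroup p A → (∃ a ∈ A, K ≤ Cq K a) →
  (∀ W : AddSubgroup U, Iv E W → W = ⊥ ∨ W = ⊤) →
  ∀ m : ℕ, Nat.log 2 ((Subgroup.centralizer (K : Set (Un U))).relIndex E) ≤ m →
  Nat.card U ≤ (FxU A).index ^ m

/-- BLOCK EGT (uses EIG): eigenvalues.
PROOF. Let `Z = {z ∈ K | Cm K z}` and `U2` the subgroup of all `f : AddMonoid.End U` which commute with all `z ∈ Z`. `K` acts on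
`U2` by `f ↦ k f k⁻¹` (`k` commutes with `Z`). `|U2| ≤ p ^ (n ^ 2)` as in block ADJ (`B_ADJ.lean`). Let `g` be the action of
`v` as a unit of `AddMonoid.End U2`. `g ^ r = 1`: `v ^ r ∈ Z`. `g ≠ 1`: `v` does not commute with some `k ∈ K`, and `k ∈ U2`. If
`k v k⁻¹ (v ^ i)⁻¹ = z ∈ Z` then `h g h⁻¹ = g ^ i` for the action `h` of `k` (`z` acts trivially). EIG gives
`p ^ |closure'| ≤ |U2| ≤ p ^ (n ^ 2)` with the closure of EIG containing the closure in the statement. -/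
def Stmt_EGT : Prop := ∀ (p r : ℕ) [Fact p.Prime] [Fact r.Prime], r ≠ p → ∀ (U : Type)
  [AddCommGroup U] [Finite U], (∀ u : U, p • u = 0) → ∀ (K : Subgroup (Un U)) (v : Un U),
  v ∈ K → ¬ Cm K v → Cm K (v ^ r) → ∀ n, Nat.card U = p ^ n →
  Nat.card (Subgroup.closure ({i : (ZMod r)ˣ | (i : ZMod r) = (p : ZMod r)} ∪
    {i : (ZMod r)ˣ | ∃ k ∈ K, Cm K (k * v * k⁻¹ * (v ^ (i : ZMod r).val)⁻¹)})) ≤ n ^ 2

/-- BLOCK TLB (uses GNT, EGT): no offenders.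
PROOF. Strong induction on `|W|`. Let `κ' = κ.toHomUnits`, `α' = α.toHomUnits`. (1) Suppose that there is an additive
subgroup `W0` of `W`, `≠ ⊥`, `≠ ⊤`, invariant under all `κ k` and `α a`. If `κ` is nontrivial on `W0`: the induction hypothesis
for `W0`, and `(FixedBy α0 ⊤).index ≤ (FixedBy α ⊤).index` (`FixedBy α0 ⊤ = FixedBy α ⊤ ⊓ W0`). Otherwise `κ` is nontrivial on
`W ⧸ W0`: if `κ k` is trivial on `W0` and on `W ⧸ W0` for all `k` then `κ k - 1` maps `W` to `W0` and `W0` to `0`, so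
`(κ k) (κ l) = (κ l) (κ k)`, `κ' (K)` is commutative and perfect, so trivial. Then the induction hypothesis for `W ⧸ W0`; the
image of `FixedBy α ⊤` is contained in the fixed points on `W ⧸ W0`. (2) Otherwise `W` is irreducible. Let `K' = κ'.range`,
`A' = α'.range`, `E = K' ⊔ A'` (`= K' A'`: `A'` normalises `K'`). Suppose `(FixedBy α ⊤).index ≤ q := (centralizer K).relIndex A`, so
`≤ p ^ c`. `FixedBy α ⊤ = FxU A'`. GNT with `m = Nat.log 2 (τ * p ^ c)`: `K'` perfect, not trivial; for `a0 ∈ A` with `¬ Cm K a0`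
`K' ≤ Cq K' (α' a0)` (image of `K ≤ Cq K a0`, `κ' (k a0 k⁻¹ a0⁻¹) = κ' k (α' a0) (κ' k)⁻¹ (α' a0)⁻¹` as
`κ' (a0 k⁻¹ a0⁻¹) = α' a0 κ' k⁻¹ α' a0⁻¹`); `(centralizer K').relIndex E ≤ (centralizer K').relIndex K' * (centralizer K').relIndex A'`
(the map from `K' × A'`), the first factor is at most `(centralizer K).relIndex K ≤ τ`, the second at most
`(centralizer K).relIndex A ≤ p ^ c` (elements which commute with `K` are mapped to elements which commute with `K'`).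
So `|W| ≤ (p ^ c) ^ m`; `|W| = p ^ n`, `n ≤ c * m`. EGT for `K'`, `v' = κ' v`: `¬ Cm K' v'`: otherwise `{k ∈ K | Cm K' (κ' k)}` is a
subgroup of `K` normalised by `K`, so it is `K` (then `K'` is commutative and perfect, `K' = ⊥`, contradiction) or central in
`K`, against `¬ Cm K v`. `Cm K' (v' ^ r)` and the closure in the hypothesis is contained in the closure of EGT. So
`|closure| ≤ n ^ 2 ≤ (c * m) ^ 2`: contradiction. -/
def Stmt_TLB : Prop := ∀ (p r : ℕ) [Fact p.Prime] [Fact r.Prime], r ≠ p → ∀ (G : Type)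
  [Group G] [Finite G] (K A : Subgroup G) (c τ : ℕ) (v : G), ⁅K, K⁆ = K →
  (∀ M : Subgroup G, M ≤ K → Nm K M → M = K ∨ ∀ m ∈ M, Cm K m) →
  (Subgroup.centralizer (K : Set G)).relIndex K ≤ τ →
  (∀ a ∈ A, ∀ b ∈ A, a * b = b * a) → (∀ a ∈ A, a ^ p = 1) → (∀ a ∈ A, cj a K = K) →
  (∃ a ∈ A, ¬ Cm K a) → (∀ a ∈ A, ¬ Cm K a → K ≤ Cq K a) →
  (Subgroup.centralizer (K : Set G)).relIndex A ≤ p ^ c →
  v ∈ K → ¬ Cm K v → Cm K (v ^ r) →
  (c * Nat.log 2 (τ * p ^ c)) ^ 2 <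
    Nat.card (Subgroup.closure ({i : (ZMod r)ˣ | (i : ZMod r) = (p : ZMod r)} ∪
      {i : (ZMod r)ˣ | ∃ k ∈ K, Cm K (k * v * k⁻¹ * (v ^ (i : ZMod r).val)⁻¹)})) →
  ∀ (W : Type) [AddCommGroup W] [Finite W] (κ : K →* AddMonoid.End W)
    (α : A →* AddMonoid.End W), (∀ w : W, p • w = 0) →
    (∀ (a : A) (k k' : K), k'.1 = a.1 * k.1 * a.1⁻¹ → α a * κ k = κ k' * α a) →
    (∃ k, κ k ≠ 1) →
    (Subgroup.centralizer (K : Set G)).relIndex A < (FixedBy α ⊤).index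

/-- BLOCK KLD (uses TAB, ORC): the strict lower bound. Adapt `B_KLB.lean`.
PROOF. Let `N0 = {a ∈ A | Cm K a for all K ∈ 𝒦} ≤ N`; `N0 ≠ A`, and `N.relIndex A ≤ N0.relIndex A`; it is enough to prove
`N0.relIndex A < (FixedBy σ A).index`. Induction on `|A|`. Let `K ∈ 𝒦` be not centralised by `A`, `C = {a ∈ A | Cm K a} < A`,
`U = FixedBy σ C`, `A1 = {a ∈ A | cj a K = K}`, `B0` maximal with `C ≤ B0 ≤ A`, `B0 ⊓ A1 ≤ C`, so `B0 ⊔ A1 = A`, and ORC gives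
`C.relIndex B0 ^ 2 ≤` the index in `U` of `U0 = FixedBy σ B0`, and `δ` (all this as in the STEP of `Stmt_KLB`). Let
`m = C.relIndex B0`; `C.relIndex A ≤ m * C.relIndex A1`. If `A1` is not contained in `C` then the hypothesis for `K`, `A1`,
`W = U0`, `κ k = σ (δ k)` restricted to `U0` (`δ k` commutes with `B0`), `α a = σ a` restricted to `U0` (equivariance: last
clause of ORC, `a` commutes with `B0` and normalises `K`; nontrivial by ORC) gives `C.relIndex A1 <` the index of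
`FixedBy σ A` in `U0`; so `C.relIndex A ≤ m ^ 2 * C.relIndex A1 <` the index of `FixedBy σ A` in `U`. If `A1 ≤ C` then `B0 = A`,
`m = C.relIndex A > 1` and `m < m ^ 2 ≤` the index of `FixedBy σ A` in `U`. Finally `N0.relIndex A = N0.relIndex C * C.relIndex A`
(`N0` is the same group for `C`) and `N0.relIndex C ≤ (FixedBy σ C).index` (induction, or `N0 = C`). -/
def Stmt_KLD : Prop := ∀ (p : ℕ) [Fact p.Prime] (G : Type) [Group G] [Finite G] (V : Type)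
  [AddCommGroup V] [Finite V] (σ : G →* AddMonoid.End V) (𝒦 : Set (Subgroup G))
  (A N : Subgroup G), (∀ v : V, p • v = 0) → (∀ a ∈ A, ∀ b ∈ A, a * b = b * a) →
  (∀ a ∈ A, a ^ p = 1) → (∀ K ∈ 𝒦, ⁅K, K⁆ = K ∧ ∃ k ∈ K, σ k ≠ 1) →
  (∀ K ∈ 𝒦, ∀ a ∈ A, cj a K ∈ 𝒦) →
  (∀ K ∈ 𝒦, ∀ L ∈ 𝒦, K ≠ L → ∀ k ∈ K, ∀ l ∈ L, k * l = l * k) →
  (∀ K ∈ 𝒦, ∀ A1 : Subgroup G, A1 ≤ A → (∀ a ∈ A1, cj a K = K) → (∃ a ∈ A1, ¬ Cm K a) →
    ∀ (W : Type) [AddCommGroup W] [Finite W] (κ : K →* AddMonoid.End W)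
      (α : A1 →* AddMonoid.End W), (∀ w : W, p • w = 0) →
      (∀ (a : A1) (k k' : K), k'.1 = a.1 * k.1 * a.1⁻¹ → α a * κ k = κ k' * α a) →
      (∃ k, κ k ≠ 1) →
      (Subgroup.centralizer (K : Set G)).relIndex A1 < (FixedBy α ⊤).index) →
  (∀ a ∈ A, (∀ K ∈ 𝒦, Cm K a) → a ∈ N) → N ≤ A → N ≠ A →
  N.relIndex A < (FixedBy σ A).index

/-- BLOCK CTU (uses KEQ0, TLB, KLD): condition (T) excludes offenders.
PROOF. Let `𝒩` be as in `CondT` and suppose that there are `X`, `π`, `ω`, `Y`, `P`, `S`, `ρ`, `A` as in the definition of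
`UniqueOffender` with `Offender p ρ A`. For every `ω'` there is `P' ω'` with `IsOp p (Yo π ω') (P' ω')` (the join of the normal
`p`-subgroups; see `O` of `MP_6d7bb4_helper94` or `B_HWG.lean`; or transport `P` by transitivity), and `P' ω = P`
(uniqueness; `Yo π ω = Y`). KEQ0 with `U = S`, `ψ = ρ.toHomUnits`; `NP p ρ` follows from irreducibility (`irr_act`, see
`B_KOM.lean`). This gives `κ`. Let `A' = A.map ψ`. KLD with `G = Un S`, `σ = Units.coeHom _`, `𝒦 = κ '' 𝒩`, `A'`, `N = ⊥`: `A'` is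
elementary abelian, not `⊥` (`Offender.nt`); commuting with all `κ T` implies `1` (`Kps.fa`, `A ≤ P`). So
`|A'| < (FixedBy σ A').index = (FixedBy ρ A).index ≤ ρ.ker.relIndex A = |A'|` (`Offender.of`): contradiction. The hypothesis
of KLD for `K = κ T`, `A1 ≤ A'` is TLB: let `c`, `r`, `u` be as in `CondT` for `T`, `τ = |T|`, `v = ψ g` with `π g = u`, `ψ g ∈ κ T`
(`Kps.lf`). `¬ Cm (κ T) v`, `Cm (κ T) (v ^ r)`: `Kps.ce`. If `t u t⁻¹ = u ^ i`, `t ∈ T`, then with `h` from `lf` for `t`: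
`π (h g h⁻¹ (g ^ i)⁻¹) = 1`, so `Cm (κ T) (ψ h * v * (ψ h)⁻¹ * (v ^ i)⁻¹)` by `ce`; so the closure in `CondT` is contained in the
closure of TLB. `(centralizer (κ T)).relIndex (κ T) ≤ |T|`: choose for `k ∈ κ T` an element `g` with `ψ g = k`, `π g ∈ T` (`dn`); if `π g = π g'` then
`Cm (κ T) (ψ (g⁻¹ g'))` (`ce`), so `k ↦ π g` separates the cosets. Quasisimple: let `M ≤ κ T` be normalised by `κ T` and
`M0 = {π g | π g ∈ T, ψ g ∈ M}`, a subgroup normalised by `T` (`lf`); by `Qhy.qs` it is central, then `M` is central (`dn`, `ce`), or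
it is `T`; then for `k ∈ κ T`, `k = ψ g'`, `π g' ∈ T`, there is `g` with `π g = π g'`, `ψ g ∈ M`, so `k = ψ g * z` with `z ∈ κ T`, `Cm (κ T) z`;
so commutators of elements of `κ T` are commutators of elements of `M`, and `κ T = ⁅κ T, κ T⁆ ≤ M`. `cj a (κ T) = κ T` implies
`cj (π a) T = T` (`eq`, `ij`), so `κ T ≤ Cq` by `Kps.qs`. `(centralizer (κ T)).relIndex A1 ≤ p ^ c`: let `A2 = {a ∈ A | ψ a ∈ A1}`;
`A2.map π ≤ P.map π`, a `p`-group in `F` fixing `ω` and normalised by the elements of `F` fixing `ω`; `A2.map π` is elementary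
abelian and normalises `T`, so `(centralizer T).relIndex (A2.map π) ≤ p ^ c`, and by `ce` both indices are equal to the index of
`{a ∈ A2 | π a centralises T}` in `A2`. -/
def Stmt_CTU : Prop := ∀ (Ω : Type) (F : Subgroup (Equiv.Perm Ω)) (p : ℕ) [Fact p.Prime],
  CondT F p → UniqueOffender F p

end Pool.Agent.Work.MP_6d7bb4.h65u
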