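import Pool.Agent.Work.MP_6d7bb4_G.FinalG
import Pool.Agent.Work.MP_6d7bb4_G.InterfaceT

set_option autoImplicit false
set_option linter.unusedSectionVars false

/-! # MP_6d7bb4: plan G with quasisimple subgroups; the end of the proof (helper65) -/

namespace Pool.Agent.Work.MP_6d7bb4.h65u

open MulAction Pool.Agent.Work.MP_6d7bb4.helper94 Pool.Agent.Work.MP_6d7bb4.helper94.Sol

section main
variable {V : Type} {Γ : SimpleGraph V} {Ω : Type}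

/-- at each prime -/
theorem hcbt (hVTF : Stmt_VTF) (hCDU : Stmt_CDU) (hHWGq : Stmt_HWGq) (p : ℕ) [hp : Fact p.Prime]
    {H : Subgroup (Γ ≃g Γ)} {F : Subgroup (Equiv.Perm Ω)}
    (hF2 : ∀ N : Subgroup (Equiv.Perm Ω), N ≤ F →
        (∀ f ∈ F, ∀ n ∈ N, f * n * f⁻¹ ∈ N) →
        ((∀ a b : Ω, ∃ σ ∈ N, σ a = b) ∨ (∀ σ ∈ N, ∀ a : Ω, σ a = a → σ = 1)))
    {d : ℕ} (h : Loc H Γ d)
    (hloc : ∀ x, ∃ e, LA Γ H F x e) {x0 y0 : V} (hxy : Γ.Adj x0 y0)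
    (hC : Cond F p ∨ CondGq F p) (hB : CB0 H Γ p) : Alt H Γ d p ∨ Hw H Γ d p := by
  rcases hC with hC | hC
  · exact Or.inl (hcbu hVTF hCDU hp.out hF2 h hloc hxy hC hB)
  · exact Or.inr (hHWGq V Ω Γ H F d p h hB hloc hC)

/-- the action on a ball is faithful -/
theorem faithfult [Fintype Ω] (hFIW : Stmt_FIW) (hBAU1 : Stmt_BAU1) (hSYS : Stmt_SYS)
    (hBU1 : Stmt_BU1) (hSYU : Stmt_SYU) (hVTF : Stmt_VTF) (hCDU : Stmt_CDU)
    (hFIWg : Stmt_FIWg) (hBW1 : Stmt_BW1) (hSYSk : Stmt_SYSk) (hHWGq : Stmt_HWGq)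
    {F : Subgroup (Equiv.Perm Ω)}
    (hF2 : ∀ N : Subgroup (Equiv.Perm Ω), N ≤ F →
        (∀ f ∈ F, ∀ n ∈ N, f * n * f⁻¹ ∈ N) →
        ((∀ a b : Ω, ∃ σ ∈ N, σ a = b) ∨ (∀ σ ∈ N, ∀ a : Ω, σ a = a → σ = 1)))
    (hF3 : ∀ p : ℕ, p.Prime → Cond F p ∨ CondGq F p)
    (hc : Γ.Connected) {H : Subgroup (Γ ≃g Γ)}
    (hfin : ∀ v : V, {g : Γ ≃g Γ | g ∈ H ∧ g v = v}.Finite)
    (hloc : ∀ x : V, ∃ e : Γ.neighborSet x ≃ Ω, LA Γ H F x e)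
    (harc : ∀ x y x' y', Γ.Adj x y → Γ.Adj x' y' → ∃ g ∈ H, g x = x' ∧ g y = y') (x : V) :
    Loc H Γ (Fintype.card Ω) ∧ ∀ g ∈ stabilizer H x,
      (∀ v, Γ.dist x v ≤ rT (Fintype.card Ω) + 2 → g • v = v) → g = 1 := by
  have hL : Loc H Γ (Fintype.card Ω) := loc_of hF2 hc hfin hloc harc
  refine ⟨hL, ?_⟩
  intro g hg hgv
  by_cases hn : ∃ y, Γ.Adj x y
  · obtain ⟨y, hxy⟩ := hn
    have hd : 1 ≤ Fintype.card Ω := by
      obtain ⟨e, _⟩ := hloc x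
      exact Fintype.card_pos_iff.mpr ⟨e ⟨y, hxy⟩⟩
    have h3 := Wr_botg hFIW hBAU1 hSYS hBU1 hSYU hFIWg hBW1 hSYSk hL
      (fun p [hp : Fact p.Prime] => hcbt hVTF hCDU hHWGq p hF2 hL hloc hxy (hF3 p hp.out)) hxy
      (r := rT (Fintype.card Ω) + 1) (by omega) ((rT_ge1 hd).trans (by omega))
      ((rT_ge2 _).trans (by omega)) (by omega)
    have h4 : g ∈ (Wr Γ (rT (Fintype.card Ω) + 1) x y : Subgroup H) := by
      intro v hv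
      refine hgv v ?_
      rcases hv with hv | hv
      · omega
      · have h5 := hc.dist_triangle (u := x) (v := y) (w := v)
        rw [SimpleGraph.dist_eq_one_iff_adj.mpr hxy] at h5
        omega
    rw [h3, Subgroup.mem_bot] at h4
    exact h4
  · refine hL.faith g (fun v => ?_)
    have h1 : v = x := by
      by_contra hne
      obtain ⟨q, hq⟩ := hc.exists_walk_length_eq_dist x v
      have h2 : q.length ≠ 0 := by
        rw [hq]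
        intro h0
        exact hne (hc.dist_eq_zero_iff.mp h0).symm
      have h3 : Γ.Adj (q.getVert 0) (q.getVert (0 + 1)) := q.adj_getVert_succ (by omega)
      rw [q.getVert_zero] at h3
      exact hn ⟨_, h3⟩
    rw [h1]
    exact mem_stabilizer_iff.mp hg

/-- finitely many classes, bounded stabilisers -/
theorem psvt [Fintype Ω] (hFIW : Stmt_FIW) (hBAU1 : Stmt_BAU1) (hSYS : Stmt_SYS)
    (hBU1 : Stmt_BU1) (hSYU : Stmt_SYU) (hVTF : Stmt_VTF) (hCDU : Stmt_CDU)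
    (hFIWg : Stmt_FIWg) (hBW1 : Stmt_BW1) (hSYSk : Stmt_SYSk) (hHWGq : Stmt_HWGq)
    {F : Subgroup (Equiv.Perm Ω)}
    (hF1 : ∀ a b : Ω, ∃ σ ∈ F, σ a = b)
    (hF2 : ∀ N : Subgroup (Equiv.Perm Ω), N ≤ F →
        (∀ f ∈ F, ∀ n ∈ N, f * n * f⁻¹ ∈ N) →
        ((∀ a b : Ω, ∃ σ ∈ N, σ a = b) ∨ (∀ σ ∈ N, ∀ a : Ω, σ a = a → σ = 1)))
    (hF3 : ∀ p : ℕ, p.Prime → Cond F p ∨ CondGq F p)
    (hT : Γ.IsTree) :
    ∃ S : Finset (Subgroup (Γ ≃g Γ)), ∀ H : Subgroup (Γ ≃g Γ),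
      (∀ v : V, {g : Γ ≃g Γ | g ∈ H ∧ g v = v}.Finite) →
      (∀ x : V, ∃ e : Γ.neighborSet x ≃ Ω, LA Γ H F x e) →
      ((∃ g ∈ H, ∃ x y : V, Γ.Adj x y ∧ g x = y ∧ g y = x ∧ g * g = 1) ∨
        (∀ x y : V, ∃ g ∈ H, g x = y)) →
      (∃ K ∈ S, ∃ a : Γ ≃g Γ, H = K.map (MulAut.conj a).toMonoidHom) ∧
      ∀ v : V, Nat.card {g : Γ ≃g Γ // g ∈ H ∧ g v = v} ≤ bndu (Fintype.card Ω) := by
  obtain ⟨o⟩ := hT.connected.nonempty
  obtain ⟨S, hS⟩ := MP_6d7bb4_psv.p_FIN (MP_6d7bb4_psv.p_CNJ MP_6d7bb4_psv.p_NF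
    MP_6d7bb4_psv.p_DST) V Γ hT o (bndu (Fintype.card Ω))
  refine ⟨S, fun H h1 h2 h3 => ?_⟩
  have harc := (MP_6d7bb4_psv.p_ARC Ω V F Γ H hT.connected hF1 h2 h3.symm).1
  have hb : ∀ x : V, Nat.card {g : Γ ≃g Γ // g ∈ H ∧ g x = x} ≤ bndu (Fintype.card Ω) := by
    intro x
    obtain ⟨hL, hf⟩ := faithfult hFIW hBAU1 hSYS hBU1 hSYU hVTF hCDU hFIWg hBW1 hSYSk hHWGq hF2
      hF3 hT.connected h1 h2 harc x
    have h1 := card_st hL x (rT (Fintype.card Ω) + 2) hf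
    have h2 : Nat.card {g : Γ ≃g Γ // g ∈ H ∧ g x = x} = Nat.card (stabilizer H x) := by
      refine Nat.card_congr
        { toFun := fun g => ⟨⟨g.1, g.2.1⟩, g.2.2⟩
          invFun := fun g => ⟨g.1.1, g.1.2, g.2⟩
          left_inv := fun g => rfl
          right_inv := fun g => rfl }
    rw [h2]
    exact h1
  exact ⟨hS H ⟨h1, harc, hb o⟩, hb⟩

end main

end Pool.Agent.Work.MP_6d7bb4.h65u
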