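import Pool.Agent.Work.MP_6d7bb4_G.All3
import Pool.Agent.Work.MP_6d7bb4_G.FinalT
import Pool.Agent.Work.MP_6d7bb4_h65u.B_CAY
import Pool.Agent.Work.MP_6d7bb4_G.B_DIC3
import Pool.Agent.Work.MP_6d7bb4_G.B_FIX3
import Pool.Agent.Work.MP_6d7bb4_G.B_KTG3
import Pool.Agent.Work.MP_6d7bb4_G.B_KEQ0
import Pool.Agent.Work.MP_6d7bb4_G.B_KEQq
import Pool.Agent.Work.MP_6d7bb4_G.B_HWGq
import Pool.Agent.Work.MP_6d7bb4_G.B_GNT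
import Pool.Agent.Work.MP_6d7bb4_G.B_EGT
import Pool.Agent.Work.MP_6d7bb4_G.B_TLB
import Pool.Agent.Work.MP_6d7bb4_G.B_KLD
import Pool.Agent.Work.MP_6d7bb4_G.B_CTU

set_option autoImplicit false

/-! # MP_6d7bb4: plan G with quasisimple components; assembly (helper65) -/

namespace Pool.Agent.Work.MP_6d7bb4.h65u

open MulAction Pool.Agent.Work.MP_6d7bb4.helper94 Pool.Agent.Work.MP_6d7bb4.helper94.Sol

theorem p_DIC3 : Stmt_DIC3 := s_DIC3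
theorem p_FIX3 : Stmt_FIX3 := s_FIX3
theorem p_KTG3 : Stmt_KTG3 := s_KTG3 p_KTC
theorem p_KEQ0 : Stmt_KEQ0 := s_KEQ0 p_KTC p_KOM2 p_DIC3 p_FIX3 p_KTG3
theorem p_KEQq : Stmt_KEQq := s_KEQq p_KEQ0
theorem p_HWGq : Stmt_HWGq := s_HWGq p_FMB p_KEQq
theorem p_GNT : Stmt_GNT := s_GNT p_GRD
theorem p_EGT : Stmt_EGT := s_EGT p_EIG
theorem p_TLB : Stmt_TLB := s_TLB p_GNT p_EGT
theorem p_KLD : Stmt_KLD := s_KLD p_TAB p_ORC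
theorem p_CTU : Stmt_CTU := s_CTU p_KEQ0 p_TLB p_KLD

section main
variable {V : Type} {Γ : SimpleGraph V} {Ω : Type}

/-- finitely many classes, bounded stabilisers -/
theorem maint [Fintype Ω] {F : Subgroup (Equiv.Perm Ω)}
    (hF1 : ∀ a b : Ω, ∃ σ ∈ F, σ a = b)
    (hF2 : ∀ N : Subgroup (Equiv.Perm Ω), N ≤ F →
        (∀ f ∈ F, ∀ n ∈ N, f * n * f⁻¹ ∈ N) →
        ((∀ a b : Ω, ∃ σ ∈ N, σ a = b) ∨ (∀ σ ∈ N, ∀ a : Ω, σ a = a → σ = 1)))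
    (hF3 : ∀ p : ℕ, p.Prime → CondAy F p ∨ (∃ S, CondB0 F p S) ∨ CondGq F p ∨ CondT F p ∨
      CondD F p)
    (hT : Γ.IsTree) :
    ∃ S : Finset (Subgroup (Γ ≃g Γ)), ∀ H : Subgroup (Γ ≃g Γ),
      (∀ v : V, {g : Γ ≃g Γ | g ∈ H ∧ g v = v}.Finite) →
      (∀ x : V, ∃ e : Γ.neighborSet x ≃ Ω, LA Γ H F x e) →
      ((∃ g ∈ H, ∃ x y : V, Γ.Adj x y ∧ g x = y ∧ g y = x ∧ g * g = 1) ∨
        (∀ x y : V, ∃ g ∈ H, g x = y)) →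
      (∃ K ∈ S, ∃ a : Γ ≃g Γ, H = K.map (MulAut.conj a).toMonoidHom) ∧
      ∀ v : V, Nat.card {g : Γ ≃g Γ // g ∈ H ∧ g v = v} ≤ bndu (Fintype.card Ω) := by
  refine psvt p_FIW p_BAU1 p_SYS p_BU1 p_SYU p_VTF p_CDU t_FIWg p_BW1 p_SYSk p_HWGq hF1 hF2
    (fun p hp => ?_) hT
  have : Fact p.Prime := ⟨hp⟩
  rcases hF3 p hp with h | h | h | h | h
  · exact Or.inl (Or.inr (Or.inl (s_CAY Ω F p h)))
  · exact Or.inl (Or.inl (Or.inr h))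
  · exact Or.inr h
  · exact Or.inl (Or.inr (Or.inl (p_CTU Ω F p h)))
  · exact Or.inl (Or.inr (Or.inr h))

end main

end Pool.Agent.Work.MP_6d7bb4.h65u
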