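import Pool.Agent.Work.MP_6d7bb4_G.InterfaceT

set_option autoImplicit false
set_option linter.unusedSectionVars false

namespace Pool.Agent.Work.MP_6d7bb4.h65u

open MulAction
open Pool.Agent.Work.MP_6d7bb4.helper94 Pool.Agent.Work.MP_6d7bb4.helper94.Sol
open Tv Ff Ps

namespace X_GNT

section grp
variable {G : Type*} [Group G]

/-- a commutative subgroup normalised by `E` has no elements of order `p` -/
theorem pp {p : ℕ} {E S : Subgroup G}
    (no : ∀ N : Subgroup G, N ≤ E → Nm E N → IsPGroup p N → N = ⊥) (hS : S ≤ E) (hn : Nm E S)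
    (hc : ∀ a ∈ S, ∀ b ∈ S, a * b = b * a) {s : G} (hs : s ∈ S) {k : ℕ} (hk : s ^ p ^ k = 1) :
    s = 1 := by
  let P : Subgroup G :=
    { carrier := {s | s ∈ S ∧ ∃ k : ℕ, s ^ p ^ k = 1}
      one_mem' := ⟨S.one_mem, 0, one_pow _⟩
      mul_mem' := by
        rintro a b ⟨ha, i, hi⟩ ⟨hb, j, hj⟩
        refine ⟨S.mul_mem ha hb, i + j, ?_⟩
        have h : Commute a b := hc a ha b hb
        rw [h.mul_pow, pow_add, pow_mul a, hi, one_pow, mul_comm (p ^ i), pow_mul b, hj, one_pow,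
          one_mul]
      inv_mem' := by
        rintro a ⟨ha, i, hi⟩
        refine ⟨S.inv_mem ha, i, ?_⟩
        rw [inv_pow, hi, inv_one] }
  have hP : P = ⊥ := by
    refine no P (fun x hx => hS hx.1) ?_ ?_
    · rintro e he x ⟨hx, i, hi⟩
      refine ⟨hn e he x hx, i, ?_⟩
      rw [conj_pow, hi, mul_one, mul_inv_cancel]
    · rintro ⟨x, hx, i, hi⟩
      exact ⟨i, Subtype.ext hi⟩
  have h1 : s ∈ P := ⟨hs, k, hk⟩
  rw [hP, Subgroup.mem_bot] at h1
  exact h1

/-- `x ^ n y x ^ (-n) = c ^ n y` -/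
theorem cpow {x y c : G} (h : x * y * x⁻¹ = c * y) (hc : c * x = x * c) (n : ℕ) :
    x ^ n * y * (x ^ n)⁻¹ = c ^ n * y := by
  induction n with
  | zero => simp
  | succ n ih =>
    have hc' : c ^ n * x = x * c ^ n := (Commute.pow_left (show Commute c x from hc) n).eq
    calc x ^ (n + 1) * y * (x ^ (n + 1))⁻¹ = x * (x ^ n * y * (x ^ n)⁻¹) * x⁻¹ := by
          rw [pow_succ']
          group
      _ = x * c ^ n * y * x⁻¹ := by
          rw [ih]
          group
      _ = c ^ n * x * y * x⁻¹ := by rw [hc']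
      _ = c ^ n * (x * y * x⁻¹) := by group
      _ = c ^ (n + 1) * y := by
          rw [h, pow_succ]
          group

/-- a power of `k a` is in `K a ^ n` -/
theorem kapow {E K A : Subgroup G} (hAE : A ≤ E) (hn : Nm E K) {k a : G} (hk : k ∈ K)
    (ha : a ∈ A) (n : ℕ) : ∃ k' ∈ K, (k * a) ^ n = k' * a ^ n := by
  induction n with
  | zero => exact ⟨1, K.one_mem, by simp⟩
  | succ n ih =>
    obtain ⟨k', hk', h⟩ := ih
    refine ⟨k' * (a ^ n * k * (a ^ n)⁻¹),
      K.mul_mem hk' (hn _ (hAE (A.pow_mem ha n)) k hk), ?_⟩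
    rw [pow_succ, h, pow_succ]
    group

/-- the centraliser of `K` in `E` is in `K` -/
theorem DK {p : ℕ} [Fact p.Prime] [Finite G] {E K A : Subgroup G}
    (no : ∀ N : Subgroup G, N ≤ E → Nm E N → IsPGroup p N → N = ⊥) (hKE : K ≤ E) (hAE : A ≤ E)
    (hn : Nm E K) (hE : ∀ g ∈ E, ∃ k ∈ K, ∃ a ∈ A, g = k * a)
    (hA : ∀ a ∈ A, ∀ b ∈ A, a * b = b * a) (hAp : IsPGroup p A) {g : G} (hg : g ∈ E)
    (hgK : ∀ k ∈ K, k * g = g * k) : g ∈ K := by
  -- the subgroup `D`
  have hcj : ∀ e ∈ E, ∀ x : G, (∀ k ∈ K, k * x = x * k) → ∀ k ∈ K,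
      k * (e * x * e⁻¹) = e * x * e⁻¹ * k := by
    intro e he x hx k hk
    have h1 := hn e⁻¹ (E.inv_mem he) k hk
    rw [inv_inv] at h1
    have h2 := hx _ h1
    calc k * (e * x * e⁻¹) = e * (e⁻¹ * k * e * x) * e⁻¹ := by group
      _ = e * (x * (e⁻¹ * k * e)) * e⁻¹ := by rw [h2]
      _ = e * x * e⁻¹ * k := by group
  -- commutators of elements of `E`
  have hcom : ∀ x ∈ E, ∀ y ∈ E, x * y * x⁻¹ * y⁻¹ ∈ K := by
    intro x hx y hy
    obtain ⟨k, hk, a, ha, rfl⟩ := hE x hx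
    obtain ⟨l, hl, b, hb, rfl⟩ := hE y hy
    have h1 : a * b * a⁻¹ * b⁻¹ = 1 := by
      rw [hA a ha b hb]
      group
    have e1 : k * a * (l * b) * (k * a)⁻¹ * (l * b)⁻¹ = k * (a * l * a⁻¹) *
        ((a * b * a⁻¹) * k⁻¹ * (a * b * a⁻¹)⁻¹) * (a * b * a⁻¹ * b⁻¹) * l⁻¹ := by
      group
    rw [e1, h1, mul_one]
    have hab : a * b * a⁻¹ ∈ E := E.mul_mem (E.mul_mem (hAE ha) (hAE hb)) (E.inv_mem (hAE ha))
    exact K.mul_mem (K.mul_mem (K.mul_mem hk (hn a (hAE ha) l hl))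
      (hn _ hab _ (K.inv_mem hk))) (K.inv_mem hl)
  -- (a) the p-elements of K ⊓ D
  have ha : ∀ x ∈ K, (∀ k ∈ K, k * x = x * k) → ∀ k : ℕ, x ^ p ^ k = 1 → x = 1 := by
    intro x hx hx' k hk
    let S : Subgroup G := K ⊓ Subgroup.centralizer (K : Set G)
    have hS : ∀ y, y ∈ S ↔ y ∈ K ∧ ∀ k ∈ K, k * y = y * k := by
      intro y
      rw [Subgroup.mem_inf, Subgroup.mem_centralizer_iff]
      rfl
    refine pp no (S := S) (fun y hy => hKE ((hS y).1 hy).1) ?_ ?_ ((hS x).2 ⟨hx, hx'⟩) hk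
    · intro e he y hy
      obtain ⟨h1, h2⟩ := (hS y).1 hy
      exact (hS _).2 ⟨hn e he y h1, hcj e he y h2⟩
    · intro a ha b hb
      exact ((hS b).1 hb).2 a ((hS a).1 ha).1
  -- (b) p-elements of D
  have hb : ∀ x ∈ E, (∀ k ∈ K, k * x = x * k) → ∀ k : ℕ, x ^ p ^ k = 1 → x = 1 := by
    intro x hx hx' k hk
    let S : Subgroup G := (E ⊓ Subgroup.centralizer (K : Set G)) ⊓
      Subgroup.centralizer ((E ⊓ Subgroup.centralizer (K : Set G) : Subgroup G) : Set G)
    have hD : ∀ y, y ∈ (E ⊓ Subgroup.centralizer (K : Set G) : Subgroup G) ↔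
        y ∈ E ∧ ∀ k ∈ K, k * y = y * k := by
      intro y
      rw [Subgroup.mem_inf, Subgroup.mem_centralizer_iff]
      rfl
    have hS : ∀ y, y ∈ S ↔ (y ∈ E ∧ ∀ k ∈ K, k * y = y * k) ∧
        ∀ z, z ∈ E → (∀ k ∈ K, k * z = z * k) → z * y = y * z := by
      intro y
      rw [Subgroup.mem_inf, hD, Subgroup.mem_centralizer_iff]
      refine and_congr_right (fun _ => ⟨fun h z h1 h2 => h z ((hD z).2 ⟨h1, h2⟩), fun h z hz => ?_⟩)
      exact h z ((hD z).1 hz).1 ((hD z).1 hz).2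
    refine pp no (S := S) (fun y hy => ((hS y).1 hy).1.1) ?_ ?_ ((hS x).2 ⟨⟨hx, hx'⟩, ?_⟩) hk
    · intro e he y hy
      obtain ⟨⟨h1, h2⟩, h3⟩ := (hS y).1 hy
      refine (hS _).2 ⟨⟨E.mul_mem (E.mul_mem he h1) (E.inv_mem he), hcj e he y h2⟩, ?_⟩
      intro z hz hz'
      have h4 := h3 (e⁻¹ * z * e⁻¹⁻¹) (E.mul_mem (E.mul_mem (E.inv_mem he) hz)
        (E.inv_mem (E.inv_mem he))) (hcj e⁻¹ (E.inv_mem he) z hz')
      rw [inv_inv] at h4
      calc z * (e * y * e⁻¹) = e * (e⁻¹ * z * e * y) * e⁻¹ := by group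
        _ = e * (y * (e⁻¹ * z * e)) * e⁻¹ := by rw [h4]
        _ = e * y * e⁻¹ * z := by group
    · intro a ha b hb
      exact ((hS b).1 hb).2 a ((hS a).1 ha).1.1 ((hS a).1 ha).1.2
    · -- `x` commutes with all `z ∈ D`
      intro z hz hz'
      have h1 : x * z * x⁻¹ * z⁻¹ ∈ K := hcom x hx z hz
      have h2 : ∀ k ∈ K, k * (x * z * x⁻¹ * z⁻¹) = x * z * x⁻¹ * z⁻¹ * k := by
        intro k hk
        have e1 : k * x = x * k := hx' k hk
        have e2 : k * z = z * k := hz' k hk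
        have e3 : k * x⁻¹ = x⁻¹ * k := by
          rw [eq_inv_mul_iff_mul_eq, ← mul_assoc, ← e1, mul_assoc, mul_inv_cancel, mul_one]
        have e4 : k * z⁻¹ = z⁻¹ * k := by
          rw [eq_inv_mul_iff_mul_eq, ← mul_assoc, ← e2, mul_assoc, mul_inv_cancel, mul_one]
        calc k * (x * z * x⁻¹ * z⁻¹) = (k * x) * z * x⁻¹ * z⁻¹ := by group
          _ = x * (k * z) * x⁻¹ * z⁻¹ := by rw [e1]; group
          _ = x * z * (k * x⁻¹) * z⁻¹ := by rw [e2]; group
          _ = x * z * x⁻¹ * (k * z⁻¹) := by rw [e3]; group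
          _ = x * z * x⁻¹ * z⁻¹ * k := by rw [e4]; group
      have h3 : x * z * x⁻¹ = x * z * x⁻¹ * z⁻¹ * z := by group
      have h4 : x * z * x⁻¹ * z⁻¹ * x = x * (x * z * x⁻¹ * z⁻¹) := hx' _ h1
      have h5 := cpow h3 h4 (p ^ k)
      rw [hk, one_mul, inv_one, mul_one] at h5
      have h6 : (x * z * x⁻¹ * z⁻¹) ^ p ^ k = 1 := by
        have := mul_right_cancel (b := z) (a := 1) (c := (x * z * x⁻¹ * z⁻¹) ^ p ^ k)
          (by rw [one_mul]; exact h5)
        exact this.symm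
      have h7 := ha _ h1 h2 k h6
      have h8 : x * z = z * x := by
        calc x * z = x * z * x⁻¹ * z⁻¹ * (z * x) := by group
          _ = z * x := by rw [h7, one_mul]
      exact h8.symm
  -- (c) conclusion
  obtain ⟨k, hk, a, haA, hgka⟩ := hE g hg
  obtain ⟨m, hm⟩ := hAp ⟨a, haA⟩
  have hm' : a ^ p ^ m = 1 := by
    have := congrArg Subtype.val hm
    simpa using this
  obtain ⟨k', hk', h1⟩ := kapow hAE hn hk haA (p ^ m)
  rw [← hgka, hm', mul_one] at h1
  have hcop : (p ^ m).Coprime (orderOf g) := by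
    refine Nat.Coprime.pow_left m ?_
    rw [(Fact.out : p.Prime).coprime_iff_not_dvd]
    intro hdvd
    obtain ⟨x, hx⟩ : ∃ n : ℕ, orderOf (g ^ n) = p := by
      obtain ⟨n, hn⟩ := hdvd
      have hpos : 0 < orderOf g := orderOf_pos g
      refine ⟨n, ?_⟩
      have hn0 : n ≠ 0 := by
        rintro rfl
        rw [mul_zero] at hn
        omega
      rw [orderOf_pow_of_dvd hn0 ⟨p, by rw [hn, mul_comm]⟩, hn, Nat.mul_div_cancel _ (by omega)]
    have h2 : g ^ x = 1 := by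
      refine hb (g ^ x) (E.pow_mem hg x) ?_ 1 ?_
      · intro k hk
        exact (Commute.pow_right (show Commute k g from hgK k hk) x).eq
      · rw [pow_one, ← hx]
        exact pow_orderOf_eq_one _
    rw [h2, orderOf_one] at hx
    exact (Fact.out : p.Prime).one_lt.ne hx
  obtain ⟨n, hn'⟩ := exists_pow_eq_self_of_coprime hcop
  rw [← hn', h1]
  exact K.pow_mem hk' n

/-- (3): few conjugates of `A` -/
theorem few (hG : Stmt_GRD) {G : Type} [Group G] [Finite G] {E A D : Subgroup G} (hAE : A ≤ E)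
    (_hDE : D ≤ E) (hDn : Nm E D) {a0 : G} (ha0 : a0 ∈ A) (ha0D : a0 ∉ D) :
    ∃ e : Fin (Nat.log 2 (D.relIndex E)) → G, (∀ i, e i ∈ E) ∧
      ∀ f ∈ E, ∀ a ∈ A, ∃ t ∈ (⨆ i, cj (e i) A), t⁻¹ * (f * a * f⁻¹) ∈ D := by
  have : (D.subgroupOf E).Normal := by
    constructor
    intro n hn g
    rw [Subgroup.mem_subgroupOf] at hn ⊢
    exact hDn g g.2 n hn
  let Q := E ⧸ D.subgroupOf E
  let π : E →* Q := QuotientGroup.mk' (D.subgroupOf E)
  have hπ : ∀ x : E, π x = 1 ↔ x.1 ∈ D := by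
    intro x
    rw [← Subgroup.mem_subgroupOf]
    exact QuotientGroup.eq_one_iff x
  have hsur : Function.Surjective π := QuotientGroup.mk'_surjective _
  let A' : Subgroup Q := (A.subgroupOf E).map π
  have hA' : A' ≠ ⊥ := by
    intro h
    have h1 : π ⟨a0, hAE ha0⟩ ∈ A' := ⟨⟨a0, hAE ha0⟩, ha0, rfl⟩
    rw [h, Subgroup.mem_bot, hπ] at h1
    exact ha0D h1
  have hcard : Nat.card (⊤ : Subgroup Q) = D.relIndex E := by
    rw [Subgroup.card_top]
    rfl
  have key : ∃ g : Fin (Nat.log 2 (D.relIndex E)) → Q,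
      ∀ f : Q, ∀ a ∈ A', f * a * f⁻¹ ∈ ⨆ i, cj (g i) A' := by
    rw [← hcard]
    obtain ⟨g, -, hg⟩ := hG Q ⊤ A' inferInstance le_top hA'
    exact ⟨g, fun f => hg f (Subgroup.mem_top f)⟩
  obtain ⟨g, hg⟩ := key
  choose e he using fun i => hsur (g i)
  refine ⟨fun i => (e i).1, fun i => (e i).2, ?_⟩
  intro f hf a ha
  let T : Subgroup G := ⨆ i, cj (e i).1 A
  have h1 : (⨆ i, cj (g i) A') ≤ (T.subgroupOf E).map π := by
    refine iSup_le ?_
    intro i x hx
    rw [mem_cj] at hx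
    obtain ⟨y, hy, hyx⟩ := hx
    refine ⟨e i * y * (e i)⁻¹, ?_, ?_⟩
    · have h2 : (e i * y * (e i)⁻¹).1 ∈ cj (e i).1 A := by
        exact conj_mem_cj hy
      exact (le_iSup (fun i => cj (e i).1 A) i) h2
    · rw [map_mul, map_mul, hyx, map_inv, he]
      group
  have h2 := hg (π ⟨f, hf⟩) (π ⟨a, hAE ha⟩) ⟨⟨a, hAE ha⟩, ha, rfl⟩
  obtain ⟨t, ht, htt⟩ := h1 h2
  refine ⟨t.1, ht, ?_⟩
  have h3 : π (t⁻¹ * (⟨f, hf⟩ * ⟨a, hAE ha⟩ * ⟨f, hf⟩⁻¹)) = 1 := by
    rw [map_mul, map_inv, htt, map_mul, map_mul, map_inv, inv_mul_cancel]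
  rw [hπ] at h3
  exact h3

/-- (4): `K` is generated by few conjugates of `A` -/
theorem gen (hG : Stmt_GRD) {p : ℕ} [Fact p.Prime] {G : Type} [Group G] [Finite G]
    {E K A : Subgroup G}
    (no : ∀ N : Subgroup G, N ≤ E → Nm E N → IsPGroup p N → N = ⊥) (hKE : K ≤ E) (hAE : A ≤ E)
    (hn : Nm E K) (hE : ∀ g ∈ E, ∃ k ∈ K, ∃ a ∈ A, g = k * a) (hpf : ⁅K, K⁆ = K) (hK : K ≠ ⊥)
    (hA : ∀ a ∈ A, ∀ b ∈ A, a * b = b * a) (hAp : IsPGroup p A) {a0 : G} (ha0 : a0 ∈ A)
    (hKa : K ≤ Cq K a0) :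
    ∃ e : Fin (Nat.log 2 ((Subgroup.centralizer (K : Set G)).relIndex E)) → G, (∀ i, e i ∈ E) ∧
      K ≤ ⨆ i, cj (e i) A := by
  let D : Subgroup G := E ⊓ Subgroup.centralizer (K : Set G)
  have hD : ∀ y, y ∈ D ↔ y ∈ E ∧ ∀ k ∈ K, k * y = y * k := by
    intro y
    rw [Subgroup.mem_inf, Subgroup.mem_centralizer_iff]
    rfl
  have hDn : Nm E D := by
    intro e he x hx
    obtain ⟨h1, h2⟩ := (hD x).1 hx
    refine (hD _).2 ⟨E.mul_mem (E.mul_mem he h1) (E.inv_mem he), ?_⟩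
    intro k hk
    have h3 := hn e⁻¹ (E.inv_mem he) k hk
    rw [inv_inv] at h3
    have h4 := h2 _ h3
    calc k * (e * x * e⁻¹) = e * (e⁻¹ * k * e * x) * e⁻¹ := by group
      _ = e * (x * (e⁻¹ * k * e)) * e⁻¹ := by rw [h4]
      _ = e * x * e⁻¹ * k := by group
  have ha0D : a0 ∉ D := by
    intro h
    apply hK
    rw [eq_bot_iff]
    refine hKa.trans ?_
    unfold Cq
    rw [Subgroup.closure_le]
    rintro c ⟨k, hk, rfl⟩
    have h1 := ((hD a0).1 h).2 k hk
    rw [h1]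
    simp
  have hDK : ∀ x ∈ D, x ∈ K := by
    intro x hx
    obtain ⟨h1, h2⟩ := (hD x).1 hx
    exact DK no hKE hAE hn hE hA hAp h1 h2
  have hrel : D.relIndex E = (Subgroup.centralizer (K : Set G)).relIndex E := by
    exact Subgroup.inf_relIndex_left _ _
  rw [← hrel]
  obtain ⟨e, he, h1⟩ := few hG hAE (inf_le_left : D ≤ E) hDn ha0 ha0D
  refine ⟨e, he, ?_⟩
  set T := ⨆ i, cj (e i) A with hT
  have hTE : T ≤ E := by
    refine iSup_le ?_
    intro i x hx
    rw [mem_cj] at hx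
    have h2 := E.mul_mem (E.mul_mem (he i) (hAE hx)) (E.inv_mem (he i))
    have h3 : e i * ((e i)⁻¹ * x * e i) * (e i)⁻¹ = x := by group
    rw [h3] at h2
    exact h2
  -- `T D` is a subgroup
  let M : Subgroup G :=
    { carrier := {x | ∃ t ∈ T, t⁻¹ * x ∈ D}
      one_mem' := ⟨1, T.one_mem, by simp⟩
      mul_mem' := by
        rintro x y ⟨t, ht, hx⟩ ⟨s, hs, hy⟩
        refine ⟨t * s, T.mul_mem ht hs, ?_⟩
        have h2 : (t * s)⁻¹ * (x * y) = s⁻¹ * (t⁻¹ * x) * s⁻¹⁻¹ * (s⁻¹ * y) := by group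
        rw [h2]
        exact D.mul_mem (hDn _ (E.inv_mem (hTE hs)) _ hx) hy
      inv_mem' := by
        rintro x ⟨t, ht, hx⟩
        refine ⟨t⁻¹, T.inv_mem ht, ?_⟩
        have h2 : t⁻¹⁻¹ * x⁻¹ = t * (t⁻¹ * x)⁻¹ * t⁻¹ := by group
        rw [h2]
        exact hDn _ (hTE ht) _ (D.inv_mem hx) }
  have hM : ∀ x, x ∈ M ↔ ∃ t ∈ T, t⁻¹ * x ∈ D := fun x => Iff.rfl
  have hKM : K ≤ M := by
    refine hKa.trans ?_
    unfold Cq
    rw [Subgroup.closure_le]
    rintro c ⟨k, hk, rfl⟩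
    have h2 : k * a0 * k⁻¹ ∈ M := (hM _).2 (h1 k (hKE hk) a0 ha0)
    have h3 : a0 ∈ M := by
      have := h1 1 E.one_mem a0 ha0
      rw [one_mul, inv_one, mul_one] at this
      exact (hM _).2 this
    exact M.mul_mem h2 (M.inv_mem h3)
  have hKK : ⁅K, K⁆ ≤ T := by
    rw [Subgroup.commutator_le]
    intro k hk l hl
    obtain ⟨t, ht, hc⟩ := (hM k).1 (hKM hk)
    obtain ⟨s, hs, hd⟩ := (hM l).1 (hKM hl)
    -- k = t c, l = s d
    have hcK := ((hD _).1 hc).2
    have hdK := ((hD _).1 hd).2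
    obtain ⟨c, hcd⟩ : ∃ c, c = t⁻¹ * k := ⟨_, rfl⟩
    obtain ⟨d, hdd⟩ : ∃ d, d = s⁻¹ * l := ⟨_, rfl⟩
    rw [← hcd] at hc hcK
    rw [← hdd] at hd hdK
    have hkc : t = k * c⁻¹ := by rw [hcd]; group
    have hld : s = l * d⁻¹ := by rw [hdd]; group
    have e1 : Commute k c := hcK k hk
    have e2 : Commute l c := hcK l hl
    have e3 : Commute k d := hdK k hk
    have e4 : Commute l d := hdK l hl
    have e5 : Commute c d := hdK c (hDK c hc)
    show k * l * k⁻¹ * l⁻¹ ∈ T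
    have h2 : t * s * t⁻¹ * s⁻¹ = k * l * k⁻¹ * l⁻¹ := by
      rw [hkc, hld]
      calc k * c⁻¹ * (l * d⁻¹) * (k * c⁻¹)⁻¹ * (l * d⁻¹)⁻¹
          = k * (c⁻¹ * l) * d⁻¹ * c * k⁻¹ * d * l⁻¹ := by group
        _ = k * l * c⁻¹ * d⁻¹ * c * (k⁻¹ * d) * l⁻¹ := by
            rw [(e2.symm.inv_left).eq]
            group
        _ = k * l * c⁻¹ * d⁻¹ * (c * d) * k⁻¹ * l⁻¹ := by
            rw [(e3.inv_left).eq]
            group
        _ = k * l * k⁻¹ * l⁻¹ := by
            rw [e5.eq]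
            have : c⁻¹ * d⁻¹ * (d * c) = 1 := by group
            calc k * l * c⁻¹ * d⁻¹ * (d * c) * k⁻¹ * l⁻¹
                = k * l * (c⁻¹ * d⁻¹ * (d * c)) * k⁻¹ * l⁻¹ := by group
              _ = k * l * k⁻¹ * l⁻¹ := by rw [this, mul_one]
    rw [← h2]
    exact T.mul_mem (T.mul_mem (T.mul_mem ht hs) (T.inv_mem ht)) (T.inv_mem hs)
  rw [hpf] at hKK
  exact hKK

end grp

theorem idx {U : Type} [AddCommGroup U] (A : Subgroup (Un U)) (e : Un U) :
    (FxU (cj e A)).index = (FxU A).index := by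
  have h1 : FxU (cj e A) = (FxU A).comap (((e⁻¹ : Un U) : AddMonoid.End U) : U →+ U) := by
    ext u
    rw [AddSubgroup.mem_comap, mem_FxU, mem_FxU]
    constructor
    · intro h a ha
      have h2 := h (e * a * e⁻¹) (conj_mem_cj ha)
      have h3 : a * e⁻¹ = e⁻¹ * (e * a * e⁻¹) := by group
      calc (a : AddMonoid.End U) (((e⁻¹ : Un U) : AddMonoid.End U) u)
          = ((a * e⁻¹ : Un U) : AddMonoid.End U) u := rfl
        _ = ((e⁻¹ * (e * a * e⁻¹) : Un U) : AddMonoid.End U) u := by rw [h3]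
        _ = ((e⁻¹ : Un U) : AddMonoid.End U) (((e * a * e⁻¹ : Un U) : AddMonoid.End U) u) := rfl
        _ = ((e⁻¹ : Un U) : AddMonoid.End U) u := by rw [h2]
    · intro h b hb
      rw [mem_cj] at hb
      have h2 := h _ hb
      have h3 : b = e * ((e⁻¹ * b * e) * e⁻¹) := by group
      calc (b : AddMonoid.End U) u
          = ((e * ((e⁻¹ * b * e) * e⁻¹) : Un U) : AddMonoid.End U) u := by rw [← h3]
        _ = (e : AddMonoid.End U) (((e⁻¹ * b * e : Un U) : AddMonoid.End U)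
              (((e⁻¹ : Un U) : AddMonoid.End U) u)) := rfl
        _ = (e : AddMonoid.End U) (((e⁻¹ : Un U) : AddMonoid.End U) u) :=
              congrArg (fun w => (e : AddMonoid.End U) w) h2
        _ = ((e * e⁻¹ : Un U) : AddMonoid.End U) u := rfl
        _ = u := by
            rw [mul_inv_cancel]
            rfl
  rw [h1]
  refine AddSubgroup.index_comap_of_surjective _ ?_
  intro u
  refine ⟨(e : AddMonoid.End U) u, ?_⟩
  calc ((e⁻¹ : Un U) : AddMonoid.End U) ((e : AddMonoid.End U) u)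
      = ((e⁻¹ * e : Un U) : AddMonoid.End U) u := rfl
    _ = u := by
        rw [inv_mul_cancel]
        rfl

end X_GNT

theorem s_GNT (hG : Stmt_GRD) : Stmt_GNT := by
  intro p hp U _ _ E K A hexp hKE hAE hn hE hpf hK hA hAp ha hirr m hm
  obtain ⟨a0, ha0, hKa⟩ := ha
  have hfinE : Finite (AddMonoid.End U) := by
    have : Function.Injective (fun f : AddMonoid.End U => (f : U → U)) := by
      intro f g h
      exact AddMonoidHom.ext (fun x => congrFun h x)
    exact Finite.of_injective _ this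
  have hfin : Finite (Un U) := by
    have : Function.Injective (fun f : Un U => (f : AddMonoid.End U)) := Units.val_injective
    exact Finite.of_injective _ this
  have hnt : Nontrivial U := by
    by_contra h
    rw [not_nontrivial_iff_subsingleton] at h
    apply hK
    rw [eq_bot_iff]
    intro k hk
    rw [Subgroup.mem_bot]
    refine Units.ext (AddMonoidHom.ext (fun x => ?_))
    exact Subsingleton.elim _ _
  have no : ∀ N : Subgroup (Un U), N ≤ E → Nm E N → IsPGroup p N → N = ⊥ := by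
    intro N h1 h2 h3
    exact irr_noP (Fact.out : p.Prime) hexp (Y := E) hirr hnt h1 h2 h3
  obtain ⟨e, he, hT⟩ := X_GNT.gen hG no hKE hAE hn hE hpf hK hA hAp ha0 hKa
  -- (5)
  have hbot : FxU K = ⊥ := by
    rcases hirr (FxU K) (by
      intro g hg u hu
      rw [mem_FxU] at hu ⊢
      intro k hk
      have h1 := hu _ (hn g⁻¹ (E.inv_mem hg) k hk)
      rw [inv_inv] at h1
      have h3 : k * g = g * (g⁻¹ * k * g) := by group
      calc (k : AddMonoid.End U) ((g : AddMonoid.End U) u)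
          = ((k * g : Un U) : AddMonoid.End U) u := rfl
        _ = ((g * (g⁻¹ * k * g) : Un U) : AddMonoid.End U) u := by rw [h3]
        _ = (g : AddMonoid.End U) (((g⁻¹ * k * g : Un U) : AddMonoid.End U) u) := rfl
        _ = (g : AddMonoid.End U) u := by rw [h1]) with h | h
    · exact h
    · exfalso
      apply hK
      rw [eq_bot_iff]
      intro k hk
      rw [Subgroup.mem_bot]
      refine Units.ext (AddMonoidHom.ext (fun x => ?_))
      have h1 : x ∈ FxU K := by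
        rw [h]
        trivial
      exact mem_FxU.1 h1 k hk
  have h2 : (⨅ i, FxU (cj (e i) A)) = ⊥ := by
    rw [eq_bot_iff, ← hbot]
    intro u hu
    rw [mem_FxU]
    intro k hk
    rw [AddSubgroup.mem_iInf] at hu
    let S : Subgroup (Un U) :=
      { carrier := {g | (g : AddMonoid.End U) u = u}
        one_mem' := rfl
        mul_mem' := by
          intro a b ha hb
          show (a : AddMonoid.End U) ((b : AddMonoid.End U) u) = u
          rw [show (b : AddMonoid.End U) u = u from hb, show (a : AddMonoid.End U) u = u from ha]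
        inv_mem' := by
          intro a ha
          show ((a⁻¹ : Un U) : AddMonoid.End U) u = u
          have ha' : (a : AddMonoid.End U) u = u := ha
          calc ((a⁻¹ : Un U) : AddMonoid.End U) u
              = ((a⁻¹ : Un U) : AddMonoid.End U) ((a : AddMonoid.End U) u) := by rw [ha']
            _ = ((a⁻¹ * a : Un U) : AddMonoid.End U) u := rfl
            _ = u := by
                rw [inv_mul_cancel]
                rfl }
    have h3 : (⨆ i, cj (e i) A) ≤ S := by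
      refine iSup_le ?_
      intro i x hx
      exact mem_FxU.1 (hu i) x hx
    exact h3 (hT hk)
  have h4 : Nat.card U = (⨅ i, FxU (cj (e i) A)).index := by
    rw [h2, AddSubgroup.index_bot]
  rw [h4]
  refine (AddSubgroup.index_iInf_le _).trans ?_
  rw [Finset.prod_congr rfl (fun i _ => X_GNT.idx A (e i)), Finset.prod_const, Finset.card_univ,
    Fintype.card_fin]
  refine Nat.pow_le_pow_right ?_ hm
  exact Nat.pos_of_ne_zero AddSubgroup.index_ne_zero_of_finite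

end Pool.Agent.Work.MP_6d7bb4.h65u
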