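import Pool.Agent.Work.MP_6d7bb4_G.InterfaceM

set_option autoImplicit false
set_option linter.unusedSectionVars false

/-!
# MP_6d7bb4: plan G, block KTV
-/

namespace Pool.Agent.Work.MP_6d7bb4.h65u

open MulAction
open Pool.Agent.Work.MP_6d7bb4.helper94 Pool.Agent.Work.MP_6d7bb4.helper94.Sol
open Tv Ff Ps

namespace X_KTV

theorem cj_one {G : Type*} [Group G] (K : Subgroup G) : cj 1 K = K := by
  ext x
  rw [mem_cj, inv_one, one_mul, mul_one]

theorem cj_mul {G : Type*} [Group G] (g h : G) (K : Subgroup G) :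
    cj (g * h) K = cj g (cj h K) := by
  ext x
  rw [mem_cj, mem_cj, mem_cj]
  have : (g * h)⁻¹ * x * (g * h) = h⁻¹ * (g⁻¹ * x * g) * h := by group
  rw [this]

theorem cj_pow {G : Type*} [Group G] {g : G} {K : Subgroup G} (h : cj g K = K) (n : ℕ) :
    cj (g ^ n) K = K := by
  induction n with
  | zero => rw [pow_zero, cj_one]
  | succ n ih => rw [pow_succ, cj_mul, h, ih]

theorem idx {U : Type} [AddCommGroup U] [Finite U] {p : ℕ} [Fact p.Prime] [Module (ZMod p) U]
    {s : Un U} {e : U} {f : U →+ ZMod p} (h : TV s e f) :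
    (FixedBy (Units.coeHom (AddMonoid.End U)) (Subgroup.zpowers s)).index ≤ p := by
  have h1 : f.ker ≤ FixedBy (Units.coeHom (AddMonoid.End U)) (Subgroup.zpowers s) := by
    intro u hu
    have hfu : f u = 0 := hu
    have h2 : (s : AddMonoid.End U) u = u := by
      rw [h.ap, hfu, zero_smul, add_zero]
    let M : Subgroup (Un U) :=
      { carrier := {g | (g : AddMonoid.End U) u = u}
        one_mem' := rfl
        mul_mem' := by
          intro a b ha hb
          show (((a * b : Un U)) : AddMonoid.End U) u = u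
          have h3 : (a : AddMonoid.End U) u = u := ha
          have h4 : (b : AddMonoid.End U) u = u := hb
          rw [Units.val_mul]
          show (a : AddMonoid.End U) ((b : AddMonoid.End U) u) = u
          rw [h4, h3]
        inv_mem' := by
          intro a ha
          have h3 : (a : AddMonoid.End U) u = u := ha
          show ((a⁻¹ : Un U) : AddMonoid.End U) u = u
          have h4 := inv_ap a u
          rw [h3] at h4
          exact h4 }
    have h3 : Subgroup.zpowers s ≤ M := by
      rw [Subgroup.zpowers_le]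
      exact h2
    intro a ha
    exact h3 ha
  have h2 : (FixedBy (Units.coeHom (AddMonoid.End U)) (Subgroup.zpowers s)).index ∣ f.ker.index :=
    AddSubgroup.index_dvd_of_le h1
  have h3 : f.ker.index ≠ 0 := AddSubgroup.index_ne_zero_of_finite
  have h4 : f.ker.index ≤ p := by
    rw [AddSubgroup.index_ker]
    have h5 : Nat.card f.range ≤ Nat.card (ZMod p) := by
      have : NeZero p := ⟨(Fact.out : p.Prime).ne_zero⟩
      exact Nat.card_le_card_of_injective (fun x : f.range => (x : ZMod p))
        Subtype.val_injective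
    rwa [Nat.card_zmod] at h5
  exact (Nat.le_of_dvd (Nat.pos_of_ne_zero h3) h2).trans h4

end X_KTV

theorem s_KTV (hTRN : Stmt_TRN) (hTR2 : Stmt_TR2) : Stmt_KTV := by
  intro U _ p _ _ Z 𝒦 h s hs hT
  obtain ⟨e, f, hT⟩ := hT
  have := h.fin
  have : Finite (AddMonoid.End U) :=
    Finite.of_injective (fun g : AddMonoid.End U => (g : U → U)) DFunLike.coe_injective
  have : Finite (Un U) := inferInstance
  have hsp : s ^ p = 1 := hT.pow_p
  have hp : p.Prime := Fact.out
  have hpv : ∀ v : U, p • v = 0 := by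
    intro v
    rw [← Nat.cast_smul_eq_nsmul (ZMod p), ZMod.natCast_self, zero_smul]
  have hA : ∀ K ∈ 𝒦, cj s K = K := by
    intro K hK
    by_contra hne
    have hj : ∀ j : ℕ, 0 < j → j < p → cj (s ^ j) K ≠ K := by
      intro j h0 h1 h2
      have hco : Nat.Coprime j p := by
        rw [Nat.coprime_comm]
        exact (Nat.Prime.coprime_iff_not_dvd hp).2 (Nat.not_dvd_of_pos_of_lt h0 h1)
      obtain ⟨m, hm⟩ := Nat.exists_mul_mod_eq_one_of_coprime hco hp.one_lt
      have h3 : (s ^ j) ^ m = s := by
        rw [← pow_mul, pow_eq_pow_mod (j * m) hsp, hm.2, pow_one]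
      apply hne
      have h4 := X_KTV.cj_pow h2 m
      rwa [h3] at h4
    have h5 := hTRN p (Un U) U (Units.coeHom (AddMonoid.End U)) K s hpv (h.pf K hK) hsp
      (by
        intro j h0 h1 x hx y hy
        exact h.cm _ (h.cl K hK (s ^ j) (pow_mem hs j)) K hK (hj j h0 h1) _
          (conj_mem_cj hx) y hy) (X_KTV.idx hT)
    apply h.ne K hK
    rw [eq_bot_iff]
    intro d hd
    rw [Subgroup.mem_bot]
    exact Units.ext (h5 d hd)
  refine ⟨hA, ?_⟩
  intro K hK L hL hKL
  by_contra hcon
  rw [not_or] at hcon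
  rcases hTR2 U p h.fin K L s e f hT (h.pf K hK) (h.pf L hL) (h.cm K hK L hL hKL) (hA K hK)
    (hA L hL) (h.qs K hK s hs (hA K hK) hcon.1) (h.qs L hL s hs (hA L hL) hcon.2) with h1 | h1
  · exact h.ne K hK h1
  · exact h.ne L hL h1

end Pool.Agent.Work.MP_6d7bb4.h65u
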