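import Pool.Agent.Work.MP_6d7bb4_G.InterfaceV

set_option autoImplicit false
set_option linter.unusedSectionVars false

/-! # MP_6d7bb4, plan G, block KVS2 (helper86) -/

namespace Pool.Agent.Work.MP_6d7bb4.h65u

open MulAction
open Pool.Agent.Work.MP_6d7bb4.helper94 Pool.Agent.Work.MP_6d7bb4.helper94.Sol
open Tv Ff Ps

namespace X_KVS2

theorem finUn (U : Type) [AddCommGroup U] (h : Finite U) : Finite (Un U) := by
  have h1 : Finite (AddMonoid.End U) :=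
    Finite.of_injective (fun f : AddMonoid.End U => (f : U → U)) DFunLike.coe_injective
  exact Finite.of_injective (fun u : Un U => (u : AddMonoid.End U)) (fun _ _ h => Units.ext h)

theorem CwS {G : Type} [Group G] {W S : Subgroup G} (h : ∀ s ∈ S, ∀ v ∈ W, s * v = v * s) :
    Cw W S = W := by
  apply le_antisymm
  · intro v hv
    exact (mem_Cw.mp hv).1
  · intro v hv
    exact mem_Cw.mpr ⟨hv, fun a ha => h a ha v hv⟩

end X_KVS2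

theorem s_KVS2 (hLAT : Pool.Agent.Work.MP_6d7bb4.helper94.Sol.Stmt_LAT)
    (hLTC : Pool.Agent.Work.MP_6d7bb4.helper94.Sol.Stmt_LTC)
    (hKPY : Stmt_KPY) (hKPE : Stmt_KPE) (hKTG1 : Stmt_KTG1) : Stmt_KVS2 := by
  intro V G _ _ Γ d p _ x W S R Bm U _ _ ψ 𝒦 t e f h y hxy 𝒞 h𝒞 hTg
  obtain ⟨q1, -, -, q4, q5, q6, q7, -⟩ := hKPY V G Γ d p x W S R Bm U ψ 𝒦 t e f h y hxy
  obtain ⟨r1, -, -, -, r5, r6⟩ := hKPE V G Γ d p x W S R Bm U ψ 𝒦 t e f h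
  have tg1 := hKTG1 V G Γ d p x W S R Bm U ψ 𝒦 t e f h y hxy
  have hUn : Finite (Un U) := X_KVS2.finUn U h.vs.ve.ke.fin
  have hBm : Bm y ≤ stabilizer G x := (h.vs.BQ y hxy).trans (Qe_le_st x y)
  have hfin : ∀ P : Subgroup G, P ≤ Bm y → Finite P := fun P hP => h.loc.fin_le (hP.trans hBm)
  have hlat : ∀ X X' : Set (Subgroup (Un U)), Tg W S (Pk Bm ψ 𝒦 X y) →
      Tg W S (Pk Bm ψ 𝒦 X' y) →
      Tg W S (Pk Bm ψ 𝒦 X y ⊔ Pk Bm ψ 𝒦 X' y) ∧ Tg W S (Pk Bm ψ 𝒦 X y ⊓ Pk Bm ψ 𝒦 X' y) := by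
    intro X X' hX hX'
    have hs : Pk Bm ψ 𝒦 X y ⊔ Pk Bm ψ 𝒦 X' y ≤ Bm y := sup_le (q1 X).2 (q1 X').2
    refine (hLAT G).2 W S _ _ h.vs.Wf (hfin _ hs) hX hX' ?_ ?_
    · exact (tg1 _ ((q1 X).1.trans le_sup_left) hs).1
    · exact (tg1 _ (le_inf (q1 X).1 (q1 X').1) (inf_le_left.trans (q1 X).2)).1
  have key := hLTC (Subgroup (Un U)) 𝒦
    {X | X ⊆ 𝒦 ∧ Tg W S (Pk Bm ψ 𝒦 X y)}
    (fun X hX => hX.1)
    ⟨Set.empty_subset _, by
      rw [q4]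
      unfold Tg
      rw [X_KVS2.CwS h.vs.SW, mul_comm]⟩
    ⟨subset_rfl, by
      rw [q5]
      exact h.vs.tg y hxy⟩
    (by
      rintro X ⟨hX1, hX3⟩ Y ⟨hY1, hY3⟩
      refine ⟨Set.union_subset hX1 hY1, ?_⟩
      rw [q6 X hX1 Y hY1]
      exact (hlat X Y hX3 hY3).1)
    (by
      rintro X ⟨hX1, hX3⟩ Y ⟨hY1, hY3⟩
      refine ⟨Set.inter_subset_left.trans hX1, ?_⟩
      rw [q7 X hX1 Y hY1]
      exact (hlat X Y hX3 hY3).2)
    (by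
      intro a ha b hb
      obtain ⟨g, hg, hgab⟩ := r6 y hxy a ha b hb
      have hgy : g.1 • y = y := (mem_B.mp hg).2
      refine ⟨fun K => cj (ψ g) K, ?_, ?_, ?_⟩
      · intro K K' hKK
        have h1 : cj (ψ g)⁻¹ (cj (ψ g) K) = cj (ψ g)⁻¹ (cj (ψ g) K') := congrArg _ hKK
        rwa [cj_cj_inv, cj_cj_inv] at h1
      · rintro X - hm
        rw [← hgab]
        exact hm
      · rintro X ⟨hX1, hX3⟩
        refine ⟨?_, ?_⟩
        · rintro _ ⟨K, hK, rfl⟩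
          exact h.vs.ve.ke.cl K (hX1 hK) (ψ g) ⟨g, rfl⟩
        · have h4 := r1 y hxy g X hX1
          rw [hgy] at h4
          rw [h4]
          exact r5 g _ hX3)
    𝒞 ⟨h𝒞, hTg⟩
  exact key.2

end Pool.Agent.Work.MP_6d7bb4.h65u
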