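import Pool.Agent.Work.MP_6d7bb4_S.Defs
import Pool.Agent.Work.MP_6d7bb4_h65u.Interface4

set_option autoImplicit false
set_option linter.unusedSectionVars false

/-!
# MP_6d7bb4: plan G (product action); definitions, modules and vertices (helper65)

A module `U` over the field with `p` elements with a set `𝒦` of commuting perfect groups of automorphisms,
permuted by the group `Z`; `p`-groups `Q` in which every element of order `p` is determined, up to powers,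
by its action on one member of `𝒦`.
-/

namespace Pool.Agent.Work.MP_6d7bb4.h65u

open MulAction
open Pool.Agent.Work.MP_6d7bb4.helper94 Pool.Agent.Work.MP_6d7bb4.helper94.Sol
open Tv Ff Ps

/-- `a` centralises `K` -/
def Cm {G : Type*} [Group G] (K : Subgroup G) (a : G) : Prop := ∀ k ∈ K, a * k = k * a

/-- generated by the commutators of `K` with `a` -/
def Cq {G : Type*} [Group G] (K : Subgroup G) (a : G) : Subgroup G :=
  Subgroup.closure {c | ∃ k ∈ K, c = k * a * k⁻¹ * a⁻¹}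

section mdl
variable {U : Type*} [AddCommGroup U]

/-- the component environment: `𝒦` is a nonempty set of commuting perfect subgroups of `Z`, permuted
transitively by `Z`; an element of `Z` normalising `K ∈ 𝒦` centralises `K` or `[K, g] = K`; `U` is semisimple -/
structure KE (Z : Subgroup (Un U)) (𝒦 : Set (Subgroup (Un U))) : Prop where
  fin : Finite U
  non : 𝒦.Nonempty
  KZ : ∀ K ∈ 𝒦, K ≤ Z
  pf : ∀ K ∈ 𝒦, ⁅K, K⁆ = K
  ne : ∀ K ∈ 𝒦, K ≠ ⊥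
  cl : ∀ K ∈ 𝒦, ∀ g ∈ Z, cj g K ∈ 𝒦
  tr : ∀ K ∈ 𝒦, ∀ L ∈ 𝒦, ∃ g ∈ Z, cj g K = L
  cm : ∀ K ∈ 𝒦, ∀ L ∈ 𝒦, K ≠ L → ∀ k ∈ K, ∀ l ∈ L, k * l = l * k
  qs : ∀ K ∈ 𝒦, ∀ g ∈ Z, cj g K = K → ¬ Cm K g → K ≤ Cq K g
  ss : ∀ S : AddSubgroup U, Iv Z S → ∃ S' : AddSubgroup U, Iv Z S' ∧ S ⊓ S' = ⊥ ∧ S ⊔ S' = ⊤

/-- a good `p`-subgroup `Q` of `Z`, normalised by `Zq` -/
structure KQ (p : ℕ) (Z : Subgroup (Un U)) (𝒦 : Set (Subgroup (Un U))) (Q Zq : Subgroup (Un U)) :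
    Prop where
  QZ : Q ≤ Z
  Qp : IsPGroup p Q
  fa : ∀ g ∈ Q, (∀ K ∈ 𝒦, Cm K g) → g = 1
  un : ∀ K ∈ 𝒦, ∀ g ∈ Q, ∀ h ∈ Q, cj g K = K → cj h K = K → Cm K (g ^ p) → Cm K (h ^ p) →
    ¬ Cm K g → ∃ i : ℕ, Cm K (h * g ^ i)
  Zn : Nm Zq Q
  ZZ : Zq ≤ Z
  fc : ∀ z ∈ Z, ∃ x ∈ Z, (∀ K ∈ 𝒦, cj x K = K) ∧ ∃ b ∈ Zq, z = x * b

/-- the centraliser of all members of `𝒟` -/
def Cz (𝒟 : Set (Subgroup (Un U))) : Subgroup (Un U) :=
  Subgroup.centralizer {k | ∃ K ∈ 𝒟, k ∈ K}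

theorem mem_Cz {𝒟 : Set (Subgroup (Un U))} {z : Un U} : z ∈ Cz 𝒟 ↔ ∀ K ∈ 𝒟, Cm K z := by
  unfold Cz
  rw [Subgroup.mem_centralizer_iff]
  constructor
  · intro h K hK k hk
    exact (h k ⟨K, hK, hk⟩).symm
  · rintro h k ⟨K, hK, hk⟩
    exact (h K hK k hk).symm

/-- the elements of `B0` whose image centralises all members of `𝒟` -/
def Kf {G : Type*} [Group G] {X : Subgroup G} (B0 : Subgroup G) (ψ : X →* Un U)
    (𝒟 : Set (Subgroup (Un U))) : Subgroup G :=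
  B0 ⊓ ((Cz 𝒟).comap ψ).map X.subtype

theorem mem_Kf {G : Type*} [Group G] {X : Subgroup G} {B0 : Subgroup G} {ψ : X →* Un U}
    {𝒟 : Set (Subgroup (Un U))} {g : G} (hg : g ∈ X) :
    g ∈ Kf B0 ψ 𝒟 ↔ g ∈ B0 ∧ ∀ K ∈ 𝒟, Cm K (ψ ⟨g, hg⟩) := by
  unfold Kf
  rw [Subgroup.mem_inf, ← mem_Cz]
  refine and_congr_right (fun _ => ?_)
  constructor
  · rintro ⟨g', hg', h⟩
    have h1 : g' = ⟨g, hg⟩ := Subtype.ext h
    rw [← h1]
    exact hg'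
  · intro h
    exact ⟨⟨g, hg⟩, h, rfl⟩

/-- `Md2` with complements of invariant subgroups -/
structure Md3 {G : Type} [Group G] (p : ℕ) (X V R : Subgroup G) {U : Type} [AddCommGroup U]
    (ψ : X →* Un U) : Prop extends Md2 p X V R ψ where
  ss : ∀ S : AddSubgroup U, Iv ψ.range S → ∃ S' : AddSubgroup U, Iv ψ.range S' ∧ S ⊓ S' = ⊥ ∧
    S ⊔ S' = ⊤

end mdl

section vtx
variable {V G : Type*} [Group G] [MulAction G V]

/-- the vertex environment (compare `VE`) -/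
structure KV (Γ : SimpleGraph V) (p : ℕ) [Fact p.Prime] (x : V) (R : Subgroup G) {U : Type*}
    [AddCommGroup U] (ψ : stabilizer G x →* Un U) (𝒦 : Set (Subgroup (Un U))) : Prop where
  ke : KE ψ.range 𝒦
  ker : ∀ g : stabilizer G x, g.1 ∈ R ↔ ψ g = 1
  Rs : R ≤ stabilizer G x
  RK : ∀ y, Γ.Adj x y → R ⊓ B x y ≤ K Γ x
  QR : Qv Γ p x ≤ R
  Et : ∀ y y', Γ.Adj x y → Γ.Adj x y' →
    ∃ g : stabilizer G x, (∀ K ∈ 𝒦, cj (ψ g) K = K) ∧ g.1 • y = y'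
  kq : ∀ y, Γ.Adj x y → KQ p ψ.range 𝒦 (im ψ (Qe p x y)) (im ψ (B x y))

/-- the vertex system (compare `VS`): `W = W x`, `S = S x`, `Bm y = Bm x y` -/
structure KS (Γ : SimpleGraph V) (p : ℕ) [Fact p.Prime] (x : V) (W S R : Subgroup G)
    (Bm : V → Subgroup G) {U : Type*} [AddCommGroup U] [Module (ZMod p) U]
    (ψ : stabilizer G x →* Un U) (𝒦 : Set (Subgroup (Un U))) (t : Un U) (e : U)
    (f : U →+ ZMod p) : Prop where
  ve : KV Γ p x R ψ 𝒦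
  tv : TV t e f
  tQ : ∃ y, Γ.Adj x y ∧ t ∈ im ψ (Qe p x y)
  Wel : El p W
  Wn : Nm (stabilizer G x) W
  Wf : Finite W
  Sn : Nm (stabilizer G x) S
  SR : S ≤ R
  SW : ∀ s ∈ S, ∀ v ∈ W, s * v = v * s
  BQ : ∀ y, Γ.Adj x y → Bm y ≤ Qe p x y
  SB : ∀ y, Γ.Adj x y → S ≤ Bm y
  BR : ∀ y, Γ.Adj x y → Bm y ⊓ R ≤ S
  Bcj : ∀ g : G, g • x = x → ∀ y, Γ.Adj x y → Bm (g • y) = cj g (Bm y)
  BT : ∀ y, Γ.Adj x y → im ψ (Bm y) = Pq p (im ψ (Qe p x y))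
  tg : ∀ y, Γ.Adj x y → Nat.card (Bm y) * Nat.card (Cw W (Bm y)) = Nat.card W * Nat.card S

/-- a vertex system together with its module (compare `VB`) -/
structure KB {V G : Type} [Group G] [MulAction G V] (Γ : SimpleGraph V) (d p : ℕ)
    [Fact p.Prime] (x : V) (W S R : Subgroup G) (Bm : V → Subgroup G) {U : Type}
    [AddCommGroup U] [Module (ZMod p) U] (ψ : stabilizer G x →* Un U)
    (𝒦 : Set (Subgroup (Un U))) (t : Un U) (e : U) (f : U →+ ZMod p) : Prop where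
  loc : Loc G Γ d
  vs : KS Γ p x W S R Bm ψ 𝒦 t e f
  md : Md2 p (stabilizer G x) W R ψ

/-- the elements of `Bm y` which act nontrivially only on the members of `𝒞` (compare `Pf`) -/
def Pk {V G : Type} [Group G] [MulAction G V] {x : V} (Bm : V → Subgroup G) {U : Type}
    [AddCommGroup U] (ψ : stabilizer G x →* Un U) (𝒦 𝒞 : Set (Subgroup (Un U))) (y : V) :
    Subgroup G := Kf (Bm y) ψ (𝒦 \ 𝒞)

/-- the hypotheses (compare `Hy`) -/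
structure Hw {V : Type} (G : Type) [Group G] [MulAction G V] (Γ : SimpleGraph V) (d p : ℕ)
    [Fact p.Prime] : Prop where
  loc : Loc G Γ d
  cb : CB0 G Γ p
  ve : ∀ ζ : V → V → Subgroup G, Fm Γ p ζ → ∀ x y, Γ.Adj x y → ∀ (R : Subgroup G) (U : Type)
    [AddCommGroup U] [Finite U] (ψ : stabilizer G x →* Un U),
    Md3 p (stabilizer G x) (VZ Γ ζ x) R ψ → ∃ 𝒦 : Set (Subgroup (Un U)), KV Γ p x R ψ 𝒦

end vtx

/-- Condition (G) for `F` at the prime `p`: `𝒩` is one conjugacy class of nonabelian simple subgroups of `F`,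
different members commute, the members generate a transitive group, and if `N` is a normal `p`-subgroup of the
stabiliser of `ω` in `F` then the group induced by `N` on a member `T` has at most one subgroup of order
`p`: if `g`, `h` in `N` normalise `T`, `g ^ p` and `h ^ p` centralise `T` and `g` does not centralise `T` then
`h * g ^ i` centralises `T` for some `i`. -/
def CondG {Ω : Type} (F : Subgroup (Equiv.Perm Ω)) (p : ℕ) : Prop :=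
  ∃ 𝒩 : Set (Subgroup (Equiv.Perm Ω)),
    (∀ T ∈ 𝒩, T ≤ F ∧ IsSimpleGroup T ∧ (∃ s ∈ T, ∃ t ∈ T, s * t ≠ t * s) ∧
      ∀ f ∈ F, T.map (MulAut.conj f).toMonoidHom ∈ 𝒩) ∧
    (∀ T ∈ 𝒩, ∀ T' ∈ 𝒩, ∃ f ∈ F, T.map (MulAut.conj f).toMonoidHom = T') ∧
    (∀ T ∈ 𝒩, ∀ T' ∈ 𝒩, T ≠ T' → ∀ t ∈ T, ∀ t' ∈ T', t * t' = t' * t) ∧
    (∀ a b : Ω, ∃ n ∈ sSup 𝒩, n a = b) ∧
    ∀ (ω : Ω) (N : Subgroup (Equiv.Perm Ω)), N ≤ F → (∀ n ∈ N, n ω = ω) →
      (∀ f ∈ F, f ω = ω → ∀ n ∈ N, f * n * f⁻¹ ∈ N) → IsPGroup p N →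
      ∀ T ∈ 𝒩, ∀ g ∈ N, ∀ h ∈ N, T.map (MulAut.conj g).toMonoidHom = T →
      T.map (MulAut.conj h).toMonoidHom = T → (∀ t ∈ T, g ^ p * t = t * g ^ p) →
      (∀ t ∈ T, h ^ p * t = t * h ^ p) → (∃ t ∈ T, g * t ≠ t * g) →
      ∃ i : ℕ, ∀ t ∈ T, h * g ^ i * t = t * (h * g ^ i)

end Pool.Agent.Work.MP_6d7bb4.h65u
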