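import Pool.Agent.Work.MP_6d7bb4_G.DefsM

set_option autoImplicit false
set_option linter.unusedSectionVars false

/-!
# MP_6d7bb4: plan G (product action); interface, modules (helper65)

The file of block `X` is `Pool/Agent/Work/MP_6d7bb4_G/B_X.lean`: `import` this file, namespace
`Pool.Agent.Work.MP_6d7bb4.h65u`, the same `open` lines, `theorem s_X (hA : Stmt_A) (hB : Stmt_B) .. : Stmt_X`
with the blocks of the column uses as hypotheses in that order; auxiliary lemmas in `namespace X_X`.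

USEFUL. `Un U` is the group of units of `AddMonoid.End U`; `inv_ap`, `ap_inv`, `mul_ap`, `TV.conj`, `TV.uniq`,
`TV.inv`, `TV.ext`, `tv_of_rank`, `TV.ne1`, `TV.pow_p` (files `Tv.lean`, `Ee.lean` of `MP_6d7bb4_helper94`); `mem_cj`,
`conj_mem_cj`, `cj_mul`, `cj_of_nm`; `Cm K a`: `a` commutes with all elements of `K`; `Cq K a` is generated by
the `k a k⁻¹ a⁻¹`, `k ∈ K`; `Tq p Q` the transvections in `Q`, `Pq p Q` the group generated by them, `FxU A` the fixed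
points, `El p A`: elementary abelian. In an environment `h : KE Z 𝒦`: `have := h.fin`, so `Un U` is finite.
-/

namespace Pool.Agent.Work.MP_6d7bb4.h65u

open MulAction
open Pool.Agent.Work.MP_6d7bb4.helper94 Pool.Agent.Work.MP_6d7bb4.helper94.Sol
open Tv Ff Ps

/-! ## 1. Lower bound -/

/-- BLOCK DLU (uses nothing): the diagonal, equivariant. Copy `B_DLT.lean` (statement `Stmt_DLT`) and add the last
clause: `g` commutes with `b`, so with all `b ^ j`, and `g (b ^ j k (b ^ j)⁻¹) g⁻¹ = b ^ j (g k g⁻¹) (b ^ j)⁻¹`. -/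
def Stmt_DLU : Prop := ∀ (G : Type) [Group G] (p : ℕ) (b : G) (K : Subgroup G), 0 < p →
  b ^ p = 1 →
  (∀ j : ℕ, 0 < j → j < p → ∀ k ∈ K, ∀ l ∈ K,
    (b ^ j * k * (b ^ j)⁻¹) * l = l * (b ^ j * k * (b ^ j)⁻¹)) →
  ∃ δ : K →* G, (∀ k, b * δ k = δ k * b) ∧
    (∀ k : K, δ k ∈ Subgroup.closure {g | ∃ (j : ℕ) (l : G), l ∈ K ∧ g = b ^ j * l * (b ^ j)⁻¹}) ∧
    (∀ k : K, ∃ m : G, δ k = k * m ∧ ∀ l ∈ K, m * l = l * m) ∧
    ∀ (g : G) (hg : ∀ k ∈ K, g * k * g⁻¹ ∈ K), b * g = g * b → ∀ k : K,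
      g * δ k * g⁻¹ = δ ⟨g * k * g⁻¹, hg k k.2⟩

/-- BLOCK ORC (uses TAB, TRN, DLU): `Stmt_ORB` with the diagonal. Copy `B_ORB.lean`; the induction produces `δ` as
the composition of the homomorphisms of DLU. `A = C`: `δ = K.subtype` (`C` commutes with `K` and acts
trivially, so `FixedBy σ A = ⊤`). Step: `δ1 : K →* G` from DLU for `b`, `K1 = δ1.range`, and `δ2` for
`K1` in the group `G1 = Subgroup.centralizer {b}` acting on `FixedBy σ (zpowers b)`, from the induction hypothesis;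
`δ k = δ2 (δ1 k)`. Commuting with `A`: in `G1`. Nontrivial on the fixed points of `A`: from the induction
hypothesis. Equivariance: let `g` commute with `A` and normalise `K`; then it commutes with `b`, so `g ∈ G1`, it
normalises `K1` by the last clause of DLU, and both clauses compose. -/
def Stmt_ORC : Prop := ∀ (p : ℕ) [Fact p.Prime] (G : Type) [Group G] [Finite G] (V : Type)
  [AddCommGroup V] [Finite V] (σ : G →* AddMonoid.End V) (A C K : Subgroup G),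
  (∀ v : V, p • v = 0) → C ≤ A → (∀ a ∈ A, ∀ b ∈ A, a * b = b * a) → (∀ a ∈ A, a ^ p = 1) →
  (∀ c ∈ C, σ c = 1) → (∀ c ∈ C, ∀ k ∈ K, c * k = k * c) →
  (∀ a ∈ A, a ∉ C → ∀ k ∈ K, ∀ l ∈ K, (a * k * a⁻¹) * l = l * (a * k * a⁻¹)) →
  ⁅K, K⁆ = K → (∃ k ∈ K, σ k ≠ 1) → C.relIndex A ^ 2 ≤ (FixedBy σ A).index ∧
  ∃ δ : K →* G, (∀ a ∈ A, ∀ k, a * δ k = δ k * a) ∧
    (∃ k, ∃ v ∈ FixedBy σ A, σ (δ k) v ≠ v) ∧
    ∀ (g : G) (hg : ∀ k ∈ K, g * k * g⁻¹ ∈ K), (∀ a ∈ A, a * g = g * a) → ∀ k : K,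
      g * δ k * g⁻¹ = δ ⟨g * k * g⁻¹, hg k k.2⟩

/-- BLOCK KLB (uses TAB, ORC): the lower bound.
PROOF. Let `N0 = {a ∈ A | Cm K a for all K ∈ 𝒦} ≤ N`. It is enough to prove both statements for `N0` instead of
`N` (`N.relIndex A ≤ N0.relIndex A`). STEP. Let `K ∈ 𝒦` be not centralised by `A`, `C = {a ∈ A | Cm K a} < A`,
`U = FixedBy σ C`, `G1 = Subgroup.centralizer C` (it contains `A`, `K` and leaves `U` invariant), `A1 = {a ∈ A | cj a K = K}`,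
`C ≤ A1`. If `a1 ∈ A1`, `a1 ∉ C` then every `b ∈ A1` is in `C a1 ^ (-i)` by the uniqueness hypothesis, so
`C.relIndex A1 ≤ p`. Let `B0` be maximal (finitely many subgroups) among the `B` with `C ≤ B ≤ A`, `B ⊓ A1 ≤ C`. Then
`B0 ⊔ A1 = A`: if `a ∈ A` is not in `B0 ⊔ A1` then `B0 ⊔ zpowers a` also has the property: if `b * a ^ i ∈ A1`, `b ∈ B0`,
then `a ^ i ∈ B0 ⊔ A1`, so `a ^ i = 1` (otherwise `a` is a power of `a ^ i`), `b ∈ B0 ⊓ A1 ≤ C`. `K` acts nontrivially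
on `U` (TAB with `B = C`, `D = K`). ORC for `G1` acting on `U`, with `A := B0`, `C`, `K` (`subgroupOf`): for
`a ∈ B0`, `a ∉ C`: `a ∉ A1`, so `cj a K ≠ K` commutes with `K`. So `C.relIndex B0 ^ 2 ≤` the index in `U` of the fixed
points `U0` of `B0` on `V` (`C ≤ B0`, so `U0 ≤ U`). If `A1 = C` then `B0 = A`. If there is `a1 ∈ A1`, `a1 ∉ C`, then `a1` acts
nontrivially on `U0`: otherwise let `K0` be the set of `k ∈ K` such that `δ k` acts trivially on `U0`, a subgroup;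
for `k ∈ K`, `c = k a1 k⁻¹ a1⁻¹ ∈ K` and `δ c = δ k * (a1 * δ k⁻¹ * a1⁻¹)` (equivariance, `a1` commutes with `B0` and
normalises `K`) acts trivially on `U0` (`δ k` leaves `U0` invariant, `a1` is trivial on it), so `c ∈ K0`, so
`K ≤ Cq K a1 ≤ K0`, against the nontriviality in ORC. So the fixed points of `A` have index at least `p` in `U0`
(`U0` is a `p`-group). In both cases, with `m = C.relIndex B0`, `C.relIndex A = m * C.relIndex A1`
(`B0 ⊓ A1 = C`, `B0 ⊔ A1 = A`; only `≤` is needed) and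
`m * C.relIndex A ≤ m ^ 2 * C.relIndex A1 ≤` the index in `U` of the fixed points of `A`.
FIRST STATEMENT by strong induction on `|A|`: if `A` centralises all `K ∈ 𝒦` then `N0 = A`. Otherwise take `K`, `C` as in
STEP; `N0` is the same group for `C`, and `N0.relIndex A = N0.relIndex C * C.relIndex A`. SECOND STATEMENT: let
`K ∈ 𝒦`; if `A` centralises `K` it is clear; otherwise STEP and the first statement for `C` give
`m * N0.relIndex A ≤ (FixedBy σ A).index ≤ N0.relIndex A`, so `m = 1`, `B0 = C`, `A = C ⊔ A1 = A1`. -/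
def Stmt_KLB : Prop := ∀ (p : ℕ) [Fact p.Prime] (G : Type) [Group G] [Finite G] (V : Type)
  [AddCommGroup V] [Finite V] (σ : G →* AddMonoid.End V) (𝒦 : Set (Subgroup G))
  (A N : Subgroup G), (∀ v : V, p • v = 0) → (∀ a ∈ A, ∀ b ∈ A, a * b = b * a) →
  (∀ a ∈ A, a ^ p = 1) → (∀ K ∈ 𝒦, ⁅K, K⁆ = K ∧ ∃ k ∈ K, σ k ≠ 1) →
  (∀ K ∈ 𝒦, ∀ a ∈ A, cj a K ∈ 𝒦) →
  (∀ K ∈ 𝒦, ∀ L ∈ 𝒦, K ≠ L → ∀ k ∈ K, ∀ l ∈ L, k * l = l * k) →
  (∀ K ∈ 𝒦, ∀ a ∈ A, cj a K = K → ¬ Cm K a → K ≤ Cq K a) →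
  (∀ K ∈ 𝒦, ∀ a ∈ A, ∀ b ∈ A, cj a K = K → cj b K = K → ¬ Cm K a →
    ∃ i : ℕ, Cm K (b * a ^ i)) →
  (∀ a ∈ A, (∀ K ∈ 𝒦, Cm K a) → a ∈ N) → N ≤ A →
  N.relIndex A ≤ (FixedBy σ A).index ∧
    ((FixedBy σ A).index ≤ N.relIndex A → ∀ K ∈ 𝒦, ∀ a ∈ A, cj a K = K)

/-! ## 2. Transvections -/

/-- BLOCK FAB (uses nothing): a perfect group fixing the centre or the axis.
PROOF. (A) `x e = χ x • e`, `χ x ≠ 0`, `χ (x y) = χ x χ y`; so commutators fix `e`, so `K = ⁅K, K⁆` fixes `e`. The set of all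
`g` with `g e = e` and `g v - v ∈ multiples of e` for all `v` is a subgroup and contains `x s x⁻¹`
(`x s x⁻¹ v = v + f (x⁻¹ v) • x e`, `TV.conj`) and `s⁻¹`, so `K ≤ Cq K s` is in it. So for `x`, `y ∈ K`:
`x (y v - v) = y v - v`, `x y v = x v + y v - v`, symmetric; `K` is abelian and perfect, so `⊥`. (B) `f (x v) = χ x * f v`; again
`χ = 1`, `f (x v) = f v` for `x ∈ K`. The set of all `g` with `f (g v) = f v` for all `v` and `g v = v` if `f v = 0` is a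
subgroup and contains `x s x⁻¹` (functional `f ∘ x⁻¹ = f`, centre `x e`, `f (x e) = f e = 0`) and `s⁻¹`, so `K`. For `x`,
`y ∈ K`: `f (y v - v) = 0`, so `x (y v - v) = y v - v`, and as before `K = ⊥`. -/
def Stmt_FAB : Prop := ∀ (U : Type) [AddCommGroup U] (p : ℕ) [Fact p.Prime] [Module (ZMod p) U]
  (K : Subgroup (Un U)) (s : Un U) (e : U) (f : U →+ ZMod p), TV s e f → ⁅K, K⁆ = K →
  K ≤ Cq K s →
  ((∀ x ∈ K, ∃ c : ZMod p, (x : AddMonoid.End U) e = c • e) → K = ⊥) ∧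
  ((∀ x ∈ K, ∃ c : ZMod p, ∀ v, f ((x : AddMonoid.End U) v) = c * f v) → K = ⊥)

/-- BLOCK TR2 (uses FAB): a transvection does not act nontrivially on two commuting perfect groups.
PROOF. Suppose `K ≠ ⊥`, `L ≠ ⊥`. Let `W` be the subgroup generated by all `x e`, `x ∈ K`; it is invariant under `K`. For
`k ∈ K`: `k v - v ∈ W` for all `v` (the set of such `g` is a subgroup and contains `x s x⁻¹`, `x ∈ K`, and `s⁻¹`). By FAB
(A) there is `x0 ∈ K` with `x0 e ∉ multiples of e`. Call `y ∈ L` good if `y e` is not a multiple of `e` and `f ∘ y⁻¹` is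
not a multiple of `f`. (1) If `y` is good, `W = {a • e + b • y e}`: let `w = y s y⁻¹ s⁻¹`, in `L` as `cj s L = L`, so `w`
commutes with `K`. `w (s v) - s v = f (y⁻¹ v) • y e - f v • e`. The pair `(f (y⁻¹ v), f v)` takes all values in
`ZMod p × ZMod p`: (there is `v` with `f v = 0`, `f (y⁻¹ v) ≠ 0`: otherwise the kernel of `f` is in the kernel of
`f ∘ y⁻¹` and `f ∘ y⁻¹` is a multiple of `f`; and `v'` with `f v' ≠ 0`). So the range of `w - 1` is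
`E1 = {a • e + b • y e}`; it is `K`-invariant and contains `e`, so `W ≤ E1`; `e`, `x0 e ∈ W` are linearly
independent, so `|W| ≥ p ^ 2 ≥ |E1|` and `W = E1`. (2) There is a good `y`: otherwise `L` is the union of the
subgroups `{y | y e is a multiple of e}` and `{y | f ∘ y is a multiple of f}`, so equal to one of them (a
group is not the union of two proper subgroups), against FAB (A) or (B). (3) `y e ∈ W` for all `y ∈ L`: the set
`L2` of such `y ∈ L` is a subgroup (`y (x e) = x (y e) ∈ W`, so `y W ≤ W`; `W` finite), contains all good `y` by (1)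
and all `y` with `y e` a multiple of `e`, so `L` is the union of `L2` and `{y | f ∘ y is a multiple of f}`, so
`L = L2` by FAB (B). (4) `W = {a • e + b • x0 e}` (order `p ^ 2`). For `y1`, `y2 ∈ L`, `yi e = ai • e + bi • x0 e`:
`y1 (y2 e) = (a1 a2) • e + (a2 b1 + a1 b2) • x0 e + (b1 b2) • x0 (x0 e)` (`yi` commutes with `x0`), symmetric, so
commutators of elements of `L`, so all elements of `L`, fix `e`, against FAB (A). -/
def Stmt_TR2 : Prop := ∀ (U : Type) [AddCommGroup U] (p : ℕ) [Fact p.Prime] [Module (ZMod p) U],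
  Finite U → ∀ (K L : Subgroup (Un U)) (s : Un U) (e : U) (f : U →+ ZMod p), TV s e f →
  ⁅K, K⁆ = K → ⁅L, L⁆ = L → (∀ k ∈ K, ∀ l ∈ L, k * l = l * k) → cj s K = K → cj s L = L →
  K ≤ Cq K s → L ≤ Cq L s → K = ⊥ ∨ L = ⊥

/-- BLOCK TR3 (uses TR2): the same for representations.
PROOF. `V` is a `ZMod p`-module (`AddCommGroup.zmodModule`). Let `σ' = σ.toHomUnits`, `K' = K.map σ'`, `L' = L.map σ'`,
`s' = σ' s`. They satisfy the hypotheses of TR2 (`Subgroup.map_commutator`; the image of `Cq K s` is `Cq K' s'`). If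
`s' = 1` then `K' ≤ Cq K' 1 = ⊥`. Otherwise `s'` is a transvection by `tv_of_rank`: `FixedBy σ (zpowers s)` is the
kernel of `s' - 1`, of index at most `p`; the range of `s' - 1` has order at most `p` and is normalised by the
`p`-element `s'`, so `s'` acts trivially on it (a nonzero multiple `c` of the generator: `(1 + n) ^ p • c = c` as in
block TRN), so `(s' - 1) ^ 2 = 0`. -/
def Stmt_TR3 : Prop := ∀ (p : ℕ) [Fact p.Prime] (G : Type) [Group G] [Finite G] (V : Type)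
  [AddCommGroup V] [Finite V] (σ : G →* AddMonoid.End V) (K L : Subgroup G) (s : G),
  (∀ v : V, p • v = 0) → ⁅K, K⁆ = K → ⁅L, L⁆ = L → (∀ k ∈ K, ∀ l ∈ L, k * l = l * k) →
  cj s K = K → cj s L = L → K ≤ Cq K s → L ≤ Cq L s → s ^ p = 1 →
  (FixedBy σ (Subgroup.zpowers s)).index ≤ p → (∀ k ∈ K, σ k = 1) ∨ ∀ l ∈ L, σ l = 1

/-- BLOCK KTV (uses TRN, TR2): a transvection normalises all `K` and centralises all but one.
PROOF. First part: let `cj s K ≠ K`. `s ^ p = 1` (`TV.pow_p`), so `cj (s ^ j) K ≠ K` for `0 < j < p` (`s` is a power of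
`s ^ j`), so `s ^ j k (s ^ j)⁻¹ ∈ cj (s ^ j) K ∈ 𝒦` commutes with `K`. TRN (`G = Un U`, `σ = Units.coeHom _`, `D = K`, `a = s`;
`FixedBy σ (zpowers s)` is the kernel of `f`, of index at most `p`) gives `K = ⊥`. Second part: `KE.qs`, TR2. -/
def Stmt_KTV : Prop := ∀ (U : Type) [AddCommGroup U] (p : ℕ) [Fact p.Prime] [Module (ZMod p) U]
  (Z : Subgroup (Un U)) (𝒦 : Set (Subgroup (Un U))), KE Z 𝒦 → ∀ s ∈ Z, IsT p s →
  (∀ K ∈ 𝒦, cj s K = K) ∧ ∀ K ∈ 𝒦, ∀ L ∈ 𝒦, K ≠ L → Cm K s ∨ Cm L s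

/-- BLOCK KDJ (uses KTV): transvections acting on different members.
PROOF. For `x ∈ K`: `s'` commutes with `x`, so by `TV.conj`, `TV.uniq` `x e' = c • e'`, `f' (x v) = c * f' v`, `c ≠ 0`
multiplicative in `x`; `K` is perfect, so `c = 1`: `f' (x v) = f' v`. Let `S1` be the subgroup generated by all `x v - v`,
`x ∈ K`, `v : U`; `f'` vanishes on `S1`. `K` and `s` leave `S1` invariant (`cj s K = K` by KTV). `s` acts nontrivially on
`S1`: otherwise all `x s x⁻¹` act trivially on `S1`, so `K ≤ Cq K s` acts trivially on `S1`, so `x (y v - v) = y v - v`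
for `x`, `y ∈ K`, `K` is abelian, perfect, `⊥`. So there is `v ∈ S1` with `f v ≠ 0`, `f v • e = s v - v ∈ S1`,
`e ∈ S1` and `f' e = 0`. -/
def Stmt_KDJ : Prop := ∀ (U : Type) [AddCommGroup U] (p : ℕ) [Fact p.Prime] [Module (ZMod p) U]
  (Z : Subgroup (Un U)) (𝒦 : Set (Subgroup (Un U))), KE Z 𝒦 → ∀ (s s' : Un U) (e e' : U)
  (f f' : U →+ ZMod p), TV s e f → TV s' e' f' → s ∈ Z → s' ∈ Z → ∀ K ∈ 𝒦, ¬ Cm K s →
  Cm K s' → f' e = 0

/-- BLOCK KUN (uses KTV, KDJ): transvections in a good `p`-subgroup `Q`.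
PROOF. (1) by `KQ.fa` and `TV.ne1` some `K ∈ 𝒦` is not centralised; KTV. (2) `KQ.un` (`s ^ p = s' ^ p = 1`, KTV) gives
`Cm K (s' * s ^ i)`; all other members are centralised by `s`, `s'` (KTV), so `s' * s ^ i = 1` by `fa`. (3) commuting:
if both do not centralise the same `K`: (2). Otherwise `s s' s⁻¹ s'⁻¹` centralises every `L ∈ 𝒦` (one of `s`, `s'`
centralises `L` and both normalise it), so it is `1` by `fa`. `f' e = 0`: if `s'` is a power of `s`: `TV.uniq` for `s'` and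
`s ^ n v = v + (n * f v) • e`, `TV.fe`. Otherwise KDJ. (4) Let `L ∈ 𝒦`, `¬ Cm L s`, `K ∈ 𝒦`. `KE.tr`: `cj g L = K`, `g ∈ Z`;
`g = x * b` (`fc`), `x` normalises all members, so `cj b L = K`; `b s b⁻¹ ∈ Q` (`Zn`), `TV.conj`, and it does not
centralise `cj b L`. -/
def Stmt_KUN : Prop := ∀ (U : Type) [AddCommGroup U] (p : ℕ) [Fact p.Prime] [Module (ZMod p) U]
  (Z : Subgroup (Un U)) (𝒦 : Set (Subgroup (Un U))) (Q Zq : Subgroup (Un U)), KE Z 𝒦 →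
  KQ p Z 𝒦 Q Zq →
  (∀ s ∈ Tq p Q, ∃ K ∈ 𝒦, ¬ Cm K s ∧ ∀ L ∈ 𝒦, L ≠ K → Cm L s) ∧
  (∀ s ∈ Tq p Q, ∀ s' ∈ Tq p Q, ∀ K ∈ 𝒦, ¬ Cm K s → ¬ Cm K s' → s' ∈ Subgroup.zpowers s) ∧
  (∀ s ∈ Tq p Q, ∀ s' ∈ Tq p Q, s * s' = s' * s ∧ ∀ (e e' : U) (f f' : U →+ ZMod p),
    TV s e f → TV s' e' f' → f' e = 0) ∧
  (∀ s ∈ Tq p Q, ∀ K ∈ 𝒦, ∃ b ∈ Zq, b * s * b⁻¹ ∈ Tq p Q ∧ ¬ Cm K (b * s * b⁻¹))

/-! ## 3. Offenders -/

/-- BLOCK KLC (uses TAB, KLB, TR3): the step. `C = {a ∈ A | Cm K a}`.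
PROOF. (0) For every elementary abelian `A' ≤ Q`: `|A'| |FxU A'| ≤ |U|`: KLB with `G = Un U`, `σ = Units.coeHom _`,
`N = ⊥` (`FixedBy σ A' = FxU A'`; `qs`, `un` with `a ^ p = 1`, `fa`; `Subgroup.relIndex_bot_left`). By the second part of
KLB for `A` all elements of `A` normalise all members. (1) By `un` every `b ∈ A` is in `C a0 ^ (-i)`, so
`|A| ≤ p |C|`; `a0 ^ p = 1`, `a0 ∉ C`, so `|A| = p |C|`. (2) `a0` acts nontrivially on `FxU C`: otherwise, as `K` commutes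
with `C` and leaves `FxU C` invariant, all `k a0 k⁻¹ a0⁻¹` (`k ∈ K`) and so `K ≤ Cq K a0` act trivially on `FxU C`, so
`K = ⊥` by TAB (`B = C`, `D = K`). So `p |FxU A| ≤ |FxU C|`. (3) `|U| = |A| |FxU A| = p |C| |FxU A| ≤ |C| |FxU C| ≤ |U|`
by (0), so equality everywhere. (4) Let `M ∈ 𝒦`, `M ≠ K`, be centralised by `C` and not by `a0`. TR3 for the group
`G1 = Subgroup.centralizer C` acting on `FxU C`, `K`, `L = M`, `s = a0`: the fixed points of `a0` on `FxU C` are `FxU A`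
(`A` is generated by `C` and `a0`), of index `p`; so `K` or `M` acts trivially on `FxU C`, against TAB. -/
def Stmt_KLC : Prop := ∀ (U : Type) [AddCommGroup U] (p : ℕ) [Fact p.Prime] [Module (ZMod p) U]
  (Z : Subgroup (Un U)) (𝒦 : Set (Subgroup (Un U))) (Q Zq : Subgroup (Un U)), KE Z 𝒦 →
  KQ p Z 𝒦 Q Zq → (∀ A : Subgroup (Un U), A ≤ Q → El p A →
    Nat.card A * Nat.card (FxU A) ≤ Nat.card U) ∧
  ∀ A : Subgroup (Un U), A ≤ Q → El p A → Nat.card A * Nat.card (FxU A) = Nat.card U →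
    (∀ K ∈ 𝒦, ∀ a ∈ A, cj a K = K) ∧
    ∀ K ∈ 𝒦, ∀ a0 ∈ A, ¬ Cm K a0 → ∀ C : Subgroup (Un U), (∀ a, a ∈ C ↔ a ∈ A ∧ Cm K a) →
      Nat.card A = p * Nat.card C ∧ Nat.card C * Nat.card (FxU C) = Nat.card U ∧
      (∀ a ∈ A, ∃ c ∈ C, ∃ i : ℕ, a = c * a0 ^ i) ∧
      ∀ M ∈ 𝒦, M ≠ K → (∀ c ∈ C, Cm M c) → Cm M a0

/-- BLOCK KLE (uses TAB, KLB, KTV, KUN, KLC): offenders are generated by transvections.
PROOF. The first part is KLC. Second part by strong induction on `|A|`. If `A = ⊥`: `Tq p ⊥ = ∅` (`TV.ne1`). Otherwise by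
`fa` there are `K ∈ 𝒦`, `a0 ∈ A` with `¬ Cm K a0`; let `C` be as in KLC; `|C| < |A|`, so `C = Pq p C` by induction.
`Tq p C ⊆ Tq p Q`. Let `𝒞 = {L ∈ 𝒦 | C does not centralise L}`; `K ∉ 𝒞`. For `L ∈ 𝒞` there is `s ∈ Tq p C` with `¬ Cm L s`. CLAIM 1:
there is `a1 ∈ A`, `a1 ∉ C`, which centralises all `L ∈ 𝒦`, `L ≠ K`. By KLC (4) every `a1 ∈ a0 C` centralises all
`M ∉ 𝒞`, `M ≠ K`. For the members of the finite set `𝒞`: show by induction on finite subsets `𝒟` of `𝒞` that some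
`a1 ∈ a0 C` centralises all `L ∈ 𝒟`: for `insert L 𝒟` take `s ∈ Tq p C` with `¬ Cm L s`; `un` (KLC: all elements of `A`
normalise `L`) gives `Cm L (a1 * s ^ i)`, and `s` centralises all members except `L` (KTV). `a1 ∉ C` because
`¬ Cm K a0`. CLAIM 2: `|U| ≤ p |FxU (zpowers a1)|`. KLB for `G1 = Subgroup.centralizer {a1}` acting on
`V1 = FxU (zpowers a1)`, the set of the `L.subgroupOf G1`, `L ∈ 𝒞` (`a1` commutes with `L ≠ K`), the group `A`, and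
`N = zpowers a1`: `L` is nontrivial on `V1` by TAB; the other hypotheses are inherited (`A` normalises every
`L`); if `a ∈ A` centralises all `L ∈ 𝒞` then `a = c * a1 ^ j` with `c ∈ C` (KLC with `a1` instead of `a0`), `c`
centralises all `L ∈ 𝒞`, so all of `𝒦`, so `c = 1`. So `(zpowers a1).relIndex A ≤ |V1| / |FxU A|`, that is
`|A| |FxU A| ≤ p |V1|`. So `a1` is a transvection: `tv_of_rank` (`a1 ≠ 1`; `(a1 - 1) ^ 2 = 0` as in block TR3), `a1 ∈ Tq p A`,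
and `A` is generated by `C = Pq p C` and `a1`. -/
def Stmt_KLE : Prop := ∀ (U : Type) [AddCommGroup U] (p : ℕ) [Fact p.Prime] [Module (ZMod p) U]
  (Z : Subgroup (Un U)) (𝒦 : Set (Subgroup (Un U))) (Q Zq : Subgroup (Un U)), KE Z 𝒦 →
  KQ p Z 𝒦 Q Zq → ∀ A : Subgroup (Un U), A ≤ Q → El p A →
  Nat.card A * Nat.card (FxU A) ≤ Nat.card U ∧
  (Nat.card A * Nat.card (FxU A) = Nat.card U → A = Pq p A)

/-- BLOCK KGT (uses KUN, KLE): groups generated by transvections of `Q`. Compare `B_GTR.lean`.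
PROOF. `closure T` is abelian by KUN (3) and of exponent `p` (`TV.pow_p`), contained in `Q`, so `≤` is KLE. `≥` by
induction on the finite set `T` (`Set.Finite.induction_on`): `T = ∅`: `closure = ⊥`, `FxU ⊥ = ⊤`. For `insert s T`,
`A = closure T`: if `s ∈ A` clear. Otherwise `|closure (insert s T)| ≥ p |A|` and
`|FxU A| ≤ p |FxU (closure (insert s T))|` (a point of `FxU A` with `f u = 0` is fixed by `s`). -/
def Stmt_KGT : Prop := ∀ (U : Type) [AddCommGroup U] (p : ℕ) [Fact p.Prime] [Module (ZMod p) U]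
  (Z : Subgroup (Un U)) (𝒦 : Set (Subgroup (Un U))) (Q Zq : Subgroup (Un U)), KE Z 𝒦 →
  KQ p Z 𝒦 Q Zq → ∀ T : Set (Un U), T ⊆ Tq p Q → El p (Subgroup.closure T) ∧
  Nat.card (Subgroup.closure T) * Nat.card (FxU (Subgroup.closure T)) = Nat.card U

/-- BLOCK KCE (uses FAB, KTV, KUN, KLE, KGT): elements of `Q` which fix `FxU (Pq p Q)`. Compare `B_CEN.lean`.
PROOF. Let `P = Pq p Q`, `F0 = FxU P`. Let `s ∈ Tq p Q`, `TV s e f`, `K ∈ 𝒦` with `¬ Cm K s` (KUN (1)). `e ∈ F0` by KUN (3), so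
`b e = e`. `s' = b s b⁻¹ ∈ Tq p Q` is a transvection with centre `b e = e`, and `¬ Cm (cj b K) s'`. `cj b K = K`: otherwise
`Cm K s'` (KTV), so for `x ∈ K` the element `x` commutes with `s'` and maps its centre `e` to a multiple of `e`
(`TV.conj`, `TV.uniq`), so `K = ⊥` by FAB (A) (`K ≤ Cq K s` by `qs`, KTV). So `s' ∈ zpowers s` by KUN (2), `s' = s ^ n`,
`n` prime to `p`; `b` has order a power of `p` (`Qp`), so `n ^ (p ^ k) ≡ 1`, so `n ≡ 1` modulo `p` (`ZMod.pow_card`) and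
`b s = s b`. So `b` commutes with `P`. For `v : U`: `s (b v - v) - (b v - v) = b (s v - v) - (s v - v) =
f v • (b e - e) = 0`, so `b v - v ∈ F0`, so `b (b v - v) = b v - v`, `(b - 1) ^ 2 = 0` and `b ^ p = 1` (characteristic `p`;
`Qd.pow_p` as in the proof of `TV.pow_p`). So `A = P ⊔ zpowers b` is elementary abelian (KGT), `FxU A = F0`, and by KLE
and KGT `|A| |F0| ≤ |U| = |P| |F0|`, so `A = P`. -/
def Stmt_KCE : Prop := ∀ (U : Type) [AddCommGroup U] (p : ℕ) [Fact p.Prime] [Module (ZMod p) U]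
  (Z : Subgroup (Un U)) (𝒦 : Set (Subgroup (Un U))) (Q Zq : Subgroup (Un U)), KE Z 𝒦 →
  KQ p Z 𝒦 Q Zq → ∀ b ∈ Q, (∀ u ∈ FxU (Pq p Q), (b : AddMonoid.End U) u = u) → b ∈ Pq p Q

/-- BLOCK KMI (uses KUN): the span of the centres is a minimal invariant subgroup. Compare `B_MIN.lean`.
PROOF. (1) clear. (2) Let `S' ≤ Sc Z e` be invariant. If there are `u ∈ S'`, `g ∈ Z` with `f (g⁻¹ u) ≠ 0` then
`(g t g⁻¹) u - u = f (g⁻¹ u) • g e ∈ S'`, so `g e ∈ S'`, and `S' = Sc Z e`. Otherwise all `g t g⁻¹` fix all elements of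
`S'`. Let `S''` be a complement of `S'` (`KE.ss`). For `v : U`, `v = v' + v''`, `t v' = v'`, so
`f v • e = t v - v = t v'' - v'' ∈ S''`; with `f v ≠ 0`: `e ∈ S''`, `Sc Z e ≤ S''` (invariant), so `S' ≤ S' ⊓ S'' = ⊥`.
(3) Let `g t g⁻¹ ∈ Q`, `g ∈ Z`; a transvection with centre `g e`. Let `s ∈ Tq p Q`, `¬ Cm K s` (KUN (1)). KUN (4): `b ∈ Zq`
with `r = b (g t g⁻¹) b⁻¹ ∈ Tq p Q`, `¬ Cm K r`; `s ∈ zpowers r` (KUN (2)), and `r v - v` is a multiple of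
`b (g e) ∈ Sc Z e`, so `s v - v ∈ Sc Z e`. The set of all `a ∈ Z` with `a v - v ∈ Sc Z e` for all `v` is closed under
products and inverses. -/
def Stmt_KMI : Prop := ∀ (U : Type) [AddCommGroup U] (p : ℕ) [Fact p.Prime] [Module (ZMod p) U]
  (Z : Subgroup (Un U)) (𝒦 : Set (Subgroup (Un U))) (t : Un U) (e : U) (f : U →+ ZMod p),
  KE Z 𝒦 → TV t e f → t ∈ Z → Iv Z (Sc Z e) ∧
  (∀ S' : AddSubgroup U, S' ≤ Sc Z e → Iv Z S' → S' = ⊥ ∨ S' = Sc Z e) ∧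
  ∀ Q Zq : Subgroup (Un U), KQ p Z 𝒦 Q Zq → (∃ g ∈ Z, g * t * g⁻¹ ∈ Q) →
    ∀ a ∈ Pq p Q, ∀ u : U, (a : AddMonoid.End U) u - u ∈ Sc Z e

/-- BLOCK KCP (uses KUN, KGT): coordinates in `P = Pq p Q`.
PROOF. (1) Every `s ∈ Tq p Q` centralises all members except one (KUN (1)), so it centralises all members of `𝒟` or
all members of `𝒦 \ 𝒟`. `P` is abelian (KGT), so every `a ∈ P` is `b * c`, `b` in the group `P1` generated by the first kind
and `c` in the group generated by the second kind. If `a ∈ Cz 𝒟` then `c = b⁻¹ a ∈ Cz 𝒟` and `c ∈ Cz (𝒦 \ 𝒟)`, so `c = 1`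
(`fa`, `P ≤ Q`) and `a ∈ P1`. (2) By (1) for `𝒟 ∩ 𝒟'`, `a` is in the group generated by the `s ∈ Tq p Q` which
centralise `𝒟 ∩ 𝒟'`; such an `s` centralises `𝒟` or `𝒟'` (KUN (1)). (3) By (1) with `𝒟 = {K ∈ 𝒦 | A centralises K}`, `a` is in
the group generated by the `s ∈ Tq p Q` which centralise `𝒟`; let `s` be one, `¬ Cm K s` (KUN (1)), so `K ∉ 𝒟`;
`A = closure (Tq p A)` does not centralise `K`, so some `s' ∈ Tq p A` does not, and `s ∈ zpowers s' ≤ A` (KUN (2)).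
(4) `fa`. -/
def Stmt_KCP : Prop := ∀ (U : Type) [AddCommGroup U] (p : ℕ) [Fact p.Prime] [Module (ZMod p) U]
  (Z : Subgroup (Un U)) (𝒦 : Set (Subgroup (Un U))) (Q Zq : Subgroup (Un U)), KE Z 𝒦 →
  KQ p Z 𝒦 Q Zq →
  (∀ 𝒟 ⊆ 𝒦, ∀ a ∈ Pq p Q, a ∈ Cz 𝒟 →
    a ∈ Subgroup.closure {s | s ∈ Tq p Q ∧ ∀ K ∈ 𝒟, Cm K s}) ∧
  (∀ 𝒟 ⊆ 𝒦, ∀ 𝒟' ⊆ 𝒦, Pq p Q ⊓ Cz (𝒟 ∩ 𝒟') ≤ (Pq p Q ⊓ Cz 𝒟) ⊔ (Pq p Q ⊓ Cz 𝒟')) ∧
  (∀ A ≤ Pq p Q, A = Pq p A → ∀ a ∈ Pq p Q, a ∈ Cz {K ∈ 𝒦 | ∀ b ∈ A, Cm K b} → a ∈ A) ∧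
  (∀ a ∈ Pq p Q, a ∈ Cz 𝒦 → a = 1)

/-! ## 4. The semisimplification -/

/-- BLOCK SEM3 (uses nothing): `Stmt_SEM` with complements. Copy `B_SEM.lean` (folder `MP_6d7bb4_S`) and add the last
clause. In the step `U = U1 × M` with `M = V ⧸ W` irreducible, complements exist in `U1`. Let `S ≤ U1 × M` be
invariant, `S1 = {u | (u, 0) ∈ S}` with complement `S1'` in `U1`. The set of second components of `S` is invariant, so `⊥`
or `⊤`. If it is `⊥`: the complement is `S1' × M`. If it is `⊤`: the complement is `S1' × 0`: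
`(u, m) = (u', m) + (s, 0) + (s', 0)` with `(u', m) ∈ S`, `u - u' = s + s'`. -/
def Stmt_SEM3 : Prop := ∀ (X : Type) [Group X] [Finite X] (p : ℕ) [Fact p.Prime] (V : Type)
  [AddCommGroup V] [Finite V] (φ : X →* AddMonoid.End V), (∀ v : V, p • v = 0) →
  ∃ (U : Type) (_ : AddCommGroup U) (_ : Finite U) (ψ : X →* AddMonoid.End U), Ss2 p φ ψ ∧
  ∀ S : AddSubgroup U, Inv ψ S → ∃ S' : AddSubgroup U, Inv ψ S' ∧ S ⊓ S' = ⊥ ∧ S ⊔ S' = ⊤

/-- BLOCK MDX3 (uses SEM3): `Stmt_MDX` with complements. Copy `B_MDX.lean` (folder `MP_6d7bb4_S`) with SEM3 instead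
of SEM; invariance under `ψ.range` is `Inv ψ`. -/
def Stmt_MDX3 : Prop := ∀ (G : Type) [Group G] (p : ℕ) [Fact p.Prime] (X V : Subgroup G),
  Finite X → Finite V → Nm X V → El p V →
  ∃ (R : Subgroup G) (U : Type) (_ : AddCommGroup U) (_ : Finite U) (ψ : X →* Un U),
    Md3 p X V R ψ

/-! ## 5. From the permutation group to the modules -/

/-- normal subgroups which act as `p`-groups act trivially -/
def NP {X : Type} [Group X] {S : Type} [AddCommGroup S] (p : ℕ) (ρ : X →* AddMonoid.End S) :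
    Prop := ∀ N : Subgroup X, (∀ x, ∀ n ∈ N, x * n * x⁻¹ ∈ N) →
  (∀ n ∈ N, ∃ k : ℕ, ρ (n ^ p ^ k) = 1) → ∀ n ∈ N, ρ n = 1

/-- BLOCK KOM2 (uses nothing): `Stmt_KOM` with `NP` instead of irreducibility. Copy `B_KOM.lean`; `irr_act` was used
only to obtain `NP`. -/
def Stmt_KOM2 : Prop := ∀ (X : Type) [Group X] [Finite X] (Q : Type) [Group Q] (π : X →* Q)
  (p : ℕ) [Fact p.Prime] (Y P : Subgroup X), π.ker ≤ Y → IsOp p Y P →
  ∀ (S : Type) [AddCommGroup S] (ρ : X →* AddMonoid.End S), NP p ρ →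
  (∀ k ∈ π.ker, ∀ g ∈ Subgroup.normalClosure (P : Set X), ρ k * ρ g = ρ g * ρ k) ∧
  ∀ x y : X, ∀ b ∈ P, π x * π (y * b * y⁻¹) = π (y * b * y⁻¹) * π x →
    ρ x * ρ (y * b * y⁻¹) = ρ (y * b * y⁻¹) * ρ x

/-- the hypotheses on `𝒩` in condition (G), without the last one -/
structure Ghy {Ω : Type} (F : Subgroup (Equiv.Perm Ω)) (𝒩 : Set (Subgroup (Equiv.Perm Ω))) :
    Prop where
  le : ∀ T ∈ 𝒩, T ≤ F
  sm : ∀ T ∈ 𝒩, IsSimpleGroup T
  na : ∀ T ∈ 𝒩, ∃ s ∈ T, ∃ t ∈ T, s * t ≠ t * s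
  cl : ∀ T ∈ 𝒩, ∀ f ∈ F, cj f T ∈ 𝒩
  tr : ∀ T ∈ 𝒩, ∀ T' ∈ 𝒩, ∃ f ∈ F, cj f T = T'
  cm : ∀ T ∈ 𝒩, ∀ T' ∈ 𝒩, T ≠ T' → ∀ t ∈ T, ∀ t' ∈ T', t * t' = t' * t
  pt : ∀ a b : Ω, ∃ n ∈ sSup 𝒩, n a = b

/-- BLOCK DIC2 (uses nothing): `T` is contained in `π R` or centralised by it, `R = normalClosure P`.
PROOF. `R.map π` is normalised by `F = π.range`, so `T ⊓ R.map π` is normal in the simple group `T`. If it is `T`, done.
Otherwise it is trivial. Let `g ∈ R.map π`. If `cj g T = T` then `t g t⁻¹ g⁻¹ ∈ T ⊓ R.map π = ⊥` for `t ∈ T`. If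
`cj g T ≠ T`: for `s`, `t ∈ T` let `c = t (g t⁻¹ g⁻¹) ∈ R.map π`; `g t⁻¹ g⁻¹ ∈ cj g T` commutes with `s`, so
`s c s⁻¹ c⁻¹ = s t s⁻¹ t⁻¹ ∈ T ⊓ R.map π = ⊥` for all `s`, `t`, against `na`. -/
def Stmt_DIC2 : Prop := ∀ (Ω : Type) (F : Subgroup (Equiv.Perm Ω))
  (𝒩 : Set (Subgroup (Equiv.Perm Ω))), Ghy F 𝒩 → ∀ (X : Type) [Group X]
  (π : X →* Equiv.Perm Ω), π.range = F → ∀ R : Subgroup X, R.Normal →
  ∀ T ∈ 𝒩, T ≤ R.map π ∨ ∀ g ∈ R, ∀ t ∈ T, π g * t = t * π g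

/-- BLOCK FIX2 (uses nothing): elements of `P` which commute with everything over `𝒩` act trivially.
PROOF. Let `P1 = {b ∈ P | ρ x * ρ b = ρ b * ρ x for all x with π x ∈ T, for all T ∈ 𝒩}`, a subgroup of `X`. (1) For
`b ∈ P1` and `π x ∈ sSup 𝒩`, `ρ x` and `ρ b` commute: the set of all `f ∈ sSup 𝒩` such that `ρ x` commutes with `ρ b` for
all `x` with `π x = f` is closed under products (`π x = f1 f2`, take `x1` with `π x1 = f1 ∈ F = π.range` and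
`x2 = x1⁻¹ x`) and inverses, contains `1` (a point `x` with `π x = 1` has `π x ∈ T`, if `𝒩` is not empty; if `𝒩 = ∅` then
`Ω` has at most one point by `pt`, so `Y = ⊤`, `P` is normal in `X` and acts trivially by `NP`) and the members
of `𝒩`. (2) `P1` is normalised by `Y`: `IsOp.nm` and `Ghy.cl`. (3) The set of all `x` with `ρ x = ρ b` for some `b ∈ P1` is a
normal subgroup: for `x : X` there is `n ∈ sSup 𝒩` with `n ω = π x ω` (`pt`), `n = π x1`, `y = x1⁻¹ x ∈ Y`, and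
`ρ (x b x⁻¹) = ρ (y b y⁻¹)` by (1), (2). It acts as a `p`-group (`IsOp.pg`), so trivially by `NP`. Compare `B_FIX.lean`. -/
def Stmt_FIX2 : Prop := ∀ (Ω : Type) (F : Subgroup (Equiv.Perm Ω)) (p : ℕ) [Fact p.Prime]
  (𝒩 : Set (Subgroup (Equiv.Perm Ω))), Ghy F 𝒩 →
  ∀ (X : Type) [Group X] [Finite X] (π : X →* Equiv.Perm Ω), π.range = F →
  ∀ (ω : Ω) (Y P : Subgroup X), (∀ x : X, x ∈ Y ↔ π x ω = ω) → IsOp p Y P →
  ∀ (S : Type) [AddCommGroup S] (ρ : X →* AddMonoid.End S), NP p ρ →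
  ∀ b ∈ P, (∀ T ∈ 𝒩, ∀ x : X, π x ∈ T → ρ x * ρ b = ρ b * ρ x) → ρ b = 1

/-- BLOCK KTG (uses KTC): commutators with `g`. Let `K0 = KT π R T`, `K = K0.map ρ'`, `ρ' = ρ.toHomUnits`.
PROOF. Let `M` be the subgroup of `X` generated by all `k g k⁻¹ g⁻¹`, `k ∈ K0`; they are in `K0` (KTC, first part:
`cj g K0 = KT π R (cj (π g) T) = K0`). `M.map π` is generated by the `t (π g) t⁻¹ (π g)⁻¹`, `t ∈ T` (`K0.map π = T`). It is
contained in `T` and normalised by `T`: `a [b, g] a⁻¹ = [a b, g] [a, g]⁻¹` with `[a, g] = a g a⁻¹ g⁻¹`; it is not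
trivial, so it is `T` (`T` simple). So every `k ∈ K0` is `m * z` with `m ∈ M`, `z ∈ K0 ⊓ π.ker`, and `ρ z` commutes with `ρ R`,
`K0 ≤ R`. So commutators of elements of `K` are commutators of elements of `M.map ρ'`, and
`K = ⁅K, K⁆ ≤ M.map ρ' = Cq K (ρ' g)` (KTC (3)). -/
def Stmt_KTG : Prop := ∀ (X : Type) [Group X] (Q : Type) [Group Q] (π : X →* Q)
  (R : Subgroup X) (S : Type) [AddCommGroup S] (ρ : X →* AddMonoid.End S), R.Normal →
  (∀ k ∈ π.ker, ∀ g ∈ R, ρ k * ρ g = ρ g * ρ k) →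
  ∀ T : Subgroup Q, IsSimpleGroup T → ⁅T, T⁆ = T → T ≤ R.map π → ∀ g : X, cj (π g) T = T →
  (∃ t ∈ T, π g * t ≠ t * π g) →
  (KT π R T).map ρ.toHomUnits ≤ Cq ((KT π R T).map ρ.toHomUnits) (ρ.toHomUnits g)

/-- the stabiliser of the point `ω` in `X` -/
def Yo {X Ω : Type} [Group X] (π : X →* Equiv.Perm Ω) (ω : Ω) : Subgroup X where
  carrier := {x | π x ω = ω}
  one_mem' := by
    show π 1 ω = ω
    rw [map_one]
    rfl
  mul_mem' := by
    intro a b ha hb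
    show π (a * b) ω = ω
    rw [map_mul]
    show π a (π b ω) = ω
    rw [hb, ha]
  inv_mem' := by
    intro a ha
    show π a⁻¹ ω = ω
    rw [map_inv, Equiv.Perm.inv_eq_iff_eq]
    exact ha.symm

/-- BLOCK KEQ (uses KTC, KOM2, DIC2, FIX2, KTG): the component environment of a module.
PROOF. `CondG` gives `𝒩` with `Ghy F 𝒩` (`T.map (MulAut.conj f).toMonoidHom = cj f T`). `ρ = (Units.coeHom _).comp ψ`,
`ρ.toHomUnits = ψ`. Take `ω0`, `b0 ∈ P ω0` with `ψ b0 ≠ 1`, `R = Subgroup.normalClosure (P ω0)`. `π X = F` is transitive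
(`pt`, `le`), and `P (π g ω0) = cj g (P ω0)` (uniqueness in `IsOp`; `Yo π (π g ω0) = cj g (Yo π ω0)`), so `P ω ≤ R` for all
`ω` and `R` is also the normal closure of `P ω`. KOM2 (1): `ρ k` commutes with `ρ R` for `k ∈ π.ker`. (1) `T ≤ R.map π` for
all `T ∈ 𝒩`: otherwise by DIC2 `π R` centralises one `T`, so all (`tr`; `R` is normal), so for `π x ∈ T` and `b ∈ P ω0` `π x`
and `π b` commute, `ρ x` and `ρ b` commute (KOM2 (2), `y = 1`) and `ρ b = 1` by FIX2, against `b0`. `⁅T, T⁆ = T` (simple,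
`na`). (2) Let `K T = (KT π R T).map ψ`. `cj (ψ g) (K T) = K (cj (π g) T)` (KTC, first part). `K T ≠ ⊥` for all `T`: otherwise,
by `tr`, for all `T`; `π x ∈ T`: `x = k z`, `k ∈ KT π R T`, `z ∈ π.ker`, `ρ k = 1` and `ρ z` commutes with `ρ b`, `b ∈ P ω0`;
FIX2 gives `ρ b = 1`, against `b0`. (3) `T ≠ T'` implies that `K T` and `K T'` commute (KTC (2): `π k ∈ T` commutes
with `T'`), and so `K T ≠ K T'` (perfect, not trivial). (4) For `g : X`: `Cm (K T) (ψ g)` iff `π g` centralises `T`. `←`: KTC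
(2). `→`: `cj (ψ g) (K T) = K T`, so `cj (π g) T = T` by (3); if `π g` does not centralise `T` then KTG gives
`K T ≤ Cq (K T) (ψ g) = ⊥`. Let `𝒦 = {K T | T ∈ 𝒩}`. `KE`: `non`: if `𝒩 = ∅` FIX2 gives a contradiction as its hypothesis is empty.
`pf`: KTC (3). `cl`, `tr`: (2). `cm`: (3). `qs`: (3), (4), KTG. `KQ` for `ω`: `QZ`, `ZZ` clear, `Qp`: `IsOp.pg`, `Zn`: `IsOp.nm`;
`fa`: `g = ψ b`, `b ∈ P ω`; by (4) `π b` centralises all `T`, so by KOM2 (2) and FIX2 (for `ω`) `ψ b = 1`. `un`: `g = ψ a`,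
`h = ψ b`; (3), (4) translate everything to `π a`, `π b ∈ (P ω).map π`, a `p`-group in `F` fixing `ω`, normalised by the
stabiliser of `ω` in `F`; last clause of `CondG`. Last statement, and `fc`: for `z : X` there is `n` in the supremum
of the `KT π R T`, whose image under `π` is `sSup 𝒩`, with `π n ω = ω'` (`= π z ω`); `ψ n` is in the group generated by
`𝒦` and normalises all members (an element of `K T` centralises `K T'` for `T' ≠ T` and normalises `K T`);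
`n⁻¹ z ∈ Yo π ω`. -/
def Stmt_KEQ : Prop := ∀ (Ω : Type) (F : Subgroup (Equiv.Perm Ω)) (p : ℕ) [Fact p.Prime],
  CondG F p → ∀ (X : Type) [Group X] [Finite X] (π : X →* Equiv.Perm Ω), π.range = F →
  ∀ (U : Type) [AddCommGroup U] [Finite U] (ψ : X →* Un U), NP p ((Units.coeHom _).comp ψ) →
  (∀ S : AddSubgroup U, Iv ψ.range S → ∃ S' : AddSubgroup U, Iv ψ.range S' ∧ S ⊓ S' = ⊥ ∧
    S ⊔ S' = ⊤) →
  ∀ P : Ω → Subgroup X, (∀ ω, IsOp p (Yo π ω) (P ω)) → (∃ ω, ∃ b ∈ P ω, ψ b ≠ 1) →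
  ∃ 𝒦 : Set (Subgroup (Un U)), KE ψ.range 𝒦 ∧
    (∀ ω, KQ p ψ.range 𝒦 ((P ω).map ψ) ((Yo π ω).map ψ)) ∧
    ∀ ω ω', ∃ g : X, (∀ K ∈ 𝒦, cj (ψ g) K = K) ∧ π g ω = ω'

/-- BLOCK HWG (uses Sol.FMB, KEQ): from the permutation group to the vertices. Compare `B_VTF.lean`.
PROOF. `ve`: let `X = stabilizer H x`, `π = rho H x e`, `π.range = F`, as in `B_VTF.lean`. For `ω = e ⟨y, hy⟩` let
`P ω = (Qe p x y).subgroupOf X`: `IsOp p (Yo π ω) (P ω)` (there: `hY`, `hP`; every `ω` is of this form). `NP`: from `Md.np`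
(`N.map ψ` is normalised by `ψ.range` and a `p`-group, so `⊥`). `∃ b ∈ P ω, ψ b ≠ 1`: otherwise
`Qe p x y ≤ R` (`Md.ker`), so `Qe p x y ≤ R ⊓ B x y ≤ K Γ x` by FMB (4) (`isR.le`, `isR.nm`, `isR.pa`), against `CB0.ne`. KEQ
gives `𝒦`. `KV`: `ker`: `Md.ker`; `Rs`: `isR.le`; `RK`: FMB (4); `QR`: `isR.mx` for `Qv Γ p x` (as in `B_VEX.lean`); `Et`, `kq`: KEQ
(`im ψ A = (A.subgroupOf X).map ψ`; `Yo π ω = (B x y).subgroupOf X`). -/
def Stmt_HWG : Prop := ∀ (V Ω : Type) (Γ : SimpleGraph V) (H : Subgroup (Γ ≃g Γ))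
  (F : Subgroup (Equiv.Perm Ω)) (d p : ℕ) [Fact p.Prime], Loc H Γ d → CB0 H Γ p →
  (∀ x, ∃ e, LA Γ H F x e) → CondG F p → Hw H Γ d p

end Pool.Agent.Work.MP_6d7bb4.h65u
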